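import Pool.Agent.Work.MP_cfede9_lc.Base

set_option autoImplicit false
set_option linter.all false

/-!
# MP_cfede9_lc, module Ar1: pairing in nice models
-/

open FirstOrder

namespace TruthCF

variable {M : Type} [PAm M]

theorem lt_iff_succ_le (a b : M) : a < b ↔ a + 1 ≤ b :=
  ⟨PAm.discr a b, fun h => (lt_add_one a).trans_le h⟩

theorem exists_add_of_le' {a b : M} (h : a ≤ b) : ∃ c, b = a + c :=
  exists_add_of_le h

theorem le_pr_left (a b : M) : a ≤ pr a b :=
  le_add_self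

theorem le_pr_right (a b : M) : b ≤ pr a b := by
  unfold pr
  have h1 : b ≤ (a + b) * (a + b) := by
    rcases eq_or_ne b 0 with h | h
    · rw [h]
      exact zero_le
    · have hb : 1 ≤ b := by
        have : (0 : M) < b := pos_iff_ne_zero.2 h
        have := PAm.discr 0 b this
        rwa [zero_add] at this
      have h2 : b ≤ a + b := le_add_self
      calc b = 1 * b := (one_mul b).symm
        _ ≤ (a + b) * (a + b) := mul_le_mul' (hb.trans h2) h2
  exact h1.trans le_self_add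

/-- the square root is unique: `s * s ≤ e < (s+1) * (s+1)` determines `s` -/
theorem sqrt_unique {s t e : M} (h1 : s * s ≤ e) (h2 : e < (s + 1) * (s + 1)) (h3 : t * t ≤ e)
    (h4 : e < (t + 1) * (t + 1)) : s = t := by
  rcases lt_trichotomy s t with h | h | h
  · have h5 := PAm.discr s t h
    exact absurd (h2.trans_le (mul_le_mul' h5 h5)) (not_lt.2 h3)
  · exact h
  · have h5 := PAm.discr t s h
    exact absurd (h4.trans_le (mul_le_mul' h5 h5)) (not_lt.2 h1)

private theorem pr_sq1 (a b : M) : (a + b) * (a + b) ≤ pr a b := le_self_add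

private theorem pr_sq2 (a b : M) : pr a b < (a + b + 1) * (a + b + 1) := by
  unfold pr
  have h : (a + b + 1) * (a + b + 1) = (a + b) * (a + b) + (a + b + (a + b) + 1) := by ring
  rw [h]
  refine add_lt_add_of_le_of_lt le_rfl ?_
  have h1 : a ≤ a + b + (a + b) := (le_self_add (a := a) (b := b)).trans le_self_add
  exact h1.trans_lt (lt_add_one _)

theorem pr_inj {a b c d : M} (h : pr a b = pr c d) : a = c ∧ b = d := by
  have h1 : a + b = c + d :=
    sqrt_unique (pr_sq1 a b) (pr_sq2 a b) (h ▸ pr_sq1 c d) (h ▸ pr_sq2 c d)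
  have h2 : a = c := by
    unfold pr at h
    rw [h1] at h
    exact add_left_cancel h
  refine ⟨h2, ?_⟩
  rw [h2] at h1
  exact add_left_cancel h1

/-- an element is not a pair if and only if it lies strictly between `s^2+s` and `(s+1)^2` -/
theorem not_pr_iff (e : M) : (¬ ∃ a b, e = pr a b) ↔ ∃ s, s * s + s < e ∧ e < (s + 1) * (s + 1) := by
  constructor
  · intro h
    obtain ⟨s, h1, h2⟩ := PAm.sqrt_ex e
    refine ⟨s, ?_, h2⟩
    by_contra h3
    rw [not_lt] at h3
    obtain ⟨a, ha⟩ := exists_add_of_le h1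
    rw [ha] at h3
    have h4 : a ≤ s := le_of_add_le_add_left h3
    obtain ⟨b, hb⟩ := exists_add_of_le h4
    apply h
    refine ⟨a, b, ?_⟩
    unfold pr
    rw [← hb]
    exact ha
  · rintro ⟨s, h1, h2⟩ ⟨a, b, rfl⟩
    have h3 : s = a + b :=
      sqrt_unique (le_self_add.trans h1.le) h2 (pr_sq1 a b) (pr_sq2 a b)
    rw [h3] at h1
    unfold pr at h1
    have h4 : a + b < a := lt_of_add_lt_add_left h1
    exact absurd h4 (not_lt.2 le_self_add)

theorem hd_pr (a b : M) : hd (pr a b) = a := by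
  have h : ∃ a' b', pr a b = pr a' b' := ⟨a, b, rfl⟩
  unfold hd
  rw [dif_pos h]
  obtain ⟨b', hb'⟩ := h.choose_spec
  exact (pr_inj hb').1.symm

theorem tl_pr (a b : M) : tl (pr a b) = b := by
  have h : ∃ b' a', pr a b = pr a' b' := ⟨b, a, rfl⟩
  unfold tl
  rw [dif_pos h]
  obtain ⟨b', hb'⟩ := h.choose_spec
  exact (pr_inj hb').2.symm

private theorem pr_zero : pr (0 : M) 0 = 0 := by
  unfold pr
  simp

theorem hd_zero : hd (0 : M) = 0 := by
  have h := hd_pr (0 : M) 0
  rwa [pr_zero] at h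

theorem tl_zero : tl (0 : M) = 0 := by
  have h := tl_pr (0 : M) 0
  rwa [pr_zero] at h

theorem hd_eq_iff (e y : M) :
    hd e = y ↔ (∃ b, e = pr y b) ∨ (y = 0 ∧ ∃ s, s * s + s < e ∧ e < (s + 1) * (s + 1)) := by
  rw [← not_pr_iff]
  by_cases h : ∃ a b, e = pr a b
  · obtain ⟨a, b, rfl⟩ := h
    rw [hd_pr]
    constructor
    · rintro rfl
      exact Or.inl ⟨b, rfl⟩
    · rintro (⟨b', hb'⟩ | ⟨_, h⟩)
      · exact (pr_inj hb').1
      · exact absurd ⟨a, b, rfl⟩ h
  · have h0 : hd e = 0 := by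
      unfold hd
      rw [dif_neg h]
    rw [h0]
    constructor
    · rintro rfl
      exact Or.inr ⟨rfl, h⟩
    · rintro (⟨b', hb'⟩ | ⟨h1, _⟩)
      · exact absurd ⟨y, b', hb'⟩ h
      · exact h1.symm

theorem tl_eq_iff (e y : M) :
    tl e = y ↔ (∃ a, e = pr a y) ∨ (y = 0 ∧ ∃ s, s * s + s < e ∧ e < (s + 1) * (s + 1)) := by
  rw [← not_pr_iff]
  by_cases h : ∃ a b, e = pr a b
  · obtain ⟨a, b, rfl⟩ := h
    rw [tl_pr]
    constructor
    · rintro rfl
      exact Or.inl ⟨a, rfl⟩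
    · rintro (⟨b', hb'⟩ | ⟨_, h⟩)
      · exact (pr_inj hb').2
      · exact absurd ⟨a, b, rfl⟩ h
  · have h0 : tl e = 0 := by
      unfold tl
      rw [dif_neg (fun ⟨b, a, hab⟩ => h ⟨a, b, hab⟩)]
    rw [h0]
    constructor
    · rintro rfl
      exact Or.inr ⟨rfl, h⟩
    · rintro (⟨b', hb'⟩ | ⟨h1, _⟩)
      · exact absurd ⟨b', y, hb'⟩ h
      · exact h1.symm

theorem pr_cast (a b : ℕ) : pr (a : M) (b : M) = ((pr a b : ℕ) : M) := by
  unfold pr
  push_cast
  rfl

end TruthCF
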