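import Pool.Agent.Work.MP_cfede9_lc.TrD
import Pool.Agent.Work.MP_cfede9_lc.Ar1

set_option autoImplicit false
set_option linter.all false

/-!
# MP_cfede9_lc, module San1: the Goedel numbering is injective
-/

open FirstOrder

namespace TruthCF

private theorem npr_inj {a b c d : ℕ} (h : natOps.pr a b = natOps.pr c d) : a = c ∧ b = d :=
  pr_inj (M := ℕ) h

private theorem nnum (n : ℕ) : natOps.num n = n := by
  induction n with
  | zero => rfl
  | succ n ih => show natOps.num n + 1 = n + 1; rw [ih]

private theorem nnum_ne {m n : ℕ} (h : m ≠ n) : natOps.num m ≠ natOps.num n := by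
  rw [nnum, nnum]; exact h

private theorem tcode_inj {k : ℕ} (t : LA.Term (Empty ⊕ Fin k)) : ∀ s : LA.Term (Empty ⊕ Fin k),
    tcode natOps (fun e : Empty => e.elim) t = tcode natOps (fun e : Empty => e.elim) s → t = s := by
  induction t with
  | var a =>
    intro s h
    rcases a with a | a
    · exact a.elim
    rcases s with s | ⟨f, ts⟩
    · rcases s with s | s
      · exact s.elim
      have h1 := (Prod.ext_iff.1 h).2
      have h2 := (npr_inj h1).2
      rw [nnum, nnum] at h2
      have : a = s := by
        have := a.2; have := s.2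
        ext
        omega
      rw [this]
    · rename_i l
      exfalso
      change AFunc l at f
      cases f
      · exact nnum_ne (by decide) (npr_inj (Prod.ext_iff.1 h).2).1
      · exact absurd (Prod.ext_iff.1 h).1 (Nat.succ_ne_zero _).symm
      · exact nnum_ne (by decide) (npr_inj (Prod.ext_iff.1 h).2).1
      · exact nnum_ne (by decide) (npr_inj (Prod.ext_iff.1 h).2).1
  | @func l f ts ih =>
    intro s h
    change AFunc l at f
    rcases s with s | ⟨g, us⟩
    · rcases s with s | s
      · exact s.elim
      exfalso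
      cases f
      · exact nnum_ne (by decide) (npr_inj (Prod.ext_iff.1 h).2).1
      · exact absurd (Prod.ext_iff.1 h).1 (Nat.succ_ne_zero _)
      · exact nnum_ne (by decide) (npr_inj (Prod.ext_iff.1 h).2).1
      · exact nnum_ne (by decide) (npr_inj (Prod.ext_iff.1 h).2).1
    · rename_i l'
      change AFunc l' at g
      have key : ∀ a b c d : LA.Term (Empty ⊕ Fin k),
          natOps.pr (natOps.pr (tcode natOps (fun e : Empty => e.elim) a).1 (tcode natOps (fun e : Empty => e.elim) a).2)
            (natOps.pr (tcode natOps (fun e : Empty => e.elim) b).1 (tcode natOps (fun e : Empty => e.elim) b).2) =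
          natOps.pr (natOps.pr (tcode natOps (fun e : Empty => e.elim) c).1 (tcode natOps (fun e : Empty => e.elim) c).2)
            (natOps.pr (tcode natOps (fun e : Empty => e.elim) d).1 (tcode natOps (fun e : Empty => e.elim) d).2) →
          tcode natOps (fun e : Empty => e.elim) a = tcode natOps (fun e : Empty => e.elim) c ∧
          tcode natOps (fun e : Empty => e.elim) b = tcode natOps (fun e : Empty => e.elim) d := by
        intro a b c d h
        obtain ⟨h1, h2⟩ := npr_inj h
        exact ⟨Prod.ext (npr_inj h1).1 (npr_inj h1).2, Prod.ext (npr_inj h2).1 (npr_inj h2).2⟩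
      cases f <;> cases g
      · congr 1
        funext i; exact i.elim0
      · exact absurd (Prod.ext_iff.1 h).1 (Nat.succ_ne_zero _).symm
      · exact absurd (npr_inj (Prod.ext_iff.1 h).2).1 (nnum_ne (by decide))
      · exact absurd (npr_inj (Prod.ext_iff.1 h).2).1 (nnum_ne (by decide))
      · exact absurd (Prod.ext_iff.1 h).1 (Nat.succ_ne_zero _)
      · have h0 : ts 0 = us 0 := ih 0 _ (Prod.ext (Nat.succ_injective (Prod.ext_iff.1 h).1) (Prod.ext_iff.1 h).2)
        congr 1
        funext i
        have : i = 0 := Subsingleton.elim _ _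
        subst this
        exact h0
      · exact absurd (Prod.ext_iff.1 h).1 (Nat.succ_ne_zero _)
      · exact absurd (Prod.ext_iff.1 h).1 (Nat.succ_ne_zero _)
      · exact absurd (npr_inj (Prod.ext_iff.1 h).2).1 (nnum_ne (by decide))
      · exact absurd (Prod.ext_iff.1 h).1 (Nat.succ_ne_zero _).symm
      · have h1 := key _ _ _ _ (npr_inj (Prod.ext_iff.1 h).2).2
        have h0 : ts 0 = us 0 := ih 0 _ h1.1
        have h0' : ts 1 = us 1 := ih 1 _ h1.2
        congr 1
        funext i
        match i with
        | 0 => exact h0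
        | 1 => exact h0'
      · exact absurd (npr_inj (Prod.ext_iff.1 h).2).1 (nnum_ne (by decide))
      · exact absurd (npr_inj (Prod.ext_iff.1 h).2).1 (nnum_ne (by decide))
      · exact absurd (Prod.ext_iff.1 h).1 (Nat.succ_ne_zero _).symm
      · exact absurd (npr_inj (Prod.ext_iff.1 h).2).1 (nnum_ne (by decide))
      · have h1 := key _ _ _ _ (npr_inj (Prod.ext_iff.1 h).2).2
        have h0 : ts 0 = us 0 := ih 0 _ h1.1
        have h0' : ts 1 = us 1 := ih 1 _ h1.2
        congr 1
        funext i
        match i with
        | 0 => exact h0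
        | 1 => exact h0'

private theorem tc_inj {k : ℕ} {t s : LA.Term (Empty ⊕ Fin k)}
    (h : tc natOps (fun e : Empty => e.elim) t = tc natOps (fun e : Empty => e.elim) s) : t = s :=
  tcode_inj t s (Prod.ext (npr_inj h).1 (npr_inj h).2)

private theorem fcode_inj {k : ℕ} (φ : LA.BoundedFormula Empty k) : ∀ ψ : LA.BoundedFormula Empty k,
    fcode natOps (fun e : Empty => e.elim) φ = fcode natOps (fun e : Empty => e.elim) ψ → φ = ψ := by
  induction φ with
  | falsum =>
    intro ψ h
    rcases ψ with _ | ⟨t, s⟩ | ⟨r, ts⟩ | ⟨a, b⟩ | a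
    · rfl
    all_goals exact absurd (npr_inj h).1 (nnum_ne (by decide))
  | equal t s =>
    intro ψ h
    rcases ψ with _ | ⟨t', s'⟩ | ⟨r, ts⟩ | ⟨a, b⟩ | a
    · exact absurd (npr_inj h).1 (nnum_ne (by decide))
    · have h1 := npr_inj (npr_inj h).2
      rw [tc_inj h1.1, tc_inj h1.2]
    all_goals exact absurd (npr_inj h).1 (nnum_ne (by decide))
  | @rel k l r ts =>
    intro ψ h
    change ARel l at r
    rcases ψ with _ | ⟨t', s'⟩ | @⟨_, l', r', ts'⟩ | ⟨a, b⟩ | a
    · exact absurd (npr_inj h).1 (nnum_ne (by decide))
    · exact absurd (npr_inj h).1 (nnum_ne (by decide))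
    · change ARel l' at r'
      cases r
      cases r'
      have h1 := npr_inj (npr_inj h).2
      have h0 : ts 0 = ts' 0 := tc_inj h1.1
      have h0' : ts 1 = ts' 1 := tc_inj h1.2
      congr 1
      funext i
      match i with
      | 0 => exact h0
      | 1 => exact h0'
    all_goals exact absurd (npr_inj h).1 (nnum_ne (by decide))
  | imp φ ψ ih ih' =>
    intro χ h
    rcases χ with _ | ⟨t', s'⟩ | ⟨r, ts⟩ | ⟨a, b⟩ | a
    · exact absurd (npr_inj h).1 (nnum_ne (by decide))
    · exact absurd (npr_inj h).1 (nnum_ne (by decide))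
    · exact absurd (npr_inj h).1 (nnum_ne (by decide))
    · have h1 := npr_inj (npr_inj h).2
      rw [ih _ h1.1, ih' _ h1.2]
    · exact absurd (npr_inj h).1 (nnum_ne (by decide))
  | all φ ih =>
    intro χ h
    rcases χ with _ | ⟨t', s'⟩ | ⟨r, ts⟩ | ⟨a, b⟩ | a
    · exact absurd (npr_inj h).1 (nnum_ne (by decide))
    · exact absurd (npr_inj h).1 (nnum_ne (by decide))
    · exact absurd (npr_inj h).1 (nnum_ne (by decide))
    · exact absurd (npr_inj h).1 (nnum_ne (by decide))
    · rw [ih _ (npr_inj h).2]

/-- the Goedel numbering of arithmetical sentences is injective -/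
theorem gnum_injective : Function.Injective gnum := fun φ ψ h => fcode_inj φ ψ h

end TruthCF
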