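import Pool.Agent.Work.MP_cfede9_lc.NicD

set_option autoImplicit false
set_option linter.all false

/-!
# MP_cfede9_lc, module Nic2: nice models satisfy the raw axioms
-/

open FirstOrder

namespace TruthCF

/-- nice models satisfy the raw axioms -/
theorem rawAx_of_PAm (M : Type) [P : PAm M] : RawAx M := by
  have e0 : az M = (0 : M) := rfl
  have e1 : ∀ a : M, as a = a + 1 := fun _ => rfl
  have e2 : ∀ a b : M, ap a b = a + b := fun _ _ => rfl
  have e3 : ∀ a b : M, am a b = a * b := fun _ _ => rfl
  have e4 : ∀ a b : M, al a b ↔ a ≤ b := fun _ _ => Iff.rfl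
  refine ⟨⟨?_, ?_, ?_, ?_, ?_, ?_, ?_, ?_, ?_, ?_, ?_, ?_, ?_, ?_, ?_, ?_, ?_, ?_⟩, ?_, ?_⟩ <;>
    simp only [e0, e1, e2, e3, e4, zero_add, not_le]
  · intro a b c
    exact add_assoc a b c
  · intro a b
    exact add_comm a b
  · intro a
    exact add_zero a
  · intro a b c
    exact mul_assoc a b c
  · intro a b
    exact mul_comm a b
  · intro a
    exact mul_one a
  · intro a
    exact mul_zero a
  · intro a b c
    exact mul_add a b c
  · intro a
    trivial
  · intro a
    exact le_refl a
  · intro a b c
    exact le_trans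
  · intro a b
    exact le_antisymm
  · intro a b
    exact le_total a b
  · intro a b
    exact le_iff_exists_add
  · intro a b c h
    exact (add_lt_add_iff_right c).2 h
  · intro a b c hc h
    exact mul_lt_mul_of_pos_right h hc
  · exact zero_lt_one
  · intro a h
    have := PAm.discr 0 a h
    rwa [zero_add] at this
  · intro a d h
    exact PAm.div_ex a d h
  · intro a
    exact PAm.sqrt_ex a

end TruthCF
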