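import Pool.Agent.Work.MP_cfede9_lc.NicD

set_option autoImplicit false
set_option linter.all false

/-!
# MP_cfede9_lc, module Nic3: the raw axioms are expressed by one sentence
-/

open FirstOrder

namespace TruthCF

/-- definable relations, uniformly in the structure -/
private def Dn (n : ℕ) (P : ∀ (M : Type) [LA.Structure M], (Fin n → M) → Prop) : Prop :=
  ∃ φ : LA.BoundedFormula Empty n, ∀ (M : Type) [LA.Structure M] (xs : Fin n → M),
    φ.Realize (default : Empty → M) xs ↔ P M xs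

/-- terms -/
private def Tn (n : ℕ) (t : ∀ (M : Type) [LA.Structure M], (Fin n → M) → M) : Prop :=
  ∃ τ : LA.Term (Empty ⊕ Fin n), ∀ (M : Type) [LA.Structure M] (xs : Fin n → M),
    τ.realize (Sum.elim (default : Empty → M) xs) = t M xs

private theorem T_var {n : ℕ} (i : Fin n) : Tn n (fun M _ w => w i) :=
  ⟨Language.Term.var (Sum.inr i), fun M _ xs => rfl⟩

private theorem T_z {n : ℕ} : Tn n (fun M _ w => az M) := by
  refine ⟨Language.Term.func zeroF ![], fun M _ xs => ?_⟩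
  unfold az
  rw [Language.Term.realize_func]
  congr 1
  exact Subsingleton.elim _ _

private theorem T_s {n : ℕ} {t : ∀ (M : Type) [LA.Structure M], (Fin n → M) → M} (ht : Tn n t) :
    Tn n (fun M _ w => as (t M w)) := by
  obtain ⟨τ, h⟩ := ht
  refine ⟨Language.Term.func succF ![τ], fun M _ xs => ?_⟩
  unfold as
  rw [Language.Term.realize_func]
  congr 1
  funext i
  fin_cases i
  exact h M xs

private theorem T_p {n : ℕ} {t s : ∀ (M : Type) [LA.Structure M], (Fin n → M) → M} (ht : Tn n t)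
    (hs : Tn n s) : Tn n (fun M _ w => ap (t M w) (s M w)) := by
  obtain ⟨τ, h⟩ := ht
  obtain ⟨τ', h'⟩ := hs
  refine ⟨Language.Term.func addF ![τ, τ'], fun M _ xs => ?_⟩
  unfold ap
  rw [Language.Term.realize_func]
  congr 1
  funext i
  fin_cases i
  · exact h M xs
  · exact h' M xs

private theorem T_m {n : ℕ} {t s : ∀ (M : Type) [LA.Structure M], (Fin n → M) → M} (ht : Tn n t)
    (hs : Tn n s) : Tn n (fun M _ w => am (t M w) (s M w)) := by
  obtain ⟨τ, h⟩ := ht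
  obtain ⟨τ', h'⟩ := hs
  refine ⟨Language.Term.func mulF ![τ, τ'], fun M _ xs => ?_⟩
  unfold am
  rw [Language.Term.realize_func]
  congr 1
  funext i
  fin_cases i
  · exact h M xs
  · exact h' M xs

private theorem D_le {n : ℕ} {t s : ∀ (M : Type) [LA.Structure M], (Fin n → M) → M} (ht : Tn n t)
    (hs : Tn n s) : Dn n (fun M _ w => al (t M w) (s M w)) := by
  obtain ⟨τ, h⟩ := ht
  obtain ⟨τ', h'⟩ := hs
  refine ⟨Language.BoundedFormula.rel leR ![τ, τ'], fun M _ xs => ?_⟩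
  change Language.Structure.RelMap leR (fun i => ((![τ, τ'] : Fin 2 → LA.Term (Empty ⊕ Fin n)) i).realize
      (Sum.elim (default : Empty → M) xs)) ↔ Language.Structure.RelMap leR ![t M xs, s M xs]
  have e : (fun i => ((![τ, τ'] : Fin 2 → LA.Term (Empty ⊕ Fin n)) i).realize
      (Sum.elim (default : Empty → M) xs)) = ![t M xs, s M xs] := by
    funext i
    fin_cases i
    · exact h M xs
    · exact h' M xs
  rw [e]

private theorem D_eq {n : ℕ} {t s : ∀ (M : Type) [LA.Structure M], (Fin n → M) → M} (ht : Tn n t)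
    (hs : Tn n s) : Dn n (fun M _ w => t M w = s M w) := by
  obtain ⟨τ, h⟩ := ht
  obtain ⟨τ', h'⟩ := hs
  refine ⟨Language.BoundedFormula.equal τ τ', fun M _ xs => ?_⟩
  change (τ.realize (Sum.elim (default : Empty → M) xs) = τ'.realize (Sum.elim (default : Empty → M) xs)) ↔
    t M xs = s M xs
  rw [h M xs, h' M xs]

private theorem D_not {n : ℕ} {P : ∀ (M : Type) [LA.Structure M], (Fin n → M) → Prop} (hP : Dn n P) :
    Dn n (fun M _ w => ¬ P M w) := by
  obtain ⟨φ, h⟩ := hP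
  refine ⟨φ.not, fun M _ xs => ?_⟩
  rw [Language.BoundedFormula.realize_not, h M xs]

private theorem D_imp {n : ℕ} {P Q : ∀ (M : Type) [LA.Structure M], (Fin n → M) → Prop} (hP : Dn n P)
    (hQ : Dn n Q) : Dn n (fun M _ w => P M w → Q M w) := by
  obtain ⟨φ, h⟩ := hP
  obtain ⟨ψ, h'⟩ := hQ
  refine ⟨φ.imp ψ, fun M _ xs => ?_⟩
  rw [Language.BoundedFormula.realize_imp, h M xs, h' M xs]

private theorem D_and {n : ℕ} {P Q : ∀ (M : Type) [LA.Structure M], (Fin n → M) → Prop} (hP : Dn n P)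
    (hQ : Dn n Q) : Dn n (fun M _ w => P M w ∧ Q M w) := by
  obtain ⟨φ, h⟩ := hP
  obtain ⟨ψ, h'⟩ := hQ
  refine ⟨φ ⊓ ψ, fun M _ xs => ?_⟩
  rw [Language.BoundedFormula.realize_inf, h M xs, h' M xs]

private theorem D_or {n : ℕ} {P Q : ∀ (M : Type) [LA.Structure M], (Fin n → M) → Prop} (hP : Dn n P)
    (hQ : Dn n Q) : Dn n (fun M _ w => P M w ∨ Q M w) := by
  obtain ⟨φ, h⟩ := hP
  obtain ⟨ψ, h'⟩ := hQ
  refine ⟨φ ⊔ ψ, fun M _ xs => ?_⟩
  rw [Language.BoundedFormula.realize_sup, h M xs, h' M xs]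

private theorem D_iff {n : ℕ} {P Q : ∀ (M : Type) [LA.Structure M], (Fin n → M) → Prop} (hP : Dn n P)
    (hQ : Dn n Q) : Dn n (fun M _ w => (P M w ↔ Q M w)) := by
  obtain ⟨φ, h⟩ := hP
  obtain ⟨ψ, h'⟩ := hQ
  refine ⟨φ.iff ψ, fun M _ xs => ?_⟩
  rw [Language.BoundedFormula.realize_iff, h M xs, h' M xs]

private theorem D_all {n : ℕ} {P : ∀ (M : Type) [LA.Structure M], (Fin n → M) → M → Prop}
    (hP : Dn (n + 1) (fun M _ w => P M (fun i => w (Fin.castSucc i)) (w (Fin.last n)))) :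
    Dn n (fun M _ w => ∀ a, P M w a) := by
  obtain ⟨φ, h⟩ := hP
  refine ⟨φ.all, fun M _ xs => ?_⟩
  rw [Language.BoundedFormula.realize_all]
  refine forall_congr' fun a => ?_
  rw [h M (Fin.snoc xs a)]
  simp only [Fin.snoc_castSucc, Fin.snoc_last]

private theorem D_ex {n : ℕ} {P : ∀ (M : Type) [LA.Structure M], (Fin n → M) → M → Prop}
    (hP : Dn (n + 1) (fun M _ w => P M (fun i => w (Fin.castSucc i)) (w (Fin.last n)))) :
    Dn n (fun M _ w => ∃ a, P M w a) := by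
  obtain ⟨φ, h⟩ := hP
  refine ⟨φ.ex, fun M _ xs => ?_⟩
  rw [Language.BoundedFormula.realize_ex]
  refine exists_congr fun a => ?_
  rw [h M (Fin.snoc xs a)]
  simp only [Fin.snoc_castSucc, Fin.snoc_last]

/-- the raw axioms are expressed by one sentence -/
theorem rawAx_sentence : ∃ σ : LA.Sentence, ∀ (M : Type) [LA.Structure M] [Nonempty M], M ⊨ σ ↔ RawAx M := by
  have h1 : Dn 0 (fun M _ _ => ∀ a b c : M, ap (ap a b) c = ap a (ap b c)) :=
    D_all (D_all (D_all (D_eq (T_p (T_p (T_var _) (T_var _)) (T_var _))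
      (T_p (T_var _) (T_p (T_var _) (T_var _))))))
  have h2 : Dn 0 (fun M _ _ => ∀ a b : M, ap a b = ap b a) :=
    D_all (D_all (D_eq (T_p (T_var _) (T_var _)) (T_p (T_var _) (T_var _))))
  have h3 : Dn 0 (fun M _ _ => ∀ a : M, ap a (az M) = a) :=
    D_all (D_eq (T_p (T_var _) T_z) (T_var _))
  have h4 : Dn 0 (fun M _ _ => ∀ a b c : M, am (am a b) c = am a (am b c)) :=
    D_all (D_all (D_all (D_eq (T_m (T_m (T_var _) (T_var _)) (T_var _))
      (T_m (T_var _) (T_m (T_var _) (T_var _))))))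
  have h5 : Dn 0 (fun M _ _ => ∀ a b : M, am a b = am b a) :=
    D_all (D_all (D_eq (T_m (T_var _) (T_var _)) (T_m (T_var _) (T_var _))))
  have h6 : Dn 0 (fun M _ _ => ∀ a : M, am a (as (az M)) = a) :=
    D_all (D_eq (T_m (T_var _) (T_s T_z)) (T_var _))
  have h7 : Dn 0 (fun M _ _ => ∀ a : M, am a (az M) = az M) :=
    D_all (D_eq (T_m (T_var _) T_z) T_z)
  have h8 : Dn 0 (fun M _ _ => ∀ a b c : M, am a (ap b c) = ap (am a b) (am a c)) :=
    D_all (D_all (D_all (D_eq (T_m (T_var _) (T_p (T_var _) (T_var _)))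
      (T_p (T_m (T_var _) (T_var _)) (T_m (T_var _) (T_var _))))))
  have h9 : Dn 0 (fun M _ _ => ∀ a : M, as a = ap a (as (az M))) :=
    D_all (D_eq (T_s (T_var _)) (T_p (T_var _) (T_s T_z)))
  have h10 : Dn 0 (fun M _ _ => ∀ a : M, al a a) := D_all (D_le (T_var _) (T_var _))
  have h11 : Dn 0 (fun M _ _ => ∀ a b c : M, al a b → al b c → al a c) :=
    D_all (D_all (D_all (D_imp (D_le (T_var _) (T_var _)) (D_imp (D_le (T_var _) (T_var _))
      (D_le (T_var _) (T_var _))))))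
  have h12 : Dn 0 (fun M _ _ => ∀ a b : M, al a b → al b a → a = b) :=
    D_all (D_all (D_imp (D_le (T_var _) (T_var _)) (D_imp (D_le (T_var _) (T_var _))
      (D_eq (T_var _) (T_var _)))))
  have h13 : Dn 0 (fun M _ _ => ∀ a b : M, al a b ∨ al b a) :=
    D_all (D_all (D_or (D_le (T_var _) (T_var _)) (D_le (T_var _) (T_var _))))
  have h14 : Dn 0 (fun M _ _ => ∀ a b : M, al a b ↔ ∃ c, b = ap a c) :=
    D_all (D_all (D_iff (D_le (T_var _) (T_var _))
      (D_ex (D_eq (T_var _) (T_p (T_var _) (T_var _))))))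
  have h15 : Dn 0 (fun M _ _ => ∀ a b c : M, ¬ al b a → ¬ al (ap b c) (ap a c)) :=
    D_all (D_all (D_all (D_imp (D_not (D_le (T_var _) (T_var _)))
      (D_not (D_le (T_p (T_var _) (T_var _)) (T_p (T_var _) (T_var _)))))))
  have h16 : Dn 0 (fun M _ _ => ∀ a b c : M, ¬ al c (az M) → ¬ al b a → ¬ al (am b c) (am a c)) :=
    D_all (D_all (D_all (D_imp (D_not (D_le (T_var _) T_z)) (D_imp (D_not (D_le (T_var _) (T_var _)))
      (D_not (D_le (T_m (T_var _) (T_var _)) (T_m (T_var _) (T_var _))))))))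
  have h17 : Dn 0 (fun M _ _ => ¬ al (as (az M)) (az M)) := D_not (D_le (T_s T_z) T_z)
  have h18 : Dn 0 (fun M _ _ => ∀ a : M, ¬ al a (az M) → al (as (az M)) a) :=
    D_all (D_imp (D_not (D_le (T_var _) T_z)) (D_le (T_s T_z) (T_var _)))
  have h19 : Dn 0 (fun M _ _ => ∀ a d : M, ¬ al d (az M) → ∃ q r, a = ap (am q d) r ∧ ¬ al d r) :=
    D_all (D_all (D_imp (D_not (D_le (T_var _) T_z)) (D_ex (D_ex (D_and
      (D_eq (T_var _) (T_p (T_m (T_var _) (T_var _)) (T_var _)))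
      (D_not (D_le (T_var _) (T_var _))))))))
  have h20 : Dn 0 (fun M _ _ => ∀ a : M, ∃ s, al (am s s) a ∧ ¬ al (am (as s) (as s)) a) :=
    D_all (D_ex (D_and (D_le (T_m (T_var _) (T_var _)) (T_var _))
      (D_not (D_le (T_m (T_s (T_var _)) (T_s (T_var _))) (T_var _)))))
  obtain ⟨σ, hσ⟩ := D_and h1 (D_and h2 (D_and h3 (D_and h4 (D_and h5 (D_and h6 (D_and h7 (D_and h8
    (D_and h9 (D_and h10 (D_and h11 (D_and h12 (D_and h13 (D_and h14 (D_and h15 (D_and h16
    (D_and h17 (D_and h18 (D_and h19 h20))))))))))))))))))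
  refine ⟨σ, fun M _ _ => ?_⟩
  have h := hσ M (default : Fin 0 → M)
  refine h.trans ⟨?_, fun h => ?_⟩
  · rintro ⟨a1, a2, a3, a4, a5, a6, a7, a8, a9, a10, a11, a12, a13, a14, a15, a16, a17, a18, a19,
      a20⟩
    exact ⟨⟨a1, a2, a3, a4, a5, a6, a7, a8, a9, a10, a11, a12, a13, a14, a15, a16, a17, a18⟩,
      a19, a20⟩
  · exact ⟨h.pa.add_assoc, h.pa.add_comm, h.pa.add_zero, h.pa.mul_assoc, h.pa.mul_comm,
      h.pa.mul_one, h.pa.mul_zero, h.pa.distrib, h.pa.succ_eq, h.pa.le_refl, h.pa.le_trans,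
      h.pa.le_antisymm, h.pa.le_total, h.pa.le_iff, h.pa.add_lt, h.pa.mul_lt, h.pa.zero_lt_one,
      h.pa.discr, h.div_ex, h.sqrt_ex⟩

end TruthCF
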