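import Pool.Agent.Work.MP_cfede9_lc.Nic1
import Pool.Agent.Work.MP_cfede9_lc.Nic2
import Pool.Agent.Work.MP_cfede9_lc.Nic3

set_option autoImplicit false
set_option linter.all false

/-!
# MP_cfede9_lc, module Nic4: structures for the sum language with nice arithmetical part
-/

open FirstOrder

namespace TruthCF

private theorem nic4_str_ext {L : FirstOrder.Language.{0, 0}} {M : Type} (S T : L.Structure M)
    (hf : ∀ (n : ℕ) (f : L.Functions n) (v : Fin n → M),
      @Language.Structure.funMap L M S n f v = @Language.Structure.funMap L M T n f v)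
    (hr : ∀ (n : ℕ) (r : L.Relations n) (v : Fin n → M),
      @Language.Structure.RelMap L M S n r v ↔ @Language.Structure.RelMap L M T n r v) : S = T := by
  cases S
  cases T
  congr
  · funext n f v
    exact hf n f v
  · funext n r v
    exact propext (hr n r v)

/-- a structure for the sum language whose arithmetical part satisfies the raw axioms comes from a nice model -/
theorem split_nice (L' : FirstOrder.Language.{0, 0}) (M : Type) (S : (LA.sum L').Structure M)
    (h : @RawAx M ((Language.LHom.sumInl : LA →ᴸ LA.sum L').reduct M)) :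
    ∃ (P : PAm M) (Q : L'.Structure M), @Language.sumStructure LA L' M (@instLAStr M P) Q = S := by
  obtain ⟨P, hP⟩ := @RawAx.toPAm M ((Language.LHom.sumInl : LA →ᴸ LA.sum L').reduct M) h
  refine ⟨P, (Language.LHom.sumInr : L' →ᴸ LA.sum L').reduct M, ?_⟩
  rw [hP]
  apply nic4_str_ext
  · intro n f v
    rcases f with f | f
    · rfl
    · rfl
  · intro n r v
    rcases r with r | r
    · rfl
    · rfl

/-- the arithmetical part of a structure given by a nice model is this nice model -/
theorem rawAx_reduct (L' : FirstOrder.Language.{0, 0}) (M : Type) [PAm M] [L'.Structure M] :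
    @RawAx M ((Language.LHom.sumInl : LA →ᴸ LA.sum L').reduct M) :=
  rawAx_of_PAm M

/-- a model elementarily equivalent to a nice one is nice -/
theorem nice_of_elem (L' : FirstOrder.Language.{0, 0}) {M N : Type} [PAm M] [L'.Structure M]
    (S : (LA.sum L').Structure N) [Nonempty N]
    (h : ∀ σ : (LA.sum L').Sentence, M ⊨ σ → N ⊨ σ) :
    ∃ (P : PAm N) (Q : L'.Structure N), @Language.sumStructure LA L' N (@instLAStr N P) Q = S := by
  obtain ⟨σ, hσ⟩ := rawAx_sentence
  apply split_nice
  haveI : Nonempty M := ⟨0⟩
  have h1 : M ⊨ σ := (hσ M).2 (rawAx_of_PAm M)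
  have h2 : M ⊨ (Language.LHom.sumInl : LA →ᴸ LA.sum L').onSentence σ :=
    ((Language.LHom.sumInl : LA →ᴸ LA.sum L').realize_onSentence M σ).2 h1
  have h3 := h _ h2
  letI : LA.Structure N := (Language.LHom.sumInl : LA →ᴸ LA.sum L').reduct N
  haveI : (Language.LHom.sumInl : LA →ᴸ LA.sum L').IsExpansionOn N := by
    exact Language.LHom.isExpansionOn_reduct _ N
  have h4 : N ⊨ σ := ((Language.LHom.sumInl : LA →ᴸ LA.sum L').realize_onSentence N σ).1 h3
  exact (hσ N).1 h4

end TruthCF
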