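import Pool.Agent.Work.MP_cfede9_lc.Fin1c
import Pool.Agent.Work.MP_cfede9_lc.Nic4

set_option autoImplicit false
set_option linter.all false

/-!
# MP_cfede9_lc, module Fin2e: models of theories containing EA are nice
-/

open FirstOrder

namespace TruthCF

variable {L' : FirstOrder.Language.{0, 0}}

/-- every model of a theory containing EA comes from a nice model -/
theorem nice_of_ea (T : (LA.sum L').Theory) (h : ContainsEA T) (M : Type) (S : (LA.sum L').Structure M)
    (hne : Nonempty M) (hM : M ⊨ T) :
    ∃ (P : PAm M) (Q : L'.Structure M), @Language.sumStructure LA L' M (@instLAStr M P) Q = S :=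
  split_nice L' M S (@ea_raw M ((inA L').reduct M) (h M S hne hM))

end TruthCF
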