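import Pool.Agent.Work.MP_cfede9_lc.Fin2c

set_option autoImplicit false
set_option linter.all false

/-!
# MP_cfede9_lc, module San2: for a standard number `n` the term `dotq φ` has the value `gnum (φ(n))`
-/

open FirstOrder

namespace TruthCF

private theorem tcode_num (n : ℕ) {k : ℕ} (g : Empty → Empty ⊕ Fin k) :
    tcode natOps (fun e : Empty => e.elim) (((termOps Empty).num n).relabel g : LA.Term (Empty ⊕ Fin k)) =
      (n, natOps.pr (natOps.num 0) (natOps.num 0)) := by
  induction n with
  | zero => rfl
  | succ n ih =>
    show ((tcode natOps (fun e : Empty => e.elim) (((termOps Empty).num n).relabel g)).1 + 1,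
      (tcode natOps (fun e : Empty => e.elim) (((termOps Empty).num n).relabel g)).2) = _
    rw [ih]

private theorem tcode_subst (n : ℕ) {k : ℕ} (t : LA.Term (Fin 1 ⊕ Fin k)) :
    tcode natOps (fun e : Empty => e.elim)
      (t.subst (Sum.elim (Language.Term.relabel Sum.inl ∘ fun _ => (termOps Empty).num n) (Language.Term.var ∘ Sum.inr))) =
      tcode natOps (fun _ => n) t := by
  induction t with
  | var a =>
    rcases a with a | a
    · exact tcode_num n _
    · rfl
  | func f ts ih =>
    show tstep natOps f (fun i => tcode natOps (fun e : Empty => e.elim) ((ts i).subst _)) = tstep natOps f _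
    congr 1
    funext i
    exact ih i

private theorem fcode_subst (n : ℕ) {k : ℕ} (φ : LA.BoundedFormula (Fin 1) k) :
    fcode natOps (fun e : Empty => e.elim) (φ.subst (fun _ => (termOps Empty).num n)) = fcode natOps (fun _ => n) φ := by
  have ht : ∀ {k : ℕ} (t : LA.Term (Fin 1 ⊕ Fin k)), tc natOps (fun e : Empty => e.elim)
      (t.subst (Sum.elim (Language.Term.relabel Sum.inl ∘ fun _ => (termOps Empty).num n) (Language.Term.var ∘ Sum.inr))) =
      tc natOps (fun _ => n) t := fun t => by
    rw [tc, tc, tcode_subst]
  induction φ with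
  | falsum => rfl
  | equal t s =>
    show natOps.pr _ (natOps.pr (tc natOps _ _) (tc natOps _ _)) = natOps.pr _ (natOps.pr _ _)
    rw [ht, ht]
  | rel r ts =>
    show natOps.pr _ (rstep natOps r (fun i => tc natOps _ _)) = natOps.pr _ (rstep natOps r _)
    congr 2
    funext i
    exact ht _
  | imp φ ψ ih ih' =>
    show natOps.pr _ (natOps.pr (fcode natOps _ (φ.subst _)) (fcode natOps _ (ψ.subst _))) = natOps.pr _ (natOps.pr _ _)
    rw [ih, ih']
  | all φ ih =>
    show natOps.pr _ (fcode natOps _ (φ.subst _)) = natOps.pr _ _
    rw [ih]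

/-- for a standard number `n` the value of the term `dotq φ` is the Goedel number of the sentence `φ(n)` -/
theorem dotq_std (φ : LA.Formula (Fin 1)) (n : ℕ) :
    (dotq φ).realize (M := ℕ) (fun _ => n) =
      gnum (Language.BoundedFormula.subst φ (fun _ => (termOps Empty).num n)) := by
  rw [realize_dotq]
  exact (fcode_subst n φ).symm

end TruthCF
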