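import Pool.Agent.Work.MP_cfede9_lc.Base

set_option autoImplicit false
set_option linter.all false

/-!
# MP_cfede9_lc, module Ar2: remainders, the beta function, standard elements
-/

open FirstOrder

namespace TruthCF

variable {M : Type} [PAm M]

private theorem rem_aux {a d q r q' r' : M} (h : a = q * d + r) (hr : r < d)
    (h' : a = q' * d + r') : ¬ q < q' := by
  intro hq
  have h1 : q + 1 ≤ q' := PAm.discr q q' hq
  have h2 : (q + 1) * d ≤ q' * d := mul_le_mul_left h1 d
  have h3 : q * d + r < q * d + d := by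
    have := add_lt_add_right hr (q * d)
    exact this
  have h4 : q' * d ≤ a := by
    rw [h']
    exact le_self_add
  have h5 : a < a := by
    calc a = q * d + r := h
      _ < q * d + d := h3
      _ = (q + 1) * d := by ring
      _ ≤ q' * d := h2
      _ ≤ a := h4
  exact lt_irrefl _ h5

private theorem rem_uniq {a d q r q' r' : M} (h : a = q * d + r) (hr : r < d)
    (h' : a = q' * d + r') (hr' : r' < d) : r = r' := by
  have h1 : q = q' := le_antisymm (not_lt.1 (rem_aux h' hr' h)) (not_lt.1 (rem_aux h hr h'))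
  subst h1
  have h2 : q * d + r = q * d + r' := h.symm.trans h'
  exact add_left_cancel h2

theorem rm_spec (a : M) {d : M} (hd : 0 < d) : ∃ q, a = q * d + rm a d ∧ rm a d < d := by
  have h : ∃ r q, a = q * d + r ∧ r < d := by
    obtain ⟨q, r, h⟩ := PAm.div_ex a d hd
    exact ⟨r, q, h⟩
  unfold rm
  rw [dif_pos h]
  exact h.choose_spec

/-- uniqueness of the remainder -/
theorem rm_eq {a d q r : M} (h : a = q * d + r) (hr : r < d) : rm a d = r := by
  have hd : 0 < d := lt_of_le_of_lt zero_le hr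
  obtain ⟨q', h1, h2⟩ := rm_spec a hd
  exact rem_uniq h1 h2 h hr

theorem rm_eq_iff {a d r : M} (hd : 0 < d) : rm a d = r ↔ ∃ q, a = q * d + r ∧ r < d := by
  constructor
  · rintro rfl
    exact rm_spec a hd
  · rintro ⟨q, h1, h2⟩
    exact rm_eq h1 h2

theorem bt_eq_iff (p q i r : M) :
    bt p q i = r ↔ ∃ k, p = k * (1 + (i + 1) * q) + r ∧ r < 1 + (i + 1) * q :=
  rm_eq_iff (lt_of_lt_of_le zero_lt_one le_self_add)

theorem cast_le_iff (a b : ℕ) : (a : M) ≤ (b : M) ↔ a ≤ b := Nat.cast_le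

theorem cast_inj_iff (a b : ℕ) : (a : M) = (b : M) ↔ a = b := Nat.cast_inj

/-- an element below a standard one is standard -/
theorem std_of_le {a : M} {n : ℕ} (h : a ≤ (n : M)) : ∃ k : ℕ, k ≤ n ∧ a = (k : M) := by
  induction n with
  | zero =>
    refine ⟨0, le_rfl, ?_⟩
    rw [Nat.cast_zero] at h ⊢
    exact le_antisymm h zero_le
  | succ n ih =>
    rcases le_or_gt a (n : M) with h1 | h1
    · obtain ⟨k, hk, rfl⟩ := ih h1
      exact ⟨k, hk.trans (Nat.le_succ n), rfl⟩
    · refine ⟨n + 1, le_rfl, le_antisymm h ?_⟩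
      rw [Nat.cast_add, Nat.cast_one]
      exact PAm.discr _ _ h1

theorem std_of_lt {a : M} {n : ℕ} (h : a < (n : M)) : ∃ k : ℕ, k < n ∧ a = (k : M) := by
  obtain ⟨k, hk, rfl⟩ := std_of_le h.le
  exact ⟨k, Nat.cast_lt.1 h, rfl⟩

theorem bt_cast (p q i : ℕ) : bt (p : M) (q : M) (i : M) = ((bt p q i : ℕ) : M) := by
  obtain ⟨k, h1, h2⟩ := (bt_eq_iff p q i (bt p q i)).1 rfl
  rw [bt_eq_iff]
  refine ⟨(k : M), ?_, ?_⟩
  · have h3 := congrArg (Nat.cast : ℕ → M) h1
    push_cast at h3
    exact h3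
  · have h3 : ((bt p q i : ℕ) : M) < ((1 + (i + 1) * q : ℕ) : M) := Nat.cast_lt.2 h2
    push_cast at h3
    exact h3

end TruthCF
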