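import Pool.Agent.Work.MP_cfede9_lc.TrD
import Pool.Agent.Work.MP_cfede9_lc.Ar1
import Pool.Agent.Work.MP_cfede9_lc.Ar2

set_option autoImplicit false
set_option linter.all false

/-!
# MP_cfede9_lc, module Tr1b: context free form and original form have the same code and meaning
-/

open FirstOrder

namespace TruthCF

theorem mOps_num (M : Type) [PAm M] (n : ℕ) : (mOps M).num n = (n : M) := by
  induction n with
  | zero => exact Nat.cast_zero.symm
  | succ n ih =>
    have h : (mOps M).num (n + 1) = (mOps M).num n + 1 := rfl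
    rw [h, ih, Nat.cast_succ]

theorem mOps_pr {M : Type} [PAm M] (a b : M) : (mOps M).pr a b = pr a b := rfl

variable {M : Type} [PAm M]

/-- number of signs `S` in front -/
private def cfst (x : M) : CT → M
  | .c k b => (if b then x else 0) + (k : M)
  | .v k _ => (k : M)
  | .a k _ _ => (k : M)
  | .m k _ _ => (k : M)

/-- code of the rest -/
private def csnd (x : M) : CT → M
  | .c _ _ => pr 0 0
  | .v _ j => pr 1 (j : M)
  | .a _ s t => pr ((2 : ℕ) : M) (pr (s.code x) (t.code x))
  | .m _ s t => pr ((3 : ℕ) : M) (pr (s.code x) (t.code x))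

private theorem code_eq (x : M) (c : CT) : c.code x = pr (cfst x c) (csnd x c) := by
  cases c <;> rfl

private theorem cfst_succ (x : M) (c : CT) : cfst x c.succ = cfst x c + 1 := by
  cases c <;> simp [CT.succ, cfst, add_assoc]

private theorem csnd_succ (x : M) (c : CT) : csnd x c.succ = csnd x c := by
  cases c <;> rfl

private theorem val_succ (x e : M) (c : CT) : c.succ.val x e = c.val x e + 1 := by
  cases c <;> simp [CT.succ, CT.val, add_assoc]

private theorem tcode_spec (x : M) {n : ℕ} (t : LA.Term (Fin 1 ⊕ Fin n)) :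
    cfst x (toCT t) = (tcode (mOps M) (fun _ => x) t).1 ∧
      csnd x (toCT t) = (tcode (mOps M) (fun _ => x) t).2 := by
  induction t with
  | var a =>
    rcases a with b | i
    · refine ⟨?_, rfl⟩
      show x + ((0 : ℕ) : M) = x
      rw [Nat.cast_zero, add_zero]
    · refine ⟨?_, ?_⟩
      · show ((0 : ℕ) : M) = 0
        exact Nat.cast_zero
      · show pr 1 ((n - 1 - (i : ℕ) : ℕ) : M) =
          pr ((mOps M).num 1) ((mOps M).num (n - 1 - (i : ℕ)))
        rw [mOps_num, mOps_num, Nat.cast_one]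
  | func f ts ih =>
    match f, ts, ih with
    | AFunc.zero, ts, ih =>
      refine ⟨?_, rfl⟩
      show (0 : M) + ((0 : ℕ) : M) = 0
      rw [Nat.cast_zero, add_zero]
    | AFunc.succ, ts, ih =>
      refine ⟨?_, ?_⟩
      · show cfst x (toCT (ts 0)).succ = (tcode (mOps M) (fun _ => x) (ts 0)).1 + 1
        rw [cfst_succ, (ih 0).1]
      · show csnd x (toCT (ts 0)).succ = (tcode (mOps M) (fun _ => x) (ts 0)).2
        rw [csnd_succ, (ih 0).2]
    | AFunc.add, ts, ih =>
      refine ⟨?_, ?_⟩
      · show ((0 : ℕ) : M) = 0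
        exact Nat.cast_zero
      · show pr ((2 : ℕ) : M) (pr ((toCT (ts 0)).code x) ((toCT (ts 1)).code x)) =
          pr ((mOps M).num 2) (pr (pr (tcode (mOps M) (fun _ => x) (ts 0)).1
            (tcode (mOps M) (fun _ => x) (ts 0)).2) (pr (tcode (mOps M) (fun _ => x) (ts 1)).1
            (tcode (mOps M) (fun _ => x) (ts 1)).2))
        rw [mOps_num, code_eq, code_eq, (ih 0).1, (ih 0).2, (ih 1).1, (ih 1).2]
    | AFunc.mul, ts, ih =>
      refine ⟨?_, ?_⟩
      · show ((0 : ℕ) : M) = 0
        exact Nat.cast_zero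
      · show pr ((3 : ℕ) : M) (pr ((toCT (ts 0)).code x) ((toCT (ts 1)).code x)) =
          pr ((mOps M).num 3) (pr (pr (tcode (mOps M) (fun _ => x) (ts 0)).1
            (tcode (mOps M) (fun _ => x) (ts 0)).2) (pr (tcode (mOps M) (fun _ => x) (ts 1)).1
            (tcode (mOps M) (fun _ => x) (ts 1)).2))
        rw [mOps_num, code_eq, code_eq, (ih 0).1, (ih 0).2, (ih 1).1, (ih 1).2]

theorem code_toCT (x : M) {n : ℕ} (t : LA.Term (Fin 1 ⊕ Fin n)) : (toCT t).code x = tc (mOps M) (fun _ => x) t := by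
  rw [code_eq, (tcode_spec x t).1, (tcode_spec x t).2]
  rfl

private theorem val_iter : ∀ (n : ℕ) (e : M) (i : Fin n), val n e i = hd (tl^[n - 1 - (i : ℕ)] e) := by
  intro n
  induction n with
  | zero => exact fun e i => i.elim0
  | succ n ih =>
    intro e i
    refine Fin.lastCases ?_ (fun j => ?_) i
    · have h : n + 1 - 1 - ((Fin.last n : Fin (n + 1)) : ℕ) = 0 := by simp
      rw [h]
      show Fin.snoc (α := fun _ => M) (val n (tl e)) (hd e) (Fin.last n) = hd e
      rw [Fin.snoc_last]
    · have h : n + 1 - 1 - ((j.castSucc : Fin (n + 1)) : ℕ) = (n - 1 - (j : ℕ)) + 1 := by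
        have := j.isLt
        rw [Fin.val_castSucc]
        omega
      rw [h, Function.iterate_succ_apply]
      show Fin.snoc (α := fun _ => M) (val n (tl e)) (hd e) (Fin.castSucc j) = _
      rw [Fin.snoc_castSucc]
      exact ih (tl e) j

theorem val_toCT (x e : M) {n : ℕ} (t : LA.Term (Fin 1 ⊕ Fin n)) :
    (toCT t).val x e = t.realize (Sum.elim (fun _ => x) (val n e)) := by
  induction t with
  | var a =>
    rcases a with b | i
    · show x + ((0 : ℕ) : M) = x
      rw [Nat.cast_zero, add_zero]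
    · show hd (tl^[n - 1 - (i : ℕ)] e) + ((0 : ℕ) : M) = val n e i
      rw [Nat.cast_zero, add_zero, val_iter]
  | func f ts ih =>
    match f, ts, ih with
    | AFunc.zero, ts, ih =>
      show (0 : M) + ((0 : ℕ) : M) = 0
      rw [Nat.cast_zero, add_zero]
    | AFunc.succ, ts, ih =>
      show (toCT (ts 0)).succ.val x e = (ts 0).realize (Sum.elim (fun _ => x) (val n e)) + 1
      rw [val_succ, ih 0]
    | AFunc.add, ts, ih =>
      show (toCT (ts 0)).val x e + (toCT (ts 1)).val x e + ((0 : ℕ) : M) =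
        (ts 0).realize (Sum.elim (fun _ => x) (val n e)) + (ts 1).realize (Sum.elim (fun _ => x) (val n e))
      rw [Nat.cast_zero, add_zero, ih 0, ih 1]
    | AFunc.mul, ts, ih =>
      show (toCT (ts 0)).val x e * (toCT (ts 1)).val x e + ((0 : ℕ) : M) =
        (ts 0).realize (Sum.elim (fun _ => x) (val n e)) * (ts 1).realize (Sum.elim (fun _ => x) (val n e))
      rw [Nat.cast_zero, add_zero, ih 0, ih 1]

theorem code_toCF (x : M) {n : ℕ} (φ : LA.BoundedFormula (Fin 1) n) :
    (toCF φ).code x = fcode (mOps M) (fun _ => x) φ := by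
  induction φ with
  | falsum =>
    show pr ((4 : ℕ) : M) 0 = pr ((mOps M).num 4) ((mOps M).num 0)
    rw [mOps_num, mOps_num, Nat.cast_zero]
  | equal t s =>
    show pr ((5 : ℕ) : M) (pr ((toCT t).code x) ((toCT s).code x)) =
      pr ((mOps M).num 5) (pr (tc (mOps M) (fun _ => x) t) (tc (mOps M) (fun _ => x) s))
    rw [mOps_num, code_toCT, code_toCT]
  | rel r ts =>
    match r, ts with
    | ARel.le, ts =>
      show pr ((6 : ℕ) : M) (pr ((toCT (ts 0)).code x) ((toCT (ts 1)).code x)) =
        pr ((mOps M).num 6) (pr (tc (mOps M) (fun _ => x) (ts 0)) (tc (mOps M) (fun _ => x) (ts 1)))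
      rw [mOps_num, code_toCT, code_toCT]
  | imp f g ihf ihg =>
    show pr ((7 : ℕ) : M) (pr ((toCF f).code x) ((toCF g).code x)) =
      pr ((mOps M).num 7) (pr (fcode (mOps M) (fun _ => x) f) (fcode (mOps M) (fun _ => x) g))
    rw [mOps_num, ihf, ihg]
  | all f ih =>
    show pr ((8 : ℕ) : M) ((toCF f).code x) = pr ((mOps M).num 8) (fcode (mOps M) (fun _ => x) f)
    rw [mOps_num, ih]

theorem sem_toCF (x : M) {n : ℕ} (φ : LA.BoundedFormula (Fin 1) n) (e : M) :
    CF.sem x e (toCF φ) ↔ φ.Realize (fun _ => x) (val n e) := by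
  induction φ generalizing e with
  | falsum => exact Iff.rfl
  | equal t s =>
    show (toCT t).val x e = (toCT s).val x e ↔ _
    rw [val_toCT, val_toCT]
    exact Iff.rfl
  | rel r ts =>
    match r, ts with
    | ARel.le, ts =>
      show (toCT (ts 0)).val x e ≤ (toCT (ts 1)).val x e ↔ _
      rw [val_toCT, val_toCT]
      exact Iff.rfl
  | imp f g ihf ihg =>
    show (CF.sem x e (toCF f) → CF.sem x e (toCF g)) ↔ _
    rw [ihf e, ihg e]
    exact Iff.rfl
  | all f ih =>
    show (∀ a, CF.sem x (pr a e) (toCF f)) ↔ _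
    have h : ∀ (n : ℕ) (a : M), val (n + 1) (pr a e) = Fin.snoc (α := fun _ => M) (val n e) a := by
      intro n a
      show Fin.snoc (α := fun _ => M) (val n (tl (pr a e))) (hd (pr a e)) = _
      rw [tl_pr, hd_pr]
    refine forall_congr' fun a => ?_
    rw [ih (pr a e), h]

end TruthCF
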