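import Pool.Agent.Work.MP_cfede9_lc.Cod
import Pool.Agent.Work.MP_cfede9_lc.San2
import Pool.Agent.Work.MP_cfede9_lc.Fin2e
import Pool.Agent.Work.MP_cfede9_lc.Tr1b

set_option autoImplicit false
set_option linter.all false

/-!
# MP_cfede9_lc, module San3: the concrete coding is a coding
-/

open FirstOrder

namespace TruthCF

private theorem pr_cast' (M : Type) [PAm M] (a b : ℕ) : (mOps M).pr (a : M) (b : M) = ((natOps.pr a b : ℕ) : M) := by
  show ((a : M) + (b : M)) * ((a : M) + (b : M)) + (a : M) = (((a + b) * (a + b) + a : ℕ) : M)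
  push_cast
  rfl

private theorem num_cast' (M : Type) [PAm M] (n : ℕ) : (mOps M).num n = ((natOps.num n : ℕ) : M) := by
  induction n with
  | zero => exact Nat.cast_zero.symm
  | succ n ih =>
    show (mOps M).num n + 1 = ((natOps.num n + 1 : ℕ) : M)
    rw [ih, Nat.cast_succ]

private theorem tcode_cast (M : Type) [PAm M] (n : ℕ) {k : ℕ} (t : LA.Term (Fin 1 ⊕ Fin k)) :
    tcode (mOps M) (fun _ => (n : M)) t =
      (((tcode natOps (fun _ => n) t).1 : M), ((tcode natOps (fun _ => n) t).2 : M)) := by
  induction t with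
  | var a =>
    rcases a with a | a
    · show ((n : M), (mOps M).pr _ _) = (((n : ℕ) : M), ((natOps.pr _ _ : ℕ) : M))
      rw [num_cast', pr_cast']
    · show ((0 : M), (mOps M).pr _ _) = (((0 : ℕ) : M), ((natOps.pr _ _ : ℕ) : M))
      rw [num_cast', num_cast', pr_cast', Nat.cast_zero]
  | @func l f ts ih =>
    show tstep (mOps M) f (fun i => tcode (mOps M) _ (ts i)) = _
    rw [show (fun i => tcode (mOps M) (fun _ => (n : M)) (ts i)) = fun i =>
      ((((tcode natOps (fun _ => n) (ts i)).1 : ℕ) : M), (((tcode natOps (fun _ => n) (ts i)).2 : ℕ) : M))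
      from funext ih]
    change AFunc l at f
    cases f
    · show ((0 : M), (mOps M).pr _ _) = (((0 : ℕ) : M), ((natOps.pr _ _ : ℕ) : M))
      rw [num_cast', pr_cast', Nat.cast_zero]
    · show (((((tcode natOps (fun _ => n) (ts 0)).1 : ℕ) : M)) + 1, _) =
        ((((tcode natOps (fun _ => n) (ts 0)).1 + 1 : ℕ) : M), _)
      rw [Nat.cast_succ]
      rfl
    · show ((0 : M), (mOps M).pr _ ((mOps M).pr ((mOps M).pr _ _) ((mOps M).pr _ _))) =
        (((0 : ℕ) : M), ((natOps.pr _ _ : ℕ) : M))
      rw [num_cast', pr_cast', pr_cast', pr_cast', pr_cast', Nat.cast_zero]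
    · show ((0 : M), (mOps M).pr _ ((mOps M).pr ((mOps M).pr _ _) ((mOps M).pr _ _))) =
        (((0 : ℕ) : M), ((natOps.pr _ _ : ℕ) : M))
      rw [num_cast', pr_cast', pr_cast', pr_cast', pr_cast', Nat.cast_zero]

private theorem tc_cast (M : Type) [PAm M] (n : ℕ) {k : ℕ} (t : LA.Term (Fin 1 ⊕ Fin k)) :
    tc (mOps M) (fun _ => (n : M)) t = ((tc natOps (fun _ => n) t : ℕ) : M) := by
  rw [tc, tcode_cast, tc, pr_cast']

private theorem fcode_cast (M : Type) [PAm M] (n : ℕ) {k : ℕ} (φ : LA.BoundedFormula (Fin 1) k) :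
    fcode (mOps M) (fun _ => (n : M)) φ = ((fcode natOps (fun _ => n) φ : ℕ) : M) := by
  induction φ with
  | falsum =>
    show (mOps M).pr _ _ = ((natOps.pr _ _ : ℕ) : M)
    rw [num_cast', num_cast', pr_cast']
  | equal t s =>
    show (mOps M).pr _ ((mOps M).pr (tc (mOps M) _ _) (tc (mOps M) _ _)) = ((natOps.pr _ _ : ℕ) : M)
    rw [num_cast', tc_cast, tc_cast, pr_cast', pr_cast']
  | @rel k l r ts =>
    change ARel l at r
    cases r
    show (mOps M).pr _ ((mOps M).pr (tc (mOps M) _ _) (tc (mOps M) _ _)) = ((natOps.pr _ _ : ℕ) : M)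
    rw [num_cast', tc_cast, tc_cast, pr_cast', pr_cast']
    rfl
  | imp φ ψ ih ih' =>
    show (mOps M).pr _ ((mOps M).pr (fcode (mOps M) _ _) (fcode (mOps M) _ _)) = ((natOps.pr _ _ : ℕ) : M)
    rw [num_cast', ih, ih', pr_cast', pr_cast']
  | all φ ih =>
    show (mOps M).pr _ (fcode (mOps M) _ _) = ((natOps.pr _ _ : ℕ) : M)
    rw [num_cast', ih, pr_cast']

private theorem num_realize (M : Type) [PAm M] (n : ℕ) :
    ((termOps Empty).num n).realize (default : Empty → M) = (n : M) := by
  induction n with
  | zero => exact Nat.cast_zero.symm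
  | succ n ih =>
    show ((termOps Empty).num n).realize (default : Empty → M) + 1 = _
    rw [ih, Nat.cast_succ]

private theorem nice_LA (M : Type) (S : LA.Structure M) (h : IsEA M) : ∃ P : PAm M, @instLAStr M P = S :=
  (ea_raw h).toPAm

/-- the concrete coding -/
def stdCoding : Coding where
  gn := gnum
  sub := fun φ => Language.Term.equal (Language.Term.var 1) ((dotq φ).relabel (fun _ => (0 : Fin 2)))
  total := by
    intro φ M S _ _ x
    refine ⟨(dotq φ).realize (fun _ => x), ?_, fun s hs => ?_⟩
    · show (Language.Term.equal _ _).Realize _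
      rw [Language.Formula.realize_equal, Language.Term.realize_relabel]
      rfl
    · have := (Language.Formula.realize_equal).1 hs
      rw [Language.Term.realize_relabel] at this
      exact this
  std := by
    intro φ M S _ h n
    obtain ⟨P, rfl⟩ := nice_LA M S h
    show (Language.Term.equal _ _).Realize _
    rw [Language.Formula.realize_equal, Language.Term.realize_relabel, num_realize]
    show ((termOps Empty).num _).realize (default : Empty → M) = (dotq φ).realize (fun _ => (n : M))
    rw [num_realize, realize_dotq, fcode_cast, ← dotq_std, realize_dotq]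
    rfl
  dec := Language.Term.equal (Language.Term.var 1) (Language.Term.var 0)
  dec_ok := by
    intro φ M S _ _ x s hs t
    have h1 := (Language.Formula.realize_equal).1 hs
    rw [Language.Term.realize_relabel] at h1
    have h2 : s = (dotq φ).realize (fun _ => x) := h1
    rw [Language.Formula.realize_equal, ← h2]
    rfl

end TruthCF
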