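import Pool.Agent.Work.MP_cfede9_lc.Lang

set_option autoImplicit false
set_option linter.all false

/-!
# MP_cfede9_lc: the arithmetical language and nice models

`LA` = {0, S, +, *, <=}. A nice model is an ordered commutative semiring with least element 0,
subtraction, discrete order, division with remainder and integer square roots
(the nonnegative part of a discretely ordered ring; every model of EA is nice).
-/

open FirstOrder

namespace TruthCF

/-- nice models of arithmetic -/
class PAm (M : Type) extends CommSemiring M, LinearOrder M, IsStrictOrderedRing M,
    CanonicallyOrderedAdd M where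
  discr : ∀ a b : M, a < b → a + 1 ≤ b
  div_ex : ∀ a d : M, 0 < d → ∃ q r, a = q * d + r ∧ r < d
  sqrt_ex : ∀ a : M, ∃ s, s * s ≤ a ∧ a < (s + 1) * (s + 1)

instance instPAmNat : PAm ℕ where
  discr := fun a b h => h
  div_ex := fun a d h => ⟨a / d, a % d, (Nat.div_add_mod' a d).symm, Nat.mod_lt _ h⟩
  sqrt_ex := fun a => ⟨Nat.sqrt a, Nat.sqrt_le a, Nat.lt_succ_sqrt a⟩

/-- interpretation of the function symbols in a nice model -/
def afun {M : Type} [PAm M] : {n : ℕ} → AFunc n → (Fin n → M) → M
  | _, AFunc.zero, _ => 0
  | _, AFunc.succ, v => v 0 + 1
  | _, AFunc.add, v => v 0 + v 1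
  | _, AFunc.mul, v => v 0 * v 1

/-- interpretation of the relation symbol in a nice model -/
def arel {M : Type} [PAm M] : {n : ℕ} → ARel n → (Fin n → M) → Prop
  | _, ARel.le, v => v 0 ≤ v 1

/-- a nice model as a structure for `LA` -/
instance instLAStr (M : Type) [PAm M] : LA.Structure M where
  funMap := fun f v => afun f v
  RelMap := fun r v => arel r v

section Basic

variable {M : Type} [PAm M]

theorem funMap_zero (v : Fin 0 → M) : Language.Structure.funMap zeroF v = (0 : M) := rfl

theorem funMap_succ (v : Fin 1 → M) : Language.Structure.funMap succF v = v 0 + 1 := rfl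

theorem funMap_add (v : Fin 2 → M) : Language.Structure.funMap addF v = v 0 + v 1 := rfl

theorem funMap_mul (v : Fin 2 → M) : Language.Structure.funMap mulF v = v 0 * v 1 := rfl

theorem relMap_le (v : Fin 2 → M) : Language.Structure.RelMap leR v ↔ v 0 ≤ v 1 := Iff.rfl

end Basic

section Coding

variable {M : Type} [PAm M]

/-- the polynomial pairing -/
def pr (a b : M) : M := (a + b) * (a + b) + a

/-- first component, 0 if there is none -/
noncomputable def hd (e : M) : M :=
  open Classical in if h : ∃ a b, e = pr a b then h.choose else 0

/-- second component, 0 if there is none -/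
noncomputable def tl (e : M) : M :=
  open Classical in if h : ∃ b a, e = pr a b then h.choose else 0

/-- remainder, 0 if there is none -/
noncomputable def rm (a d : M) : M :=
  open Classical in if h : ∃ r q, a = q * d + r ∧ r < d then h.choose else 0

/-- the beta function -/
noncomputable def bt (p q i : M) : M := rm p (1 + (i + 1) * q)

/-- the values coded by an environment: the innermost variable is the head -/
noncomputable def val : (n : ℕ) → M → Fin n → M
  | 0, _ => Fin.elim0
  | n + 1, e => Fin.snoc (α := fun _ => M) (val n (tl e)) (hd e)

end Coding

/-- truth of a formula under the environment coded by `u` -/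
def Sv {L' : FirstOrder.Language.{0, 0}} {n : ℕ} (θ : (LA.sum L').BoundedFormula Empty n) {M : Type}
    [PAm M] [L'.Structure M] (u : M) : Prop :=
  θ.Realize (default : Empty → M) (val n u)

/-- truth of an arithmetical formula under the environment coded by `u` -/
def Sa {n : ℕ} (θ : LA.BoundedFormula Empty n) {M : Type} [PAm M] (u : M) : Prop :=
  θ.Realize (default : Empty → M) (val n u)

end TruthCF
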