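import Pool.Agent.Work.MP_cfede9_lc.Base

set_option autoImplicit false
set_option linter.all false

/-!
# MP_cfede9_lc: uniform definability over nice models
-/

open FirstOrder

namespace TruthCF

/-- a relation given on all nice models (with the extra symbols) -/
abbrev Rl (L' : FirstOrder.Language.{0, 0}) : Type 1 :=
  ∀ (M : Type) [PAm M] [L'.Structure M], (ℕ → M) → Prop

/-- a function given on all nice models -/
abbrev Fn (L' : FirstOrder.Language.{0, 0}) : Type 1 :=
  ∀ (M : Type) [PAm M] [L'.Structure M], (ℕ → M) → M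

/-- uniformly definable relations -/
def UD (L' : FirstOrder.Language.{0, 0}) (R : Rl L') : Prop :=
  ∃ φ : (LA.sum L').Formula ℕ, ∀ (M : Type) [PAm M] [L'.Structure M] (v : ℕ → M),
    φ.Realize v ↔ R M v

/-- functions with uniformly definable graph -/
def UG (L' : FirstOrder.Language.{0, 0}) (t : Fn L') : Prop :=
  UD L' (fun M _ _ v => t M (fun i => v (i + 1)) = v 0)

variable {L' : FirstOrder.Language.{0, 0}}

theorem UD.congr {R S : Rl L'} (h : UD L' R)
    (hRS : ∀ (M : Type) [PAm M] [L'.Structure M] (v : ℕ → M), R M v ↔ S M v) : UD L' S := by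
  obtain ⟨φ, hφ⟩ := h
  exact ⟨φ, fun M _ _ v => (hφ M v).trans (hRS M v)⟩

theorem UD.not {R : Rl L'} (h : UD L' R) : UD L' (fun M _ _ v => ¬ R M v) := by
  obtain ⟨φ, hφ⟩ := h
  exact ⟨φ.not, fun M _ _ v => by
    show _ ↔ ¬ R M v
    rw [← hφ M v]
    simp [Language.Formula.Realize]⟩

theorem UD.imp {R S : Rl L'} (h : UD L' R) (h' : UD L' S) : UD L' (fun M _ _ v => R M v → S M v) := by
  obtain ⟨φ, hφ⟩ := h
  obtain ⟨ψ, hψ⟩ := h'
  exact ⟨φ.imp ψ, fun M _ _ v => by
    show _ ↔ (R M v → S M v)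
    rw [← hφ M v, ← hψ M v]
    simp [Language.Formula.Realize]⟩

theorem UD.and {R S : Rl L'} (h : UD L' R) (h' : UD L' S) : UD L' (fun M _ _ v => R M v ∧ S M v) := by
  obtain ⟨φ, hφ⟩ := h
  obtain ⟨ψ, hψ⟩ := h'
  exact ⟨φ ⊓ ψ, fun M _ _ v => by
    show _ ↔ (R M v ∧ S M v)
    rw [← hφ M v, ← hψ M v]
    simp [Language.Formula.Realize]⟩

theorem UD.or {R S : Rl L'} (h : UD L' R) (h' : UD L' S) : UD L' (fun M _ _ v => R M v ∨ S M v) := by
  obtain ⟨φ, hφ⟩ := h
  obtain ⟨ψ, hψ⟩ := h'
  exact ⟨φ ⊔ ψ, fun M _ _ v => by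
    show _ ↔ (R M v ∨ S M v)
    rw [← hφ M v, ← hψ M v]
    simp [Language.Formula.Realize]⟩

theorem UD.iff {R S : Rl L'} (h : UD L' R) (h' : UD L' S) :
    UD L' (fun M _ _ v => (R M v ↔ S M v)) :=
  ((h.imp h').and (h'.imp h)).congr fun M _ _ v => ⟨fun h => ⟨h.1, h.2⟩, fun h => ⟨h.1, h.2⟩⟩

theorem UD.const (p : Prop) : UD L' (fun M _ _ v => p) := by
  by_cases h : p
  · exact ⟨⊤, fun M _ _ v => by simp [h, Language.Formula.Realize]⟩
  · exact ⟨⊥, fun M _ _ v => by simp [h, Language.Formula.Realize]⟩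

/-- substitution of variables -/
theorem UD.relabel {R : Rl L'} (h : UD L' R) (g : ℕ → ℕ) : UD L' (fun M _ _ v => R M (fun i => v (g i))) := by
  obtain ⟨φ, hφ⟩ := h
  refine ⟨Language.Formula.relabel g φ, fun M _ _ v => ?_⟩
  rw [Language.Formula.realize_relabel]
  exact hφ M _

/-- quantification over a new variable; the old variables are shifted by one -/
theorem UD.ex {R : ∀ (M : Type) [PAm M] [L'.Structure M], M → (ℕ → M) → Prop}
    (h : UD L' (fun M _ _ v => R M (v 0) (fun i => v (i + 1)))) :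
    UD L' (fun M _ _ v => ∃ a, R M a v) := by
  obtain ⟨φ, hφ⟩ := h
  let g : ℕ → ℕ ⊕ Fin 1 := fun i => match i with
    | 0 => Sum.inr 0
    | i + 1 => Sum.inl i
  refine ⟨(Language.BoundedFormula.relabel (n := 1) g φ : (LA.sum L').BoundedFormula ℕ (1 + 0)).ex,
    fun M _ _ v => ?_⟩
  rw [Language.Formula.Realize, Language.BoundedFormula.realize_ex]
  refine exists_congr fun a => ?_
  rw [Language.BoundedFormula.realize_relabel]
  have := hφ M (fun i => match i with | 0 => a | i + 1 => v i)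
  simp only at this
  rw [← this, Language.Formula.Realize, iff_eq_eq]
  congr 1
  · funext i
    rcases i with _ | i
    · simp only [Function.comp, g, Sum.elim_inr]
      rfl
    · simp only [Function.comp, g, Sum.elim_inl]
  · exact Subsingleton.elim _ _

theorem UD.all {R : ∀ (M : Type) [PAm M] [L'.Structure M], M → (ℕ → M) → Prop}
    (h : UD L' (fun M _ _ v => R M (v 0) (fun i => v (i + 1)))) :
    UD L' (fun M _ _ v => ∀ a, R M a v) :=
  (UD.ex (R := fun M _ _ a v => ¬ R M a v) h.not).not.congr fun M _ _ v => by simp only [not_exists, not_not]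

/-! ### functions -/

theorem UG.congr {t t' : Fn L'} (h : UG L' t)
    (hRS : ∀ (M : Type) [PAm M] [L'.Structure M] (v : ℕ → M), t M v = t' M v) : UG L' t' :=
  UD.congr h fun M _ _ v => by rw [hRS]

/-- a function with definable graph `G` -/
theorem UG.of_graph {t : Fn L'} (G : ∀ (M : Type) [PAm M] [L'.Structure M], M → (ℕ → M) → Prop)
    (hG : UD L' (fun M _ _ v => G M (v 0) (fun i => v (i + 1))))
    (h : ∀ (M : Type) [PAm M] [L'.Structure M] (v : ℕ → M) (y : M), G M y v ↔ t M v = y) : UG L' t :=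
  UD.congr hG fun M _ _ v => h M _ _

theorem UG.var (i : ℕ) : UG L' (fun M _ _ v => v i) := by
  refine ⟨Language.Term.equal (Language.var (i + 1)) (Language.var 0), fun M _ _ v => ?_⟩
  rw [Language.Formula.realize_equal]
  rfl

theorem UD.eq_var (i j : ℕ) : UD L' (fun M _ _ v => v i = v j) := by
  refine ⟨Language.Term.equal (Language.var i) (Language.var j), fun M _ _ v => ?_⟩
  rw [Language.Formula.realize_equal]
  rfl

theorem UD.le_var (i j : ℕ) : UD L' (fun M _ _ v => v i ≤ v j) :=
  ⟨Language.BoundedFormula.rel (L := LA.sum L') (l := 2) (Sum.inl leR : LA.Relations 2 ⊕ L'.Relations 2)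
    ![Language.Term.var (Sum.inl i), Language.Term.var (Sum.inl j)], fun M _ _ v => Iff.rfl⟩

theorem UG.relabel {t : Fn L'} (h : UG L' t) (g : ℕ → ℕ) : UG L' (fun M _ _ v => t M (fun i => v (g i))) :=
  (UD.relabel h (fun i => match i with | 0 => 0 | i + 1 => g i + 1)).congr fun M _ _ v => Iff.rfl

/-- shift of variables -/
theorem UG.shift {t : Fn L'} (h : UG L' t) : UG L' (fun M _ _ v => t M (fun i => v (i + 1))) :=
  h.relabel (fun i => i + 1)

/-- substitution of one definable function into a definable relation -/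
theorem UD.subst {R : ∀ (M : Type) [PAm M] [L'.Structure M], M → (ℕ → M) → Prop} {t : Fn L'}
    (hR : UD L' (fun M _ _ v => R M (v 0) (fun i => v (i + 1)))) (ht : UG L' t) :
    UD L' (fun M _ _ v => R M (t M v) v) := by
  refine (UD.ex (R := fun M _ _ a v => t M v = a ∧ R M a v) (UD.and ht hR)).congr fun M _ _ v => ?_
  constructor
  · rintro ⟨a, rfl, h⟩
    exact h
  · intro h
    exact ⟨_, rfl, h⟩

theorem UD.eq {s t : Fn L'} (hs : UG L' s) (ht : UG L' t) : UD L' (fun M _ _ v => s M v = t M v) := by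
  refine UD.subst (R := fun M _ _ a v => s M v = a) ?_ ht
  exact hs

theorem UD.le {s t : Fn L'} (hs : UG L' s) (ht : UG L' t) : UD L' (fun M _ _ v => s M v ≤ t M v) := by
  refine UD.subst (R := fun M _ _ a v => s M v ≤ a) ?_ ht
  refine UD.subst (R := fun M _ _ a v => a ≤ v 0) ?_ hs.shift
  exact UD.le_var 0 1

theorem UD.lt {s t : Fn L'} (hs : UG L' s) (ht : UG L' t) : UD L' (fun M _ _ v => s M v < t M v) :=
  (UD.le ht hs).not.congr fun M _ _ v => not_le

/-- substitution of one definable function into a definable function -/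
theorem UG.subst {f : ∀ (M : Type) [PAm M] [L'.Structure M], M → (ℕ → M) → M} {t : Fn L'}
    (hf : UG L' (fun M _ _ v => f M (v 0) (fun i => v (i + 1)))) (ht : UG L' t) :
    UG L' (fun M _ _ v => f M (t M v) v) := by
  refine UD.subst (R := fun M _ _ a v => f M a (fun i => v (i + 1)) = v 0) (t := fun M _ _ v => t M (fun i => v (i + 1))) ?_ ht.shift
  exact (UD.relabel hf (fun i => match i with | 0 => 1 | 1 => 0 | i + 2 => i + 2)).congr fun M _ _ v => Iff.rfl

/-- binary functions -/
theorem UG.comp₁ {f : ∀ (M : Type) [PAm M] [L'.Structure M], M → M} {t : Fn L'}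
    (hf : UG L' (fun M _ _ v => f M (v 0))) (ht : UG L' t) : UG L' (fun M _ _ v => f M (t M v)) :=
  UG.subst (f := fun M _ _ a v => f M a) hf ht

theorem UG.comp₂ {f : ∀ (M : Type) [PAm M] [L'.Structure M], M → M → M} {s t : Fn L'}
    (hf : UG L' (fun M _ _ v => f M (v 0) (v 1))) (hs : UG L' s) (ht : UG L' t) :
    UG L' (fun M _ _ v => f M (s M v) (t M v)) := by
  refine UG.subst (f := fun M _ _ a v => f M a (t M v)) ?_ hs
  refine UG.subst (f := fun M _ _ a v => f M (v 0) a) ?_ ht.shift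
  exact (UG.relabel hf (fun i => match i with | 0 => 1 | i + 1 => i)).congr fun M _ _ v => rfl

theorem UG.comp₃ {f : ∀ (M : Type) [PAm M] [L'.Structure M], M → M → M → M} {s t r : Fn L'}
    (hf : UG L' (fun M _ _ v => f M (v 0) (v 1) (v 2))) (hs : UG L' s) (ht : UG L' t) (hr : UG L' r) :
    UG L' (fun M _ _ v => f M (s M v) (t M v) (r M v)) := by
  refine UG.subst (f := fun M _ _ a v => f M a (t M v) (r M v)) ?_ hs
  refine UG.subst (f := fun M _ _ a v => f M (v 0) a (r M (fun i => v (i + 1)))) ?_ ht.shift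
  refine UG.subst (f := fun M _ _ a v => f M (v 1) (v 0) a) ?_ hr.shift.shift
  exact (UG.relabel hf (fun i => match i with | 0 => 2 | 1 => 1 | 2 => 0 | i + 3 => i)).congr fun M _ _ v => rfl

theorem UD.comp₁ {R : ∀ (M : Type) [PAm M] [L'.Structure M], M → Prop} {s : Fn L'}
    (hR : UD L' (fun M _ _ v => R M (v 0))) (hs : UG L' s) : UD L' (fun M _ _ v => R M (s M v)) :=
  UD.subst (R := fun M _ _ a v => R M a) hR hs

theorem UD.comp₂ {R : ∀ (M : Type) [PAm M] [L'.Structure M], M → M → Prop} {s t : Fn L'}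
    (hR : UD L' (fun M _ _ v => R M (v 0) (v 1))) (hs : UG L' s) (ht : UG L' t) :
    UD L' (fun M _ _ v => R M (s M v) (t M v)) := by
  refine UD.subst (R := fun M _ _ a v => R M a (t M v)) ?_ hs
  refine UD.subst (R := fun M _ _ a v => R M (v 0) a) ?_ ht.shift
  exact (UD.relabel hR (fun i => match i with | 0 => 1 | i + 1 => i)).congr fun M _ _ v => Iff.rfl

theorem UD.comp₃ {R : ∀ (M : Type) [PAm M] [L'.Structure M], M → M → M → Prop} {s t r : Fn L'}
    (hR : UD L' (fun M _ _ v => R M (v 0) (v 1) (v 2))) (hs : UG L' s) (ht : UG L' t) (hr : UG L' r) :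
    UD L' (fun M _ _ v => R M (s M v) (t M v) (r M v)) := by
  refine UD.subst (R := fun M _ _ a v => R M a (t M v) (r M v)) ?_ hs
  refine UD.subst (R := fun M _ _ a v => R M (v 0) a (r M (fun i => v (i + 1)))) ?_ ht.shift
  refine UD.subst (R := fun M _ _ a v => R M (v 1) (v 0) a) ?_ hr.shift.shift
  exact (UD.relabel hR (fun i => match i with | 0 => 2 | 1 => 1 | 2 => 0 | i + 3 => i)).congr
    fun M _ _ v => Iff.rfl

theorem UD.comp₄ {R : ∀ (M : Type) [PAm M] [L'.Structure M], M → M → M → M → Prop} {s t r q : Fn L'}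
    (hR : UD L' (fun M _ _ v => R M (v 0) (v 1) (v 2) (v 3))) (hs : UG L' s) (ht : UG L' t)
    (hr : UG L' r) (hq : UG L' q) :
    UD L' (fun M _ _ v => R M (s M v) (t M v) (r M v) (q M v)) := by
  refine UD.subst (R := fun M _ _ a v => R M a (t M v) (r M v) (q M v)) ?_ hs
  refine UD.subst (R := fun M _ _ a v => R M (v 0) a (r M (fun i => v (i + 1))) (q M (fun i => v (i + 1)))) ?_ ht.shift
  refine UD.subst (R := fun M _ _ a v => R M (v 1) (v 0) a (q M (fun i => v (i + 2)))) ?_ hr.shift.shift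
  refine UD.subst (R := fun M _ _ a v => R M (v 2) (v 1) (v 0) a) ?_ hq.shift.shift.shift
  exact (UD.relabel hR (fun i => match i with | 0 => 3 | 1 => 2 | 2 => 1 | 3 => 0 | i + 4 => i)).congr
    fun M _ _ v => Iff.rfl

/-- graphs of terms are definable -/
theorem UG.term (s : (LA.sum L').Term ℕ) : UG L' (fun M _ _ v => s.realize v) := by
  refine ⟨Language.Term.equal (s.relabel (fun i => i + 1)) (Language.Term.var 0), fun M _ _ v => ?_⟩
  show _ ↔ s.realize (fun i => v (i + 1)) = v 0
  rw [Language.Formula.realize_equal, Language.Term.realize_relabel]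
  rfl

theorem UG.zero : UG L' (fun M _ _ v => (0 : M)) :=
  (UG.term (Language.Term.func (L := LA.sum L') (l := 0)
    (Sum.inl zeroF : LA.Functions 0 ⊕ L'.Functions 0) ![])).congr fun M _ _ v => rfl

theorem UG.one : UG L' (fun M _ _ v => (1 : M)) :=
  (UG.term (Language.Term.func (L := LA.sum L') (l := 1)
    (Sum.inl succF : LA.Functions 1 ⊕ L'.Functions 1)
    ![Language.Term.func (L := LA.sum L') (l := 0)
      (Sum.inl zeroF : LA.Functions 0 ⊕ L'.Functions 0) ![] ])).congr fun M _ _ v => zero_add (1 : M)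

theorem UG.add {s t : Fn L'} (hs : UG L' s) (ht : UG L' t) : UG L' (fun M _ _ v => s M v + t M v) := by
  refine UG.comp₂ (f := fun M _ _ a b => a + b) ?_ hs ht
  exact (UG.term (Language.Term.func (L := LA.sum L') (l := 2)
    (Sum.inl addF : LA.Functions 2 ⊕ L'.Functions 2)
    ![Language.Term.var 0, Language.Term.var 1])).congr fun M _ _ v => rfl

theorem UG.mul {s t : Fn L'} (hs : UG L' s) (ht : UG L' t) : UG L' (fun M _ _ v => s M v * t M v) := by
  refine UG.comp₂ (f := fun M _ _ a b => a * b) ?_ hs ht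
  exact (UG.term (Language.Term.func (L := LA.sum L') (l := 2)
    (Sum.inl mulF : LA.Functions 2 ⊕ L'.Functions 2)
    ![Language.Term.var 0, Language.Term.var 1])).congr fun M _ _ v => rfl

theorem UG.natCast (n : ℕ) : UG L' (fun M _ _ v => (n : M)) := by
  induction n with
  | zero => exact UG.zero.congr fun M _ _ v => Nat.cast_zero.symm
  | succ n ih => exact (ih.add UG.one).congr fun M _ _ v => (Nat.cast_succ n).symm

end TruthCF
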