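import Pool.Agent.Work.MP_cfede9_lc.Emb1
import Pool.Agent.Work.MP_cfede9_lc.UD

set_option autoImplicit false
set_option linter.all false

/-!
# MP_cfede9_lc, module Emb2: embeddings of structures for the larger language
-/

open FirstOrder

namespace TruthCF

variable {L' : FirstOrder.Language.{0, 0}} {M N : Type} [PAm M] [L'.Structure M] [PAm N] [L'.Structure N]

theorem aemb_of_emb (f : M ↪[LA.sum L'] N) : AEmb f := by
  have hz : f 0 = 0 := by
    have h := f.map_fun (Sum.inl zeroF : (LA.sum L').Functions 0) ![]
    exact h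
  refine ⟨hz, ?_, ?_, ?_, ?_⟩
  · have h := f.map_fun (Sum.inl succF : (LA.sum L').Functions 1) ![0]
    have h1 : f (0 + 1) = f 0 + 1 := h
    rw [zero_add, hz, zero_add] at h1
    exact h1
  · intro a b
    exact f.map_fun (Sum.inl addF : (LA.sum L').Functions 2) ![a, b]
  · intro a b
    exact f.map_fun (Sum.inl mulF : (LA.sum L').Functions 2) ![a, b]
  · intro a b
    exact f.map_rel (Sum.inl leR : (LA.sum L').Relations 2) ![a, b]

theorem aemb_of_elem (f : M ↪ₑ[LA.sum L'] N) : AEmb f := by
  have h := aemb_of_emb f.toEmbedding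
  exact h

theorem emb_of_aemb [L'.IsRelational] {f : M → N} (hf : AEmb f)
    (hr : ∀ (n : ℕ) (r : L'.Relations n) (v : Fin n → M),
      Language.Structure.RelMap r (f ∘ v) ↔ Language.Structure.RelMap r v) :
    ∃ g : M ↪[LA.sum L'] N, ∀ x, g x = f x := by
  have hinj : Function.Injective f := by
    intro a b h
    apply le_antisymm
    · rw [← hf.le, h]
    · rw [← hf.le, h]
  refine ⟨⟨⟨f, hinj⟩, ?_, ?_⟩, fun x => rfl⟩
  · intro n F v
    rcases F with F | F
    · cases F with
      | zero => exact hf.zero
      | succ =>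
        show f (v 0 + 1) = f (v 0) + 1
        rw [hf.add, hf.one]
      | add => exact hf.add _ _
      | mul => exact hf.mul _ _
    · exact isEmptyElim F
  · intro n r v
    rcases r with r | r
    · cases r with
      | le => exact hf.le _ _
    · exact hr n r v

/-- every tuple is coded by an environment -/
theorem val_surj (n : ℕ) (v : Fin n → M) : ∃ u : M, val n u = v := by
  induction n with
  | zero => exact ⟨0, Subsingleton.elim _ _⟩
  | succ n ih =>
    obtain ⟨u, hu⟩ := ih (Fin.init v)
    refine ⟨pr (v (Fin.last n)) u, ?_⟩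
    show Fin.snoc (α := fun _ => M) (val n (tl (pr (v (Fin.last n)) u)))
      (hd (pr (v (Fin.last n)) u)) = v
    rw [tl_pr, hd_pr, hu]
    exact Fin.snoc_init_self v

/-- an elementary embedding preserves uniformly definable relations -/
theorem UD.elem {R : Rl L'} (hR : UD L' R) (e : M ↪ₑ[LA.sum L'] N) (v : ℕ → M) :
    R M v ↔ R N (fun i => e (v i)) := by
  obtain ⟨φ, hφ⟩ := hR
  rw [← hφ M v, ← hφ N]
  exact (e.map_formula φ v).symm

end TruthCF
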