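import Pool.Agent.Work.MP_cfede9_lc.UDv1

set_option autoImplicit false
set_option linter.all false

/-!
# MP_cfede9_lc, module UDv2: arithmetical formulas, sentences
-/

open FirstOrder

namespace TruthCF

variable {L' : FirstOrder.Language.{0, 0}}

/-- the same formula in the larger language -/
theorem Sv_lift {n : ℕ} (θ : LA.BoundedFormula Empty n) {M : Type} [PAm M] [L'.Structure M] (u : M) :
    Sv ((Language.LHom.sumInl : LA →ᴸ LA.sum L').onBoundedFormula θ) u ↔ Sa θ u := by
  unfold Sv Sa
  exact Language.LHom.realize_onBoundedFormula _ _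

theorem ud_Sa {n : ℕ} (θ : LA.BoundedFormula Empty n) : UD L' (fun M _ _ v => Sa θ (v 0)) :=
  (ud_Sv (L' := L') ((Language.LHom.sumInl : LA →ᴸ LA.sum L').onBoundedFormula θ)).congr
    fun M _ _ v => Sv_lift θ (v 0)

/-- a relation uniformly definable without extra symbols comes from an arithmetical sentence -/
theorem sentence_of_ud (R : ∀ (M : Type) [PAm M], Prop)
    (hR : UD Language.empty (fun M _ _ v => R M)) :
    ∃ σ : LA.Sentence, ∀ (M : Type) [PAm M], M ⊨ σ ↔ R M := by
  obtain ⟨φ, hφ⟩ := hR
  let h : LA.sum Language.empty →ᴸ LA :=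
    (Language.LHom.id LA).sumElim (Language.LHom.ofIsEmpty Language.empty LA)
  let z : LA.Term Empty := Language.Term.func (L := LA) (l := 0) zeroF ![]
  refine ⟨Language.BoundedFormula.subst (h.onFormula φ) (fun _ => z), fun M _ => ?_⟩
  letI : Language.empty.Structure M :=
    { funMap := fun {n} f _ => (isEmptyElim f : M), RelMap := fun {n} r _ => (isEmptyElim r : Prop) }
  rw [Language.Sentence.Realize, Language.Formula.Realize, Language.BoundedFormula.realize_subst]
  have h1 := Language.LHom.realize_onFormula (M := M) h φ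
    (v := fun _ : ℕ => z.realize (default : Empty → M))
  rw [Language.Formula.Realize] at h1
  rw [h1]
  exact hφ M _

/-- a uniformly definable relation of the first variable as a bounded formula in one variable -/
theorem bounded_of_ud (R : ∀ (M : Type) [PAm M] [L'.Structure M], M → Prop)
    (hR : UD L' (fun M _ _ v => R M (v 0))) :
    ∃ κ : (LA.sum L').BoundedFormula Empty 1, ∀ (M : Type) [PAm M] [L'.Structure M] (a : M),
      κ.Realize (default : Empty → M) (fun _ => a) ↔ R M a := by
  obtain ⟨φ, hφ⟩ := hR
  let g : ℕ → Empty ⊕ Fin 1 := fun _ => Sum.inr 0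
  refine ⟨(Language.BoundedFormula.relabel (n := 1) g φ : (LA.sum L').BoundedFormula Empty (1 + 0)),
    fun M _ _ a => ?_⟩
  rw [Language.BoundedFormula.realize_relabel]
  have := hφ M (fun _ => a)
  simp only at this
  rw [← this, Language.Formula.Realize, iff_eq_eq]
  congr 1
  exact Subsingleton.elim _ _

end TruthCF
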