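import Pool.Agent.Work.MP_cfede9_lc.Ctx
import Pool.Agent.Work.MP_cfede9_lc.UDv2
import Pool.Agent.Work.MP_cfede9_lc.Emb2

set_option autoImplicit false
set_option linter.all false

/-!
# MP_cfede9_lc, module Chn1: formulas for the properties of the chain
-/

open FirstOrder

namespace TruthCF

variable {L' : FirstOrder.Language.{0, 0}}

private theorem chn1_bounded3 (R : ∀ (M : Type) [PAm M] [L'.Structure M], M → M → M → Prop)
    (hR : UD L' (fun M _ _ v => R M (v 0) (v 1) (v 2))) :
    ∃ φ : (LA.sum L').BoundedFormula Empty 3, ∀ (M : Type) [PAm M] [L'.Structure M] (a : Fin 3 → M),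
      φ.Realize default a ↔ R M (a 0) (a 1) (a 2) := by
  obtain ⟨φ, hφ⟩ := hR
  let g : ℕ → Empty ⊕ Fin 3 := fun i => match i with
    | 0 => Sum.inr 0
    | 1 => Sum.inr 1
    | _ + 2 => Sum.inr 2
  refine ⟨(Language.BoundedFormula.relabel (n := 3) g φ : (LA.sum L').BoundedFormula Empty (3 + 0)),
    fun M _ _ a => ?_⟩
  rw [Language.BoundedFormula.realize_relabel]
  have := hφ M (fun i => match i with | 0 => a 0 | 1 => a 1 | _ + 2 => a 2)
  simp only at this
  rw [← this, Language.Formula.Realize, iff_eq_eq]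
  congr 1
  · funext i
    rcases i with _ | _ | i
    · rfl
    · rfl
    · rfl
  · exact Subsingleton.elim _ _

/-- the formula for `ChProp` -/
theorem chProp_formula (L' : FirstOrder.Language.{0, 0}) {n : ℕ} (χ : LA.BoundedFormula Empty n) (k : ℕ) :
    ∃ φ : (LA.sum L').BoundedFormula Empty 3, ∀ (M : Type) [PAm M] [L'.Structure M] (a : Fin 3 → M),
      φ.Realize default a ↔ ChProp χ k (a 0) (a 1) (a 2) := by
  refine chn1_bounded3 (fun M _ _ p q ν => ChProp χ k p q ν) ?_
  unfold ChProp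
  refine UD.and ?_ ?_
  · refine UD.all (R := fun M _ _ a v => a + (k : M) < v 2 → Sa χ (bt (v 0) (v 1) a)) ?_
    exact UD.imp (UD.lt (UG.add (UG.var 0) (UG.natCast k)) (UG.var 3))
      (UD.comp₁ (R := fun M _ _ a => Sa χ a) (ud_Sa χ) (UG.bt (UG.var 1) (UG.var 2) (UG.var 0)))
  · refine UD.all (R := fun M _ _ a v => a < v 2 → v 2 ≤ a + (k : M) → ¬ Sa χ (bt (v 0) (v 1) a)) ?_
    exact UD.imp (UD.lt (UG.var 0) (UG.var 3)) (UD.imp (UD.le (UG.var 3) (UG.add (UG.var 0) (UG.natCast k)))
      (UD.not (UD.comp₁ (R := fun M _ _ a => Sa χ a) (ud_Sa χ) (UG.bt (UG.var 1) (UG.var 2) (UG.var 0)))))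

theorem ltCast_formula (L' : FirstOrder.Language.{0, 0}) (k : ℕ) :
    ∃ φ : (LA.sum L').BoundedFormula Empty 3, ∀ (M : Type) [PAm M] [L'.Structure M] (a : Fin 3 → M),
      φ.Realize default a ↔ (k : M) < a 2 := by
  refine chn1_bounded3 (fun M _ _ p q ν => (k : M) < ν) ?_
  exact UD.lt (UG.natCast k) (UG.var 2)

/-- definability over `b` of the members of the list is kept along a chain of states, hence the maps preserve and
reflect them -/
theorem presF_to_Pres {M N : Type} [PAm M] [L'.Structure M] [PAm N] [L'.Structure N] (f : M ↪[LA.sum L'] N)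
    {F : FL L'} (hf : PresF F f) : Pres F.set f := by
  intro θ hθ v
  obtain ⟨u, hu⟩ := val_surj θ.1 v
  have h := hf θ hθ u
  unfold Sv at h
  rw [← (aemb_of_emb f).val θ.1 u, hu] at h
  exact h

end TruthCF
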