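import Pool.Agent.Work.MP_cfede9_lc.Ar2

set_option autoImplicit false
set_option linter.all false

/-!
# MP_cfede9_lc, module Crt: sequences of standard length have beta codes (Chinese remainder theorem in nice models)

Proof. Let `x ≡ y (m)` mean `∃ s t, x + s * m = y + t * m`. Choose `q = N! * (1 + a 0 + ... + a (N-1))`
and `m i = 1 + (i+1) * q > a i`. For `i < l < N` put `k = i + 1`, `l' = l + 1`, `q = (l' - k) * q'`. Then
`m i * l' = (l' - k) + k * m l` (exactly), hence `m i * (l' * q') ≡ q`, `m i * (l' * l' * q') ≡ l' * q = m l - 1`,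
and `(l' * q) * (l' * q) + m l = 1 + m l * (l' * q)`, so `m i * (l' * l' * l' * q' * q) ≡ 1 (m l)`: `m i` is invertible
modulo `m l`. Induction on `l ≤ N`: there is `p` with `p ≡ a i (m i)` for all `i < l`:
with `P = ∏ i < l, m i` and `P * w ≡ 1 (m l)` take `p + P * w * (a l + (m l - 1) * p)`, `m l - 1 = (l+1) * q`.
Finally `bt p q i = rm p (m i) = a i` because both are below `m i` and congruent.
-/

open FirstOrder

namespace TruthCF

variable {M : Type} [PAm M]

/-- congruence modulo `m` -/
private def cg (m x y : M) : Prop := ∃ s t : M, x + s * m = y + t * m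

private theorem cg_refl (m x : M) : cg m x x := ⟨0, 0, rfl⟩

private theorem cg_symm {m x y : M} (h : cg m x y) : cg m y x := by
  obtain ⟨s, t, h⟩ := h
  exact ⟨t, s, h.symm⟩

private theorem cg_trans {m x y z : M} (h : cg m x y) (h' : cg m y z) : cg m x z := by
  obtain ⟨s, t, h⟩ := h
  obtain ⟨s', t', h'⟩ := h'
  refine ⟨s + s', t + t', ?_⟩
  calc x + (s + s') * m = (x + s * m) + s' * m := by ring
    _ = (y + t * m) + s' * m := by rw [h]
    _ = (y + s' * m) + t * m := by ring
    _ = (z + t' * m) + t * m := by rw [h']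
    _ = z + (t + t') * m := by ring

private theorem cg_add {m x y x' y' : M} (h : cg m x y) (h' : cg m x' y') :
    cg m (x + x') (y + y') := by
  obtain ⟨s, t, h⟩ := h
  obtain ⟨s', t', h'⟩ := h'
  refine ⟨s + s', t + t', ?_⟩
  calc (x + x') + (s + s') * m = (x + s * m) + (x' + s' * m) := by ring
    _ = (y + t * m) + (y' + t' * m) := by rw [h, h']
    _ = (y + y') + (t + t') * m := by ring

private theorem cg_mul_left {m x y : M} (c : M) (h : cg m x y) : cg m (c * x) (c * y) := by
  obtain ⟨s, t, h⟩ := h
  refine ⟨c * s, c * t, ?_⟩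
  calc c * x + c * s * m = c * (x + s * m) := by ring
    _ = c * (y + t * m) := by rw [h]
    _ = c * y + c * t * m := by ring

private theorem cg_mul {m x y x' y' : M} (h : cg m x y) (h' : cg m x' y') :
    cg m (x * x') (y * y') := by
  refine cg_trans (cg_mul_left x h') ?_
  rw [mul_comm x y', mul_comm y y']
  exact cg_mul_left y' h

private theorem cg_of_add (m x k : M) : cg m (x + k * m) x := ⟨0, k, by ring⟩

private theorem cg_uniq {m x y : M} (hx : x < m) (hy : y < m) (h : cg m x y) : x = y := by
  obtain ⟨s, t, h⟩ := h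
  have h1 : rm (x + s * m) m = x := rm_eq (q := s) (by ring) hx
  have h2 : rm (x + s * m) m = y := rm_eq (q := t) (by rw [h]; ring) hy
  exact h1.symm.trans h2

private theorem cg_prod {m : M} (f g : ℕ → M) (l : ℕ) (h : ∀ i < l, cg m (f i * g i) 1) :
    cg m ((∏ i ∈ Finset.range l, f i) * ∏ i ∈ Finset.range l, g i) 1 := by
  induction l with
  | zero =>
    simp only [Finset.range_zero, Finset.prod_empty, mul_one]
    exact cg_refl _ _
  | succ l ih =>
    rw [Finset.prod_range_succ, Finset.prod_range_succ]
    have h1 := cg_mul (ih fun i hi => h i (Nat.lt_succ_of_lt hi)) (h l (Nat.lt_succ_self l))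
    rw [mul_one] at h1
    have e : (∏ i ∈ Finset.range l, f i) * f l * ((∏ i ∈ Finset.range l, g i) * g l) =
        (∏ i ∈ Finset.range l, f i) * (∏ i ∈ Finset.range l, g i) * (f l * g l) := by ring
    rw [e]
    exact h1

/-- the moduli are invertible modulo each other -/
private theorem crt_inv (q q' : M) (i l k : ℕ) (hk : l = i + k) (hq : q = (k : M) * q') :
    cg (1 + ((l : M) + 1) * q) ((1 + ((i : M) + 1) * q) *
      (((l : M) + 1) * ((l : M) + 1) * ((l : M) + 1) * q' * q)) 1 := by
  set m := 1 + ((l : M) + 1) * q with hm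
  set x := ((l : M) + 1) * q with hx
  have h1 : cg m ((1 + ((i : M) + 1) * q) * (((l : M) + 1) * q')) q := by
    have e : (1 + ((i : M) + 1) * q) * (((l : M) + 1) * q') = q + (((i : M) + 1) * q') * m := by
      rw [hm]
      have hl : (l : M) = (i : M) + (k : M) := by
        rw [hk]
        push_cast
        rfl
      have e1 : (1 + ((i : M) + 1) * q) * (((l : M) + 1) * q') =
          ((l : M) + 1) * q' + ((i : M) + 1) * ((l : M) + 1) * q * q' := by ring
      have e2 : q + (((i : M) + 1) * q') * (1 + ((l : M) + 1) * q) =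
          (q + ((i : M) + 1) * q') + ((i : M) + 1) * ((l : M) + 1) * q * q' := by ring
      rw [e1, e2]
      congr 1
      rw [hl]
      nth_rw 1 [hq]
      ring
    rw [e]
    exact cg_of_add _ _ _
  have h2 := cg_mul_left (((l : M) + 1) * x) h1
  have e3 : ((l : M) + 1) * x * q = x * x := by
    rw [hx]
    ring
  rw [e3] at h2
  have h3 : cg m (x * x) 1 := by
    refine ⟨1, x, ?_⟩
    rw [hm]
    ring
  have h4 := cg_trans h2 h3
  have e4 : (1 + ((i : M) + 1) * q) * (((l : M) + 1) * ((l : M) + 1) * ((l : M) + 1) * q' * q) =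
      ((l : M) + 1) * x * ((1 + ((i : M) + 1) * q) * (((l : M) + 1) * q')) := by
    rw [hx]
    ring
  rw [e4]
  exact h4

theorem exists_bt (N : ℕ) (a : ℕ → M) : ∃ p q : M, ∀ i < N, bt p q (i : M) = a i := by
  set B : M := 1 + ∑ i ∈ Finset.range N, a i with hB
  set q : M := ((N.factorial : ℕ) : M) * B with hq
  set m : ℕ → M := fun i => 1 + ((i : M) + 1) * q with hm
  have hone : (1 : M) ≤ ((N.factorial : ℕ) : M) := by
    have h : ((1 : ℕ) : M) ≤ ((N.factorial : ℕ) : M) := (cast_le_iff _ _).2 (Nat.factorial_pos N)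
    rwa [Nat.cast_one] at h
  have hBq : B ≤ q := by
    rw [hq]
    calc B = 1 * B := (one_mul B).symm
      _ ≤ ((N.factorial : ℕ) : M) * B := mul_le_mul_left hone B
  have ham : ∀ i < N, a i < m i := by
    intro i hi
    have h1 : a i ≤ ∑ j ∈ Finset.range N, a j := by
      rw [← Finset.add_sum_erase (Finset.range N) a (Finset.mem_range.2 hi)]
      exact le_self_add
    have h2 : a i < B := by
      refine lt_of_le_of_lt h1 ?_
      rw [hB, add_comm]
      exact lt_add_of_pos_right _ zero_lt_one
    have h3 : q ≤ m i := by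
      have e : m i = q + (1 + (i : M) * q) := by
        simp only [hm]
        ring
      rw [e]
      exact le_self_add
    exact lt_of_lt_of_le h2 (hBq.trans h3)
  have hinv : ∀ l < N, ∃ w : ℕ → M, ∀ i < l, cg (m l) (m i * w i) 1 := by
    intro l hl
    refine ⟨fun i => ((l : M) + 1) * ((l : M) + 1) * ((l : M) + 1) *
      (((N.factorial / (l - i) : ℕ) : M) * B) * q, ?_⟩
    intro i hi
    refine crt_inv q (((N.factorial / (l - i) : ℕ) : M) * B) i l (l - i) (by omega) ?_
    have h1 : (l - i) * (N.factorial / (l - i)) = N.factorial :=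
      Nat.mul_div_cancel' (Nat.dvd_factorial (by omega) (by omega))
    rw [hq, ← mul_assoc, ← Nat.cast_mul, h1]
  have key : ∀ l ≤ N, ∃ p : M, ∀ i < l, cg (m i) p (a i) := by
    intro l
    induction l with
    | zero => exact fun _ => ⟨0, fun i hi => absurd hi (Nat.not_lt_zero i)⟩
    | succ l ih =>
      intro hl
      obtain ⟨p, hp⟩ := ih (by omega)
      obtain ⟨w, hw⟩ := hinv l (by omega)
      set P := ∏ i ∈ Finset.range l, m i with hP
      set W := ∏ i ∈ Finset.range l, w i with hW
      have hPW : cg (m l) (P * W) 1 := cg_prod m w l hw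
      refine ⟨p + P * W * (a l + ((l : M) + 1) * q * p), ?_⟩
      intro i hi
      rcases Nat.lt_succ_iff_lt_or_eq.1 hi with hi | rfl
      · have h1 : P = (∏ j ∈ (Finset.range l).erase i, m j) * m i :=
          (Finset.prod_erase_mul (Finset.range l) m (Finset.mem_range.2 hi)).symm
        have e : p + P * W * (a l + ((l : M) + 1) * q * p) =
            p + ((∏ j ∈ (Finset.range l).erase i, m j) * W * (a l + ((l : M) + 1) * q * p)) * m i := by
          rw [h1]
          ring
        rw [e]
        exact cg_trans (cg_of_add _ _ _) (hp i hi)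
      · have h1 := cg_mul hPW (cg_refl (m i) (a i + ((i : M) + 1) * q * p))
        rw [one_mul] at h1
        have h2 := cg_add (cg_refl (m i) p) h1
        refine cg_trans h2 ?_
        have e : p + (a i + ((i : M) + 1) * q * p) = a i + p * m i := by
          simp only [hm]
          ring
        rw [e]
        exact cg_of_add _ _ _
  obtain ⟨p, hp⟩ := key N le_rfl
  refine ⟨p, q, ?_⟩
  intro i hi
  have hpos : (0 : M) < m i := lt_of_le_of_lt zero_le (ham i hi)
  obtain ⟨k, h1, h2⟩ := rm_spec p hpos
  have h3 : bt p q (i : M) = rm p (m i) := rfl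
  rw [h3]
  refine cg_uniq h2 (ham i hi) (cg_trans (cg_symm ?_) (hp i hi))
  have h4 := cg_of_add (m i) (rm p (m i)) k
  have e : rm p (m i) + k * m i = p := by
    conv_rhs => rw [h1]
    ring
  rw [e] at h4
  exact h4

end TruthCF
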