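import Pool.Agent.Work.MP_cfede9_lc.ExA2
import Pool.Agent.Work.MP_cfede9_lc.Ar1

set_option autoImplicit false
set_option linter.all false

/-!
# MP_cfede9_lc, module ExB1: closure properties of existentially definable relations, II (functions), quantifier free formulas

The same pattern as in module UD (`UD.subst`, `UG.subst`, `UG.comp₂`, ...).
-/

open FirstOrder

namespace TruthCF

variable {L' : FirstOrder.Language.{0, 0}} {F : FL L'} {M : Type} [PAm M] [L'.Structure M]

private theorem ExB1_relabel {t : (ℕ → M) → M} (h : EG F t) (g : ℕ → ℕ) :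
    EG F (fun u => t (fun i => u (g i))) :=
  (ExD.relabel h (fun i => match i with | 0 => 0 | i + 1 => g i + 1)).congr fun u => Iff.rfl

theorem EG.shift {t : (ℕ → M) → M} (h : EG F t) : EG F (fun u => t (fun i => u (i + 1))) :=
  ExB1_relabel h (fun i => i + 1)

theorem EG.var (i : ℕ) : EG F (fun u : ℕ → M => u i) :=
  (ExD.eq_var (i + 1) 0).congr fun u => Iff.rfl

theorem EG.const (a : M) : EG F (fun _ : ℕ → M => a) :=
  (ExD.param a 0).congr fun u => eq_comm

theorem ExD.subst {R : M → (ℕ → M) → Prop} {t : (ℕ → M) → M}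
    (hR : ExD F (fun u => R (u 0) (fun i => u (i + 1)))) (ht : EG F t) : ExD F (fun u => R (t u) u) := by
  refine (ExD.ex (R := fun a u => t u = a ∧ R a u) (ExD.and ht hR)).congr fun u => ?_
  constructor
  · rintro ⟨a, rfl, h⟩
    exact h
  · intro h
    exact ⟨_, rfl, h⟩

theorem EG.subst {f : M → (ℕ → M) → M} {t : (ℕ → M) → M}
    (hf : EG F (fun u => f (u 0) (fun i => u (i + 1)))) (ht : EG F t) : EG F (fun u => f (t u) u) := by
  refine ExD.subst (R := fun a u => f a (fun i => u (i + 1)) = u 0)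
    (t := fun u => t (fun i => u (i + 1))) ?_ ht.shift
  exact (ExD.relabel hf (fun i => match i with | 0 => 1 | 1 => 0 | i + 2 => i + 2)).congr
    fun u => Iff.rfl

private theorem ExB1_comp1 {f : M → M} {t : (ℕ → M) → M}
    (hf : EG F (fun u => f (u 0))) (ht : EG F t) : EG F (fun u => f (t u)) :=
  EG.subst (f := fun a u => f a) hf ht

private theorem ExB1_comp2 {f : M → M → M} {s t : (ℕ → M) → M}
    (hf : EG F (fun u => f (u 0) (u 1))) (hs : EG F s) (ht : EG F t) :
    EG F (fun u => f (s u) (t u)) := by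
  refine EG.subst (f := fun a u => f a (t u)) ?_ hs
  refine EG.subst (f := fun a u => f (u 0) a) ?_ ht.shift
  exact (ExB1_relabel hf (fun i => match i with | 0 => 1 | i + 1 => i))

theorem ExD.eq {s t : (ℕ → M) → M} (hs : EG F s) (ht : EG F t) : ExD F (fun u => s u = t u) := by
  refine ExD.subst (R := fun a u => s u = a) ?_ ht
  exact hs

theorem ExD.le {s t : (ℕ → M) → M} (hs : EG F s) (ht : EG F t) : ExD F (fun u => s u ≤ t u) := by
  refine ExD.subst (R := fun a u => s u ≤ a) ?_ ht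
  refine ExD.subst (R := fun a u => a ≤ u 0) ?_ hs.shift
  exact ExD.le_var 0 1

theorem ExD.lt {s t : (ℕ → M) → M} (hs : EG F s) (ht : EG F t) : ExD F (fun u => s u < t u) := by
  refine ExD.subst (R := fun a u => s u < a) ?_ ht
  refine ExD.subst (R := fun a u => a < u 0) ?_ hs.shift
  exact ExD.lt_var 0 1

theorem EG.add {s t : (ℕ → M) → M} (hs : EG F s) (ht : EG F t) : EG F (fun u => s u + t u) :=
  ExB1_comp2 (f := fun a b => a + b) (ExD.add_var 1 2 0) hs ht

theorem EG.mul {s t : (ℕ → M) → M} (hs : EG F s) (ht : EG F t) : EG F (fun u => s u * t u) :=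
  ExB1_comp2 (f := fun a b => a * b) (ExD.mul_var 1 2 0) hs ht

theorem EG.pr {s t : (ℕ → M) → M} (hs : EG F s) (ht : EG F t) : EG F (fun u => TruthCF.pr (s u) (t u)) :=
  EG.add (EG.mul (EG.add hs ht) (EG.add hs ht)) hs

private theorem ExB1_gap : ExD F (fun u : ℕ → M => u 0 = 0 ∧ ∃ s : M,
    s * s + s < u 1 ∧ u 1 < (s + 1) * (s + 1)) := by
  refine (ExD.param 0 0).and ?_
  refine ExD.ex (R := fun s u => s * s + s < u 1 ∧ u 1 < (s + 1) * (s + 1)) ?_
  refine ExD.and ?_ ?_
  · exact ExD.lt (EG.add (EG.mul (EG.var 0) (EG.var 0)) (EG.var 0)) (EG.var 2)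
  · exact ExD.lt (EG.var 2)
      (EG.mul (EG.add (EG.var 0) (EG.const 1)) (EG.add (EG.var 0) (EG.const 1)))

theorem EG.hd {s : (ℕ → M) → M} (hs : EG F s) : EG F (fun u => TruthCF.hd (s u)) := by
  refine ExB1_comp1 (f := fun a => TruthCF.hd a) ?_ hs
  have h1 : ExD F (fun u : ℕ → M => ∃ b, u 1 = TruthCF.pr (u 0) b) :=
    ExD.ex (R := fun b u => u 1 = TruthCF.pr (u 0) b)
      (ExD.eq (EG.var 2) (EG.pr (EG.var 1) (EG.var 0)))
  exact (h1.or ExB1_gap).congr fun u => (hd_eq_iff (u 1) (u 0)).symm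

theorem EG.tl {s : (ℕ → M) → M} (hs : EG F s) : EG F (fun u => TruthCF.tl (s u)) := by
  refine ExB1_comp1 (f := fun a => TruthCF.tl a) ?_ hs
  have h1 : ExD F (fun u : ℕ → M => ∃ a, u 1 = TruthCF.pr a (u 0)) :=
    ExD.ex (R := fun a u => u 1 = TruthCF.pr a (u 0))
      (ExD.eq (EG.var 2) (EG.pr (EG.var 0) (EG.var 1)))
  exact (h1.or ExB1_gap).congr fun u => (tl_eq_iff (u 1) (u 0)).symm

end TruthCF
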