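import Mathlib

set_option autoImplicit false
set_option linter.all false

/-!
# MP_cfede9_lc, module Mt1: realisation of finitely satisfiable sets of formulas in an elementary extension

Proof: ultrapower of `M` over the index set `Finset Φ` (or finite subsets of `Φ`), ultrafilter containing all
`{s | θ ∈ s}`; for each finite `s` choose `w_s : κ → M` realising all members of `s`; `w' k` = class of `s ↦ w_s k`;
`e` = diagonal embedding, elementary by Los (`FirstOrder.Language.Ultraproduct.realize_formula_cast`).
-/

open FirstOrder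

namespace TruthCF

theorem realize_type (L : FirstOrder.Language.{0, 0}) (M : Type) [L.Structure M] [Nonempty M] (κ : Type)
    (Φ : Set (L.Formula (M ⊕ κ)))
    (hΦ : ∀ s : Finset (L.Formula (M ⊕ κ)), (∀ θ ∈ s, θ ∈ Φ) →
      ∃ w : κ → M, ∀ θ ∈ s, θ.Realize (Sum.elim id w)) :
    ∃ (N : Type) (_ : L.Structure N) (e : M ↪ₑ[L] N) (w : κ → N), ∀ θ ∈ Φ, θ.Realize (Sum.elim e w) := by
  classical
  choose W hW using fun s : Finset (L.Formula (M ⊕ κ)) =>
    hΦ (s.filter (fun θ => θ ∈ Φ)) (fun θ hθ => (Finset.mem_filter.1 hθ).2)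
  let I := Finset (L.Formula (M ⊕ κ))
  let u : Ultrafilter I := Ultrafilter.of Filter.atTop
  let x : M ⊕ κ → I → M := Sum.elim (fun m _ => m) (fun k s => W s k)
  let N : Type := (u : Filter I).Product (fun _ => M)
  let c : (I → M) → N := fun f => (f : (u : Filter I).Product (fun _ => M))
  let e : M ↪ₑ[L] N :=
    { toFun := fun m => c (fun _ => m)
      map_formula' := by
        intro n φ v
        have := Language.Ultraproduct.realize_formula_cast (u := u) (M := fun _ => M) φ
          (fun i _ => v i)
        refine Iff.trans this ?_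
        rw [Filter.eventually_const] }
  refine ⟨N, inferInstance, e, fun k => c (fun s => W s k), fun θ hθ => ?_⟩
  have h1 := Language.Ultraproduct.realize_formula_cast (u := u) (M := fun _ => M) θ x
  have h2 : (Sum.elim (⇑e) (fun k => c (fun s => W s k)) : M ⊕ κ → N) = fun i => c (x i) := by
    funext i
    rcases i with m | k <;> rfl
  rw [h2]
  refine h1.2 ?_
  have h0 : ∀ᶠ s : I in Filter.atTop, ({θ} : Finset (L.Formula (M ⊕ κ))) ≤ s :=
    Filter.eventually_ge_atTop _
  have h3 : ∀ᶠ s : I in (u : Filter I), ({θ} : Finset (L.Formula (M ⊕ κ))) ≤ s :=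
    (Ultrafilter.of_le Filter.atTop : (u : Filter I) ≤ _) h0
  filter_upwards [h3] with s hs
  have h4 := hW s θ (Finset.mem_filter.2 ⟨hs (Finset.mem_singleton_self θ), hθ⟩)
  convert h4 using 1
  funext i
  rcases i with m | k <;> rfl

end TruthCF
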