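import Pool.Agent.Work.MP_cfede9_lc.Nic4
import Pool.Agent.Work.MP_cfede9_lc.Mt1

set_option autoImplicit false
set_option linter.all false

/-!
# MP_cfede9_lc, module Flp1: realisation of types by nice models
-/

open FirstOrder

namespace TruthCF

variable {L' : FirstOrder.Language.{0, 0}}

/-- realisation of types by nice models (Mt1 and `nice_of_elem`) -/
theorem realize_nice {M : Type} [PAm M] [L'.Structure M] (κ : Type)
    (Φ : Set ((LA.sum L').Formula (M ⊕ κ)))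
    (hΦ : ∀ s : Finset ((LA.sum L').Formula (M ⊕ κ)), (∀ θ ∈ s, θ ∈ Φ) →
      ∃ w : κ → M, ∀ θ ∈ s, θ.Realize (Sum.elim id w)) :
    ∃ (N : Type) (_ : PAm N) (_ : L'.Structure N) (e : M ↪ₑ[LA.sum L'] N) (w : κ → N),
      ∀ θ ∈ Φ, θ.Realize (Sum.elim e w) := by
  have hM : Nonempty M := ⟨0⟩
  obtain ⟨N, S, e, w, h⟩ := realize_type (LA.sum L') M κ Φ hΦ
  have hN : Nonempty N := ⟨e 0⟩
  obtain ⟨P, Q, hS⟩ := nice_of_elem L' (M := M) S
    (fun σ hσ => (e.map_sentence σ).mp hσ)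
  subst hS
  exact ⟨N, P, Q, e, w, h⟩

end TruthCF
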