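import Pool.Agent.Work.MP_cfede9_lc.ExA2
import Pool.Agent.Work.MP_cfede9_lc.Emb2

set_option autoImplicit false
set_option linter.all false

/-!
# MP_cfede9_lc, module SatT1: programs and embeddings, conjunction of programs, parameters
-/

open FirstOrder

namespace TruthCF

variable {L' : FirstOrder.Language.{0, 0}} {M N : Type} [PAm M] [L'.Structure M] [PAm N] [L'.Structure N]

/-- acceptance is preserved by embeddings which preserve and reflect the formulas of `F` -/
theorem Sat1.map {F : FL L'} (f : M ↪[LA.sum L'] N) (hf : PresF F f) {b u : ℕ → M} {p : List Con}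
    (h : Sat1 F b u p) : Sat1 F (fun i => f (b i)) (fun i => f (u i)) p := by
  obtain ⟨w, hw⟩ := h
  have hA : AEmb (f : M → N) := aemb_of_emb f
  refine ⟨fun i => f (w i), fun c hc => ?_⟩
  have h1 := hw c hc
  cases c with
  | zero i =>
    show f (w i) = 0
    have h2 : w i = 0 := h1
    rw [h2]
    exact hA.zero
  | one i =>
    show f (w i) = 1
    have h2 : w i = 1 := h1
    rw [h2]
    exact hA.one
  | add i j k =>
    show f (w i) + f (w j) = f (w k)
    have h2 : w i + w j = w k := h1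
    rw [← h2]
    exact (hA.add _ _).symm
  | mul i j k =>
    show f (w i) * f (w j) = f (w k)
    have h2 : w i * w j = w k := h1
    rw [← h2]
    exact (hA.mul _ _).symm
  | le i j => exact (hA.le _ _).2 h1
  | lt i j => exact (hA.lt _ _).2 h1
  | par i j =>
    show f (w i) = f (b j)
    have h2 : w i = b j := h1
    rw [h2]
  | inp i j =>
    show f (w i) = f (u j)
    have h2 : w i = u j := h1
    rw [h2]
  | tt k i =>
    obtain ⟨θ, h2, h3⟩ := h1
    exact ⟨θ, h2, (hf θ (List.mem_of_getElem? h2) (w i)).1 h3⟩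
  | ff k i =>
    obtain ⟨θ, h2, h3⟩ := h1
    exact ⟨θ, h2, fun h4 => h3 ((hf θ (List.mem_of_getElem? h2) (w i)).2 h4)⟩
  | triv => trivial
  | bad => exact h1

theorem Sat.map {F : FL L'} (f : M ↪[LA.sum L'] N) (hf : PresF F f) {b u : ℕ → M} {D : List (List Con)}
    (h : Sat F b u D) : Sat F (fun i => f (b i)) (fun i => f (u i)) D := by
  obtain ⟨p, hp, h1⟩ := h
  exact ⟨p, hp, h1.map f hf⟩

/-- renaming of registers -/
private def ren (g : ℕ → ℕ) : Con → Con
  | Con.zero i => Con.zero (g i)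
  | Con.one i => Con.one (g i)
  | Con.add i j k => Con.add (g i) (g j) (g k)
  | Con.mul i j k => Con.mul (g i) (g j) (g k)
  | Con.le i j => Con.le (g i) (g j)
  | Con.lt i j => Con.lt (g i) (g j)
  | Con.par i j => Con.par (g i) j
  | Con.inp i j => Con.inp (g i) j
  | Con.tt k i => Con.tt k (g i)
  | Con.ff k i => Con.ff k (g i)
  | Con.triv => Con.triv
  | Con.bad => Con.bad

private theorem holds_ren (F : FL L') (g : ℕ → ℕ) (b u w : ℕ → M) (c : Con) :
    (ren g c).holds F b u w ↔ c.holds F b u (fun i => w (g i)) := by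
  cases c <;> exact Iff.rfl

/-- conjunction of two programs (registers `2*i` and `2*i+1`) -/
theorem sat1_and (p p' : List Con) : ∃ q : List Con, ∀ (F : FL L') (M : Type) [PAm M] [L'.Structure M]
    (b u : ℕ → M), Sat1 F b u q ↔ Sat1 F b u p ∧ Sat1 F b u p' := by
  refine ⟨p.map (ren fun i => 2 * i) ++ p'.map (ren fun i => 2 * i + 1), fun F M _ _ b u => ?_⟩
  constructor
  · rintro ⟨w, hw⟩
    refine ⟨⟨fun i => w (2 * i), fun c hc => ?_⟩, ⟨fun i => w (2 * i + 1), fun c hc => ?_⟩⟩
    · exact (holds_ren F _ b u w c).1 (hw _ (List.mem_append_left _ (List.mem_map_of_mem hc)))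
    · exact (holds_ren F _ b u w c).1 (hw _ (List.mem_append_right _ (List.mem_map_of_mem hc)))
  · rintro ⟨⟨w, hw⟩, ⟨w', hw'⟩⟩
    refine ⟨fun i => if i % 2 = 0 then w (i / 2) else w' (i / 2), fun c hc => ?_⟩
    rcases List.mem_append.1 hc with h | h
    · obtain ⟨d, hd, rfl⟩ := List.mem_map.1 h
      rw [holds_ren]
      have e : (fun i => if 2 * i % 2 = 0 then w (2 * i / 2) else w' (2 * i / 2)) = w := by
        funext i
        rw [if_pos (by omega)]
        congr 1
        omega
      rw [e]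
      exact hw d hd
    · obtain ⟨d, hd, rfl⟩ := List.mem_map.1 h
      rw [holds_ren]
      have e : (fun i => if (2 * i + 1) % 2 = 0 then w ((2 * i + 1) / 2) else
          w' ((2 * i + 1) / 2)) = w' := by
        funext i
        rw [if_neg (by omega)]
        congr 1
        omega
      rw [e]
      exact hw' d hd

/-- conjunction of finitely many programs -/
theorem sat1_all (l : List (List Con)) : ∃ q : List Con, ∀ (F : FL L') (M : Type) [PAm M] [L'.Structure M]
    (b u : ℕ → M), Sat1 F b u q ↔ ∀ p ∈ l, Sat1 F b u p := by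
  induction l with
  | nil =>
    refine ⟨[], fun F M _ _ b u => ⟨fun _ p hp => absurd hp (List.not_mem_nil), fun _ => ?_⟩⟩
    exact ⟨fun _ => 0, fun c hc => absurd hc (List.not_mem_nil)⟩
  | cons p l ih =>
    obtain ⟨q, hq⟩ := ih
    obtain ⟨r, hr⟩ := sat1_and (L' := L') p q
    refine ⟨r, fun F M _ _ b u => ?_⟩
    rw [hr, hq, List.forall_mem_cons]

/-- all inputs are replaced by input 0 -/
private def inp0 : Con → Con
  | Con.inp i j => Con.inp i 0
  | c => c

private theorem holds_inp0 (F : FL L') (b u w : ℕ → M) (c : Con) :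
    (inp0 c).holds F b u w ↔ c.holds F b (fun _ => u 0) w := by
  cases c <;> exact Iff.rfl

/-- programs with one input -/
theorem exD_of_const {F : FL L'} {X : M → Prop} {b : ℕ → M} {D : List (List Con)}
    (h : ∀ u, X u ↔ Sat F b (fun _ => u) D) : ExD F (fun u : ℕ → M => X (u 0)) := by
  refine ⟨D.map (List.map inp0), b, fun u => ?_⟩
  show X (u 0) ↔ _
  rw [h]
  constructor
  · rintro ⟨p, hp, w, hw⟩
    refine ⟨p.map inp0, List.mem_map_of_mem hp, w, fun c hc => ?_⟩
    obtain ⟨d, hd, rfl⟩ := List.mem_map.1 hc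
    exact (holds_inp0 F b u w d).2 (hw d hd)
  · rintro ⟨p, hp, w, hw⟩
    obtain ⟨p', hp', rfl⟩ := List.mem_map.1 hp
    exact ⟨p', hp', w, fun c hc => (holds_inp0 F b u w c).1 (hw _ (List.mem_map_of_mem hc))⟩

private theorem bound_list {α : Type} (Q : α → ℕ → Prop) (hmono : ∀ c J J', J ≤ J' → Q c J → Q c J')
    (l : List α) (h : ∀ c ∈ l, ∃ J, Q c J) : ∃ J, ∀ c ∈ l, Q c J := by
  induction l with
  | nil => exact ⟨0, fun c hc => absurd hc (List.not_mem_nil)⟩
  | cons c l ih =>
    obtain ⟨J, hJ⟩ := ih fun d hd => h d (List.mem_cons_of_mem _ hd)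
    obtain ⟨J', hJ'⟩ := h c List.mem_cons_self
    refine ⟨max J J', fun d hd => ?_⟩
    rcases List.mem_cons.1 hd with rfl | hd
    · exact hmono _ _ _ (le_max_right _ _) hJ'
    · exact hmono _ _ _ (le_max_left _ _) (hJ d hd)

private theorem holds_bound (F : FL L') (c : Con) : ∃ J : ℕ, ∀ (M : Type) [PAm M] [L'.Structure M]
    (b b' u w : ℕ → M), (∀ j < J, b j = b' j) → (c.holds F b u w ↔ c.holds F b' u w) := by
  cases c with
  | par i j =>
    refine ⟨j + 1, fun M _ _ b b' u w h => ?_⟩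
    show w i = b j ↔ w i = b' j
    rw [h j (Nat.lt_succ_self j)]
  | _ => exact ⟨0, fun M _ _ b b' u w h => Iff.rfl⟩

/-- acceptance depends only on finitely many parameters -/
theorem Sat.bound (F : FL L') (D : List (List Con)) : ∃ J : ℕ, ∀ (M : Type) [PAm M] [L'.Structure M]
    (b b' u : ℕ → M), (∀ j < J, b j = b' j) → (Sat F b u D ↔ Sat F b' u D) := by
  obtain ⟨J, hJ⟩ := bound_list (fun (p : List Con) (J : ℕ) => ∀ c ∈ p, ∀ (M : Type) [PAm M]
      [L'.Structure M] (b b' u w : ℕ → M), (∀ j < J, b j = b' j) →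
      (c.holds F b u w ↔ c.holds F b' u w))
    (fun p J J' hJ h c hc M _ _ b b' u w hb => h c hc M b b' u w fun j hj =>
      hb j (lt_of_lt_of_le hj hJ)) D
    (fun p _ => bound_list (fun (c : Con) (J : ℕ) => ∀ (M : Type) [PAm M]
      [L'.Structure M] (b b' u w : ℕ → M), (∀ j < J, b j = b' j) →
      (c.holds F b u w ↔ c.holds F b' u w))
      (fun c J J' hJ h M _ _ b b' u w hb => h M b b' u w fun j hj => hb j (lt_of_lt_of_le hj hJ)) p
      (fun c _ => holds_bound F c))
  refine ⟨J, fun M _ _ b b' u hb => ?_⟩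
  constructor
  · rintro ⟨p, hp, w, hw⟩
    exact ⟨p, hp, w, fun c hc => (hJ p hp c hc M b b' u w hb).1 (hw c hc)⟩
  · rintro ⟨p, hp, w, hw⟩
    exact ⟨p, hp, w, fun c hc => (hJ p hp c hc M b b' u w hb).2 (hw c hc)⟩

end TruthCF
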