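import Pool.Agent.Work.MP_cfede9_lc.UDb

set_option autoImplicit false
set_option linter.all false

/-!
# MP_cfede9_lc, module UDv1: truth of fixed formulas under coded environments is uniformly definable
-/

open FirstOrder

namespace TruthCF

variable {L' : FirstOrder.Language.{0, 0}}

/-- a bounded formula as a uniformly definable relation of its variables -/
theorem ud_realize {n : ℕ} (θ : (LA.sum L').BoundedFormula Empty n) :
    UD L' (fun M _ _ v => θ.Realize (default : Empty → M) (fun i : Fin n => v i)) := by
  refine ⟨Language.Formula.relabel (Sum.elim (fun e : Empty => e.elim) (fun i : Fin n => (i : ℕ)))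
    θ.toFormula, fun M _ _ v => ?_⟩
  rw [Language.Formula.realize_relabel, Language.BoundedFormula.realize_toFormula, iff_eq_eq]
  congr 1
  exact Subsingleton.elim _ _

/-- substitution of the values coded by an environment (induction on `n`) -/
theorem ud_val (n : ℕ) (R : ∀ (M : Type) [PAm M] [L'.Structure M], (Fin n → M) → (ℕ → M) → Prop)
    (hR : UD L' (fun M _ _ v => R M (fun i : Fin n => v i) (fun i => v (i + n)))) :
    UD L' (fun M _ _ v => R M (val n (v 0)) (fun i => v (i + 1))) := by
  induction n with
  | zero =>
    refine (hR.relabel (fun i => i + 1)).congr fun M _ _ v => ?_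
    rw [iff_eq_eq]
    congr 1
    exact Subsingleton.elim _ _
  | succ n ih =>
    have h1 := ih (fun M _ _ x w => R M (Fin.snoc (α := fun _ => M) x (w 0)) (fun i => w (i + 1)))
      (hR.congr fun M _ _ v => by
        rw [iff_eq_eq]
        congr 1
        · funext i
          refine Fin.lastCases ?_ (fun i => ?_) i
          · rw [Fin.snoc_last, Fin.val_last]
            show v n = v (0 + n)
            rw [zero_add]
          · rw [Fin.snoc_castSucc, Fin.val_castSucc]
        · funext i
          show v (i + (n + 1)) = v (i + 1 + n)
          rw [Nat.add_assoc, Nat.add_comm 1 n])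
    refine UD.subst (R := fun M _ _ a v => R M (Fin.snoc (α := fun _ => M) (val n a) (hd (v 0)))
      (fun i => v (i + 1))) (t := fun M _ _ v => tl (v 0)) ?_ (UG.tl (UG.var 0))
    refine UD.subst (R := fun M _ _ b v => R M (Fin.snoc (α := fun _ => M) (val n (v 0)) b)
      (fun i => v (i + 2))) (t := fun M _ _ v => hd (v 1)) ?_ (UG.hd (UG.var 1))
    exact (h1.relabel (fun i => match i with | 0 => 1 | 1 => 0 | i + 2 => i + 3)).congr
      fun M _ _ v => Iff.rfl

theorem ud_Sv {n : ℕ} (θ : (LA.sum L').BoundedFormula Empty n) : UD L' (fun M _ _ v => Sv θ (v 0)) :=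
  ud_val n (fun M _ _ x _ => θ.Realize (default : Empty → M) x) (ud_realize θ)

end TruthCF
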