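import Pool.Agent.Work.MP_cfede9_lc.Prog
import Pool.Agent.Work.MP_cfede9_lc.Crt

set_option autoImplicit false
set_option linter.all false

/-!
# MP_cfede9_lc, module Uni3: the universal formula for existentially definable sets

`g` codes `m`, `c₁`, `c₂`: the program number `k < m` consists of the constraints coded by the `m` numbers
`bt c₁ c₂ (pr k l)`, `l < m`. Registers: `i ↦ bt w₁ w₂ i`, parameters: `j ↦ bt b₁ b₂ j`, input: `u`.
-/

open FirstOrder

namespace TruthCF

variable {L' : FirstOrder.Language.{0, 0}}

/-- a bound for the registers of a constraint -/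
private def cb : Con → ℕ
  | Con.zero i => i + 1
  | Con.one i => i + 1
  | Con.add i j k => i + j + k + 1
  | Con.mul i j k => i + j + k + 1
  | Con.le i j => i + j + 1
  | Con.lt i j => i + j + 1
  | Con.par i _ => i + 1
  | Con.inp i _ => i + 1
  | Con.tt _ i => i + 1
  | Con.ff _ i => i + 1
  | Con.triv => 0
  | Con.bad => 0

private theorem holds_congr (F : FL L') {M : Type} [PAm M] [L'.Structure M] (b u w w' : ℕ → M) (c : Con)
    (h : ∀ i < cb c, w i = w' i) (hc : c.holds F b u w) : c.holds F b u w' := by
  cases c with
  | zero i => simpa only [Con.holds, h i (by simp only [cb]; omega)] using hc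
  | one i => simpa only [Con.holds, h i (by simp only [cb]; omega)] using hc
  | add i j k =>
    simpa only [Con.holds, h i (by simp only [cb]; omega), h j (by simp only [cb]; omega),
      h k (by simp only [cb]; omega)] using hc
  | mul i j k =>
    simpa only [Con.holds, h i (by simp only [cb]; omega), h j (by simp only [cb]; omega),
      h k (by simp only [cb]; omega)] using hc
  | le i j =>
    simpa only [Con.holds, h i (by simp only [cb]; omega), h j (by simp only [cb]; omega)] using hc
  | lt i j =>
    simpa only [Con.holds, h i (by simp only [cb]; omega), h j (by simp only [cb]; omega)] using hc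
  | par i j => simpa only [Con.holds, h i (by simp only [cb]; omega)] using hc
  | inp i j => simpa only [Con.holds, h i (by simp only [cb]; omega)] using hc
  | tt k i => simpa only [Con.holds, h i (by simp only [cb]; omega)] using hc
  | ff k i => simpa only [Con.holds, h i (by simp only [cb]; omega)] using hc
  | triv => trivial
  | bad => exact hc

private theorem cb_bound (p : List Con) : ∃ N : ℕ, ∀ c ∈ p, cb c ≤ N := by
  induction p with
  | nil => exact ⟨0, fun c hc => absurd hc (List.not_mem_nil)⟩
  | cons a p ih =>
    obtain ⟨N, hN⟩ := ih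
    refine ⟨max (cb a) N, fun c hc => ?_⟩
    rcases List.mem_cons.1 hc with rfl | hc
    · exact le_max_left _ _
    · exact (hN c hc).trans (le_max_right _ _)

/-- registers given by a function can be coded (only finitely many registers occur in `p`) -/
theorem sat1_code (F : FL L') (p : List Con) {M : Type} [PAm M] [L'.Structure M] (b u : ℕ → M) :
    Sat1 F b u p ↔ ∃ w₁ w₂ : M, ∀ c ∈ p, c.holds F b u (fun i => bt w₁ w₂ (i : M)) := by
  constructor
  · rintro ⟨w, hw⟩
    obtain ⟨N, hN⟩ := cb_bound p
    obtain ⟨w₁, w₂, h⟩ := exists_bt N w
    refine ⟨w₁, w₂, fun c hc => holds_congr F b u w _ c (fun i hi => ?_) (hw c hc)⟩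
    exact (h i (lt_of_lt_of_le hi (hN c hc))).symm
  · rintro ⟨w₁, w₂, h⟩
    exact ⟨_, h⟩

end TruthCF
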