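import Pool.Agent.Work.MP_cfede9_lc.Prog
import Pool.Agent.Work.MP_cfede9_lc.UDv1
import Pool.Agent.Work.MP_cfede9_lc.Emb2
import Pool.Agent.Work.MP_cfede9_lc.Uni3

set_option autoImplicit false
set_option linter.all false

/-!
# MP_cfede9_lc, module SatT2: acceptance is uniformly definable
-/

open FirstOrder

namespace TruthCF

variable {L' : FirstOrder.Language.{0, 0}} {M N : Type} [PAm M] [L'.Structure M] [PAm N] [L'.Structure N]

private theorem ud_holds (F : FL L') (c : Con) (B U W : ℕ → Fn L') (hB : ∀ i, UG L' (B i))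
    (hU : ∀ i, UG L' (U i)) (hW : ∀ i, UG L' (W i)) :
    UD L' (fun M _ _ v => c.holds F (fun i => B i M v) (fun i => U i M v) (fun i => W i M v)) := by
  cases c with
  | zero i => exact UD.eq (hW i) UG.zero
  | one i => exact UD.eq (hW i) UG.one
  | add i j k => exact UD.eq ((hW i).add (hW j)) (hW k)
  | mul i j k => exact UD.eq ((hW i).mul (hW j)) (hW k)
  | le i j => exact UD.le (hW i) (hW j)
  | lt i j => exact UD.lt (hW i) (hW j)
  | par i j => exact UD.eq (hW i) (hB j)
  | inp i j => exact UD.eq (hW i) (hU j)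
  | tt k i =>
    rcases hk : F[k]? with _ | θ
    · refine (UD.const False).congr fun M _ _ v => ?_
      show False ↔ ∃ θ, F[k]? = some θ ∧ Sv θ.2 (W i M v)
      rw [hk]
      constructor
      · exact False.elim
      · rintro ⟨θ, h, -⟩
        exact absurd h (by simp)
    · refine (UD.comp₁ (R := fun M _ _ a => Sv θ.2 a) (ud_Sv θ.2) (hW i)).congr
        fun M _ _ v => ?_
      show Sv θ.2 (W i M v) ↔ ∃ θ, F[k]? = some θ ∧ Sv θ.2 (W i M v)
      rw [hk]
      constructor
      · intro h
        exact ⟨θ, rfl, h⟩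
      · rintro ⟨θ', h, h'⟩
        rw [Option.some.injEq] at h
        rw [h]
        exact h'
  | ff k i =>
    rcases hk : F[k]? with _ | θ
    · refine (UD.const False).congr fun M _ _ v => ?_
      show False ↔ ∃ θ, F[k]? = some θ ∧ ¬ Sv θ.2 (W i M v)
      rw [hk]
      constructor
      · exact False.elim
      · rintro ⟨θ, h, -⟩
        exact absurd h (by simp)
    · refine ((UD.comp₁ (R := fun M _ _ a => Sv θ.2 a) (ud_Sv θ.2) (hW i)).not).congr
        fun M _ _ v => ?_
      show ¬ Sv θ.2 (W i M v) ↔ ∃ θ, F[k]? = some θ ∧ ¬ Sv θ.2 (W i M v)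
      rw [hk]
      constructor
      · intro h
        exact ⟨θ, rfl, h⟩
      · rintro ⟨θ', h, h'⟩
        rw [Option.some.injEq] at h
        rw [h]
        exact h'
  | triv => exact UD.const True
  | bad => exact UD.const False

private theorem ud_list (p : List Con)
    (P : Con → Rl L') (hP : ∀ c, UD L' (P c)) :
    UD L' (fun M _ _ v => ∀ c ∈ p, P c M v) := by
  induction p with
  | nil =>
    refine (UD.const True).congr fun M _ _ v => ?_
    simp
  | cons c p ih =>
    refine ((hP c).and ih).congr fun M _ _ v => ?_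
    simp only [List.mem_cons, forall_eq_or_imp]

/-- `Sat1` is uniformly definable: parameters at the even variables, inputs at the odd ones
(only the registers occurring in `p` matter, quantify over them one after the other) -/
theorem ud_Sat1 (F : FL L') (p : List Con) :
    UD L' (fun M _ _ v => Sat1 F (fun i => v (2 * i)) (fun i => v (2 * i + 1)) p) := by
  refine (UD.ex (R := fun M _ _ w₁ v => ∃ w₂ : M, ∀ c ∈ p,
    c.holds F (fun i => v (2 * i)) (fun i => v (2 * i + 1)) (fun i => bt w₁ w₂ (i : M))) ?_).congr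
    (fun M _ _ v => (sat1_code F p _ _).symm)
  refine UD.ex (R := fun M _ _ w₂ v => ∀ c ∈ p,
    c.holds F (fun i => v (2 * i + 1)) (fun i => v (2 * i + 1 + 1))
      (fun i => bt (v 0) w₂ (i : M))) ?_
  refine ud_list p (fun c M _ _ v => c.holds F (fun i => v (2 * i + 1 + 1))
    (fun i => v (2 * i + 1 + 1 + 1)) (fun i => bt (v (0 + 1)) (v 0) (i : M))) fun c => ?_
  exact ud_holds F c (fun i M _ _ v => v (2 * i + 1 + 1)) (fun i M _ _ v => v (2 * i + 1 + 1 + 1))
    (fun i M _ _ v => bt (v (0 + 1)) (v 0) (i : M)) (fun i => UG.var _) (fun i => UG.var _)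
    (fun i => UG.bt (UG.var _) (UG.var _) (UG.natCast i))

theorem Sat1.elem (F : FL L') (e : M ↪ₑ[LA.sum L'] N) (b u : ℕ → M) (p : List Con) :
    Sat1 F b u p ↔ Sat1 F (fun i => e (b i)) (fun i => e (u i)) p := by
  have h := UD.elem (ud_Sat1 F p) e (fun n => if n % 2 = 0 then b (n / 2) else u (n / 2))
  have e1 : ∀ i : ℕ, 2 * i % 2 = 0 := fun i => by omega
  have e2 : ∀ i : ℕ, (2 * i + 1) % 2 ≠ 0 := fun i => by omega
  have e3 : ∀ i : ℕ, 2 * i / 2 = i := fun i => by omega
  have e4 : ∀ i : ℕ, (2 * i + 1) / 2 = i := fun i => by omega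
  simp only [if_pos (e1 _), if_neg (e2 _), e3, e4] at h
  exact h

theorem Sat.elem (F : FL L') (e : M ↪ₑ[LA.sum L'] N) (b u : ℕ → M) (D : List (List Con)) :
    Sat F b u D ↔ Sat F (fun i => e (b i)) (fun i => e (u i)) D := by
  unfold Sat
  refine exists_congr fun p => and_congr_right fun _ => ?_
  exact Sat1.elem F e b u p

end TruthCF
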