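import Pool.Agent.Work.MP_cfede9_lc.Ctx
import Pool.Agent.Work.MP_cfede9_lc.Flp1
import Pool.Agent.Work.MP_cfede9_lc.SatT1
import Pool.Agent.Work.MP_cfede9_lc.SatT2
import Pool.Agent.Work.MP_cfede9_lc.UDv2

set_option autoImplicit false
set_option linter.all false

/-!
# MP_cfede9_lc, module Flp3: existence of flippable points
-/

open FirstOrder

namespace TruthCF

variable {L' : FirstOrder.Language.{0, 0}}

private theorem flp3_Sa_elem {n : ℕ} (χ : LA.BoundedFormula Empty n) {M N : Type} [PAm M]
    [L'.Structure M] [PAm N] [L'.Structure N] (e : M ↪ₑ[LA.sum L'] N) (x : M) :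
    Sa χ (e x) ↔ Sa χ x := by
  obtain ⟨φ, hφ⟩ := ud_Sa (L' := L') χ
  have h1 := hφ N (fun _ => e x)
  have h2 := hφ M (fun _ => x)
  have h3 := e.map_formula φ (fun _ => x)
  exact h1.symm.trans (h3.trans h2)

/-- variables: parameters `b` at the even places, the new element at the odd places -/
private def flp3_g {M : Type} (b : ℕ → M) : ℕ → M ⊕ Unit :=
  fun i => if i % 2 = 0 then Sum.inl (b (i / 2)) else Sum.inr ()

private theorem flp3_real (F : FL L') (p : List Con) {φ : (LA.sum L').Formula ℕ}
    (hφ : ∀ (M : Type) [PAm M] [L'.Structure M] (v : ℕ → M),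
      φ.Realize v ↔ Sat1 F (fun i => v (2 * i)) (fun i => v (2 * i + 1)) p)
    {M N : Type} [PAm N] [L'.Structure N] (b : ℕ → M) (c : M → N) (w : Unit → N) :
    (Language.Formula.relabel (flp3_g b) φ).Realize (Sum.elim c w) ↔
      Sat1 F (fun i => c (b i)) (fun _ => w ()) p := by
  rw [Language.Formula.realize_relabel, hφ]
  have h1 : (fun i => (Sum.elim c w ∘ flp3_g b) (2 * i)) = fun i => c (b i) := by
    funext i
    have h2 : 2 * i % 2 = 0 := Nat.mul_mod_right 2 i
    have h3 : 2 * i / 2 = i := Nat.mul_div_cancel_left i (by norm_num)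
    simp only [Function.comp, flp3_g, h2, h3, if_true, Sum.elim_inl]
  have h4 : (fun i => (Sum.elim c w ∘ flp3_g b) (2 * i + 1)) = fun _ => w () := by
    funext i
    have h2 : ¬ (2 * i + 1) % 2 = 0 := by omega
    simp only [Function.comp, flp3_g, if_neg h2, Sum.elim_inr]
  rw [h1, h4]

private theorem flp3_chi {n : ℕ} (χ : LA.BoundedFormula Empty n) {φ : (LA.sum L').Formula ℕ}
    (hφ : ∀ (M : Type) [PAm M] [L'.Structure M] (v : ℕ → M), φ.Realize v ↔ Sa χ (v 0))
    {M N : Type} [PAm N] [L'.Structure N] (c : M → N) (w : Unit → N) :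
    (Language.Formula.relabel (fun _ => (Sum.inr () : M ⊕ Unit)) φ).Realize (Sum.elim c w) ↔
      Sa χ (w ()) := by
  rw [Language.Formula.realize_relabel, hφ]
  rfl

private theorem flp3_not {α N : Type} [(LA.sum L').Structure N] (θ : (LA.sum L').Formula α)
    (v : α → N) : (Language.Formula.not θ).Realize v ↔ ¬ θ.Realize v :=
  Language.Formula.realize_not

private theorem flp3_bad (F : FL L') {M : Type} [PAm M] [L'.Structure M] (b u : ℕ → M) :
    ¬ Sat1 F b u [Con.bad] := by
  rintro ⟨w, h⟩
  exact h Con.bad (List.mem_singleton.2 rfl)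

/-- flippable points exist in an elementary extension.
First extension: `x` with `Sa χ x` outside all `Sat1 F b (fun _ => x) p` with `∀ u, Sat1 F b (fun _ => u) p → Sa χ u`
(finitely many such `p` do not cover `χ`). Second extension: `x'` with `¬ Sa χ x'` and `Sat1 F b (fun _ => x') p` for
all `p` accepted by `x` (finitely many `p` are combined to one program by renaming registers). -/
theorem exists_flip {F : FL L'} {n : ℕ} {χ : LA.BoundedFormula Empty n} {M : Type} [PAm M] [L'.Structure M]
    (h : ¬ ExD F (fun u : ℕ → M => Sa χ (u 0))) (b : ℕ → M) :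
    ∃ (N : Type) (_ : PAm N) (_ : L'.Structure N) (e : M ↪ₑ[LA.sum L'] N) (x : N),
      Flip F χ (fun i => e (b i)) x := by
  classical
  obtain ⟨ψ, hψ⟩ := ud_Sa (L' := L') χ
  have hS := fun p : List Con => ud_Sat1 F p
  choose φ hφ using hS
  -- the first extension
  obtain ⟨N1, P1, Q1, e1, w1, h1⟩ := realize_nice (M := M) Unit
    ({Language.Formula.relabel (fun _ => (Sum.inr () : M ⊕ Unit)) ψ} ∪
      {θ | ∃ p : List Con, (∀ u : M, Sat1 F b (fun _ => u) p → Sa χ u) ∧
        θ = Language.Formula.not (Language.Formula.relabel (flp3_g b) (φ p))}) (by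
      intro s hs
      by_contra hcon
      apply h
      let c : (LA.sum L').Formula (M ⊕ Unit) → List Con := fun θ =>
        if hθ : ∃ p : List Con, (∀ u : M, Sat1 F b (fun _ => u) p → Sa χ u) ∧
          θ = Language.Formula.not (Language.Formula.relabel (flp3_g b) (φ p))
        then hθ.choose else [Con.bad]
      have hc : ∀ θ u, Sat1 F b (fun _ => u) (c θ) → Sa χ u := by
        intro θ u hu
        by_cases hθ : ∃ p : List Con, (∀ u : M, Sat1 F b (fun _ => u) p → Sa χ u) ∧
          θ = Language.Formula.not (Language.Formula.relabel (flp3_g b) (φ p))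
        · have e : c θ = hθ.choose := dif_pos hθ
          rw [e] at hu
          exact hθ.choose_spec.1 u hu
        · have e : c θ = [Con.bad] := dif_neg hθ
          rw [e] at hu
          exact absurd hu (flp3_bad F b _)
      refine exD_of_const (b := b) (D := s.toList.map c) (X := fun u => Sa χ u) fun u => ?_
      constructor
      · intro hu
        by_contra hno
        apply hcon
        refine ⟨fun _ => u, fun θ hθ => ?_⟩
        rcases hs θ hθ with h2 | ⟨p, hp, h2⟩
        · have h3 : θ = Language.Formula.relabel (fun _ => (Sum.inr () : M ⊕ Unit)) ψ := h2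
          rw [h3]
          exact (flp3_chi χ hψ id (fun _ => u)).2 hu
        · have hθ' : ∃ p : List Con, (∀ u : M, Sat1 F b (fun _ => u) p → Sa χ u) ∧
            θ = Language.Formula.not (Language.Formula.relabel (flp3_g b) (φ p)) :=
            ⟨p, hp, h2⟩
          have e : c θ = hθ'.choose := dif_pos hθ'
          have h4 := hθ'.choose_spec.2
          rw [← e] at h4
          rw [h4]
          refine (flp3_not _ _).2 fun h5 => ?_
          have h6 := (flp3_real F (c θ) (hφ (c θ)) b id (fun _ => u)).1 h5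
          exact hno ⟨c θ, List.mem_map.2 ⟨θ, Finset.mem_toList.2 hθ, rfl⟩, h6⟩
      · rintro ⟨p, hp, hu⟩
        obtain ⟨θ, -, rfl⟩ := List.mem_map.1 hp
        exact hc θ u hu)
  have hx1 : Sa χ (w1 ()) :=
    (flp3_chi χ hψ e1 w1).1 (h1 _ (Or.inl rfl))
  have hx2 : ∀ p : List Con, Sat1 F (fun i => e1 (b i)) (fun _ => w1 ()) p →
      ∃ u : M, Sat1 F b (fun _ => u) p ∧ ¬ Sa χ u := by
    intro p hp
    by_contra hcon
    have h2 : ∀ u : M, Sat1 F b (fun _ => u) p → Sa χ u := by
      intro u hu
      by_contra h3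
      exact hcon ⟨u, hu, h3⟩
    have h3 := h1 _ (Or.inr ⟨p, h2, rfl⟩)
    exact (flp3_not _ _).1 h3 ((flp3_real F p (hφ p) b e1 w1).2 hp)
  -- the second extension
  obtain ⟨N2, P2, Q2, e2, w2, h2⟩ := realize_nice (M := N1) Unit
    ({Language.Formula.not
        (Language.Formula.relabel (fun _ => (Sum.inr () : N1 ⊕ Unit)) ψ)} ∪
      {θ | ∃ p : List Con, Sat1 F (fun i => e1 (b i)) (fun _ => w1 ()) p ∧
        θ = Language.Formula.relabel (flp3_g fun i => e1 (b i)) (φ p)}) (by
      intro s hs
      let c : (LA.sum L').Formula (N1 ⊕ Unit) → List Con := fun θ =>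
        if hθ : ∃ p : List Con, Sat1 F (fun i => e1 (b i)) (fun _ => w1 ()) p ∧
          θ = Language.Formula.relabel (flp3_g fun i => e1 (b i)) (φ p)
        then hθ.choose else []
      have hc : ∀ θ, Sat1 F (fun i => e1 (b i)) (fun _ => w1 ()) (c θ) := by
        intro θ
        by_cases hθ : ∃ p : List Con, Sat1 F (fun i => e1 (b i)) (fun _ => w1 ()) p ∧
          θ = Language.Formula.relabel (flp3_g fun i => e1 (b i)) (φ p)
        · have e : c θ = hθ.choose := dif_pos hθ
          rw [e]
          exact hθ.choose_spec.1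
        · have e : c θ = [] := dif_neg hθ
          rw [e]
          exact ⟨fun _ => 0, fun c hc => absurd hc List.not_mem_nil⟩
      obtain ⟨q, hq⟩ := sat1_all (L' := L') (s.toList.map c)
      have hq1 : Sat1 F (fun i => e1 (b i)) (fun _ => w1 ()) q := by
        rw [hq]
        intro p hp
        obtain ⟨θ, -, rfl⟩ := List.mem_map.1 hp
        exact hc θ
      obtain ⟨u, hu1, hu2⟩ := hx2 q hq1
      refine ⟨fun _ => e1 u, fun θ hθ => ?_⟩
      rcases hs θ hθ with h3 | ⟨p, hp, h3⟩
      · have h4 : θ = Language.Formula.not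
          (Language.Formula.relabel (fun _ => (Sum.inr () : N1 ⊕ Unit)) ψ) := h3
        rw [h4]
        refine (flp3_not _ _).2 fun h5 => ?_
        have h6 := (flp3_chi χ hψ id (fun _ => e1 u)).1 h5
        exact hu2 ((flp3_Sa_elem χ e1 u).1 h6)
      · have hθ' : ∃ p : List Con, Sat1 F (fun i => e1 (b i)) (fun _ => w1 ()) p ∧
          θ = Language.Formula.relabel (flp3_g fun i => e1 (b i)) (φ p) := ⟨p, hp, h3⟩
        have e : c θ = hθ'.choose := dif_pos hθ'
        have h4 := hθ'.choose_spec.2
        rw [← e] at h4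
        rw [h4]
        refine (flp3_real F (c θ) (hφ (c θ)) (fun i => e1 (b i)) id (fun _ => e1 u)).2 ?_
        have h5 : Sat1 F b (fun _ => u) (c θ) :=
          (hq F M b (fun _ => u)).1 hu1 (c θ)
            (List.mem_map.2 ⟨θ, Finset.mem_toList.2 hθ, rfl⟩)
        exact (Sat1.elem F e1 b (fun _ => u) (c θ)).1 h5)
  refine ⟨N2, P2, Q2, e2.comp e1, e2 (w1 ()), (flp3_Sa_elem χ e2 _).2 hx1, w2 (), ?_, ?_⟩
  · intro h3
    have h4 := h2 _ (Or.inl rfl)
    exact (flp3_not _ _).1 h4 ((flp3_chi χ hψ e2 w2).2 h3)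
  · intro p hp
    have h3 : Sat1 F (fun i => e1 (b i)) (fun _ => w1 ()) p :=
      (Sat1.elem F e2 (fun i => e1 (b i)) (fun _ => w1 ()) p).2 hp
    have h4 := h2 _ (Or.inr ⟨p, h3, rfl⟩)
    exact (flp3_real F p (hφ p) (fun i => e1 (b i)) e2 w2).1 h4

end TruthCF
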