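import Pool.Agent.Work.MP_cfede9_lc.Flp2
import Pool.Agent.Work.MP_cfede9_lc.Flp3

set_option autoImplicit false
set_option linter.all false

/-!
# MP_cfede9_lc, module Flp4: sequences of flippable points

Induction on `m` (for fixed `M`, `b`): apply `exists_flip` to the model for `m` with the parameters `mix x (e ∘ b) m`.
-/

open FirstOrder

namespace TruthCF

variable {L' : FirstOrder.Language.{0, 0}}

/-- long sequences of successively flippable points -/
theorem seq_flip {F : FL L'} {n : ℕ} {χ : LA.BoundedFormula Empty n} {M : Type} [PAm M] [L'.Structure M]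
    (h : ¬ ExD F (fun u : ℕ → M => Sa χ (u 0))) (b : ℕ → M) (m : ℕ) :
    ∃ (N : Type) (_ : PAm N) (_ : L'.Structure N) (e : M ↪ₑ[LA.sum L'] N) (x : ℕ → N),
      ∀ i < m, Flip F χ (mix x (fun i => e (b i)) i) (x i) := by
  induction m with
  | zero =>
    exact ⟨M, inferInstance, inferInstance, FirstOrder.Language.ElementaryEmbedding.refl _ M, b,
      fun i hi => absurd hi (Nat.not_lt_zero i)⟩
  | succ m ih =>
    obtain ⟨N, iN1, iN2, e, x, hx⟩ := ih
    obtain ⟨N', iN1', iN2', e', y, hy⟩ := exists_flip (nd_elem e h) (mix x (fun i => e (b i)) m)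
    refine ⟨N', iN1', iN2', e'.comp e, fun i => if i < m then e' (x i) else y, ?_⟩
    have hmix : ∀ i ≤ m, mix (fun i => if i < m then e' (x i) else y)
        (fun i => (e'.comp e) (b i)) i = fun j => e' (mix x (fun i => e (b i)) i j) := by
      intro i hi
      funext j
      unfold mix
      by_cases hj : j < i
      · rw [if_pos hj, if_pos hj]
        exact if_pos (lt_of_lt_of_le hj hi)
      · rw [if_neg hj, if_neg hj]
        rfl
    intro i hi
    rcases Nat.lt_succ_iff_lt_or_eq.1 hi with h1 | h1
    · rw [hmix i h1.le]
      have h2 := (hx i h1).elem e'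
      have h3 : (fun i => if i < m then e' (x i) else y) i = e' (x i) := if_pos h1
      rw [h3]
      exact h2
    · subst h1
      have h3 : (fun j => if j < i then e' (x j) else y) i = y := if_neg (lt_irrefl i)
      rw [hmix i le_rfl, h3]
      exact hy

end TruthCF
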