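import Pool.Agent.Work.MP_cfede9_lc.SubD

set_option autoImplicit false
set_option linter.all false

/-!
# MP_cfede9_lc, module Subs: lists of subformulas
-/

open FirstOrder

namespace TruthCF

theorem self_mem_subsF {L : FirstOrder.Language.{0, 0}} {n : ℕ} (φ : L.BoundedFormula Empty n) :
    (⟨n, φ⟩ : Σ n : ℕ, L.BoundedFormula Empty n) ∈ subsF φ := by
  cases φ <;> simp [subsF]

private theorem subs_imp {L : FirstOrder.Language.{0, 0}} {n : ℕ} (φ : L.BoundedFormula Empty n) :
    ∀ (m : ℕ) (a b : L.BoundedFormula Empty m),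
      (⟨m, a.imp b⟩ : Σ n : ℕ, L.BoundedFormula Empty n) ∈ subsF φ →
      (⟨m, a⟩ : Σ n : ℕ, L.BoundedFormula Empty n) ∈ subsF φ ∧
        (⟨m, b⟩ : Σ n : ℕ, L.BoundedFormula Empty n) ∈ subsF φ := by
  induction φ with
  | falsum =>
    intro m a b h
    simp only [subsF, List.mem_singleton, Sigma.mk.injEq] at h
    obtain ⟨rfl, h⟩ := h
    cases h
  | equal t s =>
    intro m a b h
    simp only [subsF, List.mem_singleton, Sigma.mk.injEq] at h
    obtain ⟨rfl, h⟩ := h
    cases h
  | rel r ts =>
    intro m a b h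
    simp only [subsF, List.mem_singleton, Sigma.mk.injEq] at h
    obtain ⟨rfl, h⟩ := h
    cases h
  | imp φ ψ h1 h2 =>
    intro m a b h
    simp only [subsF, List.mem_cons, List.mem_append] at h ⊢
    rcases h with h | h | h
    · simp only [Sigma.mk.injEq] at h
      obtain ⟨rfl, h⟩ := h
      have h3 := eq_of_heq h
      simp only [Language.BoundedFormula.imp.injEq] at h3
      obtain ⟨rfl, rfl⟩ := h3
      exact ⟨Or.inr (Or.inl (self_mem_subsF _)), Or.inr (Or.inr (self_mem_subsF _))⟩
    · exact ⟨Or.inr (Or.inl (h1 m a b h).1), Or.inr (Or.inl (h1 m a b h).2)⟩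
    · exact ⟨Or.inr (Or.inr (h2 m a b h).1), Or.inr (Or.inr (h2 m a b h).2)⟩
  | all φ h1 =>
    intro m a b h
    simp only [subsF, List.mem_cons] at h ⊢
    rcases h with h | h
    · simp only [Sigma.mk.injEq] at h
      obtain ⟨rfl, h⟩ := h
      cases h
    · exact ⟨Or.inr (h1 m a b h).1, Or.inr (h1 m a b h).2⟩

private theorem subs_all {L : FirstOrder.Language.{0, 0}} {n : ℕ} (φ : L.BoundedFormula Empty n) :
    ∀ (m : ℕ) (a : L.BoundedFormula Empty (m + 1)),
      (⟨m, a.all⟩ : Σ n : ℕ, L.BoundedFormula Empty n) ∈ subsF φ →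
      (⟨m + 1, a⟩ : Σ n : ℕ, L.BoundedFormula Empty n) ∈ subsF φ := by
  induction φ with
  | falsum =>
    intro m a h
    simp only [subsF, List.mem_singleton, Sigma.mk.injEq] at h
    obtain ⟨rfl, h⟩ := h
    cases h
  | equal t s =>
    intro m a h
    simp only [subsF, List.mem_singleton, Sigma.mk.injEq] at h
    obtain ⟨rfl, h⟩ := h
    cases h
  | rel r ts =>
    intro m a h
    simp only [subsF, List.mem_singleton, Sigma.mk.injEq] at h
    obtain ⟨rfl, h⟩ := h
    cases h
  | imp φ ψ h1 h2 =>
    intro m a h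
    simp only [subsF, List.mem_cons, List.mem_append] at h ⊢
    rcases h with h | h | h
    · simp only [Sigma.mk.injEq] at h
      obtain ⟨rfl, h⟩ := h
      cases h
    · exact Or.inr (Or.inl (h1 m a h))
    · exact Or.inr (Or.inr (h2 m a h))
  | all φ h1 =>
    intro m a h
    simp only [subsF, List.mem_cons] at h ⊢
    rcases h with h | h
    · simp only [Sigma.mk.injEq] at h
      obtain ⟨rfl, h⟩ := h
      have h3 := eq_of_heq h
      simp only [Language.BoundedFormula.all.injEq] at h3
      subst h3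
      exact Or.inr (self_mem_subsF _)
    · exact Or.inr (h1 m a h)

theorem subClosed_subsF {L : FirstOrder.Language.{0, 0}} {n : ℕ} (φ : L.BoundedFormula Empty n) :
    SubClosed {θ | θ ∈ subsF φ} :=
  ⟨fun m a b h => subs_imp φ m a b h, fun m a h => subs_all φ m a h⟩

theorem subClosed_union {L : FirstOrder.Language.{0, 0}} {A B : Set (Σ n : ℕ, L.BoundedFormula Empty n)}
    (hA : SubClosed A) (hB : SubClosed B) : SubClosed (A ∪ B) := by
  refine ⟨fun m a b h => ?_, fun m a h => ?_⟩
  · rcases h with h | h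
    · exact ⟨Or.inl (hA.1 m a b h).1, Or.inl (hA.1 m a b h).2⟩
    · exact ⟨Or.inr (hB.1 m a b h).1, Or.inr (hB.1 m a b h).2⟩
  · rcases h with h | h
    · exact Or.inl (hA.2 m a h)
    · exact Or.inr (hB.2 m a h)

theorem subClosed_lsub (L' : FirstOrder.Language.{0, 0}) {n : ℕ} (φ : LA.BoundedFormula Empty n) :
    SubClosed (lsub L' φ) := by
  refine ⟨fun m a b h => ?_, fun m a h => ?_⟩
  · obtain ⟨⟨k, η⟩, h1, h2⟩ := h
    simp only [liftF, Sigma.mk.injEq] at h2
    obtain ⟨rfl, h2⟩ := h2
    have h3 := eq_of_heq h2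
    cases η with
    | falsum => cases h3
    | equal t s => cases h3
    | rel r ts => cases h3
    | imp x y =>
      simp only [Language.LHom.onBoundedFormula, Language.BoundedFormula.imp.injEq] at h3
      obtain ⟨rfl, rfl⟩ := h3
      have h4 := subs_imp φ m x y h1
      exact ⟨⟨_, h4.1, rfl⟩, ⟨_, h4.2, rfl⟩⟩
    | all x => cases h3
  · obtain ⟨⟨k, η⟩, h1, h2⟩ := h
    simp only [liftF, Sigma.mk.injEq] at h2
    obtain ⟨rfl, h2⟩ := h2
    have h3 := eq_of_heq h2
    cases η with
    | falsum => cases h3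
    | equal t s => cases h3
    | rel r ts => cases h3
    | imp x y => cases h3
    | all x =>
      simp only [Language.LHom.onBoundedFormula, Language.BoundedFormula.all.injEq] at h3
      subst h3
      exact ⟨_, subs_all φ m x h1, rfl⟩

theorem HGood.good {L' : FirstOrder.Language.{0, 0}} {K : Ctx L'} {n : ℕ} {φ : LA.BoundedFormula Empty n}
    (h : HGood K φ) : Good K φ := by
  cases φ with
  | falsum => exact h
  | equal t s => exact h
  | rel r ts => exact h
  | imp φ ψ => exact h.1
  | all φ => exact h.1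

theorem HGood.subs {L' : FirstOrder.Language.{0, 0}} {K : Ctx L'} {n : ℕ} {φ : LA.BoundedFormula Empty n}
    (h : HGood K φ) : ∀ θ ∈ subsF φ, Good K θ.2 := by
  induction φ with
  | falsum =>
    intro θ hθ
    simp only [subsF, List.mem_singleton] at hθ
    subst hθ
    exact h
  | equal t s =>
    intro θ hθ
    simp only [subsF, List.mem_singleton] at hθ
    subst hθ
    exact h
  | rel r ts =>
    intro θ hθ
    simp only [subsF, List.mem_singleton] at hθ
    subst hθ
    exact h
  | imp φ ψ h1 h2 =>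
    intro θ hθ
    simp only [subsF, List.mem_cons, List.mem_append] at hθ
    rcases hθ with rfl | hθ | hθ
    · exact h.1
    · exact h1 h.2.1 θ hθ
    · exact h2 h.2.2 θ hθ
  | all φ h1 =>
    intro θ hθ
    simp only [subsF, List.mem_cons] at hθ
    rcases hθ with rfl | hθ
    · exact h.1
    · exact h1 h.2 θ hθ

end TruthCF
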