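import Pool.Agent.Work.MP_cfede9_lc.Chs2
import Pool.Agent.Work.MP_cfede9_lc.Subs
import Pool.Agent.Work.MP_cfede9_lc.Chn1
import Pool.Agent.Work.MP_cfede9_lc.Flp4
import Pool.Agent.Work.MP_cfede9_lc.ExB1
import Pool.Agent.Work.MP_cfede9_lc.Crt

set_option autoImplicit false
set_option linter.all false

/-!
# MP_cfede9_lc, module Chn2: the chain with `m` flips as a chain of structures

Parameters `b` for all subformulas of `ψ` (both polarities) and for `not ψ.all` from `ExD.common`; definability over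
`b` is a first order property of `b`, so it is kept by elementary maps; a map preserving `F` with `f b = b` preserves
the sets `Sat F b _ D`, hence all these formulas.
-/

open FirstOrder

namespace TruthCF

variable {L' : FirstOrder.Language.{0, 0}}

private theorem chn2_sat (F : FL L') (D : List (List Con)) :
    UD L' (fun M _ _ v => Sat F (fun i => v (i + 1)) (fun _ => v 0) D) := by
  induction D with
  | nil => exact (UD.const False).congr fun M _ _ v => by simp [Sat]
  | cons p D ih =>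
    have h1 := UD.relabel (ud_Sat1 F p) (fun j => if j % 2 = 0 then j / 2 + 1 else 0)
    refine (UD.or h1 ih).congr fun M _ _ v => ?_
    have e1 : (fun i : ℕ => v (if 2 * i % 2 = 0 then 2 * i / 2 + 1 else 0)) = fun i => v (i + 1) := by
      funext i
      rw [if_pos (by omega), Nat.mul_div_cancel_left i (by norm_num)]
    have e2 : (fun i : ℕ => v (if (2 * i + 1) % 2 = 0 then (2 * i + 1) / 2 + 1 else 0)) =
        fun _ => v 0 := by
      funext i
      rw [if_neg (by omega)]
    simp only [e1, e2]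
    simp [Sat]

private theorem chn2_def (R : ∀ (M : Type) [PAm M] [L'.Structure M], M → Prop)
    (hR : UD L' (fun M _ _ v => R M (v 0))) (F : FL L') (D : List (List Con)) {M N : Type} [PAm M]
    [L'.Structure M] [PAm N] [L'.Structure N] (e : M ↪ₑ[LA.sum L'] N) (b : ℕ → M) (b' : ℕ → N)
    (hb : ∀ j, b' j = e (b j)) (h : ∀ u : M, R M u ↔ Sat F b (fun _ => u) D) :
    ∀ u : N, R N u ↔ Sat F b' (fun _ => u) D := by
  have h1 : UD L' (fun M _ _ v => ∀ u, (R M u ↔ Sat F v (fun _ => u) D)) :=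
    UD.all (R := fun M _ _ u v => (R M u ↔ Sat F v (fun _ => u) D)) (UD.iff hR (chn2_sat F D))
  have h2 := (UD.elem h1 e b).1 h
  have h3 : b' = fun i => e (b i) := funext hb
  rw [h3]
  exact h2

private theorem chn2_sent {M N : Type} [PAm M] [L'.Structure M] [PAm N] [L'.Structure N]
    (e : M ↪ₑ[LA.sum L'] N) (σ : (LA.sum L').BoundedFormula Empty 0) :
    σ.Realize (M := N) default default ↔ σ.Realize (M := M) default default := by
  have h := e.map_boundedFormula σ default default
  rwa [Subsingleton.elim (e ∘ default : Empty → N) default,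
    Subsingleton.elim (e ∘ default : Fin 0 → N) default] at h

private theorem chn2_all {n : ℕ} (ψ : LA.BoundedFormula Empty (n + 1)) {M : Type} [PAm M] (u : M) :
    (∃ a, ¬ Sa ψ (pr a u)) ↔ ¬ Sa ψ.all u := by
  unfold Sa
  rw [Language.BoundedFormula.realize_all, not_forall]
  refine exists_congr fun a => ?_
  have h : val (n + 1) (pr a u) = Fin.snoc (α := fun _ => M) (val n u) a := by
    show Fin.snoc (α := fun _ => M) (val n (tl (pr a u))) (hd (pr a u)) = _
    rw [tl_pr, hd_pr]
  rw [h]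

private theorem chn2_params (K : Ctx L') {M : Type} [PAm M] [L'.Structure M] (hM : K.Mod M) {n : ℕ}
    (ψ : LA.BoundedFormula Empty (n + 1)) (hψ : HGood K ψ) :
    ∃ b : ℕ → M, (∃ D : List (List Con), ∀ u : M, ¬ Sa ψ.all u ↔ Sat K.F b (fun _ => u) D) ∧
      ∀ η ∈ subsF ψ, ∃ D D' : List (List Con), (∀ u : M, Sa η.2 u ↔ Sat K.F b (fun _ => u) D) ∧
        (∀ u : M, ¬ Sa η.2 u ↔ Sat K.F b (fun _ => u) D') := by
  let ι : Type := Option ((Σ n : ℕ, LA.BoundedFormula Empty n) × Bool)
  let R : ι → (ℕ → M) → Prop := fun i u => match i with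
    | none => ¬ Sa ψ.all (u 0)
    | some (η, true) => Sa η.2 (u 0)
    | some (η, false) => ¬ Sa η.2 (u 0)
  let l : List ι := none :: ((subsF ψ).map (fun η => some (η, true)) ++
    (subsF ψ).map (fun η => some (η, false)))
  have hl : ∀ i ∈ l, ExD K.F (R i) := by
    intro i hi
    rcases List.mem_cons.1 hi with rfl | hi
    · have h1 := (hψ.good M hM).2
      have h2 : ExD K.F (fun u : ℕ → M => ¬ Sa ψ (pr (u 0) (u 1))) :=
        ExD.subst (R := fun a _ => ¬ Sa ψ a) h1 (EG.pr (EG.var 0) (EG.var 1))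
      have h3 : ExD K.F (fun u : ℕ → M => ∃ a, ¬ Sa ψ (pr a (u 0))) :=
        ExD.ex (R := fun a u => ¬ Sa ψ (pr a (u 0))) h2
      exact h3.congr fun u => chn2_all ψ (u 0)
    · rcases List.mem_append.1 hi with hi | hi
      · obtain ⟨η, hη, rfl⟩ := List.mem_map.1 hi
        exact (hψ.subs η hη M hM).1
      · obtain ⟨η, hη, rfl⟩ := List.mem_map.1 hi
        exact (hψ.subs η hη M hM).2
  obtain ⟨b, hb⟩ := ExD.common l R hl
  refine ⟨b, ?_, fun η hη => ?_⟩
  · obtain ⟨D, hD⟩ := hb none (List.mem_cons_self)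
    exact ⟨D, fun u => hD (fun _ => u)⟩
  · obtain ⟨D, hD⟩ := hb (some (η, true)) (List.mem_cons_of_mem _ (List.mem_append_left _
      (List.mem_map.2 ⟨η, hη, rfl⟩)))
    obtain ⟨D', hD'⟩ := hb (some (η, false)) (List.mem_cons_of_mem _ (List.mem_append_right _
      (List.mem_map.2 ⟨η, hη, rfl⟩)))
    exact ⟨D, D', fun u => hD (fun _ => u), fun u => hD' (fun _ => u)⟩

/-- the marked elements -/
private def chn2_a (t : ℕ → Stt L') (f : ∀ k, (t k).X ↪[LA.sum L'] (t (k + 1)).X)
    (a₀ : Fin 3 → (t 0).X) : ∀ k, Fin 3 → (t k).X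
  | 0 => a₀
  | k + 1 => f k ∘ chn2_a t f a₀ k

/-- the chain with `m` flips, as a chain of structures with the marked elements `p_k`, `q_k`, `ν_k = m` -/
theorem chain_m (K : Ctx L') {M : Type} [PAm M] [L'.Structure M] (hM : K.Mod M) {n : ℕ}
    (ψ : LA.BoundedFormula Empty (n + 1)) (hψ : HGood K ψ)
    (hnd : ¬ ExD K.F (fun u : ℕ → M => Sa ψ.all (u 0)))
    (φ κ : ℕ → (LA.sum L').BoundedFormula Empty 3)
    (hφ : ∀ k (M : Type) [PAm M] [L'.Structure M] (a : Fin 3 → M),
      (φ k).Realize default a ↔ ChProp ψ.all k (a 0) (a 1) (a 2))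
    (hκ : ∀ k (M : Type) [PAm M] [L'.Structure M] (a : Fin 3 → M), (κ k).Realize default a ↔ (k : M) < a 2)
    (m : ℕ) :
    ∃ c : Chn (LA.sum L'), (∀ k, Pres (K.F.set ∪ lsub L' ψ) (c.f k)) ∧
      (∀ k (σ : (LA.sum L').BoundedFormula Empty 0),
        σ.Realize (M := c.C k) default default ↔ σ.Realize (M := M) default default) ∧
      (∀ k, (φ k).Realize default (c.a k)) ∧ ∀ j < m, ∀ k, (κ j).Realize default (c.a k) := by
  obtain ⟨b, ⟨D, hD⟩, hb⟩ := chn2_params K hM ψ hψ
  choose! D1 D2 hD1 hD2 using hb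
  obtain ⟨N, iN, jN, e, x, hx⟩ := seq_flip hnd b m
  let s : Stt L' := ⟨N, iN, jN, fun i => e (b i), x⟩
  have hs : Inv K.F ψ.all D m 0 s := by
    refine ⟨?_, fun i hi => hx i (by omega), fun i h1 h2 => absurd h1 (by omega)⟩
    exact chn2_def (R := fun M _ _ u => ¬ Sa ψ.all u) (ud_Sa ψ.all).not K.F D e b _ (fun _ => rfl) hD
  obtain ⟨t, f, ht0, hch⟩ := chain_states K ψ.all D m s hs
  -- definability over the parameters in all models of the chain
  have hdef : ∀ k, ∀ η ∈ subsF ψ, (∀ u : (t k).X, Sa η.2 u ↔ Sat K.F (t k).b (fun _ => u) (D1 η)) ∧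
      (∀ u : (t k).X, ¬ Sa η.2 u ↔ Sat K.F (t k).b (fun _ => u) (D2 η)) := by
    intro k
    induction k with
    | zero =>
      rw [ht0]
      intro η hη
      exact ⟨chn2_def (R := fun M _ _ u => Sa η.2 u) (ud_Sa η.2) K.F _ e b _ (fun _ => rfl) (hD1 η hη),
        chn2_def (R := fun M _ _ u => ¬ Sa η.2 u) (ud_Sa η.2).not K.F _ e b _ (fun _ => rfl)
          (hD2 η hη)⟩
    | succ k ih =>
      intro η hη
      obtain ⟨-, -, -, -, e', he'⟩ := hch k
      exact ⟨chn2_def (R := fun M _ _ u => Sa η.2 u) (ud_Sa η.2) K.F _ e' _ _ he' (ih η hη).1,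
        chn2_def (R := fun M _ _ u => ¬ Sa η.2 u) (ud_Sa η.2).not K.F _ e' _ _ he' (ih η hη).2⟩
  have hpres : ∀ k, ∀ η ∈ subsF ψ, ∀ u : (t k).X, Sa η.2 u ↔ Sa η.2 (f k u) := by
    intro k η hη u
    obtain ⟨hF, hb', -, -, -⟩ := hch k
    have hbb : (t (k + 1)).b = fun j => f k ((t k).b j) := funext hb'
    have h1 := hdef k η hη
    have h2 := hdef (k + 1) η hη
    constructor
    · intro h
      rw [h2.1, hbb]
      exact Sat.map (f k) hF ((h1.1 u).1 h)
    · intro h
      by_contra hc
      have h3 := Sat.map (f k) hF ((h1.2 u).1 hc)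
      rw [← hbb] at h3
      exact (h2.2 (f k u)).2 h3 h
  -- sentences
  have hsent : ∀ k (σ : (LA.sum L').BoundedFormula Empty 0),
      σ.Realize (M := (t k).X) default default ↔ σ.Realize (M := M) default default := by
    intro k σ
    induction k with
    | zero =>
      rw [ht0]
      exact chn2_sent e σ
    | succ k ih =>
      obtain ⟨-, -, -, -, e', -⟩ := hch k
      exact (chn2_sent e' σ).trans ih
  -- marked elements
  obtain ⟨p, q, hpq⟩ := exists_bt m (t 0).x
  let a := chn2_a t f ![p, q, (m : (t 0).X)]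
  have ha : ∀ k, a k 2 = (m : (t k).X) ∧ ∀ i < m, bt (a k 0) (a k 1) (i : (t k).X) = (t k).x i := by
    intro k
    induction k with
    | zero => exact ⟨rfl, hpq⟩
    | succ k ih =>
      obtain ⟨-, -, hx', -, -⟩ := hch k
      have hA := aemb_of_emb (f k)
      refine ⟨?_, fun i hi => ?_⟩
      · show f k (a k 2) = _
        rw [ih.1, hA.cast]
      · show bt (f k (a k 0)) (f k (a k 1)) _ = _
        rw [← hA.cast i, ← hA.bt, ih.2 i hi, hx']
  let c : Chn (LA.sum L') :=
    { C := fun k => (t k).X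
      str := fun k => inferInstance
      ne := fun k => ⟨0⟩
      f := f
      a := a
      ha := fun k => rfl }
  refine ⟨c, fun k => ?_, hsent, fun k => ?_, fun j hj k => ?_⟩
  · intro θ hθ
    rcases hθ with hθ | hθ
    · exact presF_to_Pres (f k) (hch k).1 θ hθ
    · obtain ⟨η, hη, rfl⟩ := hθ
      intro v
      obtain ⟨u, hu⟩ := val_surj (M := (t k).X) η.1 v
      have h1 := hpres k η hη u
      rw [← Sv_lift (L' := L') η.2 u, ← Sv_lift (L' := L') η.2 (f k u)] at h1
      unfold Sv at h1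
      rw [← (aemb_of_emb (f k)).val η.1 u, hu] at h1
      exact h1
  · refine (hφ k (t k).X (a k)).2 ?_
    obtain ⟨h1, h2⟩ := ha k
    have hI := (hch k).2.2.2.1
    unfold ChProp
    rw [h1]
    constructor
    · intro i hi
      have hi' : i < (m : (t k).X) := lt_of_le_of_lt (le_add_right le_rfl) hi
      obtain ⟨i', hi'm, rfl⟩ := std_of_lt hi'
      rw [h2 i' hi'm]
      refine (hI.fl i' ?_).1
      have h3 : ¬ ((m : (t k).X) ≤ ((i' + k : ℕ) : (t k).X)) := by
        rw [not_le]
        push_cast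
        exact hi
      rw [cast_le_iff] at h3
      omega
    · intro i hi hik
      obtain ⟨i', hi'm, rfl⟩ := std_of_lt hi
      rw [h2 i' hi'm]
      refine hI.fd i' hi'm ?_
      have h3 : (m : (t k).X) ≤ ((i' + k : ℕ) : (t k).X) := by
        push_cast
        exact hik
      rwa [cast_le_iff] at h3
  · refine (hκ j (t k).X (a k)).2 ?_
    rw [(ha k).1, ← not_le, cast_le_iff]
    omega

end TruthCF
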