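import Pool.Agent.Work.MP_cfede9_lc.MtD

set_option autoImplicit false
set_option linter.all false

/-!
# MP_cfede9_lc, module Mt2: ultraproduct of a sequence of chains

`C n k` = the `k`-th model of the `n`-th chain. The maps `f n k` are embeddings which preserve and reflect the
formulas of the set `G`. The `k`-th model of the new chain is the ultraproduct over `n` of the `C n k`.
-/

open FirstOrder

namespace TruthCF

open Language Structure

/-- the class of a sequence -/
private def cl {ι : Type} {M : ι → Type} (u : Ultrafilter ι) (x : ∀ a, M a) :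
    (u : Filter ι).Product M := (x : (u : Filter ι).Product M)

private theorem exists_rep {ι : Type} {M : ι → Type} {u : Ultrafilter ι} {n : ℕ}
    (x : Fin n → (u : Filter ι).Product M) :
    ∃ v : Fin n → ∀ a, M a, x = fun i => cl u (v i) :=
  ⟨fun i => (x i).out, funext fun i => (Quotient.out_eq (x i)).symm⟩

private theorem los {L : FirstOrder.Language.{0, 0}} {ι : Type} {M : ι → Type} [∀ a, L.Structure (M a)]
    [∀ a, Nonempty (M a)] {u : Ultrafilter ι} {n : ℕ} (φ : L.BoundedFormula Empty n)
    (v : Fin n → ∀ a, M a) :
    φ.Realize (default : Empty → (u : Filter ι).Product M) (fun i => cl u (v i)) ↔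
      ∀ᶠ a : ι in u, φ.Realize (default : Empty → M a) fun i => v i a := by
  have h := Language.Ultraproduct.boundedFormula_realize_cast (u := u) (M := M) φ
    (fun i : Empty => i.elim) v
  have e1 : (fun i : Empty => (((i.elim : ∀ a, M a)) : (u : Filter ι).Product M)) =
      (default : Empty → (u : Filter ι).Product M) := Subsingleton.elim _ _
  have e2 : ∀ a : ι, (fun i : Empty => (i.elim : ∀ a, M a) a) = (default : Empty → M a) :=
    fun a => Subsingleton.elim _ _
  rw [e1] at h
  simp only [e2] at h
  exact h

private theorem fun_cl {L : FirstOrder.Language.{0, 0}} {ι : Type} {M : ι → Type}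
    [∀ a, L.Structure (M a)] (u : Ultrafilter ι) {n : ℕ} (f : L.Functions n) (v : Fin n → ∀ a, M a) :
    funMap f (fun i => cl u (v i)) = cl u fun a => funMap f fun i => v i a :=
  Language.Ultraproduct.funMap_cast f v

private theorem rel_cl {L : FirstOrder.Language.{0, 0}} {ι : Type} {M : ι → Type}
    [∀ a, L.Structure (M a)] (u : Ultrafilter ι) {n : ℕ} (r : L.Relations n)
    (v : Fin n → ∀ a, M a) :
    RelMap r (fun i => cl u (v i)) ↔ ∀ᶠ a : ι in u, RelMap r fun i => v i a := by
  letI := Language.Ultraproduct.setoidPrestructure (L := L) M u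
  exact Iff.of_eq (propext (relMap_quotient_mk' ((u : Filter ι).productSetoid M) (v) (r := r)))

/-- the induced map of ultraproducts -/
private def umap {ι : Type} {M N : ι → Type} (u : Ultrafilter ι) (g : ∀ a, M a → N a) :
    (u : Filter ι).Product M → (u : Filter ι).Product N :=
  Quotient.map' (fun x a => g a (x a)) (by
    intro x y hxy
    exact Filter.mem_of_superset hxy fun a (ha : x a = y a) => congrArg (g a) ha)

private theorem umap_cl {ι : Type} {M N : ι → Type} (u : Ultrafilter ι) (g : ∀ a, M a → N a)
    (x : ∀ a, M a) : umap u g (cl u x) = cl u fun a => g a (x a) := rfl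

/-- the induced embedding of ultraproducts -/
private def uemb {L : FirstOrder.Language.{0, 0}} {ι : Type} {M N : ι → Type} [∀ a, L.Structure (M a)]
    [∀ a, L.Structure (N a)] (u : Ultrafilter ι) (g : ∀ a, M a ↪[L] N a) :
    (u : Filter ι).Product M ↪[L] (u : Filter ι).Product N where
  toFun := umap u fun a => g a
  inj' := by
    intro x y
    refine Quotient.inductionOn₂' x y fun x y h => ?_
    have h2 := Quotient.exact' h
    exact Quotient.sound' (Filter.mem_of_superset h2 fun a (ha : g a (x a) = g a (y a)) =>
      (g a).injective ha)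
  map_fun' := by
    intro n f x
    obtain ⟨v, rfl⟩ := exists_rep x
    have h1 : (umap u fun a => ⇑(g a)) ∘ (fun i => cl u (v i)) =
        fun i => cl u (fun a => g a (v i a)) := rfl
    rw [h1]
    refine (congrArg (umap u fun a => ⇑(g a)) (fun_cl u f v)).trans ?_
    refine Eq.trans ?_ (fun_cl u f fun i a => g a (v i a)).symm
    rw [umap_cl]
    congr 1
    funext a
    exact (g a).map_fun f fun i => v i a
  map_rel' := by
    intro n r x
    obtain ⟨v, rfl⟩ := exists_rep x
    have h1 : (umap u fun a => ⇑(g a)) ∘ (fun i => cl u (v i)) =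
        fun i => cl u (fun a => g a (v i a)) := rfl
    rw [h1]
    refine (rel_cl u r fun i a => g a (v i a)).trans ?_
    refine Iff.trans ?_ (rel_cl u r v).symm
    refine Filter.eventually_congr (Filter.Eventually.of_forall fun a => ?_)
    exact (g a).map_rel r fun i => v i a

private theorem uemb_cl {L : FirstOrder.Language.{0, 0}} {ι : Type} {M N : ι → Type}
    [∀ a, L.Structure (M a)] [∀ a, L.Structure (N a)] (u : Ultrafilter ι) (g : ∀ a, M a ↪[L] N a)
    (x : ∀ a, M a) : uemb u g (cl u x) = cl u fun a => g a (x a) := rfl

theorem ultra_chain (L : FirstOrder.Language.{0, 0}) (G : Set (Σ n : ℕ, L.BoundedFormula Empty n))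
    (c : ℕ → Chn L) (hG : ∀ n k, Pres G ((c n).f k)) :
    ∃ d : Chn L, (∀ k, Pres G (d.f k)) ∧
      (∀ (k : ℕ) (θ : L.BoundedFormula Empty 3),
        (∃ m, ∀ n, m ≤ n → θ.Realize default ((c n).a k)) → θ.Realize default (d.a k)) ∧
      (∀ (k : ℕ) (σ : L.BoundedFormula Empty 0),
        (∀ n, σ.Realize (M := (c n).C k) default default) → σ.Realize (M := d.C k) default default) := by
  classical
  let u : Ultrafilter ℕ := Ultrafilter.of Filter.atTop
  have hu : (u : Filter ℕ) ≤ Filter.atTop := Ultrafilter.of_le Filter.atTop
  let d : Chn L :=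
    { C := fun k => (u : Filter ℕ).Product fun n => (c n).C k
      str := fun k => inferInstance
      ne := fun k => inferInstance
      f := fun k => uemb u fun n => (c n).f k
      a := fun k i => cl u fun n => (c n).a k i
      ha := by
        intro k
        funext i
        refine (uemb_cl u (fun n => (c n).f k) fun n => (c n).a k i).trans ?_
        congr 1
        funext n
        exact congrFun ((c n).ha k) i }
  refine ⟨d, ?_, ?_, ?_⟩
  · intro k θ hθ v
    obtain ⟨w, rfl⟩ := exists_rep (u := u) (M := fun n => (c n).C k) v
    have h1 : ((d.f k : d.C k → d.C (k + 1)) ∘ (fun i => cl u (w i))) =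
        fun i => cl u (fun n => (c n).f k (w i n)) := rfl
    rw [h1]
    refine (los (M := fun n => (c n).C k) θ.2 w).trans ?_
    refine Iff.trans ?_ (los (M := fun n => (c n).C (k + 1)) θ.2 fun i n => (c n).f k (w i n)).symm
    refine Filter.eventually_congr (Filter.Eventually.of_forall fun n => ?_)
    exact hG n k θ hθ fun i => w i n
  · rintro k θ ⟨m, hm⟩
    refine (los (M := fun n => (c n).C k) θ fun i n => (c n).a k i).2 ?_
    exact hu (Filter.mem_of_superset (Filter.mem_atTop m) fun n hn => hm n hn)
  · intro k σ hσ
    have h1 := (los (u := u) (M := fun n => (c n).C k) σ fun i => i.elim0).2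
      (Filter.Eventually.of_forall fun n => by
        have h2 := hσ n
        have h3 : (fun i : Fin 0 => (i.elim0 : ∀ n, (c n).C k) n) = default := Subsingleton.elim _ _
        rw [h3]
        exact h2)
    have h4 : (fun i : Fin 0 => cl u (i.elim0 : ∀ n, (c n).C k)) = default := Subsingleton.elim _ _
    rw [h4] at h1
    exact h1

end TruthCF
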