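import Pool.Agent.Work.MP_cfede9_lc.Chn2
import Pool.Agent.Work.MP_cfede9_lc.Mt2

set_option autoImplicit false
set_option linter.all false

/-!
# MP_cfede9_lc, module Chn3: the chain with a nonstandard number of flips
-/

open FirstOrder

namespace TruthCF

variable {L' : FirstOrder.Language.{0, 0}}

/-- the chain with a nonstandard number of flips (ultraproduct of the chains `chain_m`) -/
theorem chain_inf (K : Ctx L') {M : Type} [PAm M] [L'.Structure M] (hM : K.Mod M) {n : ℕ}
    (ψ : LA.BoundedFormula Empty (n + 1)) (hψ : HGood K ψ)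
    (hnd : ¬ ExD K.F (fun u : ℕ → M => Sa ψ.all (u 0)))
    (φ κ : ℕ → (LA.sum L').BoundedFormula Empty 3)
    (hφ : ∀ k (M : Type) [PAm M] [L'.Structure M] (a : Fin 3 → M),
      (φ k).Realize default a ↔ ChProp ψ.all k (a 0) (a 1) (a 2))
    (hκ : ∀ k (M : Type) [PAm M] [L'.Structure M] (a : Fin 3 → M), (κ k).Realize default a ↔ (k : M) < a 2) :
    ∃ c : Chn (LA.sum L'), (∀ k, Pres (K.F.set ∪ lsub L' ψ) (c.f k)) ∧
      (∀ k (σ : (LA.sum L').BoundedFormula Empty 0),
        σ.Realize (M := c.C k) default default ↔ σ.Realize (M := M) default default) ∧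
      (∀ k, (φ k).Realize default (c.a k)) ∧ ∀ j k, (κ j).Realize default (c.a k) := by
  choose c h1 h2 h3 h4 using chain_m K hM ψ hψ hnd φ κ hφ hκ
  obtain ⟨d, hd1, hd2, hd3⟩ := ultra_chain (LA.sum L') (K.F.set ∪ lsub L' ψ) c h1
  refine ⟨d, hd1, fun k σ => ?_, fun k => ?_, fun j k => ?_⟩
  · constructor
    · intro h
      by_contra hc
      have h5 : ∀ n, σ.not.Realize (M := (c n).C k) default default := by
        intro n
        rw [Language.BoundedFormula.realize_not, h2 n k σ]
        exact hc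
      have h6 := hd3 k σ.not h5
      rw [Language.BoundedFormula.realize_not] at h6
      exact h6 h
    · intro h
      exact hd3 k σ fun n => (h2 n k σ).2 h
  · exact hd2 k (φ k) ⟨0, fun n _ => h3 n k⟩
  · exact hd2 k (κ j) ⟨j + 1, fun n hn => h4 n j hn k⟩

end TruthCF
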