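import Pool.Agent.Work.MP_cfede9_lc.MtD

set_option autoImplicit false
set_option linter.all false

/-!
# MP_cfede9_lc, module Mt3: union (direct limit) of a chain

Use `FirstOrder.Language.DirectLimit` with `FirstOrder.Language.DirectedSystem.natLERec`.
-/

open FirstOrder

namespace TruthCF

private theorem mt3_term {L : FirstOrder.Language.{0, 0}} {M N : Type} [L.Structure M] [L.Structure N]
    (g : M ↪[L] N) {n : ℕ} (t : L.Term (Empty ⊕ Fin n)) (v : Fin n → M) :
    t.realize (Sum.elim (default : Empty → N) (g ∘ v)) =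
      g (t.realize (Sum.elim (default : Empty → M) v)) := by
  rw [← Language.HomClass.realize_term]
  congr 1
  funext x
  rcases x with x | x
  · exact x.elim
  · rfl

private theorem mt3_snoc {M N : Type} (g : M → N) {n : ℕ} (v : Fin n → M) (a : M) :
    g ∘ (Fin.snoc v a : Fin (n + 1) → M) = (Fin.snoc (g ∘ v) (g a) : Fin (n + 1) → N) := by
  funext i
  refine Fin.lastCases ?_ (fun i => ?_) i
  · simp
  · simp

private theorem mt3_pres_id {L : FirstOrder.Language.{0, 0}} (G : Set (Σ n : ℕ, L.BoundedFormula Empty n))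
    {M : Type} [L.Structure M] (g : M → M) (h : ∀ x, g x = x) : Pres G g := by
  intro θ _ v
  have e : g ∘ v = v := funext fun i => h (v i)
  rw [e]

private theorem mt3_pres_le (L : FirstOrder.Language.{0, 0}) (G : Set (Σ n : ℕ, L.BoundedFormula Empty n))
    (c : Chn L) (hc : ∀ k, Pres G (c.f k)) (k l : ℕ) (h : k ≤ l) :
    Pres G (Language.DirectedSystem.natLERec c.f k l h) := by
  obtain ⟨d, rfl⟩ := Nat.exists_eq_add_of_le h
  induction d with
  | zero =>
    refine mt3_pres_id G _ fun x => ?_
    rw [Language.DirectedSystem.coe_natLERec]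
    exact Nat.leRecOn_self x
  | succ d ih =>
    intro θ hθ v
    have e : ∀ x, Language.DirectedSystem.natLERec c.f k (k + (d + 1)) h x =
        c.f (k + d) (Language.DirectedSystem.natLERec c.f k (k + d) (Nat.le_add_right k d) x) := by
      intro x
      rw [Language.DirectedSystem.coe_natLERec, Language.DirectedSystem.coe_natLERec]
      exact Nat.leRecOn_succ (Nat.le_add_right k d) x
    have e2 : (Language.DirectedSystem.natLERec c.f k (k + (d + 1)) h) ∘ v =
        (c.f (k + d)) ∘ ((Language.DirectedSystem.natLERec c.f k (k + d) (Nat.le_add_right k d)) ∘ v) :=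
      funext fun i => e (v i)
    rw [e2]
    exact (ih (Nat.le_add_right k d) θ hθ v).trans (hc (k + d) θ hθ _)

private theorem mt3_pres (L : FirstOrder.Language.{0, 0}) (G : Set (Σ n : ℕ, L.BoundedFormula Empty n))
    (hG : SubClosed G) (c : Chn L) {U : Type} [L.Structure U] (j : ∀ k, c.C k ↪[L] U)
    (hsur : ∀ z : U, ∃ k x, j k x = z)
    (r : ∀ k l : ℕ, k ≤ l → c.C k → c.C l) (hr : ∀ k l h, Pres G (r k l h))
    (hj : ∀ k l h x, j l (r k l h x) = j k x) {n : ℕ} (θ : L.BoundedFormula Empty n) :
    (⟨n, θ⟩ : Σ n : ℕ, L.BoundedFormula Empty n) ∈ G → ∀ (k : ℕ) (v : Fin n → c.C k),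
      θ.Realize default v ↔ θ.Realize default (j k ∘ v) := by
  induction θ with
  | falsum => exact fun _ k v => Iff.rfl
  | equal t s =>
    intro _ k v
    simp only [Language.BoundedFormula.Realize]
    rw [mt3_term, mt3_term]
    exact (j k).injective.eq_iff.symm
  | rel R ts =>
    intro _ k v
    simp only [Language.BoundedFormula.Realize]
    have e : (fun i => (ts i).realize (Sum.elim (default : Empty → U) (j k ∘ v))) =
        (j k) ∘ fun i => (ts i).realize (Sum.elim (default : Empty → c.C k) v) :=
      funext fun i => mt3_term (j k) (ts i) v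
    rw [e]
    exact ((j k).map_rel R _).symm
  | imp φ ψ h1 h2 =>
    intro hm k v
    have h3 := hG.1 _ φ ψ hm
    simp only [Language.BoundedFormula.realize_imp]
    rw [h1 h3.1 k v, h2 h3.2 k v]
  | @all n φ h1 =>
    intro hm k v
    have h3 := hG.2 _ φ hm
    simp only [Language.BoundedFormula.realize_all]
    constructor
    · intro h z
      obtain ⟨m, x, rfl⟩ := hsur z
      have hk : k ≤ max k m := le_max_left _ _
      have hm' : m ≤ max k m := le_max_right _ _
      have h4 : (φ.all).Realize default ((r k (max k m) hk) ∘ v) :=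
        ((hr k (max k m) hk) ⟨n, φ.all⟩ hm v).1 (Language.BoundedFormula.realize_all.2 h)
      rw [Language.BoundedFormula.realize_all] at h4
      have h5 := (h1 h3 (max k m) _).1 (h4 (r m (max k m) hm' x))
      rw [mt3_snoc, hj] at h5
      have e : (j (max k m)) ∘ ((r k (max k m) hk) ∘ v) = j k ∘ v :=
        funext fun i => hj k _ hk (v i)
      rwa [e] at h5
    · intro h a
      have h5 := h (j k a)
      rw [← mt3_snoc] at h5
      exact (h1 h3 k _).2 h5

theorem union_chain (L : FirstOrder.Language.{0, 0}) (G : Set (Σ n : ℕ, L.BoundedFormula Empty n))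
    (hG : SubClosed G) (c : Chn L) (hc : ∀ k, Pres G (c.f k)) :
    ∃ (U : Type) (_ : L.Structure U) (_ : Nonempty U) (j : ∀ k, c.C k ↪[L] U),
      (∀ k x, j (k + 1) (c.f k x) = j k x) ∧ (∀ z : U, ∃ k x, j k x = z) ∧ ∀ k, Pres G (j k) := by
  let F := Language.DirectedSystem.natLERec c.f
  let j : ∀ k, c.C k ↪[L] Language.DirectLimit c.C F := fun k => Language.DirectLimit.of L ℕ c.C F k
  have hj : ∀ k l h x, j l (F k l h x) = j k x := fun k l h x => Language.DirectLimit.of_f
  have hs : ∀ z : Language.DirectLimit c.C F, ∃ k x, j k x = z := fun z =>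
    Language.DirectLimit.exists_of z
  refine ⟨Language.DirectLimit c.C F, inferInstance, ⟨j 0 (Classical.choice (c.ne 0))⟩, j, ?_, hs, ?_⟩
  · intro k x
    have h := hj k (k + 1) (Nat.le_succ k) x
    have e : F k (k + 1) (Nat.le_succ k) x = c.f k x := by
      show Language.DirectedSystem.natLERec c.f k (k + 1) (Nat.le_succ k) x = c.f k x
      rw [Language.DirectedSystem.coe_natLERec]
      exact Nat.leRecOn_succ' x
    rwa [e] at h
  · intro k θ hθ v
    exact mt3_pres L G hG c j hs (fun k l h => F k l h) (fun k l h => mt3_pres_le L G c hc k l h)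
      hj θ.2 hθ k v

end TruthCF
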