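import Pool.Agent.Work.MP_cfede9_lc.Chn3
import Pool.Agent.Work.MP_cfede9_lc.Mt3

set_option autoImplicit false
set_option linter.all false

/-!
# MP_cfede9_lc, module Chn4: the union of the chain
-/

open FirstOrder

namespace TruthCF

variable {L' : FirstOrder.Language.{0, 0}}

/-- in the union of the chain the standard numbers are definable by `JJ` -/
theorem union_std (K : Ctx L') {M : Type} [PAm M] [L'.Structure M] (hM : K.Mod M) {n : ℕ}
    (ψ : LA.BoundedFormula Empty (n + 1)) (hψ : HGood K ψ)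
    (hnd : ¬ ExD K.F (fun u : ℕ → M => Sa ψ.all (u 0))) :
    ∃ (U : Type) (_ : PAm U) (_ : L'.Structure U), K.Mod U ∧ (∀ σ : LA.Sentence, U ⊨ σ ↔ M ⊨ σ) ∧
      ∃ p q ν : U, ∀ j : U, JJ ψ.all p q ν j ↔ ∃ i : ℕ, j = (i : U) := by
  choose φ hφ using fun k => chProp_formula L' ψ.all k
  choose κ hκ using fun k => ltCast_formula L' k
  obtain ⟨c, hc1, hc2, hc3, hc4⟩ := chain_inf K hM ψ hψ hnd φ κ hφ hκ
  have hG : SubClosed (K.F.set ∪ lsub L' ψ) := subClosed_union K.hF (subClosed_lsub L' ψ)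
  obtain ⟨U, SU, neU, j, hj1, hj2, hj3⟩ := union_chain (LA.sum L') _ hG c hc1
  obtain ⟨C, str, ne, f, a, ha⟩ := c
  dsimp only at *
  have hαC : ∀ k, K.α.Realize (M := C k) default default := fun k => (hc2 k K.α).2 hM
  have hαU : K.α.Realize (M := U) default default := by
    have h1 := (hj3 0 ⟨0, K.α⟩ (Or.inl K.hα) default).1 (hαC 0)
    rwa [Subsingleton.elim (j 0 ∘ default) (default : Fin 0 → U)] at h1
  choose P Q hPQ using fun k => K.hnice (C k) (str k) (ne k) (hαC k)
  obtain ⟨PU, QU, rfl⟩ := K.hnice U SU neU hαU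
  obtain rfl : (fun k => @Language.sumStructure LA L' (C k) (@instLAStr _ (P k)) (Q k)) = str :=
    funext hPQ
  obtain ⟨j', rfl⟩ : ∃ j' : ∀ k, C k ↪[LA.sum L'] U, j' = j := ⟨j, rfl⟩
  have hje : ∀ k, AEmb (j' k) := fun k => aemb_of_emb (j' k)
  have hlift : ∀ {m : ℕ} (θ : LA.BoundedFormula Empty m) (N : Type) [PAm N] [L'.Structure N]
      (v : Fin m → N), ((Language.LHom.sumInl : LA →ᴸ LA.sum L').onBoundedFormula θ).Realize
        default v ↔ θ.Realize default v := by
    intro m θ N _ _ v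
    exact Language.LHom.realize_onBoundedFormula _ θ
  refine ⟨U, PU, QU, hαU, ?_, j' 0 (a 0 0), j' 0 (a 0 1), j' 0 (a 0 2), ?_⟩
  · intro σ
    have h1 := K.hTB U hαU σ
    have h2 := K.hTB (C 0) (hαC 0) σ
    have h3 := hj3 0 ⟨1, K.Θ⟩ (Or.inl K.hΘ) (fun _ => (K.code σ : C 0))
    have h4 : j' 0 ∘ (fun _ : Fin 1 => (K.code σ : C 0)) = fun _ => (K.code σ : U) := by
      funext i
      exact (hje 0).cast _
    rw [h4] at h3
    have h5 := hc2 0 ((Language.LHom.sumInl : LA →ᴸ LA.sum L').onBoundedFormula σ)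
    rw [hlift, hlift] at h5
    have h6 : C 0 ⊨ σ ↔ M ⊨ σ := h5
    rw [← h1, ← h3, h2, h6]
  · have hψ' : ∀ k (v : Fin (n + 1) → C k), ψ.Realize default v ↔ ψ.Realize default (j' k ∘ v) := by
      intro k v
      have h1 := hj3 k (liftF L' ⟨n + 1, ψ⟩) (Or.inr ⟨⟨n + 1, ψ⟩, self_mem_subsF ψ, rfl⟩) v
      have h2 := hlift ψ (C k) v
      have h3 := hlift ψ U (j' k ∘ v)
      rw [← h2, ← h3]
      exact h1
    have hsn : ∀ k (u y : C k), j' k ∘ (Fin.snoc (α := fun _ => C k) (val n u) y) =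
        Fin.snoc (α := fun _ => U) (val n (j' k u)) (j' k y) := by
      intro k u y
      rw [← (hje k).val n u]
      funext i
      refine Fin.lastCases ?_ (fun i => ?_) i
      · simp
      · simp
    have hSa : ∀ {N : Type} [PAm N] (u : N), Sa ψ.all u ↔
        ∀ y : N, ψ.Realize default (Fin.snoc (α := fun _ => N) (val n u) y) := fun u => Iff.rfl
    have hjk : ∀ k i, j' k (a k i) = j' 0 (a 0 i) := by
      intro k
      induction k with
      | zero => intro i; rfl
      | succ k ih =>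
        intro i
        rw [← ih i, ← hj1 k (a k i), ← ha k]
        rfl
    have hCh : ∀ k, ChProp ψ.all k (a k 0) (a k 1) (a k 2) := fun k => (hφ k (C k) (a k)).1 (hc3 k)
    have hlt : ∀ k (m : ℕ), (m : C k) < a k 2 := fun k m => (hκ m (C k) (a k)).1 (hc4 m k)
    have hran : ∀ (z : U) k l, k ≤ l → (∃ x, j' k x = z) → ∃ x, j' l x = z := by
      intro z k l hkl h
      induction l, hkl using Nat.le_induction with
      | base => exact h
      | succ l _ ih =>
        obtain ⟨x, hx⟩ := ih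
        exact ⟨f l x, by rw [hj1, hx]⟩
    intro jj
    constructor
    · rintro ⟨i, hi, h0 | hne⟩
      · exact ⟨0, by rw [h0, Nat.cast_zero]⟩
      · rw [hSa] at hne
        push Not at hne
        obtain ⟨y, hy⟩ := hne
        obtain ⟨k1, x1, hx1⟩ := hj2 i
        obtain ⟨k2, x2, hx2⟩ := hj2 jj
        obtain ⟨k3, x3, hx3⟩ := hj2 y
        obtain ⟨i', hi'⟩ := hran i k1 (k1 + k2 + k3) (by omega) ⟨x1, hx1⟩
        obtain ⟨jj', hjj'⟩ := hran jj k2 (k1 + k2 + k3) (by omega) ⟨x2, hx2⟩
        obtain ⟨y', hy'⟩ := hran y k3 (k1 + k2 + k3) (by omega) ⟨x3, hx3⟩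
        generalize k1 + k2 + k3 = k at i' jj' y' hi' hjj' hy'
        have e1 : i' + jj' = a k 2 := by
          apply (hje k).inj
          rw [(hje k).add, hi', hjj', hi, hjk k 2]
        have e2 : j' k (bt (a k 0) (a k 1) i') = bt (j' 0 (a 0 0)) (j' 0 (a 0 1)) i := by
          rw [(hje k).bt, hi', hjk k 0, hjk k 1]
        have e3 : ¬ Sa ψ.all (bt (a k 0) (a k 1) i') := by
          intro h
          apply hy
          have h1 := (hψ' k _).1 (h y')
          rwa [hsn, e2, hy'] at h1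
        have e4 : ¬ i' + (k : C k) < a k 2 := fun h => e3 ((hCh k).1 i' h)
        rw [← e1] at e4
        have e5 : jj' ≤ (k : C k) := by
          rw [not_lt] at e4
          exact le_of_add_le_add_left e4
        obtain ⟨m, -, hm⟩ := std_of_le e5
        exact ⟨m, by rw [← hjj', hm, (hje k).cast]⟩
    · rintro ⟨m, rfl⟩
      rcases Nat.eq_zero_or_pos m with rfl | hm
      · exact ⟨j' 0 (a 0 2), by rw [Nat.cast_zero, add_zero], Or.inl Nat.cast_zero⟩
      · obtain ⟨i, hi⟩ := exists_add_of_le' (hlt m m).le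
        have hi' : i + (m : C m) = a m 2 := by rw [hi, add_comm]
        have hpos : (0 : C m) < (m : C m) := by exact_mod_cast hm
        have h1 : i < a m 2 := by
          rw [← hi']
          exact lt_add_of_pos_right i hpos
        have h2 := (hCh m).2 i h1 hi'.ge
        refine ⟨j' m i, ?_, Or.inr ?_⟩
        · rw [← (hje m).cast m, ← (hje m).add, hi', hjk m 2]
        · rw [hSa] at h2 ⊢
          push Not at h2 ⊢
          obtain ⟨y, hy⟩ := h2
          refine ⟨j' m y, fun h => hy ?_⟩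
          rw [hψ', hsn, (hje m).bt, hjk m 0, hjk m 1]
          exact h

end TruthCF
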