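import Pool.Agent.Work.MP_cfede9_lc.Uni2
import Pool.Agent.Work.MP_cfede9_lc.Uni3

set_option autoImplicit false
set_option linter.all false

/-!
# MP_cfede9_lc, module Uni5: the universal formula for existentially definable sets

`g` codes `m`, `c₁`, `c₂`: the program number `k < m` consists of the constraints coded by the `m` numbers
`bt c₁ c₂ (pr k l)`, `l < m`. Registers: `i ↦ bt w₁ w₂ i`, parameters: `j ↦ bt b₁ b₂ j`, input: `u`.
-/

open FirstOrder

namespace TruthCF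

variable {L' : FirstOrder.Language.{0, 0}}

private theorem Uni5_std (F : FL L') (m c₁ c₂ : ℕ) (M : Type) [PAm M] [L'.Structure M]
    (b₁ b₂ u : M) :
    HH F ((pr m (pr c₁ c₂) : ℕ) : M) b₁ b₂ u ↔ ∃ k, k < m ∧ ∃ w₁ w₂ : M, ∀ l, l < m →
      ConM F ((bt c₁ c₂ (pr k l) : ℕ) : M) b₁ b₂ u w₁ w₂ := by
  have hc : ((pr m (pr c₁ c₂) : ℕ) : M) = pr (m : M) (pr (c₁ : M) (c₂ : M)) := by
    rw [pr_cast, pr_cast]
  have hb : ∀ k l : ℕ, bt (c₁ : M) (c₂ : M) (pr (k : M) (l : M)) =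
      ((bt c₁ c₂ (pr k l) : ℕ) : M) := by
    intro k l
    rw [pr_cast, bt_cast]
  constructor
  · rintro ⟨m', c₁', c₂', he, k', hk', w₁, w₂, h⟩
    rw [hc] at he
    obtain ⟨h1, h2⟩ := pr_inj he
    obtain ⟨h3, h4⟩ := pr_inj h2
    subst h1 h3 h4
    obtain ⟨k, hk, rfl⟩ := std_of_lt hk'
    refine ⟨k, hk, w₁, w₂, fun l hl => ?_⟩
    have h5 := h (l : M) (Nat.cast_lt.2 hl)
    rwa [hb] at h5
  · rintro ⟨k, hk, w₁, w₂, h⟩
    refine ⟨(m : M), (c₁ : M), (c₂ : M), hc, (k : M), Nat.cast_lt.2 hk, w₁, w₂, fun l' hl' => ?_⟩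
    obtain ⟨l, hl, rfl⟩ := std_of_lt hl'
    rw [hb]
    exact h l hl

/-- every list of programs has a code -/
theorem HH_encode (F : FL L') (D : List (List Con)) : ∃ g : ℕ, ∀ (M : Type) [PAm M] [L'.Structure M] (b₁ b₂ u : M),
    HH F (g : M) b₁ b₂ u ↔ Sat F (fun j => bt b₁ b₂ (j : M)) (fun _ => u) D := by
  choose enc henc using encode_con F
  obtain ⟨m, hm1, hm2⟩ : ∃ m : ℕ, D.length ≤ m ∧ ∀ p ∈ D, p.length ≤ m := by
    refine ⟨D.length + (D.map List.length).sum, Nat.le_add_right _ _, fun p hp => ?_⟩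
    exact (List.le_sum_of_mem (List.mem_map.2 ⟨p, hp, rfl⟩)).trans (Nat.le_add_left _ _)
  let pg : ℕ → ℕ → Con := fun k l => (D.getD k [Con.bad]).getD l Con.triv
  let a : ℕ → ℕ := fun j => enc (pg (hd j) (tl j))
  obtain ⟨c₁, c₂, hc⟩ := exists_bt (M := ℕ) (pr m m + 1) a
  have hcode : ∀ k l : ℕ, k < m → l < m → bt c₁ c₂ (pr k l) = enc (pg k l) := by
    intro k l hk hl
    have h1 : pr k l < pr m m + 1 := by
      refine Nat.lt_succ_of_le ?_
      unfold pr
      have h2 : k + l ≤ m + m := Nat.add_le_add hk.le hl.le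
      exact Nat.add_le_add (Nat.mul_le_mul h2 h2) hk.le
    have h3 := hc (pr k l) h1
    rw [Nat.cast_id] at h3
    rw [h3]
    show enc (pg (hd (pr k l)) (tl (pr k l))) = _
    rw [hd_pr, tl_pr]
  refine ⟨pr m (pr c₁ c₂), fun M _ _ b₁ b₂ u => ?_⟩
  rw [Uni5_std]
  have hC : ∀ (k l : ℕ) (w₁ w₂ : M), k < m → l < m →
      (ConM F ((bt c₁ c₂ (pr k l) : ℕ) : M) b₁ b₂ u w₁ w₂ ↔ (pg k l).holds F
        (fun j => bt b₁ b₂ (j : M)) (fun _ => u) (fun i => bt w₁ w₂ (i : M))) := by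
    intro k l w₁ w₂ hk hl
    rw [hcode k l hk hl]
    exact henc _ M b₁ b₂ u w₁ w₂
  constructor
  · rintro ⟨k, hk, w₁, w₂, h⟩
    rcases lt_or_ge k D.length with hkD | hkD
    · refine ⟨D[k], List.getElem_mem hkD, ?_⟩
      rw [sat1_code]
      refine ⟨w₁, w₂, fun c hc' => ?_⟩
      obtain ⟨l, hl, rfl⟩ := List.mem_iff_getElem.1 hc'
      have hlm : l < m := lt_of_lt_of_le hl (hm2 _ (List.getElem_mem hkD))
      have h1 := (hC k l w₁ w₂ hk hlm).1 (h l hlm)
      have e : pg k l = D[k][l] := by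
        show (D.getD k [Con.bad]).getD l Con.triv = _
        rw [List.getD_eq_getElem _ _ hkD, List.getD_eq_getElem _ _ hl]
      rwa [e] at h1
    · exfalso
      have hm0 : 0 < m := lt_of_le_of_lt (Nat.zero_le _) hk
      have h1 := (hC k 0 w₁ w₂ hk hm0).1 (h 0 hm0)
      have e : pg k 0 = Con.bad := by
        show (D.getD k [Con.bad]).getD 0 Con.triv = _
        rw [List.getD_eq_default _ _ hkD]
        rfl
      rw [e] at h1
      exact h1
  · rintro ⟨p, hp, h⟩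
    rw [sat1_code] at h
    obtain ⟨w₁, w₂, h⟩ := h
    obtain ⟨k, hkD, rfl⟩ := List.mem_iff_getElem.1 hp
    have hk : k < m := lt_of_lt_of_le hkD hm1
    refine ⟨k, hk, w₁, w₂, fun l hl => (hC k l w₁ w₂ hk hl).2 ?_⟩
    rcases lt_or_ge l D[k].length with hlD | hlD
    · have e : pg k l = D[k][l] := by
        show (D.getD k [Con.bad]).getD l Con.triv = _
        rw [List.getD_eq_getElem _ _ hkD, List.getD_eq_getElem _ _ hlD]
      rw [e]
      exact h _ (List.getElem_mem hlD)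
    · have e : pg k l = Con.triv := by
        show (D.getD k [Con.bad]).getD l Con.triv = _
        rw [List.getD_eq_getElem _ _ hkD, List.getD_eq_default _ _ hlD]
      rw [e]
      trivial

end TruthCF
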