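import Pool.Agent.Work.MP_cfede9_lc.Uni4
import Pool.Agent.Work.MP_cfede9_lc.Uni5
import Pool.Agent.Work.MP_cfede9_lc.SatT1

set_option autoImplicit false
set_option linter.all false

/-!
# MP_cfede9_lc, module Uni6: the universal formula for existentially definable sets

`g` codes `m`, `c₁`, `c₂`: the program number `k < m` consists of the constraints coded by the `m` numbers
`bt c₁ c₂ (pr k l)`, `l < m`. Registers: `i ↦ bt w₁ w₂ i`, parameters: `j ↦ bt b₁ b₂ j`, input: `u`.
-/

open FirstOrder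

namespace TruthCF

variable {L' : FirstOrder.Language.{0, 0}}

/-- a set is existentially definable if and only if it is given by `HH` with a standard code -/
theorem exD_iff_HH (F : FL L') {M : Type} [PAm M] [L'.Structure M] (X : M → Prop) :
    ExD F (fun u => X (u 0)) ↔ ∃ g : ℕ, ∃ b₁ b₂ : M, ∀ u, X u ↔ HH F (g : M) b₁ b₂ u := by
  constructor
  · rintro ⟨D, b, hD⟩
    obtain ⟨J, hJ⟩ := Sat.bound F D
    obtain ⟨b₁, b₂, hb⟩ := exists_bt J b
    obtain ⟨g, hg⟩ := HH_encode F D
    refine ⟨g, b₁, b₂, fun u => ?_⟩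
    rw [hg M b₁ b₂ u]
    have h1 : X u ↔ Sat F b (fun _ => u) D := hD (fun _ => u)
    rw [h1]
    exact hJ M b (fun j => bt b₁ b₂ (j : M)) (fun _ => u) fun j hj => (hb j hj).symm
  · rintro ⟨g, b₁, b₂, h⟩
    obtain ⟨D, hD⟩ := HH_decode F g
    exact exD_of_const (D := D) (b := fun j => bt b₁ b₂ (j : M)) fun u => (h u).trans (hD M b₁ b₂ u)

end TruthCF
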