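import Pool.Agent.Work.MP_cfede9_lc.UniD
import Pool.Agent.Work.MP_cfede9_lc.UDv1

set_option autoImplicit false
set_option linter.all false

/-!
# MP_cfede9_lc, module Uni7: the universal formula for existentially definable sets

`g` codes `m`, `c₁`, `c₂`: the program number `k < m` consists of the constraints coded by the `m` numbers
`bt c₁ c₂ (pr k l)`, `l < m`. Registers: `i ↦ bt w₁ w₂ i`, parameters: `j ↦ bt b₁ b₂ j`, input: `u`.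
-/

open FirstOrder

namespace TruthCF

variable {L' : FirstOrder.Language.{0, 0}}

private theorem ud_exlt (N : ℕ) (R : ℕ → Rl L') (h : ∀ k, UD L' (R k)) :
    UD L' (fun M _ _ v => ∃ k, k < N ∧ R k M v) := by
  induction N with
  | zero =>
    refine (UD.const (L' := L') False).congr fun M _ _ v => ?_
    constructor
    · exact False.elim
    · rintro ⟨k, hk, -⟩
      exact absurd hk (Nat.not_lt_zero k)
  | succ N ih =>
    refine (ih.or (h N)).congr fun M _ _ v => ?_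
    constructor
    · rintro (⟨k, hk, h1⟩ | h1)
      · exact ⟨k, hk.trans (Nat.lt_succ_self N), h1⟩
      · exact ⟨N, Nat.lt_succ_self N, h1⟩
    · rintro ⟨k, hk, h1⟩
      rcases Nat.lt_succ_iff_lt_or_eq.1 hk with h2 | h2
      · exact Or.inl ⟨k, h2, h1⟩
      · rw [h2] at h1
        exact Or.inr h1

private theorem ud_exsome {T : Type} (o : Option T) (R : T → Rl L') (h : ∀ k, UD L' (R k)) :
    UD L' (fun M _ _ v => ∃ θ, o = some θ ∧ R θ M v) := by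
  rcases o with _ | θ
  · refine (UD.const (L' := L') False).congr fun M _ _ v => ?_
    constructor
    · exact False.elim
    · rintro ⟨k, hk, -⟩
      cases hk
  · refine (h θ).congr fun M _ _ v => ?_
    constructor
    · intro h1
      exact ⟨θ, rfl, h1⟩
    · rintro ⟨k, hk, h1⟩
      cases hk
      exact h1

private theorem ud_ConM (F : FL L') :
    UD L' (fun M _ _ v => ConM F (v 0) (v 1) (v 2) (v 3) (v 4) (v 5)) := by
  unfold ConM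
  refine UD.or ?_ (UD.or ?_ (UD.or ?_ (UD.or ?_ (UD.or ?_ (UD.or ?_ (UD.or ?_ (UD.or ?_
    (UD.or ?_ (UD.or ?_ ?_)))))))))
  · refine UD.ex (R := fun M _ _ i v => v 0 = pr 0 i ∧ bt (v 4) (v 5) i = 0) ?_
    exact (UD.eq (UG.var 1) (UG.pr UG.zero (UG.var 0))).and
      (UD.eq (UG.bt (UG.var 5) (UG.var 6) (UG.var 0)) UG.zero)
  · refine UD.ex (R := fun M _ _ i v => v 0 = pr 1 i ∧ bt (v 4) (v 5) i = 1) ?_
    exact (UD.eq (UG.var 1) (UG.pr UG.one (UG.var 0))).and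
      (UD.eq (UG.bt (UG.var 5) (UG.var 6) (UG.var 0)) UG.one)
  · refine UD.ex (R := fun M _ _ i v => ∃ j k, v 0 = pr ((2 : ℕ) : M) (pr i (pr j k)) ∧
      bt (v 4) (v 5) i + bt (v 4) (v 5) j = bt (v 4) (v 5) k) ?_
    refine UD.ex (R := fun M _ _ j v => ∃ k, v 1 = pr ((2 : ℕ) : M) (pr (v 0) (pr j k)) ∧
      bt (v 5) (v 6) (v 0) + bt (v 5) (v 6) j = bt (v 5) (v 6) k) ?_
    refine UD.ex (R := fun M _ _ k v => v 2 = pr ((2 : ℕ) : M) (pr (v 1) (pr (v 0) k)) ∧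
      bt (v 6) (v 7) (v 1) + bt (v 6) (v 7) (v 0) = bt (v 6) (v 7) k) ?_
    exact (UD.eq (UG.var 3) (UG.pr (UG.natCast 2) (UG.pr (UG.var 2)
      (UG.pr (UG.var 1) (UG.var 0))))).and
      (UD.eq ((UG.bt (UG.var 7) (UG.var 8) (UG.var 2)).add (UG.bt (UG.var 7) (UG.var 8) (UG.var 1)))
        (UG.bt (UG.var 7) (UG.var 8) (UG.var 0)))
  · refine UD.ex (R := fun M _ _ i v => ∃ j k, v 0 = pr ((3 : ℕ) : M) (pr i (pr j k)) ∧
      bt (v 4) (v 5) i * bt (v 4) (v 5) j = bt (v 4) (v 5) k) ?_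
    refine UD.ex (R := fun M _ _ j v => ∃ k, v 1 = pr ((3 : ℕ) : M) (pr (v 0) (pr j k)) ∧
      bt (v 5) (v 6) (v 0) * bt (v 5) (v 6) j = bt (v 5) (v 6) k) ?_
    refine UD.ex (R := fun M _ _ k v => v 2 = pr ((3 : ℕ) : M) (pr (v 1) (pr (v 0) k)) ∧
      bt (v 6) (v 7) (v 1) * bt (v 6) (v 7) (v 0) = bt (v 6) (v 7) k) ?_
    exact (UD.eq (UG.var 3) (UG.pr (UG.natCast 3) (UG.pr (UG.var 2)
      (UG.pr (UG.var 1) (UG.var 0))))).and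
      (UD.eq ((UG.bt (UG.var 7) (UG.var 8) (UG.var 2)).mul (UG.bt (UG.var 7) (UG.var 8) (UG.var 1)))
        (UG.bt (UG.var 7) (UG.var 8) (UG.var 0)))
  · refine UD.ex (R := fun M _ _ i v => ∃ j, v 0 = pr ((4 : ℕ) : M) (pr i j) ∧
      bt (v 4) (v 5) i ≤ bt (v 4) (v 5) j) ?_
    refine UD.ex (R := fun M _ _ j v => v 1 = pr ((4 : ℕ) : M) (pr (v 0) j) ∧
      bt (v 5) (v 6) (v 0) ≤ bt (v 5) (v 6) j) ?_
    exact (UD.eq (UG.var 2) (UG.pr (UG.natCast 4) (UG.pr (UG.var 1) (UG.var 0)))).and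
      (UD.le (UG.bt (UG.var 6) (UG.var 7) (UG.var 1)) (UG.bt (UG.var 6) (UG.var 7) (UG.var 0)))
  · refine UD.ex (R := fun M _ _ i v => ∃ j, v 0 = pr ((5 : ℕ) : M) (pr i j) ∧
      bt (v 4) (v 5) i < bt (v 4) (v 5) j) ?_
    refine UD.ex (R := fun M _ _ j v => v 1 = pr ((5 : ℕ) : M) (pr (v 0) j) ∧
      bt (v 5) (v 6) (v 0) < bt (v 5) (v 6) j) ?_
    exact (UD.eq (UG.var 2) (UG.pr (UG.natCast 5) (UG.pr (UG.var 1) (UG.var 0)))).and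
      (UD.lt (UG.bt (UG.var 6) (UG.var 7) (UG.var 1)) (UG.bt (UG.var 6) (UG.var 7) (UG.var 0)))
  · refine UD.ex (R := fun M _ _ i v => ∃ j, v 0 = pr ((6 : ℕ) : M) (pr i j) ∧
      bt (v 4) (v 5) i = bt (v 1) (v 2) j) ?_
    refine UD.ex (R := fun M _ _ j v => v 1 = pr ((6 : ℕ) : M) (pr (v 0) j) ∧
      bt (v 5) (v 6) (v 0) = bt (v 2) (v 3) j) ?_
    exact (UD.eq (UG.var 2) (UG.pr (UG.natCast 6) (UG.pr (UG.var 1) (UG.var 0)))).and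
      (UD.eq (UG.bt (UG.var 6) (UG.var 7) (UG.var 1)) (UG.bt (UG.var 3) (UG.var 4) (UG.var 0)))
  · refine UD.ex (R := fun M _ _ i v => v 0 = pr ((7 : ℕ) : M) i ∧
      bt (v 4) (v 5) i = v 3) ?_
    exact (UD.eq (UG.var 1) (UG.pr (UG.natCast 7) (UG.var 0))).and
      (UD.eq (UG.bt (UG.var 5) (UG.var 6) (UG.var 0)) (UG.var 4))
  · exact UD.eq (UG.var 0) (UG.pr (UG.natCast 8) UG.zero)
  · refine ud_exlt F.length (fun k M _ _ v => ∃ θ, F[k]? = some θ ∧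
      ∃ i, v 0 = pr ((2 * k + 9 : ℕ) : M) i ∧ Sv θ.2 (bt (v 4) (v 5) i)) fun k => ?_
    refine ud_exsome F[k]? (fun θ M _ _ v => ∃ i, v 0 = pr ((2 * k + 9 : ℕ) : M) i ∧
      Sv θ.2 (bt (v 4) (v 5) i)) fun θ => ?_
    refine UD.ex (R := fun M _ _ i v => v 0 = pr ((2 * k + 9 : ℕ) : M) i ∧
      Sv θ.2 (bt (v 4) (v 5) i)) ?_
    exact (UD.eq (UG.var 1) (UG.pr (UG.natCast (2 * k + 9)) (UG.var 0))).and
      (UD.comp₁ (R := fun M _ _ a => Sv θ.2 a) (ud_Sv θ.2)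
        (UG.bt (UG.var 5) (UG.var 6) (UG.var 0)))
  · refine ud_exlt F.length (fun k M _ _ v => ∃ θ, F[k]? = some θ ∧
      ∃ i, v 0 = pr ((2 * k + 10 : ℕ) : M) i ∧ ¬ Sv θ.2 (bt (v 4) (v 5) i)) fun k => ?_
    refine ud_exsome F[k]? (fun θ M _ _ v => ∃ i, v 0 = pr ((2 * k + 10 : ℕ) : M) i ∧
      ¬ Sv θ.2 (bt (v 4) (v 5) i)) fun θ => ?_
    refine UD.ex (R := fun M _ _ i v => v 0 = pr ((2 * k + 10 : ℕ) : M) i ∧
      ¬ Sv θ.2 (bt (v 4) (v 5) i)) ?_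
    exact (UD.eq (UG.var 1) (UG.pr (UG.natCast (2 * k + 10)) (UG.var 0))).and
      (UD.comp₁ (R := fun M _ _ a => Sv θ.2 a) (ud_Sv θ.2)
        (UG.bt (UG.var 5) (UG.var 6) (UG.var 0))).not

theorem ud_HH (F : FL L') : UD L' (fun M _ _ v => HH F (v 0) (v 1) (v 2) (v 3)) := by
  unfold HH
  refine UD.ex (R := fun M _ _ m v => ∃ c₁ c₂, v 0 = pr m (pr c₁ c₂) ∧ ∃ k, k < m ∧ ∃ w₁ w₂,
    ∀ l, l < m → ConM F (bt c₁ c₂ (pr k l)) (v 1) (v 2) (v 3) w₁ w₂) ?_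
  refine UD.ex (R := fun M _ _ c₁ v => ∃ c₂, v 1 = pr (v 0) (pr c₁ c₂) ∧ ∃ k, k < v 0 ∧
    ∃ w₁ w₂, ∀ l, l < v 0 → ConM F (bt c₁ c₂ (pr k l)) (v 2) (v 3) (v 4) w₁ w₂) ?_
  refine UD.ex (R := fun M _ _ c₂ v => v 2 = pr (v 1) (pr (v 0) c₂) ∧ ∃ k, k < v 1 ∧
    ∃ w₁ w₂, ∀ l, l < v 1 → ConM F (bt (v 0) c₂ (pr k l)) (v 3) (v 4) (v 5) w₁ w₂) ?_
  refine UD.and (UD.eq (UG.var 3) (UG.pr (UG.var 2) (UG.pr (UG.var 1) (UG.var 0)))) ?_
  refine UD.ex (R := fun M _ _ k v => k < v 2 ∧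
    ∃ w₁ w₂, ∀ l, l < v 2 → ConM F (bt (v 1) (v 0) (pr k l)) (v 4) (v 5) (v 6) w₁ w₂) ?_
  refine UD.and (UD.lt (UG.var 0) (UG.var 3)) ?_
  refine UD.ex (R := fun M _ _ w₁ v =>
    ∃ w₂, ∀ l, l < v 3 → ConM F (bt (v 2) (v 1) (pr (v 0) l)) (v 5) (v 6) (v 7) w₁ w₂) ?_
  refine UD.ex (R := fun M _ _ w₂ v =>
    ∀ l, l < v 4 → ConM F (bt (v 3) (v 2) (pr (v 1) l)) (v 6) (v 7) (v 8) (v 0) w₂) ?_
  refine UD.all (R := fun M _ _ l v =>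
    l < v 5 → ConM F (bt (v 4) (v 3) (pr (v 2) l)) (v 7) (v 8) (v 9) (v 1) (v 0)) ?_
  refine UD.imp (UD.lt (UG.var 0) (UG.var 6)) ?_
  refine UD.subst (R := fun M _ _ a v => ConM F a (v 8) (v 9) (v 10) (v 2) (v 1)) ?_
    (UG.bt (UG.var 5) (UG.var 4) (UG.pr (UG.var 3) (UG.var 0)))
  exact (UD.relabel (ud_ConM F) (fun i => match i with
    | 0 => 0 | 1 => 9 | 2 => 10 | 3 => 11 | 4 => 3 | 5 => 2 | i + 6 => i)).congr
    fun M _ _ v => Iff.rfl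

end TruthCF
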