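import Pool.Agent.Work.MP_cfede9_lc.Ctx
import Pool.Agent.Work.MP_cfede9_lc.UDv2
import Pool.Agent.Work.MP_cfede9_lc.SatT2
import Pool.Agent.Work.MP_cfede9_lc.Uni6
import Pool.Agent.Work.MP_cfede9_lc.Uni7
import Pool.Agent.Work.MP_cfede9_lc.Emb2

set_option autoImplicit false
set_option linter.all false

/-!
# MP_cfede9_lc, module Flp2: transfer along elementary embeddings
-/

open FirstOrder

namespace TruthCF

variable {L' : FirstOrder.Language.{0, 0}} {M N : Type} [PAm M] [L'.Structure M] [PAm N] [L'.Structure N]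

theorem Sa.elem {n : ℕ} (χ : LA.BoundedFormula Empty n) (e : M ↪ₑ[LA.sum L'] N) (u : M) : Sa χ u ↔ Sa χ (e u) :=
  UD.elem (ud_Sa χ) e (fun _ => u)

theorem Flip.elem {F : FL L'} {n : ℕ} {χ : LA.BoundedFormula Empty n} (e : M ↪ₑ[LA.sum L'] N) {b : ℕ → M} {x : M}
    (h : Flip F χ b x) : Flip F χ (fun i => e (b i)) (e x) := by
  obtain ⟨h1, x', h2, h3⟩ := h
  refine ⟨(Sa.elem χ e x).1 h1, e x', fun h4 => h2 ((Sa.elem χ e x').2 h4), ?_⟩
  intro p hp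
  exact (Sat1.elem F e b (fun _ => x') p).1 (h3 p ((Sat1.elem F e b (fun _ => x) p).2 hp))

/-- undefinability passes to elementary extensions (use `exD_iff_HH` and `ud_HH`) -/
theorem nd_elem {F : FL L'} {n : ℕ} {χ : LA.BoundedFormula Empty n} (e : M ↪ₑ[LA.sum L'] N)
    (h : ¬ ExD F (fun u : ℕ → M => Sa χ (u 0))) : ¬ ExD F (fun u : ℕ → N => Sa χ (u 0)) := by
  intro hN
  apply h
  rw [exD_iff_HH F (fun u : N => Sa χ u)] at hN
  obtain ⟨g, hg⟩ := hN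
  refine (exD_iff_HH F (fun u : M => Sa χ u)).2 ⟨g, ?_⟩
  have hud : UD L' (fun M _ _ v => ∃ b₁ b₂ : M, ∀ u : M, Sa χ u ↔ HH F (v 0) b₁ b₂ u) := by
    refine UD.ex (R := fun M _ _ b₁ v => ∃ b₂ : M, ∀ u : M, Sa χ u ↔ HH F (v 0) b₁ b₂ u) ?_
    refine UD.ex (R := fun M _ _ b₂ v => ∀ u : M, Sa χ u ↔ HH F (v 1) (v 0) b₂ u) ?_
    refine UD.all (R := fun M _ _ u v => Sa χ u ↔ HH F (v 2) (v 1) (v 0) u) ?_
    refine UD.iff (ud_Sa χ) ?_
    exact (UD.relabel (ud_HH F)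
      (fun i => match i with | 0 => 3 | 1 => 2 | 2 => 1 | 3 => 0 | i + 4 => i)).congr
      fun M _ _ v => Iff.rfl
  have h1 := UD.elem hud e (fun _ => (g : M))
  have h2 : e (g : M) = (g : N) := (aemb_of_elem e).cast g
  simp only [h2] at h1
  exact h1.2 hg

end TruthCF
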