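import Pool.Agent.Work.MP_cfede9_lc.Ctx
import Pool.Agent.Work.MP_cfede9_lc.Flp1
import Pool.Agent.Work.MP_cfede9_lc.SatT1
import Pool.Agent.Work.MP_cfede9_lc.UDv2
import Pool.Agent.Work.MP_cfede9_lc.Emb2

set_option autoImplicit false
set_option linter.all false

/-!
# MP_cfede9_lc, module Flp5: flipping a point
-/

open FirstOrder

namespace TruthCF

variable {L' : FirstOrder.Language.{0, 0}}

/-- renaming of registers -/
private def Flp5_ren (g : ℕ → ℕ) : Con → Con
  | Con.zero i => Con.zero (g i)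
  | Con.one i => Con.one (g i)
  | Con.add i j k => Con.add (g i) (g j) (g k)
  | Con.mul i j k => Con.mul (g i) (g j) (g k)
  | Con.le i j => Con.le (g i) (g j)
  | Con.lt i j => Con.lt (g i) (g j)
  | Con.par i j => Con.par (g i) j
  | Con.inp i j => Con.inp (g i) j
  | Con.tt k i => Con.tt k (g i)
  | Con.ff k i => Con.ff k (g i)
  | Con.triv => Con.triv
  | Con.bad => Con.bad

private theorem Flp5_holds_ren {M : Type} [PAm M] [L'.Structure M] (F : FL L') (g : ℕ → ℕ)
    (b u w : ℕ → M) (c : Con) :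
    (Flp5_ren g c).holds F b u w ↔ c.holds F b u (fun i => w (g i)) := by
  cases c <;> exact Iff.rfl

/-- satisfaction of a constraint is uniformly definable -/
private theorem Flp5_ud_holds (F : FL L') (c : Con) :
    UD L' (fun M _ _ v => c.holds F (fun i => v (3 * i)) (fun i => v (3 * i + 1))
      (fun i => v (3 * i + 2))) := by
  cases c with
  | zero i => exact UD.eq (UG.var (3 * i + 2)) UG.zero
  | one i => exact UD.eq (UG.var (3 * i + 2)) UG.one
  | add i j k => exact UD.eq ((UG.var (3 * i + 2)).add (UG.var (3 * j + 2))) (UG.var (3 * k + 2))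
  | mul i j k => exact UD.eq ((UG.var (3 * i + 2)).mul (UG.var (3 * j + 2))) (UG.var (3 * k + 2))
  | le i j => exact UD.le (UG.var (3 * i + 2)) (UG.var (3 * j + 2))
  | lt i j => exact UD.lt (UG.var (3 * i + 2)) (UG.var (3 * j + 2))
  | par i j => exact UD.eq (UG.var (3 * i + 2)) (UG.var (3 * j))
  | inp i j => exact UD.eq (UG.var (3 * i + 2)) (UG.var (3 * j + 1))
  | tt k i =>
    cases hk : F[k]? with
    | none =>
      refine (UD.const False).congr fun M _ _ v => ?_
      constructor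
      · intro h
        exact h.elim
      · rintro ⟨θ, h, _⟩
        rw [hk] at h
        cases h
    | some θ =>
      refine ((ud_Sv (L' := L') θ.2).relabel (fun _ => 3 * i + 2)).congr fun M _ _ v => ?_
      constructor
      · intro h
        exact ⟨θ, hk, h⟩
      · rintro ⟨θ', h, h'⟩
        rw [hk] at h
        cases h
        exact h'
  | ff k i =>
    cases hk : F[k]? with
    | none =>
      refine (UD.const False).congr fun M _ _ v => ?_
      constructor
      · intro h
        exact h.elim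
      · rintro ⟨θ, h, _⟩
        rw [hk] at h
        cases h
    | some θ =>
      refine (((ud_Sv (L' := L') θ.2).relabel (fun _ => 3 * i + 2)).not).congr fun M _ _ v => ?_
      constructor
      · intro h
        exact ⟨θ, hk, h⟩
      · rintro ⟨θ', h, h'⟩
        rw [hk] at h
        cases h
        exact h'
  | triv => exact UD.const True
  | bad => exact UD.const False

/-- the values: parameters, input, registers -/
private def Flp5_val {α : Type} (b : ℕ → α) (x : α) (ρ : ℕ → α) (i : ℕ) : α :=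
  if i % 3 = 0 then b (i / 3) else if i % 3 = 1 then x else ρ (i / 3)

private theorem Flp5_val0 {α : Type} (b : ℕ → α) (x : α) (ρ : ℕ → α) :
    (fun i => Flp5_val b x ρ (3 * i)) = b := by
  funext i
  unfold Flp5_val
  rw [if_pos (by omega)]
  congr 1
  omega

private theorem Flp5_val1 {α : Type} (b : ℕ → α) (x : α) (ρ : ℕ → α) :
    (fun i => Flp5_val b x ρ (3 * i + 1)) = fun _ => x := by
  funext i
  unfold Flp5_val
  rw [if_neg (by omega), if_pos (by omega)]

private theorem Flp5_val2 {α : Type} (b : ℕ → α) (x : α) (ρ : ℕ → α) :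
    (fun i => Flp5_val b x ρ (3 * i + 2)) = ρ := by
  funext i
  unfold Flp5_val
  rw [if_neg (by omega), if_neg (by omega)]
  congr 1
  omega

private theorem Flp5_comp {α β : Type} (h : α → β) (b : ℕ → α) (x : α) (ρ : ℕ → α) (i : ℕ) :
    h (Flp5_val b x ρ i) = Flp5_val (fun j => h (b j)) (h x) (fun j => h (ρ j)) i := by
  unfold Flp5_val
  split_ifs <;> rfl

/-- a constraint as a formula with names for the elements of `M` -/
private theorem Flp5_form (F : FL L') (c : Con) {M : Type} (b : ℕ → M) (x' : M) (ρ : ℕ → M) :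
    ∃ φ : (LA.sum L').Formula (M ⊕ M), ∀ (N : Type) [PAm N] [L'.Structure N] (e w : M → N),
      φ.Realize (Sum.elim e w) ↔
        c.holds F (fun j => e (b j)) (fun _ => e x') (fun j => w (ρ j)) := by
  obtain ⟨φ, hφ⟩ := Flp5_ud_holds F c
  let g : ℕ → M ⊕ M := Flp5_val (fun j => Sum.inl (b j)) (Sum.inl x') (fun j => Sum.inr (ρ j))
  refine ⟨Language.Formula.relabel g φ, fun N _ _ e w => ?_⟩
  rw [Language.Formula.realize_relabel]
  have h1 : (Sum.elim e w ∘ g : ℕ → N) =
      Flp5_val (fun j => e (b j)) (e x') (fun j => w (ρ j)) := by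
    funext i
    exact Flp5_comp (Sum.elim e w) _ _ _ i
  rw [h1, hφ N]
  beta_reduce
  rw [Flp5_val0, Flp5_val1, Flp5_val2]

/-- three registers -/
private def Flp5_three {M : Type} (a b c : M) (i : ℕ) : M :=
  if i = 0 then a else if i = 1 then b else c

private theorem Flp5_three_fin {M : Type} (a b c : M) : (Set.range (Flp5_three a b c)).Finite := by
  refine Set.Finite.subset (Set.toFinite ({a, b, c} : Set M)) ?_
  rintro _ ⟨i, rfl⟩
  unfold Flp5_three
  split_ifs <;> simp

/-- the diagram -/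
private theorem Flp5_diag (F : FL L') {M : Type} [PAm M] [L'.Structure M] (b : ℕ → M) (x x' : M)
    (h : ∀ p : List Con, Sat1 F b (fun _ => x) p → Sat1 F b (fun _ => x') p) :
    ∃ (N : Type) (_ : PAm N) (_ : L'.Structure N) (e : M ↪ₑ[LA.sum L'] N) (w : M → N),
      ∀ (c : Con) (ρ : ℕ → M), (Set.range ρ).Finite → c.holds F b (fun _ => x) ρ →
        c.holds F (fun j => e (b j)) (fun _ => e x') (fun j => w (ρ j)) := by
  classical
  choose φ hφ using fun (c : Con) (ρ : ℕ → M) => Flp5_form F c b x' ρ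
  let Φ : Set ((LA.sum L').Formula (M ⊕ M)) :=
    {θ | ∃ (c : Con) (ρ : ℕ → M), (Set.range ρ).Finite ∧ c.holds F b (fun _ => x) ρ ∧ φ c ρ = θ}
  have hΦ : ∀ s : Finset ((LA.sum L').Formula (M ⊕ M)), (∀ θ ∈ s, θ ∈ Φ) →
      ∃ w : M → M, ∀ θ ∈ s, θ.Realize (Sum.elim id w) := by
    intro s hs
    have hs' : ∀ θ : s, ∃ (c : Con) (ρ : ℕ → M), (Set.range ρ).Finite ∧
        c.holds F b (fun _ => x) ρ ∧ φ c ρ = θ.1 := fun θ => hs θ.1 θ.2
    choose c ρ hfin hh heq using hs'
    have hS : (⋃ θ : s, Set.range (ρ θ)).Finite := Set.finite_iUnion fun θ => hfin θ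
    obtain ⟨enc, henc⟩ := Set.countable_iff_exists_injOn.1 hS.countable
    have hM : Nonempty M := ⟨0⟩
    have hdec := henc.leftInvOn_invFunOn
    set dec := Function.invFunOn enc (⋃ θ : s, Set.range (ρ θ)) with hdecdef
    have hd : ∀ (θ : s) (i : ℕ), dec (enc (ρ θ i)) = ρ θ i := fun θ i =>
      hdec (Set.mem_iUnion.2 ⟨θ, i, rfl⟩)
    obtain ⟨w0, hw0⟩ := h
      ((Finset.univ : Finset s).toList.map (fun θ => Flp5_ren (fun i => enc (ρ θ i)) (c θ))) (by
        refine ⟨dec, fun d hd' => ?_⟩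
        obtain ⟨θ, _, rfl⟩ := List.mem_map.1 hd'
        rw [Flp5_holds_ren]
        have h2 : (fun i => dec (enc (ρ θ i))) = ρ θ := funext fun i => hd θ i
        rw [h2]
        exact hh θ)
    refine ⟨fun m => w0 (enc m), fun θ hθ => ?_⟩
    have h3 := hw0 (Flp5_ren (fun i => enc (ρ ⟨θ, hθ⟩ i)) (c ⟨θ, hθ⟩))
      (List.mem_map_of_mem (Finset.mem_toList.2 (Finset.mem_univ _)))
    rw [Flp5_holds_ren] at h3
    have h4 := (hφ (c ⟨θ, hθ⟩) (ρ ⟨θ, hθ⟩) M id (fun m => w0 (enc m))).2 h3
    rw [heq ⟨θ, hθ⟩] at h4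
    exact h4
  obtain ⟨N, P, Q, e, w, hw⟩ := realize_nice M Φ hΦ
  refine ⟨N, P, Q, e, w, fun c ρ hρ hc => ?_⟩
  exact (hφ c ρ N e w).1 (hw _ ⟨c, ρ, hρ, hc, rfl⟩)

/-- flipping a point: the `f`-diagram of `M` together with `f (b j) = e (b j)`, `f x = e x'` is finitely satisfiable
(a finite part of the diagram is a program accepted by `x`, hence by `x'`) -/
theorem flip_step (K : Ctx L') {n : ℕ} {χ : LA.BoundedFormula Empty n} {M : Type} [PAm M] [L'.Structure M]
    (b : ℕ → M) (x : M) (h : Flip K.F χ b x) :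
    ∃ (N : Type) (_ : PAm N) (_ : L'.Structure N) (e : M ↪ₑ[LA.sum L'] N) (f : M ↪[LA.sum L'] N),
      PresF K.F f ∧ (∀ j, f (b j) = e (b j)) ∧ ¬ Sa χ (f x) := by
  obtain ⟨_, x', hx', hp⟩ := h
  obtain ⟨N, P, Q, e, w, hw⟩ := Flp5_diag K.F b x x' hp
  have hrel := K.rel
  have key : ∀ (d : Con) (a1 a2 a3 : M), d.holds K.F b (fun _ => x) (Flp5_three a1 a2 a3) →
      d.holds K.F (fun j => e (b j)) (fun _ => e x') (fun j => w (Flp5_three a1 a2 a3 j)) :=
    fun d a1 a2 a3 hd => hw d _ (Flp5_three_fin a1 a2 a3) hd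
  have hA : AEmb w := by
    refine ⟨?_, ?_, ?_, ?_, ?_⟩
    · exact key (Con.zero 0) 0 0 0 rfl
    · exact key (Con.one 0) 1 1 1 rfl
    · intro a c
      exact (key (Con.add 0 1 2) a c (a + c) rfl).symm
    · intro a c
      exact (key (Con.mul 0 1 2) a c (a * c) rfl).symm
    · intro a c
      constructor
      · intro h1
        by_contra h2
        have h4 : w c < w a := key (Con.lt 0 1) c a a (not_le.1 h2)
        exact absurd h1 (not_le.2 h4)
      · intro h1
        exact key (Con.le 0 1) a c c h1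
  have hF : ∀ θ ∈ K.F, ∀ u : M, Sv θ.2 u ↔ Sv θ.2 (w u) := by
    intro θ hθ u
    obtain ⟨k, hk⟩ := List.mem_iff_getElem?.1 hθ
    constructor
    · intro h1
      obtain ⟨θ', h4, h5⟩ := key (Con.tt k 0) u u u ⟨θ, hk, h1⟩
      rw [hk] at h4
      cases h4
      exact h5
    · intro h1
      by_contra h2
      obtain ⟨θ', h4, h5⟩ := key (Con.ff k 0) u u u ⟨θ, hk, h2⟩
      rw [hk] at h4
      cases h4
      exact h5 h1
  have hr : ∀ (n : ℕ) (r : L'.Relations n) (v : Fin n → M),
      Language.Structure.RelMap r (w ∘ v) ↔ Language.Structure.RelMap r v := by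
    intro n r v
    obtain ⟨u, hu⟩ := val_surj n v
    have h1 := hF ⟨n, atomF r⟩ (K.hat n r) u
    have h2 : Sv (atomF r) u ↔ Language.Structure.RelMap r v := by
      rw [← hu]
      exact Iff.rfl
    have h4 : Sv (atomF r) (w u) ↔ Language.Structure.RelMap r (w ∘ v) := by
      rw [← hu, hA.val]
      exact Iff.rfl
    exact h4.symm.trans (h1.symm.trans h2)
  obtain ⟨g, hg⟩ := emb_of_aemb hA hr
  refine ⟨N, P, Q, e, g, ?_, ?_, ?_⟩
  · intro θ hθ u
    rw [hg u]
    exact hF θ hθ u
  · intro j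
    rw [hg]
    exact key (Con.par 0 j) (b j) (b j) (b j) rfl
  · rw [hg]
    have h1 : w x = e x' := key (Con.inp 0 0) x x x rfl
    rw [h1]
    intro h2
    exact hx' ((UD.elem (ud_Sa (L' := L') χ) e (fun _ => x')).2 h2)

end TruthCF
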