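import Pool.Agent.Work.MP_cfede9_lc.ChsD
import Pool.Agent.Work.MP_cfede9_lc.Flp2
import Pool.Agent.Work.MP_cfede9_lc.Flp5

set_option autoImplicit false
set_option linter.all false

/-!
# MP_cfede9_lc, module Chs1: one step of the chain
-/

open FirstOrder

namespace TruthCF

variable {L' : FirstOrder.Language.{0, 0}}

private theorem chs_ud_Sat (F : FL L') (D : List (List Con)) :
    UD L' (fun M _ _ v => Sat F (fun i => v (2 * i)) (fun i => v (2 * i + 1)) D) := by
  induction D with
  | nil => exact (UD.const False).congr fun M _ _ v => by simp [Sat]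
  | cons p D ih => exact ((ud_Sat1 F p).or ih).congr fun M _ _ v => by simp [Sat]

private theorem chs_ud (F : FL L') {n : ℕ} (χ : LA.BoundedFormula Empty n) (D : List (List Con)) :
    UD L' (fun M _ _ v => ∀ u : M, (¬ Sa χ u ↔ Sat F v (fun _ => u) D)) := by
  refine UD.all (R := fun M _ _ u v => (¬ Sa χ u ↔ Sat F v (fun _ => u) D)) ?_
  refine UD.iff (ud_Sa χ).not ?_
  refine ((chs_ud_Sat F D).relabel (fun i => if i % 2 = 0 then i / 2 + 1 else 0)).congr
    fun M _ _ v => ?_
  have e1 : (fun i => v (if (2 * i) % 2 = 0 then (2 * i) / 2 + 1 else 0)) = fun i => v (i + 1) := by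
    funext i
    rw [if_pos (by omega), Nat.mul_div_cancel_left i (by norm_num)]
  have e2 : (fun i => v (if (2 * i + 1) % 2 = 0 then (2 * i + 1) / 2 + 1 else 0)) =
      fun _ => v 0 := by
    funext i
    rw [if_neg (by omega)]
  rw [e1, e2]

/-- one step of the chain (for `k < m` flip the point `m - 1 - k` by `flip_step`, for `m ≤ k` the identity) -/
theorem step_inv (K : Ctx L') {n : ℕ} (χ : LA.BoundedFormula Empty n) (D : List (List Con)) (m k : ℕ) (s : Stt L')
    (h : Inv K.F χ D m k s) :
    ∃ (t : Stt L') (e : s.X ↪ₑ[LA.sum L'] t.X) (f : s.X ↪[LA.sum L'] t.X),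
      PresF K.F f ∧ (∀ j, t.b j = f (s.b j)) ∧ (∀ j, t.b j = e (s.b j)) ∧ (∀ i, t.x i = f (s.x i)) ∧
      Inv K.F χ D m (k + 1) t := by
  by_cases hk : k < m
  · obtain ⟨N, P, S, e, f, hf, hfe, hx⟩ :=
      flip_step K (mix s.x s.b (m - 1 - k)) (s.x (m - 1 - k)) (h.fl _ (by omega))
    have hb : ∀ j, f (s.b j) = e (s.b j) := by
      intro j
      have h1 := hfe (m - 1 - k + j)
      have e1 : mix s.x s.b (m - 1 - k) (m - 1 - k + j) = s.b j := by
        unfold mix
        rw [if_neg (by omega), Nat.add_sub_cancel_left]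
      rwa [e1] at h1
    have hxx : ∀ i, i < m - 1 - k → f (s.x i) = e (s.x i) := by
      intro i hi
      have h1 := hfe i
      have e1 : mix s.x s.b (m - 1 - k) i = s.x i := by
        unfold mix
        rw [if_pos hi]
      rwa [e1] at h1
    have hdn : ∀ u : N, ¬ Sa χ u ↔ Sat K.F (fun j => f (s.b j)) (fun _ => u) D := by
      intro u
      have h1 := (UD.elem (chs_ud K.F χ D) e s.b).1 h.dn u
      rw [show (fun j => f (s.b j)) = fun j => e (s.b j) from funext hb]
      exact h1
    refine ⟨⟨N, P, S, fun j => f (s.b j), fun i => f (s.x i)⟩, e, f, hf, fun _ => rfl, hb,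
      fun _ => rfl, ⟨hdn, ?_, ?_⟩⟩
    · intro i hi
      have h2 := (h.fl i (by omega)).elem e
      have e1 : (fun j => e (mix s.x s.b i j)) =
          mix (fun i => f (s.x i)) (fun j => f (s.b j)) i := by
        funext j
        unfold mix
        split_ifs with hj
        · exact (hxx j (by omega)).symm
        · exact (hb _).symm
      rw [e1, ← hxx i (by omega)] at h2
      exact h2
    · intro i hi hi'
      by_cases hii : i = m - 1 - k
      · subst hii
        exact hx
      · have h3 := h.fd i hi (by omega)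
        have h4 := (h.dn _).1 h3
        exact (hdn _).2 (Sat.map f hf h4)
  · refine ⟨s, Language.ElementaryEmbedding.refl _ _, Language.Embedding.refl _ _, ?_, ?_, ?_, ?_,
      ⟨h.dn, ?_, ?_⟩⟩
    · intro θ _ u
      rfl
    · intro j
      rfl
    · intro j
      rfl
    · intro j
      rfl
    · intro i hi
      omega
    · intro i hi _
      exact h.fd i hi (by omega)

end TruthCF
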