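import Pool.Agent.Work.MP_cfede9_lc.Chs1

set_option autoImplicit false
set_option linter.all false

/-!
# MP_cfede9_lc, module Chs2: the chain of states
-/

open FirstOrder

namespace TruthCF

variable {L' : FirstOrder.Language.{0, 0}}

/-- the whole chain (dependent choice) -/
theorem chain_states (K : Ctx L') {n : ℕ} (χ : LA.BoundedFormula Empty n) (D : List (List Con)) (m : ℕ) (s : Stt L')
    (h : Inv K.F χ D m 0 s) :
    ∃ (t : ℕ → Stt L') (f : ∀ k, (t k).X ↪[LA.sum L'] (t (k + 1)).X), t 0 = s ∧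
      ∀ k, PresF K.F (f k) ∧ (∀ j, (t (k + 1)).b j = f k ((t k).b j)) ∧ (∀ i, (t (k + 1)).x i = f k ((t k).x i)) ∧
        Inv K.F χ D m k (t k) ∧ ∃ e : (t k).X ↪ₑ[LA.sum L'] (t (k + 1)).X, ∀ j, (t (k + 1)).b j = e ((t k).b j) := by
  choose T e f h1 h2 h3 h4 h5 using fun (k : ℕ) (s : Stt L') (hs : Inv K.F χ D m k s) =>
    step_inv K χ D m k s hs
  let S : (k : ℕ) → {s : Stt L' // Inv K.F χ D m k s} := fun k =>
    Nat.rec (motive := fun k => {s : Stt L' // Inv K.F χ D m k s}) ⟨s, h⟩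
      (fun k sk => ⟨T k sk.1 sk.2, h5 k sk.1 sk.2⟩) k
  exact ⟨fun k => (S k).1, fun k => f k (S k).1 (S k).2, rfl, fun k =>
    ⟨h1 k (S k).1 (S k).2, h2 k (S k).1 (S k).2, h4 k (S k).1 (S k).2, (S k).2,
      e k (S k).1 (S k).2, h3 k (S k).1 (S k).2⟩⟩

end TruthCF
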