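import Pool.Agent.Work.MP_cfede9_lc.Ctx

set_option autoImplicit false
set_option linter.all false

/-!
# MP_cfede9_lc: states (definitions)
-/

open FirstOrder

namespace TruthCF

variable {L' : FirstOrder.Language.{0, 0}}

/-- a nice model with parameters `b` and a sequence `x` -/
structure Stt (L' : FirstOrder.Language.{0, 0}) : Type 1 where
  X : Type
  pam : PAm X
  str : L'.Structure X
  b : ℕ → X
  x : ℕ → X

attribute [instance] Stt.pam Stt.str

/-- invariant: `not χ` is defined over `b` by `D`, the first `m - k` points are flippable, the others are flipped -/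
structure Inv (F : FL L') {n : ℕ} (χ : LA.BoundedFormula Empty n) (D : List (List Con)) (m k : ℕ) (s : Stt L') :
    Prop where
  dn : ∀ u : s.X, ¬ Sa χ u ↔ Sat F s.b (fun _ => u) D
  fl : ∀ i, i + k < m → Flip F χ (mix s.x s.b i) (s.x i)
  fd : ∀ i, i < m → m ≤ i + k → ¬ Sa χ (s.x i)

end TruthCF
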