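import Pool.Agent.Work.MP_cfede9_lc.Stmt

set_option autoImplicit false
set_option linter.all false

/-!
# MP_cfede9_lc: arbitrary Goedel codings

The notions of the statement for every Goedel coding which EA can translate into the concrete coding `gnum`, `dotq`.
-/

open FirstOrder

namespace TruthCF

/-- A Goedel coding of arithmetic. `gn σ` is the code of the sentence `σ`; `sub φ` is an arithmetical formula
defining (in every model of EA) the function `x ↦` code of `φ` with the numeral of `x` substituted, at standard numbers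
its values are the codes of the sentences `φ(n)`; some arithmetical formula `dec` translates, provably in EA, the codes
`sub φ (x)` into the codes of the concrete coding. -/
structure Coding where
  gn : LA.Sentence → ℕ
  sub : LA.Formula (Fin 1) → LA.Formula (Fin 2)
  total : ∀ (φ : LA.Formula (Fin 1)) (M : Type) (_ : LA.Structure M) (_ : Nonempty M), IsEA M →
    ∀ x : M, ∃! s : M, (sub φ).Realize ![x, s]
  std : ∀ (φ : LA.Formula (Fin 1)) (M : Type) (_ : LA.Structure M) (_ : Nonempty M), IsEA M → ∀ n : ℕ,
    (sub φ).Realize ![((termOps Empty).num n).realize (default : Empty → M),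
      ((termOps Empty).num (gn (Language.BoundedFormula.subst φ (fun _ => (termOps Empty).num n)))).realize
        (default : Empty → M)]
  dec : LA.Formula (Fin 2)
  dec_ok : ∀ (φ : LA.Formula (Fin 1)) (M : Type) (_ : LA.Structure M) (_ : Nonempty M), IsEA M →
    ∀ x s : M, (sub φ).Realize ![x, s] → ∀ t : M, dec.Realize ![s, t] ↔ t = (dotq φ).realize (fun _ => x)

/-- `T` is a definition of truth (with respect to the coding `C`): it contains `EA`, it is finitely axiomatizable, and
some formula `Θ` satisfies all arithmetical disquotation sentences for sentences -/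
structure IsDefTruthC (C : Coding) {L' : FirstOrder.Language.{0, 0}} (T : (LA.sum L').Theory) : Prop where
  ea : ContainsEA T
  fin : ∃ T₀ : (LA.sum L').Theory, T₀.Finite ∧ (∀ σ ∈ T₀, T ⊨ᵇ σ) ∧ ∀ σ ∈ T, T₀ ⊨ᵇ σ
  tb : ∃ Θ : (LA.sum L').Formula (Fin 1), ∀ σ : LA.Sentence,
    T ⊨ᵇ (Θ.subst (fun _ => ((inA L').onTerm ((termOps Empty).num (C.gn σ)))) ⇔ (inA L').onSentence σ :
      (LA.sum L').Sentence)

/-- the axiom `∀ x s, sub φ (x, s) → (T(s) ↔ φ(x))` -/
def utbAxC (C : Coding) (φ : LA.Formula (Fin 1)) : (LA.sum LT).Sentence :=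
  ((Language.BoundedFormula.relabel (n := 2) (k := 0) (Sum.inr : Fin 2 → Empty ⊕ Fin 2)
      ((inA LT).onFormula (C.sub φ)) : (LA.sum LT).BoundedFormula Empty 2).imp
    (Language.BoundedFormula.rel (l := 1) (Sum.inr TT : LA.Relations 1 ⊕ LT.Relations 1)
      (fun _ => Language.Term.var (Sum.inr (1 : Fin 2))) ⇔
    Language.BoundedFormula.relabel (n := 2) (k := 0) (fun _ => Sum.inr (0 : Fin 2) : Fin 1 → Empty ⊕ Fin 2)
      ((inA LT).onFormula φ) : (LA.sum LT).BoundedFormula Empty 2)).all.all

/-- the theory `UTB^-` for the coding `C` -/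
def UTBmC (C : Coding) : (LA.sum LT).Theory := EAth LT ∪ {A | ∃ φ : LA.Formula (Fin 1), A = utbAxC C φ}

end TruthCF
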