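import Mathlib

set_option autoImplicit false
set_option linter.all false

/-!
# MP_cfede9_lc: chains of structures (definitions)
-/

open FirstOrder

namespace TruthCF

/-- the map preserves and reflects the formulas of the set `G` -/
def Pres {L : FirstOrder.Language.{0, 0}} (G : Set (Σ n : ℕ, L.BoundedFormula Empty n)) {M N : Type}
    [L.Structure M] [L.Structure N] (f : M → N) : Prop :=
  ∀ θ ∈ G, ∀ v : Fin θ.1 → M, θ.2.Realize default v ↔ θ.2.Realize default (f ∘ v)

/-- a chain of models with three marked elements in the first model (and their images) -/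
structure Chn (L : FirstOrder.Language.{0, 0}) where
  C : ℕ → Type
  str : ∀ k, L.Structure (C k)
  ne : ∀ k, Nonempty (C k)
  f : ∀ k, C k ↪[L] C (k + 1)
  a : ∀ k, Fin 3 → C k
  ha : ∀ k, f k ∘ a k = a (k + 1)

attribute [instance] Chn.str Chn.ne

/-- closed under subformulas -/
def SubClosed {L : FirstOrder.Language.{0, 0}} (G : Set (Σ n : ℕ, L.BoundedFormula Empty n)) : Prop :=
  (∀ (n : ℕ) (φ ψ : L.BoundedFormula Empty n), (⟨n, φ.imp ψ⟩ : Σ n : ℕ, L.BoundedFormula Empty n) ∈ G →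
    (⟨n, φ⟩ : Σ n : ℕ, L.BoundedFormula Empty n) ∈ G ∧ (⟨n, ψ⟩ : Σ n : ℕ, L.BoundedFormula Empty n) ∈ G) ∧
  (∀ (n : ℕ) (φ : L.BoundedFormula Empty (n + 1)), (⟨n, φ.all⟩ : Σ n : ℕ, L.BoundedFormula Empty n) ∈ G →
    (⟨n + 1, φ⟩ : Σ n : ℕ, L.BoundedFormula Empty n) ∈ G)

end TruthCF
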