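import Pool.Agent.Work.MP_cfede9_lc.Prog
import Pool.Agent.Work.MP_cfede9_lc.MtD

set_option autoImplicit false
set_option linter.all false

/-!
# MP_cfede9_lc, module Ctx: the setting of the main argument
-/

open FirstOrder

namespace TruthCF

/-- the atomic formula of a relation symbol -/
def atomF {L' : FirstOrder.Language.{0, 0}} {n : ℕ} (r : L'.Relations n) : (LA.sum L').BoundedFormula Empty n :=
  Language.BoundedFormula.rel (L := LA.sum L') (l := n) (Sum.inr r : LA.Relations n ⊕ L'.Relations n)
    (fun i => Language.Term.var (Sum.inr i))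

/-- the set of the members of the list -/
def FL.set {L' : FirstOrder.Language.{0, 0}} (F : FL L') : Set (Σ n : ℕ, (LA.sum L').BoundedFormula Empty n) :=
  {θ | θ ∈ F}

/-- a definition of truth: `α` has only nice models, `Θ` is a truth definition for arithmetical sentences;
`F` is a finite list of formulas, closed under subformulas, containing `α`, `Θ` and the atomic formulas -/
structure Ctx (L' : FirstOrder.Language.{0, 0}) where
  α : (LA.sum L').BoundedFormula Empty 0
  Θ : (LA.sum L').BoundedFormula Empty 1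
  F : FL L'
  code : LA.Sentence → ℕ
  rel : L'.IsRelational
  hnice : ∀ (M : Type) (S : (LA.sum L').Structure M) (_ : Nonempty M), α.Realize (M := M) default default →
    ∃ (P : PAm M) (Q : L'.Structure M), @Language.sumStructure LA L' M (@instLAStr M P) Q = S
  hTB : ∀ (M : Type) [PAm M] [L'.Structure M], α.Realize (M := M) default default → ∀ σ : LA.Sentence,
    (Θ.Realize (default : Empty → M) (fun _ => (code σ : M)) ↔ M ⊨ σ)
  hF : SubClosed F.set
  hα : (⟨0, α⟩ : Σ n : ℕ, (LA.sum L').BoundedFormula Empty n) ∈ F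
  hΘ : (⟨1, Θ⟩ : Σ n : ℕ, (LA.sum L').BoundedFormula Empty n) ∈ F
  hat : ∀ (n : ℕ) (r : L'.Relations n), (⟨n, atomF r⟩ : Σ n : ℕ, (LA.sum L').BoundedFormula Empty n) ∈ F

/-- the model satisfies `α` -/
def Ctx.Mod {L' : FirstOrder.Language.{0, 0}} (K : Ctx L') (M : Type) [PAm M] [L'.Structure M] : Prop :=
  K.α.Realize (M := M) default default

/-- an arithmetical formula and its negation are existentially definable in every model of `α` -/
def Good {L' : FirstOrder.Language.{0, 0}} (K : Ctx L') {n : ℕ} (θ : LA.BoundedFormula Empty n) : Prop :=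
  ∀ (M : Type) [PAm M] [L'.Structure M], K.Mod M →
    ExD K.F (fun u : ℕ → M => Sa θ (u 0)) ∧ ExD K.F (fun u : ℕ → M => ¬ Sa θ (u 0))

/-- all subformulas are good -/
def HGood {L' : FirstOrder.Language.{0, 0}} (K : Ctx L') : {n : ℕ} → LA.BoundedFormula Empty n → Prop
  | n, .falsum => Good K (Language.BoundedFormula.falsum (L := LA) (α := Empty) (n := n))
  | _, .equal t s => Good K (.equal t s)
  | _, .rel r ts => Good K (.rel r ts)
  | _, .imp φ ψ => Good K (.imp φ ψ) ∧ HGood K φ ∧ HGood K ψ
  | _, .all φ => Good K (.all φ) ∧ HGood K φ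

/-- `x` can be flipped from `χ` to `not χ` over the parameters `b` -/
def Flip {L' : FirstOrder.Language.{0, 0}} (F : FL L') {n : ℕ} (χ : LA.BoundedFormula Empty n) {M : Type} [PAm M]
    [L'.Structure M] (b : ℕ → M) (x : M) : Prop :=
  Sa χ x ∧ ∃ x' : M, ¬ Sa χ x' ∧ ∀ p : List Con, Sat1 F b (fun _ => x) p → Sat1 F b (fun _ => x') p

/-- the first `i` members of `x`, then `b` -/
def mix {M : Type} (x b : ℕ → M) (i : ℕ) : ℕ → M := fun j => if j < i then x j else b (j - i)

/-- at stage `k` the last `k` members of the sequence have been flipped -/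
def ChProp {n : ℕ} (χ : LA.BoundedFormula Empty n) (k : ℕ) {M : Type} [PAm M] (p q ν : M) : Prop :=
  (∀ i, i + (k : M) < ν → Sa χ (bt p q i)) ∧ ∀ i, i < ν → ν ≤ i + (k : M) → ¬ Sa χ (bt p q i)

/-- the formula which defines the standard cut in the union -/
def JJ {n : ℕ} (χ : LA.BoundedFormula Empty n) {M : Type} [PAm M] (p q ν j : M) : Prop :=
  ∃ i, i + j = ν ∧ (j = 0 ∨ ¬ Sa χ (bt p q i))

end TruthCF
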