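import Pool.Agent.Work.MP_cfede9_lc.EmbD
import Pool.Agent.Work.MP_cfede9_lc.Ar1
import Pool.Agent.Work.MP_cfede9_lc.Ar2

set_option autoImplicit false
set_option linter.all false

/-!
# MP_cfede9_lc, module Emb1: embeddings commute with the coding functions
-/

open FirstOrder

namespace TruthCF

variable {M N : Type} [PAm M] [PAm N] {f : M → N}

theorem AEmb.lt (hf : AEmb f) (a b : M) : f a < f b ↔ a < b := by
  rw [← not_le, ← not_le, hf.le]

theorem AEmb.inj (hf : AEmb f) {a b : M} (h : f a = f b) : a = b :=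
  le_antisymm ((hf.le a b).1 h.le) ((hf.le b a).1 h.ge)

theorem AEmb.cast (hf : AEmb f) (n : ℕ) : f (n : M) = (n : N) := by
  induction n with
  | zero => rw [Nat.cast_zero, Nat.cast_zero, hf.zero]
  | succ n ih => rw [Nat.cast_succ, Nat.cast_succ, hf.add, hf.one, ih]

theorem AEmb.pr (hf : AEmb f) (a b : M) : f (TruthCF.pr a b) = TruthCF.pr (f a) (f b) := by
  unfold TruthCF.pr
  rw [hf.add, hf.mul, hf.add]

private theorem Emb1_gap (hf : AEmb f) {a : M} (h : ∃ s, s * s + s < a ∧ a < (s + 1) * (s + 1)) :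
    ∃ s, s * s + s < f a ∧ f a < (s + 1) * (s + 1) := by
  obtain ⟨s, h1, h2⟩ := h
  refine ⟨f s, ?_, ?_⟩
  · rw [← hf.mul, ← hf.add, hf.lt]
    exact h1
  · rw [← hf.one, ← hf.add, ← hf.mul, hf.lt]
    exact h2

theorem AEmb.hd (hf : AEmb f) (a : M) : f (TruthCF.hd a) = TruthCF.hd (f a) := by
  symm
  rw [hd_eq_iff]
  rcases (hd_eq_iff a (TruthCF.hd a)).1 rfl with ⟨b, hb⟩ | ⟨h0, h⟩
  · left
    refine ⟨f b, ?_⟩
    rw [← hf.pr, ← hb]
  · right
    refine ⟨?_, Emb1_gap hf h⟩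
    rw [h0, hf.zero]

theorem AEmb.tl (hf : AEmb f) (a : M) : f (TruthCF.tl a) = TruthCF.tl (f a) := by
  symm
  rw [tl_eq_iff]
  rcases (tl_eq_iff a (TruthCF.tl a)).1 rfl with ⟨b, hb⟩ | ⟨h0, h⟩
  · left
    refine ⟨f b, ?_⟩
    rw [← hf.pr, ← hb]
  · right
    refine ⟨?_, Emb1_gap hf h⟩
    rw [h0, hf.zero]

theorem AEmb.bt (hf : AEmb f) (p q i : M) : f (TruthCF.bt p q i) = TruthCF.bt (f p) (f q) (f i) := by
  symm
  rw [bt_eq_iff]
  obtain ⟨k, h1, h2⟩ := (bt_eq_iff p q i (TruthCF.bt p q i)).1 rfl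
  have e : f (1 + (i + 1) * q) = 1 + (f i + 1) * f q := by
    rw [hf.add, hf.mul, hf.add, hf.one]
  refine ⟨f k, ?_, ?_⟩
  · rw [← e, ← hf.mul, ← hf.add, ← h1]
  · rw [← e, hf.lt]
    exact h2

theorem AEmb.val (hf : AEmb f) (n : ℕ) (u : M) : f ∘ TruthCF.val n u = TruthCF.val n (f u) := by
  induction n generalizing u with
  | zero => exact Subsingleton.elim _ _
  | succ n ih =>
    show f ∘ Fin.snoc (α := fun _ => M) (TruthCF.val n (TruthCF.tl u)) (TruthCF.hd u) =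
      Fin.snoc (α := fun _ => N) (TruthCF.val n (TruthCF.tl (f u))) (TruthCF.hd (f u))
    rw [← hf.hd, ← hf.tl, ← ih]
    exact Fin.comp_snoc (n := n) f (TruthCF.val n (TruthCF.tl u)) (TruthCF.hd u)

end TruthCF
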