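import Pool.Agent.Work.MP_cfede9_lc.Base

set_option autoImplicit false
set_option linter.all false

/-!
# MP_cfede9_lc: embeddings of the arithmetical structure (definition)
-/

open FirstOrder

namespace TruthCF

/-- embeddings of the arithmetical structure -/
structure AEmb {M N : Type} [PAm M] [PAm N] (f : M → N) : Prop where
  zero : f 0 = 0
  one : f 1 = 1
  add : ∀ a b, f (a + b) = f a + f b
  mul : ∀ a b, f (a * b) = f a * f b
  le : ∀ a b, f a ≤ f b ↔ a ≤ b

end TruthCF
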