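import Pool.Agent.Work.MP_cfede9_lc.Prog

set_option autoImplicit false
set_option linter.all false

/-!
# MP_cfede9_lc, module ExA1: closure properties of existentially definable relations, I

Method: rename registers and parameters of the programs (map on constraints), e.g. for `and` use the registers
`2*i` for the first and `2*i+1` for the second program, the same for the parameters; the programs of the
conjunction are the `p ++ q`. For `ex` (the quantified input is input 0) replace the constraint `inp i 0` by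
`w i = w 0` (as two constraints `le`) after the shift of the registers by one, and `inp i (j+1)` by `inp i j`.
-/

open FirstOrder

namespace TruthCF

variable {L' : FirstOrder.Language.{0, 0}} {F : FL L'} {M : Type} [PAm M] [L'.Structure M]

theorem ExD.congr {R S : (ℕ → M) → Prop} (h : ExD F R) (hRS : ∀ u, R u ↔ S u) : ExD F S := by
  obtain ⟨D, b, hD⟩ := h
  exact ⟨D, b, fun u => (hRS u).symm.trans (hD u)⟩

/-- renaming of the registers (by `g`) and the parameters (by `h`) -/
private def ExA1ren (g h : ℕ → ℕ) : Con → Con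
  | Con.zero i => Con.zero (g i)
  | Con.one i => Con.one (g i)
  | Con.add i j k => Con.add (g i) (g j) (g k)
  | Con.mul i j k => Con.mul (g i) (g j) (g k)
  | Con.le i j => Con.le (g i) (g j)
  | Con.lt i j => Con.lt (g i) (g j)
  | Con.par i j => Con.par (g i) (h j)
  | Con.inp i j => Con.inp (g i) j
  | Con.tt k i => Con.tt k (g i)
  | Con.ff k i => Con.ff k (g i)
  | Con.triv => Con.triv
  | Con.bad => Con.bad

private theorem ExA1ren_holds (g h : ℕ → ℕ) (b u w : ℕ → M) (c : Con) :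
    (ExA1ren g h c).holds F b u w ↔ c.holds F (fun j => b (h j)) u (fun i => w (g i)) := by
  cases c <;> exact Iff.rfl

private def ExA1ilv (f g : ℕ → M) : ℕ → M := fun i => if i % 2 = 0 then f (i / 2) else g (i / 2)

private theorem ExA1ilv_even (f g : ℕ → M) : (fun i => ExA1ilv f g (2 * i)) = f := by
  funext i
  unfold ExA1ilv
  rw [if_pos (by omega)]
  congr 1
  omega

private theorem ExA1ilv_odd (f g : ℕ → M) : (fun i => ExA1ilv f g (2 * i + 1)) = g := by
  funext i
  unfold ExA1ilv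
  rw [if_neg (by omega)]
  congr 1
  omega

private theorem ExA1sat1 (g h : ℕ → ℕ) (b u w : ℕ → M) (p : List Con) :
    (∀ c ∈ p.map (ExA1ren g h), c.holds F b u w) ↔
      ∀ c ∈ p, c.holds F (fun j => b (h j)) u (fun i => w (g i)) := by
  rw [List.forall_mem_map]
  exact forall₂_congr fun c _ => ExA1ren_holds g h b u w c

/-- renaming of parameters -/
private theorem ExA1sat (h : ℕ → ℕ) (b u : ℕ → M) (D : List (List Con)) :
    Sat F b u (D.map (List.map (ExA1ren id h))) ↔ Sat F (fun j => b (h j)) u D := by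
  unfold Sat Sat1
  constructor
  · rintro ⟨p, hp, w, hw⟩
    obtain ⟨q, hq, rfl⟩ := List.mem_map.1 hp
    exact ⟨q, hq, w, (ExA1sat1 id h b u w q).1 hw⟩
  · rintro ⟨q, hq, w, hw⟩
    exact ⟨_, List.mem_map.2 ⟨q, hq, rfl⟩, w, (ExA1sat1 id h b u w q).2 hw⟩

theorem ExD.and {R S : (ℕ → M) → Prop} (h : ExD F R) (h' : ExD F S) : ExD F (fun u => R u ∧ S u) := by
  obtain ⟨D, b, hD⟩ := h
  obtain ⟨D', b', hD'⟩ := h'
  refine ⟨D.flatMap fun p => D'.map fun q => p.map (ExA1ren (fun i => 2 * i) (fun i => 2 * i)) ++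
    q.map (ExA1ren (fun i => 2 * i + 1) (fun i => 2 * i + 1)), ExA1ilv b b', fun u => ?_⟩
  show (R u ∧ S u) ↔ _
  rw [hD u, hD' u]
  constructor
  · rintro ⟨⟨p, hp, w, hw⟩, q, hq, w', hw'⟩
    refine ⟨_, List.mem_flatMap.2 ⟨p, hp, List.mem_map.2 ⟨q, hq, rfl⟩⟩, ExA1ilv w w', ?_⟩
    intro c hc
    rcases List.mem_append.1 hc with hc | hc
    · refine (ExA1sat1 _ _ _ _ _ p).2 ?_ c hc
      rw [ExA1ilv_even, ExA1ilv_even]
      exact hw
    · refine (ExA1sat1 _ _ _ _ _ q).2 ?_ c hc
      rw [ExA1ilv_odd, ExA1ilv_odd]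
      exact hw'
  · rintro ⟨r, hr, w, hw⟩
    obtain ⟨p, hp, hr⟩ := List.mem_flatMap.1 hr
    obtain ⟨q, hq, rfl⟩ := List.mem_map.1 hr
    constructor
    · refine ⟨p, hp, fun i => w (2 * i), ?_⟩
      have h1 := (ExA1sat1 (fun i => 2 * i) (fun i => 2 * i) (ExA1ilv b b') u w p).1
        (fun c hc => hw c (List.mem_append_left _ hc))
      rwa [ExA1ilv_even] at h1
    · refine ⟨q, hq, fun i => w (2 * i + 1), ?_⟩
      have h1 := (ExA1sat1 (fun i => 2 * i + 1) (fun i => 2 * i + 1) (ExA1ilv b b') u w q).1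
        (fun c hc => hw c (List.mem_append_right _ hc))
      rwa [ExA1ilv_odd] at h1

theorem ExD.or {R S : (ℕ → M) → Prop} (h : ExD F R) (h' : ExD F S) : ExD F (fun u => R u ∨ S u) := by
  obtain ⟨D, b, hD⟩ := h
  obtain ⟨D', b', hD'⟩ := h'
  refine ⟨D.map (List.map (ExA1ren id (fun i => 2 * i))) ++
    D'.map (List.map (ExA1ren id (fun i => 2 * i + 1))), ExA1ilv b b', fun u => ?_⟩
  have h1 := ExA1sat (F := F) (fun i => 2 * i) (ExA1ilv b b') u D
  have h2 := ExA1sat (F := F) (fun i => 2 * i + 1) (ExA1ilv b b') u D'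
  rw [ExA1ilv_even] at h1
  rw [ExA1ilv_odd] at h2
  show (R u ∨ S u) ↔ _
  rw [hD u, hD' u, ← h1, ← h2]
  constructor
  · rintro (⟨p, hp, hs⟩ | ⟨p, hp, hs⟩)
    · exact ⟨p, List.mem_append_left _ hp, hs⟩
    · exact ⟨p, List.mem_append_right _ hp, hs⟩
  · rintro ⟨p, hp, hs⟩
    rcases List.mem_append.1 hp with hp | hp
    · exact Or.inl ⟨p, hp, hs⟩
    · exact Or.inr ⟨p, hp, hs⟩

/-- finitely many existentially definable relations have common parameters -/
theorem ExD.common {ι : Type} (l : List ι) (R : ι → (ℕ → M) → Prop) (h : ∀ i ∈ l, ExD F (R i)) :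
    ∃ b : ℕ → M, ∀ i ∈ l, ∃ D : List (List Con), ∀ u, R i u ↔ Sat F b u D := by
  induction l with
  | nil => exact ⟨fun _ => 0, fun i hi => absurd hi List.not_mem_nil⟩
  | cons i l ih =>
    obtain ⟨b, hb⟩ := ih fun j hj => h j (List.mem_cons_of_mem _ hj)
    obtain ⟨D, b0, hD⟩ := h i List.mem_cons_self
    refine ⟨ExA1ilv b0 b, fun j hj => ?_⟩
    rcases List.mem_cons.1 hj with rfl | hj
    · refine ⟨D.map (List.map (ExA1ren id (fun i => 2 * i))), fun u => ?_⟩
      rw [ExA1sat, ExA1ilv_even]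
      exact hD u
    · obtain ⟨D', hD'⟩ := hb j hj
      refine ⟨D'.map (List.map (ExA1ren id (fun i => 2 * i + 1))), fun u => ?_⟩
      rw [ExA1sat, ExA1ilv_odd]
      exact hD' u

end TruthCF
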