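import Pool.Agent.Work.MP_cfede9_lc.ExA1

set_option autoImplicit false
set_option linter.all false

/-!
# MP_cfede9_lc, module ExA2: closure properties of existentially definable relations, I

Method: rename registers and parameters of the programs (map on constraints), e.g. for `and` use the registers
`2*i` for the first and `2*i+1` for the second program, the same for the parameters; the programs of the
conjunction are the `p ++ q`. For `ex` (the quantified input is input 0) replace the constraint `inp i 0` by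
`w i = w 0` (as two constraints `le`) after the shift of the registers by one, and `inp i (j+1)` by `inp i j`.
-/

open FirstOrder

namespace TruthCF

variable {L' : FirstOrder.Language.{0, 0}} {F : FL L'} {M : Type} [PAm M] [L'.Structure M]

private def exTr : Con → List Con
  | Con.zero i => [Con.zero (i + 1)]
  | Con.one i => [Con.one (i + 1)]
  | Con.add i j k => [Con.add (i + 1) (j + 1) (k + 1)]
  | Con.mul i j k => [Con.mul (i + 1) (j + 1) (k + 1)]
  | Con.le i j => [Con.le (i + 1) (j + 1)]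
  | Con.lt i j => [Con.lt (i + 1) (j + 1)]
  | Con.par i j => [Con.par (i + 1) j]
  | Con.inp i 0 => [Con.le (i + 1) 0, Con.le 0 (i + 1)]
  | Con.inp i (j + 1) => [Con.inp (i + 1) j]
  | Con.tt k i => [Con.tt k (i + 1)]
  | Con.ff k i => [Con.ff k (i + 1)]
  | Con.triv => [Con.triv]
  | Con.bad => [Con.bad]

private def exCons (a : M) (u : ℕ → M) : ℕ → M
  | 0 => a
  | i + 1 => u i

private theorem exTr_holds (b u w : ℕ → M) (c : Con) :
    (∀ c' ∈ exTr c, c'.holds F b u w) ↔ c.holds F b (exCons (w 0) u) (fun i => w (i + 1)) := by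
  cases c with
  | inp i j =>
    cases j with
    | zero =>
      simp only [exTr, List.mem_cons, List.not_mem_nil, or_false, forall_eq_or_imp, forall_eq,
        Con.holds, exCons]
      exact ⟨fun h => le_antisymm h.1 h.2, fun h => ⟨h.le, h.ge⟩⟩
    | succ j => simp [exTr, Con.holds, exCons]
  | _ => simp [exTr, Con.holds]

private theorem ExA2_single {R : (ℕ → M) → Prop} (b : ℕ → M) (p : List Con)
    (h : ∀ u, R u ↔ Sat1 F b u p) : ExD F R :=
  ⟨[p], b, fun u => by rw [h u]; simp [Sat]⟩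

theorem ExD.ex {R : M → (ℕ → M) → Prop} (h : ExD F (fun u => R (u 0) (fun i => u (i + 1)))) :
    ExD F (fun u => ∃ a, R a u) := by
  obtain ⟨D, b, hD⟩ := h
  refine ⟨D.map (fun p => p.flatMap exTr), b, fun u => ?_⟩
  have e1 : ∀ a, R a u ↔ ∃ p ∈ D, ∃ w : ℕ → M, ∀ c ∈ p, c.holds F b (exCons a u) w := by
    intro a
    have h1 := hD (exCons a u)
    exact h1
  have e2 : ∀ (p : List Con) (w : ℕ → M), (∀ c ∈ p.flatMap exTr, c.holds F b u w) ↔
      ∀ c ∈ p, c.holds F b (exCons (w 0) u) (fun i => w (i + 1)) := by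
    intro p w
    constructor
    · intro h c hc
      exact (exTr_holds b u w c).1 fun c' hc' => h c' (List.mem_flatMap.2 ⟨c, hc, hc'⟩)
    · intro h c' hc'
      obtain ⟨c, hc, hc2⟩ := List.mem_flatMap.1 hc'
      exact (exTr_holds b u w c).2 (h c hc) c' hc2
  constructor
  · rintro ⟨a, ha⟩
    obtain ⟨p, hp, w, hw⟩ := (e1 a).1 ha
    refine ⟨p.flatMap exTr, List.mem_map.2 ⟨p, hp, rfl⟩, exCons a w, ?_⟩
    rw [e2]
    exact hw
  · rintro ⟨q, hq, w, hw⟩
    obtain ⟨p, hp, rfl⟩ := List.mem_map.1 hq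
    rw [e2] at hw
    exact ⟨w 0, (e1 (w 0)).2 ⟨p, hp, _, hw⟩⟩

theorem ExD.relabel {R : (ℕ → M) → Prop} (h : ExD F R) (g : ℕ → ℕ) : ExD F (fun u => R (fun i => u (g i))) := by
  obtain ⟨D, b, hD⟩ := h
  let tr : Con → Con := fun c => match c with
    | Con.inp i j => Con.inp i (g j)
    | c => c
  have htr : ∀ (u w : ℕ → M) (c : Con), (tr c).holds F b u w ↔ c.holds F b (fun i => u (g i)) w := by
    intro u w c
    cases c <;> exact Iff.rfl
  refine ⟨D.map (fun p => p.map tr), b, fun u => ?_⟩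
  refine (hD (fun i => u (g i))).trans ?_
  constructor
  · rintro ⟨p, hp, w, hw⟩
    refine ⟨p.map tr, List.mem_map.2 ⟨p, hp, rfl⟩, w, fun c hc => ?_⟩
    obtain ⟨c', hc', rfl⟩ := List.mem_map.1 hc
    exact (htr u w c').2 (hw c' hc')
  · rintro ⟨q, hq, w, hw⟩
    obtain ⟨p, hp, rfl⟩ := List.mem_map.1 hq
    refine ⟨p, hp, w, fun c hc => ?_⟩
    exact (htr u w c).1 (hw (tr c) (List.mem_map.2 ⟨c, hc, rfl⟩))

theorem ExD.const (p : Prop) : ExD F (fun _ : ℕ → M => p) := by
  by_cases h : p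
  · exact ⟨[ [] ], fun _ => 0, fun u => by simp [h, Sat, Sat1]⟩
  · exact ⟨[], fun _ => 0, fun u => by simp [h, Sat]⟩

theorem ExD.param (a : M) (i : ℕ) : ExD F (fun u : ℕ → M => u i = a) := by
  refine ExA2_single (fun _ => a) [Con.inp 0 i, Con.par 0 0] fun u => ?_
  simp only [Sat1, List.mem_cons, List.not_mem_nil, or_false, forall_eq_or_imp, forall_eq,
    Con.holds]
  constructor
  · intro h
    exact ⟨fun _ => a, h.symm, rfl⟩
  · rintro ⟨w, h1, h2⟩
    exact h1.symm.trans h2

theorem ExD.eq_var (i j : ℕ) : ExD F (fun u : ℕ → M => u i = u j) := by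
  refine ExA2_single (fun _ => 0) [Con.inp 0 i, Con.inp 0 j] fun u => ?_
  simp only [Sat1, List.mem_cons, List.not_mem_nil, or_false, forall_eq_or_imp, forall_eq,
    Con.holds]
  constructor
  · intro h
    exact ⟨fun _ => u i, rfl, h⟩
  · rintro ⟨w, h1, h2⟩
    exact h1.symm.trans h2

theorem ExD.le_var (i j : ℕ) : ExD F (fun u : ℕ → M => u i ≤ u j) := by
  refine ExA2_single (fun _ => 0) [Con.inp 0 i, Con.inp 1 j, Con.le 0 1] fun u => ?_
  simp only [Sat1, List.mem_cons, List.not_mem_nil, or_false, forall_eq_or_imp, forall_eq,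
    Con.holds]
  constructor
  · intro h
    exact ⟨exCons (u i) (fun _ => u j), rfl, rfl, h⟩
  · rintro ⟨w, h1, h2, h3⟩
    rwa [h1, h2] at h3

theorem ExD.lt_var (i j : ℕ) : ExD F (fun u : ℕ → M => u i < u j) := by
  refine ExA2_single (fun _ => 0) [Con.inp 0 i, Con.inp 1 j, Con.lt 0 1] fun u => ?_
  simp only [Sat1, List.mem_cons, List.not_mem_nil, or_false, forall_eq_or_imp, forall_eq,
    Con.holds]
  constructor
  · intro h
    exact ⟨exCons (u i) (fun _ => u j), rfl, rfl, h⟩
  · rintro ⟨w, h1, h2, h3⟩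
    rwa [h1, h2] at h3

theorem ExD.add_var (i j k : ℕ) : ExD F (fun u : ℕ → M => u i + u j = u k) := by
  refine ExA2_single (fun _ => 0) [Con.inp 0 i, Con.inp 1 j, Con.inp 2 k, Con.add 0 1 2]
    fun u => ?_
  simp only [Sat1, List.mem_cons, List.not_mem_nil, or_false, forall_eq_or_imp, forall_eq,
    Con.holds]
  constructor
  · intro h
    exact ⟨exCons (u i) (exCons (u j) (fun _ => u k)), rfl, rfl, rfl, h⟩
  · rintro ⟨w, h1, h2, h3, h4⟩
    rwa [h1, h2, h3] at h4

theorem ExD.mul_var (i j k : ℕ) : ExD F (fun u : ℕ → M => u i * u j = u k) := by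
  refine ExA2_single (fun _ => 0) [Con.inp 0 i, Con.inp 1 j, Con.inp 2 k, Con.mul 0 1 2]
    fun u => ?_
  simp only [Sat1, List.mem_cons, List.not_mem_nil, or_false, forall_eq_or_imp, forall_eq,
    Con.holds]
  constructor
  · intro h
    exact ⟨exCons (u i) (exCons (u j) (fun _ => u k)), rfl, rfl, rfl, h⟩
  · rintro ⟨w, h1, h2, h3, h4⟩
    rwa [h1, h2, h3] at h4

theorem ExD.tt {θ : Σ n : ℕ, (LA.sum L').BoundedFormula Empty n} (h : θ ∈ F) (i : ℕ) :
    ExD F (fun u : ℕ → M => Sv θ.2 (u i)) := by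
  obtain ⟨k, hk⟩ := List.mem_iff_getElem?.1 h
  refine ExA2_single (fun _ => 0) [Con.inp 0 i, Con.tt k 0] fun u => ?_
  simp only [Sat1, List.mem_cons, List.not_mem_nil, or_false, forall_eq_or_imp, forall_eq,
    Con.holds]
  constructor
  · intro h
    exact ⟨fun _ => u i, rfl, θ, hk, h⟩
  · rintro ⟨w, h1, θ', h2, h3⟩
    rw [hk, Option.some.injEq] at h2
    subst h2
    rwa [h1] at h3

theorem ExD.ff {θ : Σ n : ℕ, (LA.sum L').BoundedFormula Empty n} (h : θ ∈ F) (i : ℕ) :
    ExD F (fun u : ℕ → M => ¬ Sv θ.2 (u i)) := by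
  obtain ⟨k, hk⟩ := List.mem_iff_getElem?.1 h
  refine ExA2_single (fun _ => 0) [Con.inp 0 i, Con.ff k 0] fun u => ?_
  simp only [Sat1, List.mem_cons, List.not_mem_nil, or_false, forall_eq_or_imp, forall_eq,
    Con.holds]
  constructor
  · intro h
    exact ⟨fun _ => u i, rfl, θ, hk, h⟩
  · rintro ⟨w, h1, θ', h2, h3⟩
    rw [hk, Option.some.injEq] at h2
    subst h2
    rwa [h1] at h3

end TruthCF
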