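import Pool.Agent.Work.MP_cfede9_lc.ExB1

set_option autoImplicit false
set_option linter.all false

/-!
# MP_cfede9_lc, module ExB2: closure properties of existentially definable relations, II (functions), quantifier free formulas

The same pattern as in module UD (`UD.subst`, `UG.subst`, `UG.comp₂`, ...).
-/

open FirstOrder

namespace TruthCF

variable {L' : FirstOrder.Language.{0, 0}} {F : FL L'} {M : Type} [PAm M] [L'.Structure M]

/-- the values coded by an environment -/
theorem EG.val (n : ℕ) (i : Fin n) {s : (ℕ → M) → M} (hs : EG F s) : EG F (fun u => TruthCF.val n (s u) i) := by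
  induction n generalizing s with
  | zero => exact i.elim0
  | succ n ih =>
    refine Fin.lastCases ?_ (fun j => ?_) i
    · have h : (fun u => TruthCF.val (n + 1) (s u) (Fin.last n)) = fun u => TruthCF.hd (s u) := by
        funext u
        exact Fin.snoc_last (α := fun _ => M) _ _
      rw [h]
      exact EG.hd hs
    · have h : (fun u => TruthCF.val (n + 1) (s u) (Fin.castSucc j)) =
          fun u => TruthCF.val n (TruthCF.tl (s u)) j := by
        funext u
        exact Fin.snoc_castSucc (α := fun _ => M) _ _ _
      rw [h]
      exact ih j (EG.tl hs)

/-- values of terms -/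
theorem EG.term {n : ℕ} (t : LA.Term (Empty ⊕ Fin n)) {s : (ℕ → M) → M} (hs : EG F s) :
    EG F (fun u => t.realize (Sum.elim (default : Empty → M) (TruthCF.val n (s u)))) := by
  induction t with
  | var x =>
    rcases x with x | i
    · exact x.elim
    · exact EG.val n i hs
  | func f ts ih =>
    rcases f with _ | _ | _ | _
    · exact EG.const 0
    · exact (ih 0).add (EG.const 1)
    · exact (ih 0).add (ih 1)
    · exact (ih 0).mul (ih 1)

end TruthCF
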