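import Pool.Agent.Work.MP_cfede9_lc.Stmt

set_option autoImplicit false
set_option linter.all false

/-!
# MP_cfede9_lc, module Fin1a: division in models of EA

`Δ_0` induction for `∃ q ≤ a, ∃ r ≤ a, a = q * d + r ∧ ¬ d ≤ r` (write `∃` as `¬ ∀ ¬`, with `leT`).
-/

open FirstOrder

namespace TruthCF

section Fin1a

variable {M : Type} [LA.Structure M]

private theorem f1_le_add (h : PAminus M) (a c : M) : al a (ap a c) := (h.le_iff a _).2 ⟨c, rfl⟩

private theorem f1_le_add' (h : PAminus M) (a c : M) : al c (ap a c) := by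
  rw [h.add_comm]
  exact f1_le_add h c a

private theorem f1_zero_add (h : PAminus M) (a : M) : ap (az M) a = a := by
  rw [h.add_comm, h.add_zero]

private theorem f1_zero_mul (h : PAminus M) (a : M) : am (az M) a = az M := by
  rw [h.mul_comm, h.mul_zero]

private theorem f1_zero_le (h : PAminus M) (a : M) : al (az M) a :=
  (h.le_iff _ _).2 ⟨a, (f1_zero_add h a).symm⟩

private theorem f1_succ_le (h : PAminus M) {r d : M} (hd : ¬ al d r) : al (as r) d := by
  have h1 : al r d := (h.le_total r d).resolve_right hd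
  obtain ⟨c, hc⟩ := (h.le_iff r d).1 h1
  have h2 : ¬ al c (az M) := by
    intro h3
    have h4 : c = az M := h.le_antisymm _ _ h3 (f1_zero_le h c)
    apply hd
    rw [hc, h4, h.add_zero]
    exact h.le_refl r
  obtain ⟨e, he⟩ := (h.le_iff _ c).1 (h.discr c h2)
  rw [hc, he, ← h.add_assoc, ← h.succ_eq]
  exact f1_le_add h _ e

private theorem f1_le_mul (h : PAminus M) (q : M) {d : M} (hd : ¬ al d (az M)) :
    al q (am q d) := by
  obtain ⟨e, he⟩ := (h.le_iff _ d).1 (h.discr d hd)
  rw [he, h.distrib, h.mul_one]
  exact f1_le_add h q _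

/-- bounded existential quantification -/
private def f1bex {n : ℕ} (t : LA.Term (Empty ⊕ Fin n)) (ψ : LA.BoundedFormula Empty (n + 1)) :
    LA.BoundedFormula Empty n :=
  (((leT t).imp (ψ.imp Language.BoundedFormula.falsum)).all).imp Language.BoundedFormula.falsum

private theorem f1bex_delta {n : ℕ} (t : LA.Term (Empty ⊕ Fin n))
    {ψ : LA.BoundedFormula Empty (n + 1)} (h : IsDelta0 ψ) : IsDelta0 (f1bex t ψ) :=
  (IsDelta0.ball t (h.imp IsDelta0.falsum)).imp IsDelta0.falsum

private theorem f1le_realize {n : ℕ} (t : LA.Term (Empty ⊕ Fin n)) (v : Fin n → M) (a : M) :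
    (leT t).Realize default (Fin.snoc v a : Fin (n + 1) → M) ↔
      al a (t.realize (Sum.elim default v)) := by
  unfold leT al
  show Language.Structure.RelMap leR (fun i : Fin 2 => Language.Term.realize
      (Sum.elim (default : Empty → M) (Fin.snoc v a : Fin (n + 1) → M))
      ((![Language.Term.var (Sum.inr (Fin.last n)),
        t.relabel (Sum.map id Fin.castSucc)] : Fin 2 → LA.Term (Empty ⊕ Fin (n + 1))) i)) ↔ _
  have e : (fun i : Fin 2 => Language.Term.realize
      (Sum.elim (default : Empty → M) (Fin.snoc v a : Fin (n + 1) → M))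
      ((![Language.Term.var (Sum.inr (Fin.last n)),
        t.relabel (Sum.map id Fin.castSucc)] : Fin 2 → LA.Term (Empty ⊕ Fin (n + 1))) i)) =
      ![a, t.realize (Sum.elim default v)] := by
    funext i
    refine Fin.cases ?_ (fun j => ?_) i
    · show Sum.elim (default : Empty → M) (Fin.snoc v a : Fin (n + 1) → M)
        (Sum.inr (Fin.last n)) = a
      rw [Sum.elim_inr, Fin.snoc_last]
    · have hj : j = 0 := Subsingleton.elim _ _
      subst hj
      show Language.Term.realize (Sum.elim (default : Empty → M)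
        (Fin.snoc v a : Fin (n + 1) → M)) (t.relabel (Sum.map id Fin.castSucc)) =
        t.realize (Sum.elim default v)
      rw [Language.Term.realize_relabel]
      congr 1
      funext x
      rcases x with x | x
      · exact x.elim
      · show (Fin.snoc v a : Fin (n + 1) → M) (Fin.castSucc x) = v x
        rw [Fin.snoc_castSucc]
  rw [e]

private theorem f1bex_realize {n : ℕ} (t : LA.Term (Empty ⊕ Fin n))
    (ψ : LA.BoundedFormula Empty (n + 1)) (v : Fin n → M) :
    (f1bex t ψ).Realize default v ↔
      ∃ a : M, al a (t.realize (Sum.elim default v)) ∧ ψ.Realize default (Fin.snoc v a) := by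
  unfold f1bex
  rw [Language.BoundedFormula.realize_imp, Language.BoundedFormula.realize_all]
  constructor
  · intro h1
    by_contra h2
    push Not at h2
    refine h1 fun a => ?_
    rw [Language.BoundedFormula.realize_imp, f1le_realize, Language.BoundedFormula.realize_imp]
    intro h3 h4
    exact h2 a h3 h4
  · rintro ⟨a, h1, h2⟩ h3
    have h4 := h3 a
    rw [Language.BoundedFormula.realize_imp, f1le_realize,
      Language.BoundedFormula.realize_imp] at h4
    exact h4 h1 h2

/-- the variable `i` -/
private def f1v {n : ℕ} (i : Fin n) : LA.Term (Empty ⊕ Fin n) := Language.Term.var (Sum.inr i)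

/-- `a = q * d + r`, the variables are `d, a, q, r` -/
private def f1A : LA.BoundedFormula Empty 4 :=
  Language.BoundedFormula.equal (f1v 1)
    (Language.Term.func addF ![Language.Term.func mulF ![f1v 2, f1v 0], f1v 3])

/-- `d ≤ r`, the variables are `d, a, q, r` -/
private def f1B : LA.BoundedFormula Empty 4 :=
  Language.BoundedFormula.rel (l := 2) leR ![f1v 0, f1v 3]

private def f1C : LA.BoundedFormula Empty 4 :=
  (f1A.imp f1B).imp Language.BoundedFormula.falsum

private def f1D : LA.BoundedFormula Empty 2 := f1bex (f1v 1) (f1bex (f1v 1) f1C)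

private theorem f1D_delta : IsDelta0 f1D :=
  f1bex_delta _ (f1bex_delta _ (((IsDelta0.equal _ _).imp (IsDelta0.rel _ _)).imp
    IsDelta0.falsum))

private theorem f1C_realize (v : Fin 4 → M) :
    f1C.Realize default v ↔ (v 1 = ap (am (v 2) (v 0)) (v 3) ∧ ¬ al (v 0) (v 3)) := by
  unfold f1C
  rw [Language.BoundedFormula.realize_imp, Language.BoundedFormula.realize_imp]
  have hA : f1A.Realize default v ↔ v 1 = ap (am (v 2) (v 0)) (v 3) := by
    have e1 : f1A.Realize default v ↔ Language.Term.realize (Sum.elim (default : Empty → M) v)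
        (f1v 1) = Language.Term.realize (Sum.elim (default : Empty → M) v)
        (Language.Term.func addF ![Language.Term.func mulF ![f1v 2, f1v 0], f1v 3]) := Iff.rfl
    rw [e1]
    have e2 : Language.Term.realize (Sum.elim (default : Empty → M) v)
        (Language.Term.func addF ![Language.Term.func mulF ![f1v 2, f1v 0], f1v 3]) =
        ap (am (v 2) (v 0)) (v 3) := by
      unfold ap am
      rw [Language.Term.realize_func]
      congr 1
      funext i
      fin_cases i
      · show Language.Term.realize (Sum.elim (default : Empty → M) v)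
          (Language.Term.func mulF ![f1v 2, f1v 0]) = Language.Structure.funMap mulF ![v 2, v 0]
        rw [Language.Term.realize_func]
        congr 1
        funext i
        fin_cases i
        · rfl
        · rfl
      · rfl
    rw [e2]
    exact Iff.rfl
  have hB : f1B.Realize default v ↔ al (v 0) (v 3) := by
    unfold f1B al
    show Language.Structure.RelMap leR
      (fun i : Fin 2 => Language.Term.realize (Sum.elim (default : Empty → M) v)
        ((![f1v 0, f1v 3] : Fin 2 → LA.Term (Empty ⊕ Fin 4)) i)) ↔ _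
    have e : (fun i : Fin 2 => Language.Term.realize (Sum.elim (default : Empty → M) v)
        ((![f1v 0, f1v 3] : Fin 2 → LA.Term (Empty ⊕ Fin 4)) i)) = ![v 0, v 3] := by
      funext i
      fin_cases i
      · rfl
      · rfl
    rw [e]
  rw [hA, hB]
  constructor
  · intro h1
    by_contra h2
    refine h1 fun h3 => ?_
    by_contra h4
    exact h2 ⟨h3, h4⟩
  · rintro ⟨h1, h2⟩ h3
    exact h2 (h3 h1)

private theorem f1D_realize (h : PAminus M) {d : M} (hd : ¬ al d (az M)) (a : M) :
    f1D.Realize default (Fin.snoc (fun _ : Fin 1 => d) a : Fin 2 → M) ↔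
      ∃ q r, a = ap (am q d) r ∧ ¬ al d r := by
  unfold f1D
  rw [f1bex_realize]
  have key : ∀ q r : M, f1C.Realize default
      (Fin.snoc (Fin.snoc (Fin.snoc (fun _ : Fin 1 => d) a : Fin 2 → M) q : Fin 3 → M) r :
        Fin 4 → M) ↔ (a = ap (am q d) r ∧ ¬ al d r) := by
    intro q r
    rw [f1C_realize]
    exact Iff.rfl
  constructor
  · rintro ⟨q, -, h2⟩
    rw [f1bex_realize] at h2
    obtain ⟨r, -, h3⟩ := h2
    exact ⟨q, r, (key q r).1 h3⟩
  · rintro ⟨q, r, h1, h2⟩
    refine ⟨q, ?_, ?_⟩
    · show al q a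
      rw [h1]
      exact h.le_trans _ _ _ (f1_le_mul h q hd) (f1_le_add h _ r)
    · rw [f1bex_realize]
      refine ⟨r, ?_, (key q r).2 ⟨h1, h2⟩⟩
      show al r a
      rw [h1]
      exact f1_le_add' h _ r

end Fin1a

theorem ea_div {M : Type} [LA.Structure M] (h : IsEA M) (a d : M) (hd : ¬ al d (az M)) :
    ∃ q r, a = ap (am q d) r ∧ ¬ al d r := by
  have hp := h.pa
  have h1 := h.ind 1 f1D f1D_delta (fun _ => d) ?_ ?_ a
  · exact (f1D_realize hp hd a).1 h1
  · rw [f1D_realize hp hd]
    refine ⟨az M, az M, ?_, hd⟩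
    rw [f1_zero_mul hp, hp.add_zero]
  · intro b hb
    rw [f1D_realize hp hd] at hb ⊢
    obtain ⟨q, r, h2, h3⟩ := hb
    by_cases h4 : al d (as r)
    · have h5 : d = as r := hp.le_antisymm _ _ h4 (f1_succ_le hp h3)
      refine ⟨as q, az M, ?_, hd⟩
      have h6 : as b = ap (am q d) (as r) := by
        rw [hp.succ_eq b, h2, hp.succ_eq r, hp.add_assoc]
      rw [h6, hp.add_zero, hp.mul_comm (as q) d, hp.succ_eq q, hp.distrib, hp.mul_one,
        hp.mul_comm d q, ← h5]
    · refine ⟨q, as r, ?_, h4⟩
      rw [hp.succ_eq b, h2, hp.succ_eq r, hp.add_assoc]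

end TruthCF
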