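import Pool.Agent.Work.MP_cfede9_lc.Stmt

set_option autoImplicit false
set_option linter.all false

/-!
# MP_cfede9_lc, module Fin1b: square roots in models of EA

`Δ_0` induction for `∃ s ≤ a, s * s ≤ a ∧ ¬ (S s) * (S s) ≤ a` (write `∃` as `¬ ∀ ¬`, with `leT`).
-/

open FirstOrder

namespace TruthCF

private abbrev f1b_x0 : LA.Term (Empty ⊕ Fin 2) := Language.Term.var (Sum.inr 0)
private abbrev f1b_x1 : LA.Term (Empty ⊕ Fin 2) := Language.Term.var (Sum.inr 1)

/-- `s * s ≤ a` -/
private def f1b_A : LA.BoundedFormula Empty 2 :=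
  Language.BoundedFormula.rel (l := 2) leR ![Language.Term.func mulF ![f1b_x1, f1b_x1], f1b_x0]

/-- `(S s) * (S s) ≤ a` -/
private def f1b_B : LA.BoundedFormula Empty 2 :=
  Language.BoundedFormula.rel (l := 2) leR
    ![Language.Term.func mulF ![Language.Term.func succF ![f1b_x1],
      Language.Term.func succF ![f1b_x1] ], f1b_x0]

private def f1b_phi : LA.BoundedFormula Empty 1 :=
  ((((leT (Language.Term.var (Sum.inr 0))).imp
    (f1b_A.imp f1b_B)).all).imp Language.BoundedFormula.falsum)

private theorem f1b_delta : IsDelta0 f1b_phi :=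
  IsDelta0.imp (IsDelta0.ball _ (IsDelta0.imp (IsDelta0.rel _ _) (IsDelta0.rel _ _)))
    IsDelta0.falsum

private theorem f1b_realA {M : Type} [LA.Structure M] (w : Fin 2 → M) :
    f1b_A.Realize (default : Empty → M) w ↔ al (am (w 1) (w 1)) (w 0) := by
  have e1 : (fun i : Fin 2 => ((![Language.Term.func mulF ![f1b_x1, f1b_x1], f1b_x0] :
      Fin 2 → LA.Term (Empty ⊕ Fin 2)) i).realize (Sum.elim (default : Empty → M) w)) =
      ![am (w 1) (w 1), w 0] := by
    funext i
    fin_cases i
    · show Language.Structure.funMap mulF (fun j : Fin 2 => ((![f1b_x1, f1b_x1] :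
        Fin 2 → LA.Term (Empty ⊕ Fin 2)) j).realize (Sum.elim (default : Empty → M) w)) = _
      show _ = Language.Structure.funMap mulF ![w 1, w 1]
      congr 1
      funext j
      fin_cases j <;> rfl
    · rfl
  show Language.Structure.RelMap leR (fun i : Fin 2 => ((![Language.Term.func mulF
    ![f1b_x1, f1b_x1], f1b_x0] : Fin 2 → LA.Term (Empty ⊕ Fin 2)) i).realize
    (Sum.elim (default : Empty → M) w)) ↔ _
  rw [e1]
  rfl

private theorem f1b_realB {M : Type} [LA.Structure M] (w : Fin 2 → M) :
    f1b_B.Realize (default : Empty → M) w ↔ al (am (as (w 1)) (as (w 1))) (w 0) := by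
  have e0 : (fun j : Fin 1 => ((![f1b_x1] :
        Fin 1 → LA.Term (Empty ⊕ Fin 2)) j).realize (Sum.elim (default : Empty → M) w)) =
        ![w 1] := by
    funext j
    fin_cases j
    rfl
  have e2 : (Language.Term.func succF ![f1b_x1]).realize (Sum.elim (default : Empty → M) w) =
      as (w 1) := by
    show Language.Structure.funMap succF (fun j : Fin 1 => ((![f1b_x1] :
        Fin 1 → LA.Term (Empty ⊕ Fin 2)) j).realize (Sum.elim (default : Empty → M) w)) = _
    rw [e0]
    rfl
  have e1 : (fun i : Fin 2 => ((![Language.Term.func mulF ![Language.Term.func succF ![f1b_x1],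
      Language.Term.func succF ![f1b_x1] ], f1b_x0] :
      Fin 2 → LA.Term (Empty ⊕ Fin 2)) i).realize (Sum.elim (default : Empty → M) w)) =
      ![am (as (w 1)) (as (w 1)), w 0] := by
    funext i
    fin_cases i
    · show Language.Structure.funMap mulF (fun j : Fin 2 => ((![Language.Term.func succF ![f1b_x1],
        Language.Term.func succF ![f1b_x1] ] :
        Fin 2 → LA.Term (Empty ⊕ Fin 2)) j).realize (Sum.elim (default : Empty → M) w)) = _
      show _ = Language.Structure.funMap mulF ![as (w 1), as (w 1)]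
      congr 1
      funext j
      fin_cases j
      · exact e2
      · exact e2
    · rfl
  show Language.Structure.RelMap leR (fun i : Fin 2 => ((![Language.Term.func mulF
    ![Language.Term.func succF ![f1b_x1], Language.Term.func succF ![f1b_x1] ], f1b_x0] :
    Fin 2 → LA.Term (Empty ⊕ Fin 2)) i).realize
    (Sum.elim (default : Empty → M) w)) ↔ _
  rw [e1]
  rfl

private theorem f1b_realL {M : Type} [LA.Structure M] (w : Fin 1 → M) (s : M) :
    (leT (Language.Term.var (Sum.inr 0) : LA.Term (Empty ⊕ Fin 1))).Realize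
      (default : Empty → M) (Fin.snoc w s) ↔ al s (w 0) := by
  have e1 : (fun i : Fin 2 => ((![Language.Term.var (Sum.inr (Fin.last 1)),
      (Language.Term.var (Sum.inr 0) : LA.Term (Empty ⊕ Fin 1)).relabel
        (Sum.map id Fin.castSucc)] : Fin 2 → LA.Term (Empty ⊕ Fin 2)) i).realize
        (Sum.elim (default : Empty → M) (Fin.snoc w s))) = ![s, w 0] := by
    funext i
    fin_cases i
    · show (Fin.snoc w s : Fin 2 → M) (Fin.last 1) = s
      exact Fin.snoc_last _ _
    · show (Fin.snoc w s : Fin 2 → M) (Fin.castSucc 0) = w 0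
      exact Fin.snoc_castSucc _ _ _
  show Language.Structure.RelMap leR (fun i : Fin 2 => ((![Language.Term.var (Sum.inr (Fin.last 1)),
      (Language.Term.var (Sum.inr 0) : LA.Term (Empty ⊕ Fin 1)).relabel
        (Sum.map id Fin.castSucc)] : Fin 2 → LA.Term (Empty ⊕ Fin 2)) i).realize
        (Sum.elim (default : Empty → M) (Fin.snoc w s))) ↔ _
  rw [e1]
  rfl

private theorem f1b_real {M : Type} [LA.Structure M] (v : Fin 0 → M) (a : M) :
    f1b_phi.Realize (default : Empty → M) (Fin.snoc v a) ↔
      ∃ s, al s a ∧ al (am s s) a ∧ ¬ al (am (as s) (as s)) a := by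
  have h0 : (Fin.snoc v a : Fin 1 → M) 0 = a := by
    exact Fin.snoc_last (α := fun _ => M) a v
  show ((∀ s : M, ((leT (Language.Term.var (Sum.inr 0) : LA.Term (Empty ⊕ Fin 1))).Realize
      (default : Empty → M) (Fin.snoc (Fin.snoc v a : Fin 1 → M) s) → f1b_A.Realize (default : Empty → M)
      (Fin.snoc (Fin.snoc v a : Fin 1 → M) s) → f1b_B.Realize (default : Empty → M)
      (Fin.snoc (Fin.snoc v a : Fin 1 → M) s))) → False) ↔ _
  have h1 : ∀ s : M, (Fin.snoc (Fin.snoc v a : Fin 1 → M) s : Fin 2 → M) 1 = s := fun s =>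
    Fin.snoc_last (α := fun _ => M) s _
  have h2 : ∀ s : M, (Fin.snoc (Fin.snoc v a : Fin 1 → M) s : Fin 2 → M) 0 = a := fun s =>
    (Fin.snoc_castSucc (α := fun _ => M) s _ 0).trans h0
  simp only [f1b_realA, f1b_realB, f1b_realL, h0, h1, h2]
  constructor
  · intro h
    by_contra hc
    push Not at hc
    exact h hc
  · rintro ⟨s, hs1, hs2, hs3⟩ h
    exact hs3 (h s hs1 hs2)

theorem ea_sqrt {M : Type} [LA.Structure M] (h : IsEA M) (a : M) :
    ∃ s, al (am s s) a ∧ ¬ al (am (as s) (as s)) a := by
  have P := h.pa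
  have zadd : ∀ x : M, ap (az M) x = x := fun x => by rw [P.add_comm, P.add_zero]
  have ladd : ∀ x c : M, al x (ap x c) := fun x c => (P.le_iff _ _).mpr ⟨c, rfl⟩
  have lzero : ∀ x : M, al (az M) x := fun x => (P.le_iff _ _).mpr ⟨x, (zadd x).symm⟩
  have lsucc : ∀ x : M, al x (as x) := fun x => by
    rw [P.succ_eq]
    exact ladd _ _
  have one_le_succ : ∀ x : M, al (as (az M)) (as x) := fun x => by
    rw [P.succ_eq x, P.add_comm]
    exact ladd _ _
  have mmono : ∀ x y c : M, al x y → al (am x c) (am y c) := by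
    intro x y c hxy
    obtain ⟨d, hd⟩ := (P.le_iff _ _).mp hxy
    rw [hd, P.mul_comm (ap x d) c, P.distrib, P.mul_comm c x]
    exact ladd _ _
  have one_mul : ∀ x : M, am (as (az M)) x = x := fun x => by rw [P.mul_comm, P.mul_one]
  have hkey : ∀ a : M, f1b_phi.Realize default (Fin.snoc (Fin.elim0 : Fin 0 → M) a) := by
    apply h.ind 0 f1b_phi f1b_delta
    · rw [f1b_real]
      refine ⟨az M, P.le_refl _, ?_, ?_⟩
      · rw [P.mul_zero]
        exact P.le_refl _
      · rw [P.mul_one]
        exact P.zero_lt_one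
    · intro a ha
      rw [f1b_real] at ha ⊢
      obtain ⟨s, hs1, hs2, hs3⟩ := ha
      by_cases h2 : al (am (as s) (as s)) (as a)
      · refine ⟨as s, ?_, h2, ?_⟩
        · refine P.le_trans _ _ _ ?_ h2
          have := mmono _ _ (as s) (one_le_succ s)
          rwa [one_mul] at this
        · intro hc
          have hab : al a (am (as s) (as s)) := by
            rcases P.le_total a (am (as s) (as s)) with h3 | h3
            · exact h3
            · exact absurd h3 hs3
          obtain ⟨c, hcc⟩ := (P.le_iff _ _).mp hab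
          have hc0 : ¬ al c (az M) := by
            intro h3
            have h4 : c = az M := P.le_antisymm _ _ h3 (lzero c)
            apply hs3
            rw [hcc, h4, P.add_zero]
            exact P.le_refl _
          have h1c := P.discr c hc0
          have hSa : al (as a) (am (as s) (as s)) := by
            obtain ⟨d, hd⟩ := (P.le_iff _ _).mp h1c
            rw [hcc, hd, ← P.add_assoc, ← P.succ_eq]
            exact ladd _ _
          have h5 := P.le_trans _ _ _ hc hSa
          have h6 : al (am (as s) (as s)) (am (as s) (as (as s))) := by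
            rw [P.mul_comm (as s) (as (as s))]
            exact mmono _ _ _ (lsucc _)
          have h7 := P.le_trans _ _ _ h5 h6
          have h8 : ¬ al (as (as s)) (az M) := fun h9 =>
            P.zero_lt_one (P.le_trans _ _ _ (one_le_succ _) h9)
          have h10 : ¬ al (as (as s)) (as s) := by
            have h11 := P.add_lt (az M) (as (az M)) (as s) P.zero_lt_one
            rw [zadd, P.add_comm, ← P.succ_eq] at h11
            exact h11
          exact P.mul_lt (as s) (as (as s)) (as (as s)) h8 h10 h7
      · exact ⟨s, P.le_trans _ _ _ hs1 (lsucc a), P.le_trans _ _ _ hs2 (lsucc a), h2⟩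
  obtain ⟨s, _, hs2, hs3⟩ := (f1b_real _ _).mp (hkey a)
  exact ⟨s, hs2, hs3⟩

end TruthCF
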