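import Pool.Agent.Work.MP_cfede9_lc.Stmt
import Pool.Agent.Work.MP_cfede9_lc.Base

set_option autoImplicit false
set_option linter.all false

/-!
# MP_cfede9_lc: raw axioms (definitions)
-/

open FirstOrder

namespace TruthCF

/-- the axioms used in the proof: `PA^-`, division with remainder, integer square roots -/
structure RawAx (M : Type) [LA.Structure M] : Prop where
  pa : PAminus M
  div_ex : ∀ a d : M, ¬ al d (az M) → ∃ q r, a = ap (am q d) r ∧ ¬ al d r
  sqrt_ex : ∀ a : M, ∃ s, al (am s s) a ∧ ¬ al (am (as s) (as s)) a

end TruthCF
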