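import Pool.Agent.Work.MP_cfede9_lc.Fin1a
import Pool.Agent.Work.MP_cfede9_lc.Fin1b
import Pool.Agent.Work.MP_cfede9_lc.NicD

set_option autoImplicit false
set_option linter.all false

/-!
# MP_cfede9_lc, module Fin1c: models of EA satisfy the raw axioms
-/

open FirstOrder

namespace TruthCF

theorem ea_raw {M : Type} [LA.Structure M] (h : IsEA M) : RawAx M :=
  ⟨h.pa, ea_div h, ea_sqrt h⟩

end TruthCF
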