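import Mathlib

set_option autoImplicit false
set_option linter.all false

/-!
# MP_cfede9_lc, module Fin2a: finitely axiomatizable theories
-/

open FirstOrder

namespace TruthCF

/-- a finitely axiomatizable theory is axiomatized by one sentence -/
theorem exists_axiom {L : FirstOrder.Language.{0, 0}} (T : L.Theory)
    (h : ∃ T₀ : L.Theory, T₀.Finite ∧ (∀ σ ∈ T₀, T ⊨ᵇ σ) ∧ ∀ σ ∈ T, T₀ ⊨ᵇ σ) :
    ∃ α : L.Sentence, ∀ (M : Type) (_ : L.Structure M) (_ : Nonempty M), M ⊨ α ↔ M ⊨ T := by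
  obtain ⟨T₀, hfin, h1, h2⟩ := h
  haveI : Finite T₀ := hfin
  refine ⟨Language.Formula.iInf (fun σ : T₀ => (σ : L.Sentence)), fun M _ _ => ?_⟩
  have key : M ⊨ (Language.Formula.iInf (fun σ : T₀ => (σ : L.Sentence)) : L.Sentence) ↔
      ∀ σ ∈ T₀, M ⊨ σ := by
    unfold Language.Sentence.Realize
    rw [Language.Formula.realize_iInf]
    exact ⟨fun h σ hσ => h ⟨σ, hσ⟩, fun h b => h b b.2⟩
  rw [key]
  constructor
  · intro h0
    haveI : M ⊨ T₀ := ⟨fun σ hσ => h0 σ hσ⟩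
    exact ⟨fun σ hσ => (h2 σ hσ).realize_sentence M⟩
  · intro hT σ hσ
    haveI := hT
    exact (h1 σ hσ).realize_sentence M

end TruthCF
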