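import Pool.Agent.Work.MP_cfede9_lc.TrD

set_option autoImplicit false
set_option linter.all false

/-!
# MP_cfede9_lc, module Fin2c: the term for the code is interpreted by the code
-/

open FirstOrder

namespace TruthCF

section

variable {A B : Type}

private structure OHom (O : AOps A) (O' : AOps B) (h : A → B) : Prop where
  z : h O.z = O'.z
  s : ∀ a, h (O.s a) = O'.s (h a)
  p : ∀ a b, h (O.p a b) = O'.p (h a) (h b)
  m : ∀ a b, h (O.m a b) = O'.m (h a) (h b)

private theorem OHom.num {O : AOps A} {O' : AOps B} {h : A → B} (H : OHom O O' h) :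
    ∀ n : ℕ, h (O.num n) = O'.num n
  | 0 => H.z
  | n + 1 => by
      show h (O.s (O.num n)) = O'.s (O'.num n)
      rw [H.s, OHom.num H n]

private theorem OHom.pr {O : AOps A} {O' : AOps B} {h : A → B} (H : OHom O O' h) (a b : A) :
    h (O.pr a b) = O'.pr (h a) (h b) := by
  unfold AOps.pr
  rw [H.p, H.m, H.p]

private theorem OHom.tstep {O : AOps A} {O' : AOps B} {h : A → B} (H : OHom O O' h) :
    ∀ {l : ℕ} (f : AFunc l) (c : Fin l → A × A),
      Prod.map h h (tstep O f c) = TruthCF.tstep O' f (fun i => Prod.map h h (c i))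
  | _, .zero, c => by
      show (h O.z, h (O.pr (O.num 0) (O.num 0))) = (O'.z, O'.pr (O'.num 0) (O'.num 0))
      rw [H.z, H.pr, H.num]
  | _, .succ, c => by
      show (h (O.s (c 0).1), h (c 0).2) = (O'.s (h (c 0).1), h (c 0).2)
      rw [H.s]
  | _, .add, c => by
      show (h O.z, h (O.pr (O.num 2) (O.pr (O.pr (c 0).1 (c 0).2) (O.pr (c 1).1 (c 1).2)))) =
        (O'.z, O'.pr (O'.num 2) (O'.pr (O'.pr (h (c 0).1) (h (c 0).2)) (O'.pr (h (c 1).1) (h (c 1).2))))
      simp only [H.z, H.pr, H.num]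
  | _, .mul, c => by
      show (h O.z, h (O.pr (O.num 3) (O.pr (O.pr (c 0).1 (c 0).2) (O.pr (c 1).1 (c 1).2)))) =
        (O'.z, O'.pr (O'.num 3) (O'.pr (O'.pr (h (c 0).1) (h (c 0).2)) (O'.pr (h (c 1).1) (h (c 1).2))))
      simp only [H.z, H.pr, H.num]

private theorem OHom.tcode {O : AOps A} {O' : AOps B} {h : A → B} (H : OHom O O' h) {β : Type}
    (x : β → A) {n : ℕ} : ∀ t : LA.Term (β ⊕ Fin n),
      Prod.map h h (tcode O x t) = TruthCF.tcode O' (fun b => h (x b)) t
  | .var (Sum.inl b) => by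
      show (h (x b), h (O.pr (O.num 0) (O.num 0))) = (h (x b), O'.pr (O'.num 0) (O'.num 0))
      rw [H.pr, H.num]
  | .var (Sum.inr i) => by
      show (h O.z, h (O.pr (O.num 1) (O.num (n - 1 - (i : ℕ))))) =
        (O'.z, O'.pr (O'.num 1) (O'.num (n - 1 - (i : ℕ))))
      rw [H.z, H.pr, H.num, H.num]
  | .func f ts => by
      show Prod.map h h (TruthCF.tstep O f (fun i => TruthCF.tcode O x (ts i))) =
        TruthCF.tstep O' f (fun i => TruthCF.tcode O' (fun b => h (x b)) (ts i))
      rw [H.tstep]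
      congr 1
      funext i
      exact OHom.tcode H x (ts i)

private theorem OHom.tc {O : AOps A} {O' : AOps B} {h : A → B} (H : OHom O O' h) {β : Type}
    (x : β → A) {n : ℕ} (t : LA.Term (β ⊕ Fin n)) :
    h (tc O x t) = TruthCF.tc O' (fun b => h (x b)) t := by
  have h1 := H.tcode x t
  unfold TruthCF.tc
  rw [H.pr, ← h1]
  rfl

private theorem OHom.rstep {O : AOps A} {O' : AOps B} {h : A → B} (H : OHom O O' h) :
    ∀ {l : ℕ} (r : ARel l) (c : Fin l → A),
      h (rstep O r c) = TruthCF.rstep O' r (fun i => h (c i))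
  | _, .le, c => H.pr _ _

private theorem OHom.fcode {O : AOps A} {O' : AOps B} {h : A → B} (H : OHom O O' h) {β : Type}
    (x : β → A) : ∀ {n : ℕ} (φ : LA.BoundedFormula β n),
      h (fcode O x φ) = TruthCF.fcode O' (fun b => h (x b)) φ
  | _, .falsum => by
      show h (O.pr (O.num 4) (O.num 0)) = O'.pr (O'.num 4) (O'.num 0)
      rw [H.pr, H.num, H.num]
  | _, .equal t s => by
      show h (O.pr (O.num 5) (O.pr (TruthCF.tc O x t) (TruthCF.tc O x s))) =
        O'.pr (O'.num 5) (O'.pr (TruthCF.tc O' (fun b => h (x b)) t) (TruthCF.tc O' (fun b => h (x b)) s))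
      rw [H.pr, H.pr, H.num, H.tc, H.tc]
  | _, .rel r ts => by
      show h (O.pr (O.num 6) (TruthCF.rstep O r (fun i => TruthCF.tc O x (ts i)))) =
        O'.pr (O'.num 6) (TruthCF.rstep O' r (fun i => TruthCF.tc O' (fun b => h (x b)) (ts i)))
      rw [H.pr, H.num, H.rstep]
      congr 2
      funext i
      exact H.tc x (ts i)
  | _, .imp φ ψ => by
      show h (O.pr (O.num 7) (O.pr (TruthCF.fcode O x φ) (TruthCF.fcode O x ψ))) =
        O'.pr (O'.num 7) (O'.pr (TruthCF.fcode O' (fun b => h (x b)) φ)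
          (TruthCF.fcode O' (fun b => h (x b)) ψ))
      rw [H.pr, H.pr, H.num, OHom.fcode H x φ, OHom.fcode H x ψ]
  | _, .all φ => by
      show h (O.pr (O.num 8) (TruthCF.fcode O x φ)) =
        O'.pr (O'.num 8) (TruthCF.fcode O' (fun b => h (x b)) φ)
      rw [H.pr, H.num, OHom.fcode H x φ]

end

/-- the term for the code is interpreted by the code -/
theorem realize_dotq {M : Type} [PAm M] (φ : LA.Formula (Fin 1)) (x : M) :
    (dotq φ).realize (fun _ => x) = fcode (mOps M) (fun _ => x) φ := by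
  have H : OHom (termOps (Fin 1)) (mOps M) (fun t : LA.Term (Fin 1) => t.realize (fun _ => x)) := by
    refine ⟨rfl, fun a => rfl, fun a b => rfl, fun a b => rfl⟩
  exact H.fcode _ φ

end TruthCF
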