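import Pool.Agent.Work.MP_cfede9_lc.Stmt

set_option autoImplicit false
set_option linter.all false

/-!
# MP_cfede9_lc, module Fin2d: translations and structures
-/

open FirstOrder

namespace TruthCF

/-- the structure defined by a translation -/
def trStr {L₁ L₂ : FirstOrder.Language.{0, 0}} [L₁.IsRelational] (τ : Transl L₁ L₂) (M : Type)
    [LA.Structure M] [L₂.Structure M] : L₁.Structure M where
  funMap := fun f _ => isEmptyElim f
  RelMap := fun {n} r v => (τ n r).Realize v

private theorem realize_trTerm {L₁ L₂ : FirstOrder.Language.{0, 0}} [L₁.IsRelational]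
    (τ : Transl L₁ L₂) (M : Type) [LA.Structure M] [L₂.Structure M] {β : Type} (v : β → M)
    (t : (LA.sum L₁).Term β) :
    (trTerm t : (LA.sum L₂).Term β).realize v =
      @Language.Term.realize (LA.sum L₁) M (@Language.sumStructure LA L₁ M _ (trStr τ M)) β v t := by
  induction t with
  | var b => rfl
  | func f ts ih =>
    rcases f with g | g
    · show Language.Structure.funMap g (fun i => (trTerm (ts i) : (LA.sum L₂).Term β).realize v) =
        Language.Structure.funMap g (fun i => @Language.Term.realize (LA.sum L₁) M
          (@Language.sumStructure LA L₁ M _ (trStr τ M)) β v (ts i))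
      congr 1
      funext i
      exact ih i
    · exact isEmptyElim g

theorem realize_fm {L₁ L₂ : FirstOrder.Language.{0, 0}} [L₁.IsRelational] (τ : Transl L₁ L₂) (M : Type)
    [LA.Structure M] [L₂.Structure M] {β : Type} {n : ℕ} (φ : (LA.sum L₁).BoundedFormula β n) (v : β → M)
    (xs : Fin n → M) :
    (τ.fm φ).Realize v xs ↔
      @Language.BoundedFormula.Realize (LA.sum L₁) M (@Language.sumStructure LA L₁ M _ (trStr τ M)) β n φ v xs := by
  induction φ with
  | falsum => exact Iff.rfl
  | equal t s =>
    show (trTerm t : (LA.sum L₂).Term _).realize (Sum.elim v xs) =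
        (trTerm s : (LA.sum L₂).Term _).realize (Sum.elim v xs) ↔ _
    rw [realize_trTerm τ M, realize_trTerm τ M]
    exact Iff.rfl
  | @rel n l r ts =>
    rcases r with q | q
    · show Language.Structure.RelMap q (fun i => (trTerm (ts i) : (LA.sum L₂).Term _).realize
        (Sum.elim v xs)) ↔ Language.Structure.RelMap q (fun i => @Language.Term.realize (LA.sum L₁) M
          (@Language.sumStructure LA L₁ M _ (trStr τ M)) _ (Sum.elim v xs) (ts i))
      simp only [realize_trTerm τ M]
    · show (((τ l q).subst (fun i => trTerm (ts i))).relabel id).Realize v xs ↔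
        (τ l q).Realize (fun i => @Language.Term.realize (LA.sum L₁) M
          (@Language.sumStructure LA L₁ M _ (trStr τ M)) _ (Sum.elim v xs) (ts i))
      rw [Language.BoundedFormula.realize_relabel, Language.BoundedFormula.realize_subst]
      unfold Language.Formula.Realize
      have h1 : (Sum.elim v (xs ∘ Fin.castAdd 0) ∘ id : _ ⊕ Fin n → M) = Sum.elim v xs := rfl
      rw [h1]
      have h2 : (fun a => (trTerm (ts a) : (LA.sum L₂).Term _).realize (Sum.elim v xs)) =
          fun i => @Language.Term.realize (LA.sum L₁) M
            (@Language.sumStructure LA L₁ M _ (trStr τ M)) _ (Sum.elim v xs) (ts i) :=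
        funext fun i => realize_trTerm τ M _ _
      rw [h2]
      have h3 : (xs ∘ Fin.natAdd n : Fin 0 → M) = default := Subsingleton.elim _ _
      rw [h3]
  | imp φ ψ ih1 ih2 => exact imp_congr (ih1 xs) (ih2 xs)
  | all φ ih => exact forall_congr' fun a => ih (Fin.snoc xs a)

end TruthCF
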