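import Pool.Agent.Work.MP_cfede9_lc.UD
import Pool.Agent.Work.MP_cfede9_lc.Ar1
import Pool.Agent.Work.MP_cfede9_lc.Ar2

set_option autoImplicit false
set_option linter.all false

/-!
# MP_cfede9_lc, module UDb: pairing, components, beta function, truth of fixed formulas are uniformly definable
-/

open FirstOrder

namespace TruthCF

variable {L' : FirstOrder.Language.{0, 0}}

theorem UG.pr {s t : Fn L'} (hs : UG L' s) (ht : UG L' t) :
    UG L' (fun M _ _ v => TruthCF.pr (s M v) (t M v)) := by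
  exact (((hs.add ht).mul (hs.add ht)).add hs).congr fun M _ _ v => rfl

theorem UG.hd {s : Fn L'} (hs : UG L' s) : UG L' (fun M _ _ v => TruthCF.hd (s M v)) := by
  refine UG.comp₁ (f := fun M _ _ a => TruthCF.hd a) ?_ hs
  refine UD.congr (R := fun M _ _ v => (∃ b, v 1 = TruthCF.pr (v 0) b) ∨
    (v 0 = 0 ∧ ∃ s, s * s + s < v 1 ∧ v 1 < (s + 1) * (s + 1))) ?_
    fun M _ _ v => (hd_eq_iff (v 1) (v 0)).symm
  refine UD.or ?_ (UD.and ?_ ?_)
  · refine UD.ex (R := fun M _ _ b v => v 1 = TruthCF.pr (v 0) b) ?_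
    exact UD.eq (UG.var 2) (UG.pr (UG.var 1) (UG.var 0))
  · exact UD.eq (UG.var 0) UG.zero
  · refine UD.ex (R := fun M _ _ s v => s * s + s < v 1 ∧ v 1 < (s + 1) * (s + 1)) ?_
    refine UD.and ?_ ?_
    · exact UD.lt (((UG.var 0).mul (UG.var 0)).add (UG.var 0)) (UG.var 2)
    · exact UD.lt (UG.var 2) (((UG.var 0).add UG.one).mul ((UG.var 0).add UG.one))

theorem UG.tl {s : Fn L'} (hs : UG L' s) : UG L' (fun M _ _ v => TruthCF.tl (s M v)) := by
  refine UG.comp₁ (f := fun M _ _ a => TruthCF.tl a) ?_ hs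
  refine UD.congr (R := fun M _ _ v => (∃ b, v 1 = TruthCF.pr b (v 0)) ∨
    (v 0 = 0 ∧ ∃ s, s * s + s < v 1 ∧ v 1 < (s + 1) * (s + 1))) ?_
    fun M _ _ v => (tl_eq_iff (v 1) (v 0)).symm
  refine UD.or ?_ (UD.and ?_ ?_)
  · refine UD.ex (R := fun M _ _ b v => v 1 = TruthCF.pr b (v 0)) ?_
    exact UD.eq (UG.var 2) (UG.pr (UG.var 0) (UG.var 1))
  · exact UD.eq (UG.var 0) UG.zero
  · refine UD.ex (R := fun M _ _ s v => s * s + s < v 1 ∧ v 1 < (s + 1) * (s + 1)) ?_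
    refine UD.and ?_ ?_
    · exact UD.lt (((UG.var 0).mul (UG.var 0)).add (UG.var 0)) (UG.var 2)
    · exact UD.lt (UG.var 2) (((UG.var 0).add UG.one).mul ((UG.var 0).add UG.one))

theorem UG.bt {s t r : Fn L'} (hs : UG L' s) (ht : UG L' t) (hr : UG L' r) :
    UG L' (fun M _ _ v => TruthCF.bt (s M v) (t M v) (r M v)) := by
  refine UG.comp₃ (f := fun M _ _ a b c => TruthCF.bt a b c) ?_ hs ht hr
  refine UD.congr (R := fun M _ _ v => ∃ k, v 1 = k * (1 + (v 3 + 1) * v 2) + v 0 ∧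
    v 0 < 1 + (v 3 + 1) * v 2) ?_
    fun M _ _ v => (bt_eq_iff (v 1) (v 2) (v 3) (v 0)).symm
  refine UD.ex (R := fun M _ _ k v => v 1 = k * (1 + (v 3 + 1) * v 2) + v 0 ∧
    v 0 < 1 + (v 3 + 1) * v 2) ?_
  have hd : UG L' (fun M _ _ v => 1 + (v 4 + 1) * v 3) :=
    UG.one.add (((UG.var 4).add UG.one).mul (UG.var 3))
  refine UD.and ?_ ?_
  · exact UD.eq (UG.var 2) (((UG.var 0).mul hd).add (UG.var 1))
  · exact UD.lt (UG.var 1) hd

end TruthCF
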