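import Pool.Agent.Work.MP_cfede9_lc.Tr2D
import Pool.Agent.Work.MP_cfede9_lc.Uni7
import Pool.Agent.Work.MP_cfede9_lc.UDb

set_option autoImplicit false
set_option linter.all false

/-!
# MP_cfede9_lc, module Tr2d: the truth predicate is uniformly definable
-/

open FirstOrder

namespace TruthCF

variable {L' : FirstOrder.Language.{0, 0}}

private theorem udHH (F : FL L') {g b c u : Fn L'} (hg : UG L' g) (hb : UG L' b) (hc : UG L' c)
    (hu : UG L' u) : UD L' (fun M _ _ v => HH F (g M v) (b M v) (c M v) (u M v)) :=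
  UD.comp₄ (R := fun M _ _ a b c d => HH F a b c d) (ud_HH F) hg hb hc hu

private theorem udInL {a b m x : Fn L'} (ha : UG L' a) (hb : UG L' b) (hm : UG L' m)
    (hx : UG L' x) : UD L' (fun M _ _ v => InL (a M v) (b M v) (m M v) (x M v)) :=
  UD.ex (R := fun M _ _ i v => i < m M v ∧ bt (a M v) (b M v) i = x M v)
    (UD.and (UD.lt (UG.var 0) hm.shift) (UD.eq (UG.bt ha.shift hb.shift (UG.var 0)) hx.shift))

/-- `V (pr 1 (pr y (pr e a)))`, the variables of `V` at `j`, `j + 1`, `j + 2` -/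
private theorem udV1 (F : FL L') (j : ℕ) {y e a : Fn L'} (hy : UG L' y) (he : UG L' e)
    (ha : UG L' a) : UD L' (fun M _ _ v => HH F (v j) (v (j + 1)) (v (j + 2))
      (pr 1 (pr (y M v) (pr (e M v) (a M v))))) :=
  udHH F (UG.var j) (UG.var (j + 1)) (UG.var (j + 2)) (UG.pr UG.one (UG.pr hy (UG.pr he ha)))

/-- `V (pr 0 (pr y e))` -/
private theorem udV0 (F : FL L') (j : ℕ) {y e : Fn L'} (hy : UG L' y) (he : UG L' e) :
    UD L' (fun M _ _ v => HH F (v j) (v (j + 1)) (v (j + 2)) (pr 0 (pr (y M v) (e M v)))) :=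
  udHH F (UG.var j) (UG.var (j + 1)) (UG.var (j + 2)) (UG.pr UG.zero (UG.pr hy he))

private theorem udC (j : ℕ) {x : Fn L'} (hx : UG L' x) :
    UD L' (fun M _ _ v => InL (v j) (v (j + 1)) (v (j + 2)) (x M v)) :=
  udInL (UG.var j) (UG.var (j + 1)) (UG.var (j + 2)) hx

private theorem ud_TmCl (F : FL L') : UD L' (fun M _ _ v =>
    TmCl (HH F (v 0) (v 1) (v 2)) (InL (v 3) (v 4) (v 5))) := by
  unfold TmCl
  refine UD.all (UD.imp (udC 4 (UG.var 0)) (UD.all (UD.all (UD.and ?_ (UD.and ?_ (UD.and ?_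
    (UD.and ?_ ?_)))))))
  · refine UD.all (UD.imp (UD.eq (UG.var 3) (UG.pr (UG.var 0) (UG.pr UG.zero UG.zero))) ?_)
    exact UD.iff (udV1 F 4 (UG.var 3) (UG.var 2) (UG.var 1)) (UD.eq (UG.var 1) (UG.var 0))
  · refine UD.all (UD.imp (UD.eq (UG.var 3) (UG.pr (UG.var 0) (UG.pr UG.one UG.zero))) ?_)
    exact UD.iff (udV1 F 4 (UG.var 3) (UG.var 2) (UG.var 1))
      (UD.eq (UG.var 1) (UG.add (UG.hd (UG.var 2)) (UG.var 0)))
  · refine UD.all (UD.all (UD.imp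
      (UD.eq (UG.var 4) (UG.pr (UG.var 1) (UG.pr UG.one (UG.add (UG.var 0) UG.one)))) ?_))
    refine UD.and (udC 8 (UG.pr (UG.var 1) (UG.pr UG.one (UG.var 0)))) ?_
    exact UD.iff (udV1 F 5 (UG.var 4) (UG.var 3) (UG.var 2))
          (udV1 F 5 (UG.pr (UG.var 1) (UG.pr UG.one (UG.var 0))) (UG.tl (UG.var 3)) (UG.var 2))
  · refine UD.all (UD.all (UD.all (UD.imp
      (UD.eq (UG.var 5) (UG.pr (UG.var 2) (UG.pr (UG.natCast 2) (UG.pr (UG.var 1) (UG.var 0))))) ?_)))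
    refine UD.and (udC 9 (UG.var 1)) (UD.and (udC 9 (UG.var 0)) ?_)
    refine UD.iff (udV1 F 6 (UG.var 5) (UG.var 4) (UG.var 3)) (UD.ex (UD.ex ?_))
    refine UD.and (udV1 F 8 (UG.var 3) (UG.var 6) (UG.var 1)) ?_
    refine UD.and (udV1 F 8 (UG.var 2) (UG.var 6) (UG.var 0)) ?_
    exact UD.eq (UG.var 5) (UG.add (UG.add (UG.var 1) (UG.var 0)) (UG.var 4))
  · refine UD.all (UD.all (UD.all (UD.imp
      (UD.eq (UG.var 5) (UG.pr (UG.var 2) (UG.pr (UG.natCast 3) (UG.pr (UG.var 1) (UG.var 0))))) ?_)))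
    refine UD.and (udC 9 (UG.var 1)) (UD.and (udC 9 (UG.var 0)) ?_)
    refine UD.iff (udV1 F 6 (UG.var 5) (UG.var 4) (UG.var 3)) (UD.ex (UD.ex ?_))
    refine UD.and (udV1 F 8 (UG.var 3) (UG.var 6) (UG.var 1)) ?_
    refine UD.and (udV1 F 8 (UG.var 2) (UG.var 6) (UG.var 0)) ?_
    exact UD.eq (UG.var 5) (UG.add (UG.mul (UG.var 1) (UG.var 0)) (UG.var 4))

private theorem ud_FmCl (F : FL L') : UD L' (fun M _ _ v =>
    FmCl (HH F (v 0) (v 1) (v 2)) (InL (v 3) (v 4) (v 5)) (InL (v 6) (v 7) (v 8))) := by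
  unfold FmCl
  refine UD.all (UD.imp (udC 7 (UG.var 0)) (UD.all (UD.and ?_ (UD.and ?_ (UD.and ?_
    (UD.and ?_ ?_))))))
  · exact UD.imp (UD.eq (UG.var 1) (UG.pr (UG.natCast 4) UG.zero))
      (UD.not (udV0 F 2 (UG.var 1) (UG.var 0)))
  · refine UD.all (UD.all (UD.imp
      (UD.eq (UG.var 3) (UG.pr (UG.natCast 5) (UG.pr (UG.var 1) (UG.var 0)))) ?_))
    refine UD.and (udC 7 (UG.var 1)) (UD.and (udC 7 (UG.var 0)) ?_)
    refine UD.iff (udV0 F 4 (UG.var 3) (UG.var 2)) (UD.ex ?_)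
    exact UD.and (udV1 F 5 (UG.var 2) (UG.var 3) (UG.var 0))
      (udV1 F 5 (UG.var 1) (UG.var 3) (UG.var 0))
  · refine UD.all (UD.all (UD.imp
      (UD.eq (UG.var 3) (UG.pr (UG.natCast 6) (UG.pr (UG.var 1) (UG.var 0)))) ?_))
    refine UD.and (udC 7 (UG.var 1)) (UD.and (udC 7 (UG.var 0)) ?_)
    refine UD.iff (udV0 F 4 (UG.var 3) (UG.var 2)) (UD.ex (UD.ex ?_))
    refine UD.and (udV1 F 6 (UG.var 3) (UG.var 4) (UG.var 1)) ?_
    exact UD.and (udV1 F 6 (UG.var 2) (UG.var 4) (UG.var 0)) (UD.le (UG.var 1) (UG.var 0))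
  · refine UD.all (UD.all (UD.imp
      (UD.eq (UG.var 3) (UG.pr (UG.natCast 7) (UG.pr (UG.var 1) (UG.var 0)))) ?_))
    refine UD.and (udC 10 (UG.var 1)) (UD.and (udC 10 (UG.var 0)) ?_)
    exact UD.iff (udV0 F 4 (UG.var 3) (UG.var 2))
      (UD.imp (udV0 F 4 (UG.var 1) (UG.var 2)) (udV0 F 4 (UG.var 0) (UG.var 2)))
  · refine UD.all (UD.imp (UD.eq (UG.var 2) (UG.pr (UG.natCast 8) (UG.var 0))) ?_)
    refine UD.and (udC 9 (UG.var 0)) ?_
    exact UD.iff (udV0 F 3 (UG.var 2) (UG.var 1))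
      (UD.all (udV0 F 4 (UG.var 1) (UG.pr (UG.var 0) (UG.var 2))))

theorem ud_Tpred {L' : FirstOrder.Language.{0, 0}} (F : FL L') : UD L' (fun M _ _ v => Tpred F (v 0)) := by
  unfold Tpred
  refine UD.ex (UD.ex (UD.ex (UD.ex (UD.ex (UD.ex (UD.ex (UD.ex (UD.ex (UD.and ?_ (UD.and ?_
    (UD.and ?_ ?_)))))))))))
  · exact ((ud_TmCl F).relabel (fun i => 8 - i)).congr fun M _ _ v => Iff.rfl
  · exact ((ud_FmCl F).relabel (fun i => 8 - i)).congr fun M _ _ v => Iff.rfl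
  · exact udInL (UG.var 2) (UG.var 1) (UG.var 0) (UG.var 9)
  · exact udHH F (UG.var 8) (UG.var 7) (UG.var 6) (UG.pr UG.zero (UG.pr (UG.var 9) UG.zero))

end TruthCF
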