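import Pool.Agent.Work.MP_cfede9_lc.Key4
import Pool.Agent.Work.MP_cfede9_lc.ExB2

set_option autoImplicit false
set_option linter.all false

/-!
# MP_cfede9_lc, module Key5: every arithmetical formula is good
-/

open FirstOrder

namespace TruthCF

variable {L' : FirstOrder.Language.{0, 0}}

private theorem key5_good (K : Ctx L') {n : ℕ} (θ : LA.BoundedFormula Empty n) (h : HGood K θ) : Good K θ := by
  cases θ with
  | falsum => exact h
  | equal t s => exact h
  | rel r ts => exact h
  | imp φ ψ => exact h.1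
  | all φ => exact h.1

theorem hgood_all (K : Ctx L') (hfin : Finite (Σ n : ℕ, L'.Relations n)) {n : ℕ}
    (θ : LA.BoundedFormula Empty n) : HGood K θ := by
  induction θ with
  | falsum =>
    intro M _ _ hM
    exact ⟨ExD.const False, ExD.const (¬ False)⟩
  | equal t s =>
    intro M _ _ hM
    have ht := EG.term (F := K.F) (M := M) t (EG.var 0)
    have hs := EG.term (F := K.F) (M := M) s (EG.var 0)
    refine ⟨ExD.eq ht hs, ?_⟩
    refine ((ExD.lt ht hs).or (ExD.lt hs ht)).congr fun u => ?_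
    exact lt_or_lt_iff_ne
  | rel r ts =>
    cases r
    intro M _ _ hM
    have ht := EG.term (F := K.F) (M := M) (ts 0) (EG.var 0)
    have hs := EG.term (F := K.F) (M := M) (ts 1) (EG.var 0)
    refine ⟨ExD.le ht hs, ?_⟩
    refine (ExD.lt hs ht).congr fun u => ?_
    exact not_le.symm
  | imp φ ψ ihφ ihψ =>
    refine ⟨?_, ihφ, ihψ⟩
    intro M _ _ hM
    obtain ⟨h1, h2⟩ := key5_good K φ ihφ M hM
    obtain ⟨h3, h4⟩ := key5_good K ψ ihψ M hM
    refine ⟨(h2.or h3).congr fun u => ?_, (h1.and h4).congr fun u => ?_⟩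
    · exact imp_iff_not_or.symm
    · exact Classical.not_imp.symm
  | all φ ihφ =>
    refine ⟨?_, ihφ⟩
    intro M _ _ hM
    refine ⟨exD_all K hfin φ ihφ hM, ?_⟩
    obtain ⟨h1, h2⟩ := key5_good K φ ihφ M hM
    have h3 : ExD K.F (fun u : ℕ → M => ¬ Sa φ (pr (u 0) (u 1))) := by
      refine ExD.subst (R := fun b u => ¬ Sa φ b) (t := fun u => pr (u 0) (u 1)) ?_ (EG.pr (EG.var 0) (EG.var 1))
      exact h2
    refine (ExD.ex (R := fun a u => ¬ Sa φ (pr a (u 0))) h3).congr fun u => ?_
    rw [← not_forall]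
    refine not_congr (forall_congr' fun a => ?_)
    show φ.Realize (default : Empty → M) (val _ (pr a (u 0))) ↔ φ.Realize (default : Empty → M) (Fin.snoc (val _ (u 0)) a)
    rw [val, hd_pr, tl_pr]

end TruthCF
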