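import Pool.Agent.Work.MP_cfede9_lc.TrD
import Pool.Agent.Work.MP_cfede9_lc.Ar1
import Pool.Agent.Work.MP_cfede9_lc.Ar2

set_option autoImplicit false
set_option linter.all false

/-!
# MP_cfede9_lc, module Tr1a: the code determines value and truth value
-/

open FirstOrder

namespace TruthCF

variable {M : Type} [PAm M]

private theorem tg {a b : ℕ} (h : (a : M) = (b : M)) : a = b := (cast_inj_iff a b).1 h

private theorem tg01 {P : Prop} (h : (0 : M) = 1) : P := absurd h zero_ne_one

private theorem tg0 {P : Prop} {b : ℕ} (hb : b ≠ 0) (h : (0 : M) = ((b : ℕ) : M)) : P :=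
  absurd (tg (M := M) (a := 0) (b := b) (by rw [Nat.cast_zero]; exact h)).symm hb

private theorem tg1 {P : Prop} {b : ℕ} (hb : b ≠ 1) (h : (1 : M) = ((b : ℕ) : M)) : P :=
  absurd (tg (M := M) (a := 1) (b := b) (by rw [Nat.cast_one]; exact h)).symm hb

private theorem tgn {P : Prop} {a b : ℕ} (hb : a ≠ b) (h : ((a : ℕ) : M) = ((b : ℕ) : M)) : P :=
  absurd (tg h) hb

/-- the code determines the value -/
theorem CT.det (x : M) (s t : CT) (h : s.code x = t.code x) (e : M) : s.val x e = t.val x e := by
  induction s generalizing t with
  | c k b =>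
    cases t with
    | c k' b' =>
      simp only [CT.code] at h
      exact (pr_inj h).1
    | v k' j =>
      simp only [CT.code] at h
      exact tg01 (pr_inj (pr_inj h).2).1
    | a k' s t =>
      simp only [CT.code] at h
      exact tg0 (by decide) (pr_inj (pr_inj h).2).1
    | m k' s t =>
      simp only [CT.code] at h
      exact tg0 (by decide) (pr_inj (pr_inj h).2).1
  | v k i =>
    cases t with
    | c k' b' =>
      simp only [CT.code] at h
      exact tg01 (pr_inj (pr_inj h).2).1.symm
    | v k' j =>
      simp only [CT.code] at h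
      obtain ⟨h1, h2⟩ := pr_inj h
      have h3 := tg (pr_inj h2).2
      subst h3
      simp only [CT.val]
      rw [h1]
    | a k' s t =>
      simp only [CT.code] at h
      exact tg1 (by decide) (pr_inj (pr_inj h).2).1
    | m k' s t =>
      simp only [CT.code] at h
      exact tg1 (by decide) (pr_inj (pr_inj h).2).1
  | a k s₁ s₂ ih₁ ih₂ =>
    cases t with
    | c k' b' =>
      simp only [CT.code] at h
      exact tg0 (by decide) (pr_inj (pr_inj h).2).1.symm
    | v k' j =>
      simp only [CT.code] at h
      exact tg1 (by decide) (pr_inj (pr_inj h).2).1.symm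
    | a k' t₁ t₂ =>
      simp only [CT.code] at h
      obtain ⟨h1, h2⟩ := pr_inj h
      obtain ⟨h3, h4⟩ := pr_inj (pr_inj h2).2
      simp only [CT.val]
      rw [h1, ih₁ t₁ h3, ih₂ t₂ h4]
    | m k' t₁ t₂ =>
      simp only [CT.code] at h
      exact tgn (by decide) (pr_inj (pr_inj h).2).1
  | m k s₁ s₂ ih₁ ih₂ =>
    cases t with
    | c k' b' =>
      simp only [CT.code] at h
      exact tg0 (by decide) (pr_inj (pr_inj h).2).1.symm
    | v k' j =>
      simp only [CT.code] at h
      exact tg1 (by decide) (pr_inj (pr_inj h).2).1.symm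
    | a k' t₁ t₂ =>
      simp only [CT.code] at h
      exact tgn (by decide) (pr_inj (pr_inj h).2).1
    | m k' t₁ t₂ =>
      simp only [CT.code] at h
      obtain ⟨h1, h2⟩ := pr_inj h
      obtain ⟨h3, h4⟩ := pr_inj (pr_inj h2).2
      simp only [CT.val]
      rw [h1, ih₁ t₁ h3, ih₂ t₂ h4]

/-- the code determines the truth value -/
theorem CF.det (x : M) (f g : CF) (h : f.code x = g.code x) (e : M) : CF.sem x e f ↔ CF.sem x e g := by
  induction f generalizing g e with
  | bot =>
    cases g with
    | bot => exact Iff.rfl
    | eq s t => simp only [CF.code] at h; exact tgn (by decide) (pr_inj h).1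
    | le s t => simp only [CF.code] at h; exact tgn (by decide) (pr_inj h).1
    | imp f g => simp only [CF.code] at h; exact tgn (by decide) (pr_inj h).1
    | all f => simp only [CF.code] at h; exact tgn (by decide) (pr_inj h).1
  | eq s₁ s₂ =>
    cases g with
    | bot => simp only [CF.code] at h; exact tgn (by decide) (pr_inj h).1
    | eq t₁ t₂ =>
      simp only [CF.code] at h
      obtain ⟨h3, h4⟩ := pr_inj (pr_inj h).2
      simp only [CF.sem]
      rw [CT.det x s₁ t₁ h3 e, CT.det x s₂ t₂ h4 e]
    | le s t => simp only [CF.code] at h; exact tgn (by decide) (pr_inj h).1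
    | imp f g => simp only [CF.code] at h; exact tgn (by decide) (pr_inj h).1
    | all f => simp only [CF.code] at h; exact tgn (by decide) (pr_inj h).1
  | le s₁ s₂ =>
    cases g with
    | bot => simp only [CF.code] at h; exact tgn (by decide) (pr_inj h).1
    | eq s t => simp only [CF.code] at h; exact tgn (by decide) (pr_inj h).1
    | le t₁ t₂ =>
      simp only [CF.code] at h
      obtain ⟨h3, h4⟩ := pr_inj (pr_inj h).2
      simp only [CF.sem]
      rw [CT.det x s₁ t₁ h3 e, CT.det x s₂ t₂ h4 e]
    | imp f g => simp only [CF.code] at h; exact tgn (by decide) (pr_inj h).1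
    | all f => simp only [CF.code] at h; exact tgn (by decide) (pr_inj h).1
  | imp f₁ f₂ ih₁ ih₂ =>
    cases g with
    | bot => simp only [CF.code] at h; exact tgn (by decide) (pr_inj h).1
    | eq s t => simp only [CF.code] at h; exact tgn (by decide) (pr_inj h).1
    | le s t => simp only [CF.code] at h; exact tgn (by decide) (pr_inj h).1
    | imp g₁ g₂ =>
      simp only [CF.code] at h
      obtain ⟨h3, h4⟩ := pr_inj (pr_inj h).2
      simp only [CF.sem]
      rw [ih₁ g₁ h3 e, ih₂ g₂ h4 e]
    | all f => simp only [CF.code] at h; exact tgn (by decide) (pr_inj h).1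
  | all f ih =>
    cases g with
    | bot => simp only [CF.code] at h; exact tgn (by decide) (pr_inj h).1
    | eq s t => simp only [CF.code] at h; exact tgn (by decide) (pr_inj h).1
    | le s t => simp only [CF.code] at h; exact tgn (by decide) (pr_inj h).1
    | imp f g => simp only [CF.code] at h; exact tgn (by decide) (pr_inj h).1
    | all g =>
      simp only [CF.code] at h
      simp only [CF.sem]
      exact forall_congr' fun a => ih g (pr_inj h).2 (pr a e)

end TruthCF
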