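import Pool.Agent.Work.MP_cfede9_lc.Tr2D
import Pool.Agent.Work.MP_cfede9_lc.Tr1a
import Pool.Agent.Work.MP_cfede9_lc.ExB1

/-!
# MP_cfede9_lc, module Tr2b: existence of V

Term codes: for the subterms of the atomic formulas of `f`, closed under `v k (j+1) ↦ v k j`.
`V z` holds if `z = pr 1 (pr (s.code x) (pr e (s.val x e)))` for a listed term `s`, or
`z = pr 0 (pr (h.code x) e)` and `CF.sem x e h` for a subformula `h`.
-/

set_option autoImplicit false
set_option linter.all false

open FirstOrder

namespace TruthCF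

private def clT : CT → List CT
  | .c k b => [.c k b]
  | .v k j => (List.range (j + 1)).map fun i => .v k i
  | .a k s t => .a k s t :: (clT s ++ clT t)
  | .m k s t => .m k s t :: (clT s ++ clT t)

private def clF : CF → List CT
  | .bot => []
  | .eq s t => clT s ++ clT t
  | .le s t => clT s ++ clT t
  | .imp f g => clF f ++ clF g
  | .all f => clF f

private structure ClosedT (T : List CT) : Prop where
  v : ∀ k j, CT.v k (j + 1) ∈ T → CT.v k j ∈ T
  a : ∀ k s t, CT.a k s t ∈ T → s ∈ T ∧ t ∈ T
  m : ∀ k s t, CT.m k s t ∈ T → s ∈ T ∧ t ∈ T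

private theorem closedT_append {S T : List CT} (hS : ClosedT S) (hT : ClosedT T) :
    ClosedT (S ++ T) := by
  refine ⟨fun k j h => ?_, fun k s t h => ?_, fun k s t h => ?_⟩
  · rcases List.mem_append.1 h with h | h
    · exact List.mem_append_left _ (hS.v k j h)
    · exact List.mem_append_right _ (hT.v k j h)
  · rcases List.mem_append.1 h with h | h
    · exact ⟨List.mem_append_left _ (hS.a k s t h).1, List.mem_append_left _ (hS.a k s t h).2⟩
    · exact ⟨List.mem_append_right _ (hT.a k s t h).1, List.mem_append_right _ (hT.a k s t h).2⟩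
  · rcases List.mem_append.1 h with h | h
    · exact ⟨List.mem_append_left _ (hS.m k s t h).1, List.mem_append_left _ (hS.m k s t h).2⟩
    · exact ⟨List.mem_append_right _ (hT.m k s t h).1, List.mem_append_right _ (hT.m k s t h).2⟩

private theorem mem_clT (s : CT) : s ∈ clT s := by
  cases s with
  | c k b => simp [clT]
  | v k j => simp [clT]
  | a k s t => simp [clT]
  | m k s t => simp [clT]

private theorem closed_clT (s : CT) : ClosedT (clT s) := by
  induction s with
  | c k b =>
    refine ⟨fun k j h => ?_, fun k s t h => ?_, fun k s t h => ?_⟩ <;> simp [clT] at h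
  | v k0 j0 =>
    refine ⟨fun k j h => ?_, fun k s t h => ?_, fun k s t h => ?_⟩
    · simp only [clT, List.mem_map, List.mem_range] at h ⊢
      obtain ⟨i, hi, h1⟩ := h
      simp only [CT.v.injEq] at h1
      exact ⟨j, by omega, by rw [h1.1]⟩
    · simp [clT] at h
    · simp [clT] at h
  | a k0 s0 t0 hs ht =>
    have h0 := closedT_append hs ht
    refine ⟨fun k j h => ?_, fun k s t h => ?_, fun k s t h => ?_⟩
    · rcases List.mem_cons.1 h with h | h
      · exact absurd h (by simp)
      · exact List.mem_cons_of_mem _ (h0.v k j h)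
    · rcases List.mem_cons.1 h with h | h
      · simp only [CT.a.injEq] at h
        obtain ⟨-, rfl, rfl⟩ := h
        exact ⟨List.mem_cons_of_mem _ (List.mem_append_left _ (mem_clT _)),
          List.mem_cons_of_mem _ (List.mem_append_right _ (mem_clT _))⟩
      · exact ⟨List.mem_cons_of_mem _ (h0.a k s t h).1, List.mem_cons_of_mem _ (h0.a k s t h).2⟩
    · rcases List.mem_cons.1 h with h | h
      · exact absurd h (by simp)
      · exact ⟨List.mem_cons_of_mem _ (h0.m k s t h).1, List.mem_cons_of_mem _ (h0.m k s t h).2⟩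
  | m k0 s0 t0 hs ht =>
    have h0 := closedT_append hs ht
    refine ⟨fun k j h => ?_, fun k s t h => ?_, fun k s t h => ?_⟩
    · rcases List.mem_cons.1 h with h | h
      · exact absurd h (by simp)
      · exact List.mem_cons_of_mem _ (h0.v k j h)
    · rcases List.mem_cons.1 h with h | h
      · exact absurd h (by simp)
      · exact ⟨List.mem_cons_of_mem _ (h0.a k s t h).1, List.mem_cons_of_mem _ (h0.a k s t h).2⟩
    · rcases List.mem_cons.1 h with h | h
      · simp only [CT.m.injEq] at h
        obtain ⟨-, rfl, rfl⟩ := h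
        exact ⟨List.mem_cons_of_mem _ (List.mem_append_left _ (mem_clT _)),
          List.mem_cons_of_mem _ (List.mem_append_right _ (mem_clT _))⟩
      · exact ⟨List.mem_cons_of_mem _ (h0.m k s t h).1, List.mem_cons_of_mem _ (h0.m k s t h).2⟩

private theorem closed_clF (f : CF) : ClosedT (clF f) := by
  induction f with
  | bot => exact ⟨fun k j h => by simp [clF] at h, fun k s t h => by simp [clF] at h,
      fun k s t h => by simp [clF] at h⟩
  | eq s t => exact closedT_append (closed_clT s) (closed_clT t)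
  | le s t => exact closedT_append (closed_clT s) (closed_clT t)
  | imp f g hf hg => exact closedT_append hf hg
  | all f hf => exact hf

private theorem mem_subs (f : CF) : f ∈ f.subs := by
  cases f <;> simp [CF.subs]

private theorem subs_eq {f : CF} {s t : CT} (h : CF.eq s t ∈ f.subs) : s ∈ clF f ∧ t ∈ clF f := by
  induction f with
  | bot => simp [CF.subs] at h
  | eq s' t' =>
    simp only [CF.subs, List.mem_singleton, CF.eq.injEq] at h
    obtain ⟨rfl, rfl⟩ := h
    exact ⟨List.mem_append_left _ (mem_clT _), List.mem_append_right _ (mem_clT _)⟩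
  | le s' t' => simp [CF.subs] at h
  | imp f g hf hg =>
    rcases List.mem_cons.1 h with h | h
    · exact absurd h (by simp)
    · rcases List.mem_append.1 h with h | h
      · exact ⟨List.mem_append_left _ (hf h).1, List.mem_append_left _ (hf h).2⟩
      · exact ⟨List.mem_append_right _ (hg h).1, List.mem_append_right _ (hg h).2⟩
  | all f hf =>
    rcases List.mem_cons.1 h with h | h
    · exact absurd h (by simp)
    · exact hf h

private theorem subs_le {f : CF} {s t : CT} (h : CF.le s t ∈ f.subs) : s ∈ clF f ∧ t ∈ clF f := by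
  induction f with
  | bot => simp [CF.subs] at h
  | le s' t' =>
    simp only [CF.subs, List.mem_singleton, CF.le.injEq] at h
    obtain ⟨rfl, rfl⟩ := h
    exact ⟨List.mem_append_left _ (mem_clT _), List.mem_append_right _ (mem_clT _)⟩
  | eq s' t' => simp [CF.subs] at h
  | imp f g hf hg =>
    rcases List.mem_cons.1 h with h | h
    · exact absurd h (by simp)
    · rcases List.mem_append.1 h with h | h
      · exact ⟨List.mem_append_left _ (hf h).1, List.mem_append_left _ (hf h).2⟩
      · exact ⟨List.mem_append_right _ (hg h).1, List.mem_append_right _ (hg h).2⟩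
  | all f hf =>
    rcases List.mem_cons.1 h with h | h
    · exact absurd h (by simp)
    · exact hf h

private theorem subs_imp {f g h : CF} (hm : CF.imp g h ∈ f.subs) : g ∈ f.subs ∧ h ∈ f.subs := by
  induction f with
  | bot => simp [CF.subs] at hm
  | eq s' t' => simp [CF.subs] at hm
  | le s' t' => simp [CF.subs] at hm
  | imp f1 f2 hf hg =>
    rcases List.mem_cons.1 hm with hm | hm
    · simp only [CF.imp.injEq] at hm
      obtain ⟨rfl, rfl⟩ := hm
      exact ⟨List.mem_cons_of_mem _ (List.mem_append_left _ (mem_subs _)),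
        List.mem_cons_of_mem _ (List.mem_append_right _ (mem_subs _))⟩
    · rcases List.mem_append.1 hm with hm | hm
      · exact ⟨List.mem_cons_of_mem _ (List.mem_append_left _ (hf hm).1),
          List.mem_cons_of_mem _ (List.mem_append_left _ (hf hm).2)⟩
      · exact ⟨List.mem_cons_of_mem _ (List.mem_append_right _ (hg hm).1),
          List.mem_cons_of_mem _ (List.mem_append_right _ (hg hm).2)⟩
  | all f1 hf =>
    rcases List.mem_cons.1 hm with hm | hm
    · exact absurd hm (by simp)
    · exact ⟨List.mem_cons_of_mem _ (hf hm).1, List.mem_cons_of_mem _ (hf hm).2⟩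

private theorem subs_all {f g : CF} (hm : CF.all g ∈ f.subs) : g ∈ f.subs := by
  induction f with
  | bot => simp [CF.subs] at hm
  | eq s' t' => simp [CF.subs] at hm
  | le s' t' => simp [CF.subs] at hm
  | imp f1 f2 hf hg =>
    rcases List.mem_cons.1 hm with hm | hm
    · exact absurd hm (by simp)
    · rcases List.mem_append.1 hm with hm | hm
      · exact List.mem_cons_of_mem _ (List.mem_append_left _ (hf hm))
      · exact List.mem_cons_of_mem _ (List.mem_append_right _ (hg hm))
  | all f1 hf =>
    rcases List.mem_cons.1 hm with hm | hm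
    · simp only [CF.all.injEq] at hm
      subst hm
      exact List.mem_cons_of_mem _ (mem_subs _)
    · exact List.mem_cons_of_mem _ (hf hm)

section

variable {L' : FirstOrder.Language.{0, 0}} {F : FL L'} {M : Type} [PAm M] [L'.Structure M]

private theorem tr_list {α : Type} (l : List α) (R : α → (ℕ → M) → Prop)
    (h : ∀ i ∈ l, ExD F (R i)) : ExD F (fun u => ∃ i ∈ l, R i u) := by
  induction l with
  | nil =>
    refine (ExD.const False).congr fun u => ?_
    simp
  | cons a l ih =>
    refine ((h a (List.mem_cons_self ..)).or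
      (ih fun i hi => h i (List.mem_cons_of_mem _ hi))).congr fun u => ?_
    simp

private theorem eg_iter (j : ℕ) : ∀ {t : (ℕ → M) → M}, EG F t →
    EG F (fun u => tl^[j] (t u)) := by
  induction j with
  | zero => intro t ht; exact ht
  | succ j ih => intro t ht; exact ih (EG.tl ht)

private theorem eg_val (x : M) (s : CT) : EG F (fun u : ℕ → M => s.val x (u 0)) := by
  induction s with
  | c k b => exact EG.const _
  | v k j => exact EG.add (EG.hd (eg_iter j (EG.var 0))) (EG.const _)
  | a k s t hs ht => exact EG.add (EG.add hs ht) (EG.const _)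
  | m k s t hs ht => exact EG.add (EG.mul hs ht) (EG.const _)

end

section

variable {M : Type} [PAm M]

private def trV (x : M) (T : List CT) (S : List CF) (z : M) : Prop :=
  (∃ s ∈ T, ∃ e, z = pr 1 (pr (s.code x) (pr e (s.val x e)))) ∨
  (∃ h ∈ S, ∃ e, z = pr 0 (pr (h.code x) e) ∧ CF.sem x e h)

private theorem tag {a b : ℕ} (h : a ≠ b) : (a : M) ≠ (b : M) := fun h1 =>
  h ((cast_inj_iff a b).1 h1)

private theorem t01 : (0 : M) ≠ 1 := by
  have := tag (M := M) (a := 0) (b := 1) (by norm_num)
  simpa using this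

private theorem trV_t {x : M} {T : List CT} {S : List CF} {s : CT} (hs : s ∈ T) (e a : M) :
    trV x T S (pr 1 (pr (s.code x) (pr e a))) ↔ a = s.val x e := by
  constructor
  · rintro (⟨s', -, e', h⟩ | ⟨h', -, e', h, -⟩)
    · have h1 := (pr_inj h).2
      have h2 := pr_inj h1
      have h3 := pr_inj h2.2
      rw [h3.2, ← h3.1, CT.det x s' s h2.1.symm]
    · exact absurd (pr_inj h).1.symm t01
  · rintro rfl
    exact Or.inl ⟨s, hs, e, rfl⟩

private theorem trV_f {x : M} {T : List CT} {S : List CF} {g : CF} (hg : g ∈ S) (e : M) :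
    trV x T S (pr 0 (pr (g.code x) e)) ↔ CF.sem x e g := by
  constructor
  · rintro (⟨s', -, e', h⟩ | ⟨h', -, e', h, h4⟩)
    · exact absurd (pr_inj h).1 t01
    · have h1 := pr_inj (pr_inj h).2
      rw [h1.2]
      exact (CF.det x h' g h1.1.symm e').1 h4
  · intro h
    exact Or.inr ⟨g, hg, e, rfl, h⟩

private theorem trV_tm {x : M} {T : List CT} {S : List CF} (hT : ClosedT T) :
    TmCl (trV x T S) (fun y => y ∈ T.map (fun s => s.code x)) := by
  intro y hy e a
  have n02 := tag (M := M) (a := 0) (b := 2) (by norm_num)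
  have n03 := tag (M := M) (a := 0) (b := 3) (by norm_num)
  have n12 := tag (M := M) (a := 1) (b := 2) (by norm_num)
  have n13 := tag (M := M) (a := 1) (b := 3) (by norm_num)
  have n23 := tag (M := M) (a := 2) (b := 3) (by norm_num)
  rw [Nat.cast_zero] at n02 n03
  rw [Nat.cast_one] at n12 n13
  obtain ⟨s, hs, rfl⟩ := List.mem_map.1 hy
  simp only
  rw [trV_t hs]
  cases s with
  | c k0 b =>
    have hc : (CT.c k0 b).code x = pr ((if b then x else 0) + (k0 : M)) (pr 0 0) := rfl
    refine ⟨fun k h => ?_, fun k h => ?_, fun k i h => ?_, fun k y1 y2 h => ?_,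
      fun k y1 y2 h => ?_⟩
    · rw [hc] at h
      rw [← (pr_inj h).1]
      exact Iff.rfl
    · rw [hc] at h
      exact absurd (pr_inj (pr_inj h).2).1 t01
    · rw [hc] at h
      exact absurd (pr_inj (pr_inj h).2).1 t01
    · rw [hc] at h
      exact absurd (pr_inj (pr_inj h).2).1 n02
    · rw [hc] at h
      exact absurd (pr_inj (pr_inj h).2).1 n03
  | v k0 j =>
    have hc : (CT.v k0 j).code x = pr (k0 : M) (pr 1 (j : M)) := rfl
    refine ⟨fun k h => ?_, fun k h => ?_, fun k i h => ?_, fun k y1 y2 h => ?_,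
      fun k y1 y2 h => ?_⟩
    · rw [hc] at h
      exact absurd (pr_inj (pr_inj h).2).1.symm t01
    · rw [hc] at h
      have h1 := (pr_inj (pr_inj h).2).2
      have h2 : j = 0 := by
        rw [← Nat.cast_zero] at h1
        exact (cast_inj_iff j 0).1 h1
      subst h2
      rw [← (pr_inj h).1]
      exact Iff.rfl
    · rw [hc] at h
      have h0 := (pr_inj h).1
      have h1 := (pr_inj (pr_inj h).2).2
      cases j with
      | zero =>
        exfalso
        rw [Nat.cast_zero] at h1
        have h2 : (0 : M) < i + 1 := lt_of_lt_of_le zero_lt_one le_add_self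
        rw [← h1] at h2
        exact lt_irrefl _ h2
      | succ j =>
        have h2 : (j : M) = i := by
          rw [Nat.cast_add, Nat.cast_one] at h1
          exact add_right_cancel h1
        subst h2
        subst h0
        have h3 := hT.v k0 j hs
        have hc' : pr (k0 : M) (pr 1 (j : M)) = (CT.v k0 j).code x := rfl
        refine ⟨List.mem_map.2 ⟨_, h3, rfl⟩, ?_⟩
        rw [hc', trV_t h3]
        exact Iff.rfl
    · rw [hc] at h
      exact absurd (pr_inj (pr_inj h).2).1 n12
    · rw [hc] at h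
      exact absurd (pr_inj (pr_inj h).2).1 n13
  | a k0 s1 s2 =>
    have hc : (CT.a k0 s1 s2).code x =
      pr (k0 : M) (pr ((2 : ℕ) : M) (pr (s1.code x) (s2.code x))) := rfl
    refine ⟨fun k h => ?_, fun k h => ?_, fun k i h => ?_, fun k y1 y2 h => ?_,
      fun k y1 y2 h => ?_⟩
    · rw [hc] at h
      exact absurd (pr_inj (pr_inj h).2).1.symm n02
    · rw [hc] at h
      exact absurd (pr_inj (pr_inj h).2).1.symm n12
    · rw [hc] at h
      exact absurd (pr_inj (pr_inj h).2).1.symm n12
    · rw [hc] at h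
      have h0 := (pr_inj h).1
      have h1 := pr_inj (pr_inj (pr_inj h).2).2
      obtain ⟨h2, h3⟩ := h1
      subst h0 h2 h3
      have h4 := hT.a k0 s1 s2 hs
      refine ⟨List.mem_map.2 ⟨_, h4.1, rfl⟩, List.mem_map.2 ⟨_, h4.2, rfl⟩, ?_⟩
      constructor
      · intro h5
        exact ⟨s1.val x e, s2.val x e, (trV_t h4.1 _ _).2 rfl, (trV_t h4.2 _ _).2 rfl, h5⟩
      · rintro ⟨a1, a2, h5, h6, h7⟩
        rw [(trV_t h4.1 _ _).1 h5, (trV_t h4.2 _ _).1 h6] at h7
        exact h7
    · rw [hc] at h
      exact absurd (pr_inj (pr_inj h).2).1 n23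
  | m k0 s1 s2 =>
    have hc : (CT.m k0 s1 s2).code x =
      pr (k0 : M) (pr ((3 : ℕ) : M) (pr (s1.code x) (s2.code x))) := rfl
    refine ⟨fun k h => ?_, fun k h => ?_, fun k i h => ?_, fun k y1 y2 h => ?_,
      fun k y1 y2 h => ?_⟩
    · rw [hc] at h
      exact absurd (pr_inj (pr_inj h).2).1.symm n03
    · rw [hc] at h
      exact absurd (pr_inj (pr_inj h).2).1.symm n13
    · rw [hc] at h
      exact absurd (pr_inj (pr_inj h).2).1.symm n13
    · rw [hc] at h
      exact absurd (pr_inj (pr_inj h).2).1.symm n23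
    · rw [hc] at h
      have h0 := (pr_inj h).1
      have h1 := pr_inj (pr_inj (pr_inj h).2).2
      obtain ⟨h2, h3⟩ := h1
      subst h0 h2 h3
      have h4 := hT.m k0 s1 s2 hs
      refine ⟨List.mem_map.2 ⟨_, h4.1, rfl⟩, List.mem_map.2 ⟨_, h4.2, rfl⟩, ?_⟩
      constructor
      · intro h5
        exact ⟨s1.val x e, s2.val x e, (trV_t h4.1 _ _).2 rfl, (trV_t h4.2 _ _).2 rfl, h5⟩
      · rintro ⟨a1, a2, h5, h6, h7⟩
        rw [(trV_t h4.1 _ _).1 h5, (trV_t h4.2 _ _).1 h6] at h7
        exact h7

private theorem trV_fm {x : M} (f : CF) :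
    FmCl (trV x (clF f) f.subs) (fun y => y ∈ (clF f).map (fun s => s.code x))
      (fun y => y ∈ f.subs.map (fun s => s.code x)) := by
  intro y hy e
  have n (a b : ℕ) (h : a ≠ b) : (a : M) ≠ (b : M) := tag h
  obtain ⟨g, hg, rfl⟩ := List.mem_map.1 hy
  simp only
  rw [trV_f hg]
  cases g with
  | bot =>
    have hc : CF.bot.code x = pr ((4 : ℕ) : M) 0 := rfl
    rw [hc]
    refine ⟨fun _ h => h, fun y1 y2 h => ?_, fun y1 y2 h => ?_, fun y1 y2 h => ?_,
      fun y1 h => ?_⟩
    · exact absurd (pr_inj h).1 (n _ _ (by norm_num))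
    · exact absurd (pr_inj h).1 (n _ _ (by norm_num))
    · exact absurd (pr_inj h).1 (n _ _ (by norm_num))
    · exact absurd (pr_inj h).1 (n _ _ (by norm_num))
  | eq s t =>
    have hc : (CF.eq s t).code x = pr ((5 : ℕ) : M) (pr (s.code x) (t.code x)) := rfl
    rw [hc]
    have h4 := subs_eq hg
    refine ⟨fun h => ?_, fun y1 y2 h => ?_, fun y1 y2 h => ?_, fun y1 y2 h => ?_,
      fun y1 h => ?_⟩
    · exact absurd (pr_inj h).1 (n _ _ (by norm_num))
    · obtain ⟨h2, h3⟩ := pr_inj (pr_inj h).2
      subst h2 h3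
      refine ⟨List.mem_map.2 ⟨_, h4.1, rfl⟩, List.mem_map.2 ⟨_, h4.2, rfl⟩, ?_⟩
      constructor
      · intro h5
        exact ⟨s.val x e, (trV_t h4.1 _ _).2 rfl, (trV_t h4.2 _ _).2 h5⟩
      · rintro ⟨a, h5, h6⟩
        exact ((trV_t h4.1 _ _).1 h5).symm.trans ((trV_t h4.2 _ _).1 h6)
    · exact absurd (pr_inj h).1 (n _ _ (by norm_num))
    · exact absurd (pr_inj h).1 (n _ _ (by norm_num))
    · exact absurd (pr_inj h).1 (n _ _ (by norm_num))
  | le s t =>
    have hc : (CF.le s t).code x = pr ((6 : ℕ) : M) (pr (s.code x) (t.code x)) := rfl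
    rw [hc]
    have h4 := subs_le hg
    refine ⟨fun h => ?_, fun y1 y2 h => ?_, fun y1 y2 h => ?_, fun y1 y2 h => ?_,
      fun y1 h => ?_⟩
    · exact absurd (pr_inj h).1 (n _ _ (by norm_num))
    · exact absurd (pr_inj h).1 (n _ _ (by norm_num))
    · obtain ⟨h2, h3⟩ := pr_inj (pr_inj h).2
      subst h2 h3
      refine ⟨List.mem_map.2 ⟨_, h4.1, rfl⟩, List.mem_map.2 ⟨_, h4.2, rfl⟩, ?_⟩
      constructor
      · intro h5
        exact ⟨s.val x e, t.val x e, (trV_t h4.1 _ _).2 rfl, (trV_t h4.2 _ _).2 rfl, h5⟩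
      · rintro ⟨a1, a2, h5, h6, h7⟩
        rw [(trV_t h4.1 _ _).1 h5, (trV_t h4.2 _ _).1 h6] at h7
        exact h7
    · exact absurd (pr_inj h).1 (n _ _ (by norm_num))
    · exact absurd (pr_inj h).1 (n _ _ (by norm_num))
  | imp g1 g2 =>
    have hc : (CF.imp g1 g2).code x = pr ((7 : ℕ) : M) (pr (g1.code x) (g2.code x)) := rfl
    rw [hc]
    have h4 := subs_imp hg
    refine ⟨fun h => ?_, fun y1 y2 h => ?_, fun y1 y2 h => ?_, fun y1 y2 h => ?_,
      fun y1 h => ?_⟩
    · exact absurd (pr_inj h).1 (n _ _ (by norm_num))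
    · exact absurd (pr_inj h).1 (n _ _ (by norm_num))
    · exact absurd (pr_inj h).1 (n _ _ (by norm_num))
    · obtain ⟨h2, h3⟩ := pr_inj (pr_inj h).2
      subst h2 h3
      refine ⟨List.mem_map.2 ⟨_, h4.1, rfl⟩, List.mem_map.2 ⟨_, h4.2, rfl⟩, ?_⟩
      rw [trV_f h4.1, trV_f h4.2]
      exact Iff.rfl
    · exact absurd (pr_inj h).1 (n _ _ (by norm_num))
  | all g1 =>
    have hc : (CF.all g1).code x = pr ((8 : ℕ) : M) (g1.code x) := rfl
    rw [hc]
    have h4 := subs_all hg
    refine ⟨fun h => ?_, fun y1 y2 h => ?_, fun y1 y2 h => ?_, fun y1 y2 h => ?_,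
      fun y1 h => ?_⟩
    · exact absurd (pr_inj h).1 (n _ _ (by norm_num))
    · exact absurd (pr_inj h).1 (n _ _ (by norm_num))
    · exact absurd (pr_inj h).1 (n _ _ (by norm_num))
    · exact absurd (pr_inj h).1 (n _ _ (by norm_num))
    · have h2 := (pr_inj h).2
      subst h2
      refine ⟨List.mem_map.2 ⟨_, h4, rfl⟩, ?_⟩
      constructor
      · intro h5 a
        exact (trV_f h4 _).2 (h5 a)
      · intro h5 a
        exact (trV_f h4 _).1 (h5 a)

end

/-- finite closed sets of codes, and the set `V` for them: if the truth sets of all subformulas of `f` are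
existentially definable then there is an existentially definable `V` satisfying the clauses for finite lists of codes
containing the code of `f` -/
theorem exists_V {L' : FirstOrder.Language.{0, 0}} (F : FL L') {M : Type} [PAm M] [L'.Structure M] (x : M) (f : CF)
    (hf : ∀ h ∈ f.subs, ExD F (fun u : ℕ → M => CF.sem x (u 0) h)) :
    ∃ (V : M → Prop) (lt lf : List M), ExD F (fun u => V (u 0)) ∧ TmCl V (fun y => y ∈ lt) ∧
      FmCl V (fun y => y ∈ lt) (fun y => y ∈ lf) ∧ f.code x ∈ lf := by
  refine ⟨trV x (clF f) f.subs, (clF f).map (fun s => s.code x), f.subs.map (fun s => s.code x),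
    ?_, trV_tm (closed_clF f), trV_fm f, List.mem_map.2 ⟨f, mem_subs f, rfl⟩⟩
  refine ExD.or (tr_list (clF f)
    (fun (s : CT) (u : ℕ → M) => ∃ e, u 0 = pr 1 (pr (s.code x) (pr e (s.val x e))))
    fun s _ => ?_) (tr_list f.subs
    (fun (h : CF) (u : ℕ → M) => ∃ e, u 0 = pr 0 (pr (h.code x) e) ∧ CF.sem x e h)
    fun h hh => ?_)
  · refine ExD.ex (R := fun e u => u 0 = pr 1 (pr (s.code x) (pr e (s.val x e)))) ?_
    exact ExD.eq (EG.var 1) (EG.pr (EG.const 1) (EG.pr (EG.const _) (EG.pr (EG.var 0)
      (eg_val x s))))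
  · refine ExD.ex (R := fun e u => u 0 = pr 0 (pr (h.code x) e) ∧ CF.sem x e h) ?_
    exact ExD.and (ExD.eq (EG.var 1) (EG.pr (EG.const 0) (EG.pr (EG.const _) (EG.var 0))))
      (hf h hh)

end TruthCF
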