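import Pool.Agent.Work.MP_cfede9_lc.Tr2a
import Pool.Agent.Work.MP_cfede9_lc.Tr2b
import Pool.Agent.Work.MP_cfede9_lc.Uni6

set_option autoImplicit false
set_option linter.all false

/-!
# MP_cfede9_lc, module Tr2c: correctness of the truth predicate
-/

open FirstOrder

namespace TruthCF

private theorem inL_list {M : Type} [PAm M] (l : List M) :
    ∃ a b m : M, InL a b m = fun x => x ∈ l := by
  obtain ⟨p, q, h⟩ := exists_bt l.length (fun i => l.getD i (0 : M))
  refine ⟨p, q, (l.length : M), ?_⟩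
  funext x
  apply propext
  constructor
  · rintro ⟨i, hi, hb⟩
    obtain ⟨k, hk, rfl⟩ := std_of_lt hi
    rw [h k hk] at hb
    rw [← hb]
    show l.getD k 0 ∈ l
    rw [List.getD_eq_getElem l 0 hk]
    exact List.getElem_mem hk
  · intro hx
    obtain ⟨k, hk, rfl⟩ := List.mem_iff_getElem.1 hx
    refine ⟨(k : M), ?_, ?_⟩
    · rw [lt_iff_not_ge, cast_le_iff]
      omega
    · rw [h k hk]
      show l.getD k 0 = l[k]
      rw [List.getD_eq_getElem l 0 hk]

/-- the truth predicate is correct -/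
theorem Tpred_correct {L' : FirstOrder.Language.{0, 0}} (F : FL L') {M : Type} [PAm M] [L'.Structure M] (x : M)
    (f : CF) (hf : ∀ h ∈ f.subs, ExD F (fun u : ℕ → M => CF.sem x (u 0) h)) :
    Tpred F (f.code x) ↔ CF.sem x 0 f := by
  constructor
  · rintro ⟨g, b₁, b₂, t₁, t₂, tm, f₁, f₂, fm, hT, hF, hs, hV⟩
    exact (fmCl_correct hT hF x f hs 0).1 hV
  · intro hsem
    obtain ⟨V, lt, lf, hV, hT, hF, hmem⟩ := exists_V F x f hf
    obtain ⟨g, b₁, b₂, hg⟩ := (exD_iff_HH F V).1 hV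
    have hVe : HH F (g : M) b₁ b₂ = V := by
      funext u
      exact propext (hg u).symm
    obtain ⟨t₁, t₂, tm, ht⟩ := inL_list lt
    obtain ⟨f₁, f₂, fm, hff⟩ := inL_list lf
    refine ⟨(g : M), b₁, b₂, t₁, t₂, tm, f₁, f₂, fm, ?_⟩
    rw [hVe, ht, hff]
    exact ⟨hT, hF, hmem, (fmCl_correct hT hF x f hmem 0).2 hsem⟩

end TruthCF
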