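import Pool.Agent.Work.MP_cfede9_lc.ExB1

set_option autoImplicit false
set_option linter.all false

/-!
# MP_cfede9_lc, module Tr3b: appending an outermost value to an environment
-/

open FirstOrder

namespace TruthCF

variable {L' : FirstOrder.Language.{0, 0}}

/-- the environment `e` with `x` appended as the outermost value -/
noncomputable def appE {M : Type} [PAm M] (x : M) : ℕ → M → M
  | 0, _ => pr x 0
  | n + 1, e => pr (hd e) (appE x n (tl e))

theorem val_appE {M : Type} [PAm M] (x : M) (n : ℕ) (e : M) :
    val (n + 1) (appE x n e) = Fin.cons (α := fun _ => M) x (val n e) := by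
  induction n generalizing e with
  | zero =>
    funext i
    have hi : i = Fin.last 0 := Subsingleton.elim (α := Fin 1) _ _
    subst hi
    show Fin.snoc (α := fun _ => M) (val 0 (tl (pr x 0))) (hd (pr x 0)) (Fin.last 0) =
      Fin.cons (α := fun _ => M) x (val 0 e) 0
    rw [Fin.snoc_last, Fin.cons_zero, hd_pr]
  | succ n ih =>
    show Fin.snoc (α := fun _ => M) (val (n + 1) (tl (pr (hd e) (appE x n (tl e)))))
      (hd (pr (hd e) (appE x n (tl e)))) =
      Fin.cons (α := fun _ => M) x (Fin.snoc (α := fun _ => M) (val n (tl e)) (hd e))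
    rw [hd_pr, tl_pr, ih (tl e)]
    exact (Fin.cons_snoc_eq_snoc_cons (β := M) x (val n (tl e)) (hd e)).symm

theorem EG.appE {F : FL L'} {M : Type} [PAm M] [L'.Structure M] (x : M) (n : ℕ) {s : (ℕ → M) → M} (hs : EG F s) :
    EG F (fun u => TruthCF.appE x n (s u)) := by
  induction n generalizing s with
  | zero => exact EG.pr (EG.const x) (EG.const 0)
  | succ n ih => exact EG.pr (EG.hd hs) (ih (EG.tl hs))

end TruthCF
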