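import Pool.Agent.Work.MP_cfede9_lc.Tr3a
import Pool.Agent.Work.MP_cfede9_lc.Tr3b
import Pool.Agent.Work.MP_cfede9_lc.Key5
import Pool.Agent.Work.MP_cfede9_lc.Tr1b
import Pool.Agent.Work.MP_cfede9_lc.Tr2c

set_option autoImplicit false
set_option linter.all false

/-!
# MP_cfede9_lc, module Tr3c: the truth predicate is correct in the models of `α`
-/

open FirstOrder

namespace TruthCF

variable {L' : FirstOrder.Language.{0, 0}}

theorem exD_realize (K : Ctx L') (hfin : Finite (Σ n : ℕ, L'.Relations n)) {n : ℕ}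
    (θ : LA.BoundedFormula (Fin 1) n) {M : Type} [PAm M] [L'.Structure M] (hM : K.Mod M) (x : M) :
    ExD K.F (fun u : ℕ → M => θ.Realize (fun _ => x) (val n (u 0))) := by
  obtain ⟨η, hη⟩ := exists_closed θ
  have hg : Good K η := (hgood_all K hfin η).good
  have h1 : ExD K.F (fun u : ℕ → M => Sa η (u 0)) := (hg M hM).1
  have h2 : ExD K.F (fun u : ℕ → M => Sa η (appE x n (u 0))) :=
    ExD.subst (R := fun a _ => Sa η a) (t := fun u : ℕ → M => appE x n (u 0)) h1 (EG.appE x n (EG.var 0))
  refine h2.congr fun u => ?_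
  unfold Sa
  rw [val_appE]
  exact hη M x (val n (u 0))

theorem subs_toCF {n : ℕ} (φ : LA.BoundedFormula (Fin 1) n) :
    ∀ h ∈ (toCF φ).subs, ∃ (m : ℕ) (θ : LA.BoundedFormula (Fin 1) m), h = toCF θ := by
  induction φ with
  | falsum =>
    intro h hh
    simp only [toCF, CF.subs, List.mem_singleton] at hh
    exact ⟨0, Language.BoundedFormula.falsum (L := LA) (α := Fin 1) (n := 0), by rw [hh, toCF]⟩
  | equal t s =>
    intro h hh
    simp only [toCF, CF.subs, List.mem_singleton] at hh
    exact ⟨_, .equal t s, by rw [hh]; rfl⟩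
  | rel r ts =>
    intro h hh
    refine ⟨_, .rel r ts, ?_⟩
    cases r
    simp only [toCF, rstepC, CF.subs, List.mem_singleton] at hh ⊢
    exact hh
  | imp φ ψ ih1 ih2 =>
    intro h hh
    simp only [toCF, CF.subs, List.mem_cons, List.mem_append] at hh
    rcases hh with hh | hh | hh
    · exact ⟨_, .imp φ ψ, by rw [hh]; rfl⟩
    · exact ih1 h hh
    · exact ih2 h hh
  | all φ ih =>
    intro h hh
    simp only [toCF, CF.subs, List.mem_cons] at hh
    rcases hh with hh | hh
    · exact ⟨_, .all φ, by rw [hh]; rfl⟩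
    · exact ih h hh

/-- the truth predicate is correct -/
theorem truth_main (K : Ctx L') (hfin : Finite (Σ n : ℕ, L'.Relations n)) {M : Type} [PAm M] [L'.Structure M]
    (hM : K.Mod M) (φ : LA.Formula (Fin 1)) (x : M) :
    Tpred K.F (fcode (mOps M) (fun _ => x) φ) ↔ φ.Realize (fun _ => x) := by
  rw [← code_toCF x φ, Tpred_correct K.F x (toCF φ), sem_toCF x φ 0]
  · unfold Language.Formula.Realize
    rw [Subsingleton.elim (val 0 (0 : M)) default]
  · intro h hh
    obtain ⟨m, θ, rfl⟩ := subs_toCF φ h hh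
    exact (exD_realize K hfin θ hM x).congr fun u => (sem_toCF x θ (u 0)).symm

end TruthCF
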