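import Pool.Agent.Work.MP_cfede9_lc.Fin2b
import Pool.Agent.Work.MP_cfede9_lc.Fin2c
import Pool.Agent.Work.MP_cfede9_lc.Fin2d
import Pool.Agent.Work.MP_cfede9_lc.Tr3c
import Pool.Agent.Work.MP_cfede9_lc.Tr2d
import Pool.Agent.Work.MP_cfede9_lc.UDv2

set_option autoImplicit false
set_option linter.all false

/-!
# MP_cfede9_lc, module Fin2f: every definition of truth defines `UTB^-`
-/

open FirstOrder

namespace TruthCF

variable {L' : FirstOrder.Language.{0, 0}}

/-- the translation of `T` -/
private def tauOf (ρ : (LA.sum L').Formula (Fin 1)) : {n : ℕ} → TRel n → (LA.sum L').Formula (Fin n)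
  | _, .T => ρ

private theorem reduct_eq (M : Type) [PAm M] [L'.Structure M] : (inA L').reduct M = instLAStr M := rfl

private theorem core [L'.IsRelational] [hfin : Finite (Σ n : ℕ, L'.Relations n)] (T : (LA.sum L').Theory)
    (h : IsDefTruth T) (K : Ctx L')
    (hK : ∀ (M : Type) [PAm M] [L'.Structure M], K.Mod M ↔ M ⊨ T) (ρ : (LA.sum L').Formula (Fin 1))
    (hρ : ∀ (M : Type) [PAm M] [L'.Structure M] (a : M), ρ.Realize (fun _ => a) ↔ Tpred K.F a)
    (M : Type) [PAm M] [L'.Structure M] (hM : M ⊨ T) (A : (LA.sum LT).Sentence) (hA : A ∈ UTBm) :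
    (Transl.fm (fun n r => tauOf ρ r : Transl LT L') A : (LA.sum L').BoundedFormula Empty 0).Realize
      (default : Empty → M) default := by
  rw [realize_fm]
  rcases hA with ⟨σ, hσ, rfl⟩ | ⟨φ, rfl⟩
  · have h1 := h.ea M inferInstance inferInstance hM
    rw [reduct_eq] at h1
    have h2 := hσ M inferInstance inferInstance h1
    letI : LT.Structure M := trStr (fun n r => tauOf ρ r : Transl LT L') M
    exact (Language.LHom.realize_onSentence (φ := inA LT) M σ).2 h2
  · letI : LT.Structure M := trStr (fun n r => tauOf ρ r : Transl LT L') M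
    show Language.BoundedFormula.Realize (L := LA.sum LT) (M := M) (α := Empty) (l := 0) (utbAx φ) default default
    rw [utbAx, Language.BoundedFormula.realize_all]
    intro x
    rw [Language.BoundedFormula.realize_iff]
    have e1 : ((Language.BoundedFormula.rel (l := 1) (Sum.inr TT : LA.Relations 1 ⊕ LT.Relations 1)
        (fun _ => ((inA LT).onTerm (dotq φ)).relabel Sum.inr) : (LA.sum LT).BoundedFormula Empty 1)).Realize
          (default : Empty → M) (Fin.snoc default x) ↔ Tpred K.F (fcode (mOps M) (fun _ => x) φ) := by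
      rw [← realize_dotq, ← hρ]
      have e3 : (((inA LT).onTerm (dotq φ)).relabel (Sum.inr : Fin 1 → Empty ⊕ Fin 1)).realize
          (Sum.elim (default : Empty → M) (Fin.snoc default x)) = (dotq φ).realize (fun _ => x) := by
        rw [Language.Term.realize_relabel, Language.LHom.realize_onTerm]
        congr 1
      show ρ.Realize (fun _ => (((inA LT).onTerm (dotq φ)).relabel (Sum.inr : Fin 1 → Empty ⊕ Fin 1)).realize
          (Sum.elim (default : Empty → M) (Fin.snoc default x))) ↔ _
      rw [e3]
    have e2 : (Language.BoundedFormula.relabel (n := 1) (k := 0) (Sum.inr : Fin 1 → Empty ⊕ Fin 1)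
        ((inA LT).onFormula φ) : (LA.sum LT).BoundedFormula Empty 1).Realize
          (default : Empty → M) (Fin.snoc default x) ↔ φ.Realize (fun _ => x) := by
      rw [Language.BoundedFormula.realize_relabel]
      have e4 : ((inA LT).onFormula φ).Realize (fun _ => x) ↔ φ.Realize (fun _ => x) :=
        Language.LHom.realize_onFormula (inA LT) φ
      rw [← e4, Language.Formula.Realize]
      rw [iff_eq_eq]
      congr 1
      exact Subsingleton.elim _ _
    rw [e1]
    refine Iff.trans ?_ e2.symm
    exact truth_main K hfin ((hK M).2 hM) φ x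

private theorem core' [L'.IsRelational] [hfin : Finite (Σ n : ℕ, L'.Relations n)] (T : (LA.sum L').Theory)
    (h : IsDefTruth T) (K : Ctx L')
    (hK : ∀ (M : Type) [PAm M] [L'.Structure M], K.Mod M ↔ M ⊨ T) (ρ : (LA.sum L').Formula (Fin 1))
    (hρ : ∀ (M : Type) [PAm M] [L'.Structure M] (a : M), ρ.Realize (fun _ => a) ↔ Tpred K.F a)
    (M : Type) (S : (LA.sum L').Structure M) (hne : Nonempty M) (hM : M ⊨ T) (A : (LA.sum LT).Sentence)
    (hA : A ∈ UTBm) :
    (Transl.fm (fun n r => tauOf ρ r : Transl LT L') A : (LA.sum L').BoundedFormula Empty 0).Realize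
      (default : Empty → M) default := by
  obtain ⟨P, Q, rfl⟩ := nice_of_ea T h.ea M S hne hM
  exact core T h K hK ρ hρ M hM A hA

/-- the final result: every definition of truth defines `UTB^-` -/
theorem defines_utb [L'.IsRelational] [Finite (Σ n : ℕ, L'.Relations n)] (T : (LA.sum L').Theory)
    (h : IsDefTruth T) : Defines T UTBm := by
  obtain ⟨K, hK⟩ := exists_ctx T h
  obtain ⟨φ, hφ⟩ := ud_Tpred K.F
  refine ⟨fun n r => tauOf (Language.Formula.relabel (fun _ : ℕ => (0 : Fin 1)) φ) r, fun A hA M v xs => ?_⟩
  have := core' T h K hK (Language.Formula.relabel (fun _ : ℕ => (0 : Fin 1)) φ) (fun M _ _ a => by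
    rw [Language.Formula.realize_relabel]
    exact hφ M _) M inferInstance inferInstance M.is_model A hA
  convert this

end TruthCF
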