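import Pool.Agent.Work.MP_cfede9_lc.Cod
import Pool.Agent.Work.MP_cfede9_lc.Fin2a
import Pool.Agent.Work.MP_cfede9_lc.Fin2e
import Pool.Agent.Work.MP_cfede9_lc.Subs

set_option autoImplicit false
set_option linter.all false

/-!
# MP_cfede9_lc, module Fin3a: a definition of truth (for any coding) gives the setting of the main argument (after Fin2b)
-/

open FirstOrder

namespace TruthCF

variable {L' : FirstOrder.Language.{0, 0}}

private theorem num_real {M : Type} [PAm M] [L'.Structure M] (k : ℕ) (v : Empty → M) :
    ((inA L').onTerm ((termOps Empty).num k)).realize v = ((k : ℕ) : M) := by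
  rw [Language.LHom.realize_onTerm]
  induction k with
  | zero => exact Nat.cast_zero.symm
  | succ k ih =>
    rw [Nat.cast_succ, ← ih]
    rfl

/-- a definition of truth gives the setting of the main argument -/
theorem exists_ctxC [hr : L'.IsRelational] [hf : Finite (Σ n : ℕ, L'.Relations n)] (C : Coding)
    (T : (LA.sum L').Theory) (h : IsDefTruthC C T) : ∃ K : Ctx L', ∀ (M : Type) [PAm M] [L'.Structure M], K.Mod M ↔ M ⊨ T := by
  obtain ⟨α, hα⟩ := exists_axiom T h.fin
  obtain ⟨Θ₀, hΘ⟩ := h.tb
  have := Fintype.ofFinite (Σ n : ℕ, L'.Relations n)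
  let Θ : (LA.sum L').BoundedFormula Empty 1 :=
    Language.BoundedFormula.relabel (n := 1) (k := 0) (Sum.inr : Fin 1 → Empty ⊕ Fin 1) Θ₀
  let A : FL L' := (Finset.univ : Finset (Σ n : ℕ, L'.Relations n)).toList.map
    fun r => ⟨r.1, atomF r.2⟩
  let F : FL L' := subsF α ++ (subsF Θ ++ A)
  have hΘr : ∀ (M : Type) [PAm M] [L'.Structure M] (x : M),
      Θ.Realize (default : Empty → M) (fun _ => x) ↔ Θ₀.Realize (fun _ => x) := by
    intro M _ _ x
    show (Language.BoundedFormula.relabel (n := 1) (k := 0) (Sum.inr : Fin 1 → Empty ⊕ Fin 1)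
      Θ₀).Realize (default : Empty → M) (fun _ => x) ↔ _
    rw [Language.BoundedFormula.realize_relabel, Language.Formula.Realize, iff_eq_eq]
    congr 1
    exact Subsingleton.elim _ _
  refine ⟨{ α := α, Θ := Θ, F := F, code := C.gn, rel := hr, hnice := ?_, hTB := ?_, hF := ?_,
            hα := ?_, hΘ := ?_, hat := ?_ }, ?_⟩
  · intro M S hne hM
    exact nice_of_ea T h.ea M S hne ((hα M S hne).1 hM)
  · intro M _ _ hM σ
    have hMT : M ⊨ T := (hα M inferInstance inferInstance).1 hM
    have h1 := (hΘ σ)
    rw [Language.Theory.models_sentence_iff] at h1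
    have h2 := h1 (Language.Theory.ModelType.of T M)
    rw [hΘr]
    have h3 : (Θ₀.subst (fun _ => ((inA L').onTerm ((termOps Empty).num (C.gn σ))))).Realize
        (default : Empty → M) (default : Fin 0 → M) ↔ Language.BoundedFormula.Realize
        ((inA L').onSentence σ) (default : Empty → M) (default : Fin 0 → M) := by
      have h4 : ((Θ₀.subst (fun _ => ((inA L').onTerm ((termOps Empty).num (C.gn σ))))).iff
        ((inA L').onSentence σ)).Realize (default : Empty → M) (default : Fin 0 → M) := h2
      rwa [Language.BoundedFormula.realize_iff] at h4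
    rw [Language.BoundedFormula.realize_subst] at h3
    have h5 : (fun _ : Fin 1 => ((inA L').onTerm ((termOps Empty).num (C.gn σ))).realize
        (default : Empty → M)) = fun _ => ((C.gn σ : ℕ) : M) := by
      funext i
      exact num_real _ _
    rw [h5] at h3
    have h6 : Language.BoundedFormula.Realize ((inA L').onSentence σ) (default : Empty → M)
        (default : Fin 0 → M) ↔ M ⊨ σ := (Language.LHom.realize_onSentence M (φ := inA L') σ)
    exact h3.trans h6
  · have h1 : SubClosed {θ | θ ∈ A} := by
      constructor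
      · intro n φ ψ hm
        obtain ⟨r, hr1, hr2⟩ := List.mem_map.1 hm
        exfalso
        rcases r with ⟨k, r⟩
        injection hr2 with hk hr3
        subst hk
        cases hr3
      · intro n φ hm
        obtain ⟨r, hr1, hr2⟩ := List.mem_map.1 hm
        exfalso
        rcases r with ⟨k, r⟩
        injection hr2 with hk hr3
        subst hk
        cases hr3
    have h2 : FL.set F = {θ | θ ∈ subsF α} ∪ ({θ | θ ∈ subsF Θ} ∪ {θ | θ ∈ A}) := by
      ext θ
      show θ ∈ subsF α ++ (subsF Θ ++ A) ↔ _
      rw [List.mem_append, List.mem_append]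
      rfl
    show SubClosed (FL.set F)
    rw [h2]
    exact subClosed_union (subClosed_subsF α) (subClosed_union (subClosed_subsF Θ) h1)
  · exact List.mem_append_left _ (self_mem_subsF α)
  · exact List.mem_append_right _ (List.mem_append_left _ (self_mem_subsF Θ))
  · intro n r
    refine List.mem_append_right _ (List.mem_append_right _ ?_)
    exact List.mem_map.2 ⟨⟨n, r⟩, Finset.mem_toList.2 (Finset.mem_univ _), rfl⟩
  · intro M _ _
    exact hα M inferInstance inferInstance

end TruthCF
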