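import Pool.Agent.Work.MP_cfede9_lc.Cod
import Pool.Agent.Work.MP_cfede9_lc.Fin3a
import Pool.Agent.Work.MP_cfede9_lc.Fin2c
import Pool.Agent.Work.MP_cfede9_lc.Fin2d
import Pool.Agent.Work.MP_cfede9_lc.Tr3c
import Pool.Agent.Work.MP_cfede9_lc.Tr2d
import Pool.Agent.Work.MP_cfede9_lc.UDv2

set_option autoImplicit false
set_option linter.all false

/-!
# MP_cfede9_lc, module Fin3b: every definition of truth defines `UTB^-`, for all codings
-/

open FirstOrder

namespace TruthCF

variable {L' : FirstOrder.Language.{0, 0}}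

/-- the translation of `T` -/
private def tauOf (ρ : (LA.sum L').Formula (Fin 1)) : {n : ℕ} → TRel n → (LA.sum L').Formula (Fin n)
  | _, .T => ρ

private theorem reduct_eq (M : Type) [PAm M] [L'.Structure M] : (inA L').reduct M = instLAStr M := rfl

/-- the truth predicate for the coding `C` -/
def TpredC (C : Coding) (F : FL L') {M : Type} [PAm M] [L'.Structure M] (s : M) : Prop :=
  ∃ t : M, C.dec.Realize ![s, t] ∧ Tpred F t

theorem ud_TpredC (C : Coding) (F : FL L') : UD L' (fun M _ _ v => TpredC C F (v 0)) := by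
  refine UD.ex (R := fun M _ _ t v => C.dec.Realize ![v 0, t] ∧ Tpred F t) (UD.and ?_ ?_)
  · obtain ⟨φ, hφ⟩ : ∃ φ : (LA.sum L').Formula ℕ, ∀ (M : Type) [PAm M] [L'.Structure M] (v : ℕ → M),
        φ.Realize v ↔ C.dec.Realize ![v 1, v 0] := by
      refine ⟨Language.Formula.relabel (fun i : Fin 2 => (![1, 0] i : ℕ)) ((inA L').onFormula C.dec),
        fun M _ _ v => ?_⟩
      rw [Language.Formula.realize_relabel, Language.LHom.realize_onFormula, iff_eq_eq]
      congr 1
      funext i
      match i with
      | 0 => rfl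
      | 1 => rfl
    exact ⟨φ, fun M _ _ v => hφ M v⟩
  · exact ud_Tpred F

private theorem core [L'.IsRelational] [hfin : Finite (Σ n : ℕ, L'.Relations n)] (C : Coding)
    (T : (LA.sum L').Theory) (h : IsDefTruthC C T) (K : Ctx L')
    (hK : ∀ (M : Type) [PAm M] [L'.Structure M], K.Mod M ↔ M ⊨ T) (ρ : (LA.sum L').Formula (Fin 1))
    (hρ : ∀ (M : Type) [PAm M] [L'.Structure M] (a : M), ρ.Realize (fun _ => a) ↔ TpredC C K.F a)
    (M : Type) [PAm M] [L'.Structure M] (hM : M ⊨ T) (A : (LA.sum LT).Sentence) (hA : A ∈ UTBmC C) :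
    (Transl.fm (fun n r => tauOf ρ r : Transl LT L') A : (LA.sum L').BoundedFormula Empty 0).Realize
      (default : Empty → M) default := by
  have h1 := h.ea M inferInstance inferInstance hM
  rw [reduct_eq] at h1
  rw [realize_fm]
  rcases hA with ⟨σ, hσ, rfl⟩ | ⟨φ, rfl⟩
  · have h2 := hσ M inferInstance inferInstance h1
    letI : LT.Structure M := trStr (fun n r => tauOf ρ r : Transl LT L') M
    exact (Language.LHom.realize_onSentence (φ := inA LT) M σ).2 h2
  · letI : LT.Structure M := trStr (fun n r => tauOf ρ r : Transl LT L') M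
    show Language.BoundedFormula.Realize (L := LA.sum LT) (M := M) (α := Empty) (l := 0) (utbAxC C φ) default default
    rw [utbAxC, Language.BoundedFormula.realize_all]
    intro x
    rw [Language.BoundedFormula.realize_all]
    intro s
    rw [Language.BoundedFormula.realize_imp, Language.BoundedFormula.realize_iff]
    intro hs
    have hs' : (C.sub φ).Realize ![x, s] := by
      rw [Language.BoundedFormula.realize_relabel] at hs
      have e4 : ((inA LT).onFormula (C.sub φ)).Realize ![x, s] ↔ (C.sub φ).Realize ![x, s] :=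
        Language.LHom.realize_onFormula (inA LT) (C.sub φ)
      rw [← e4, Language.Formula.Realize]
      have e6 : (![x, s] : Fin 2 → M) = Sum.elim (default : Empty → M)
          ((Fin.snoc (Fin.snoc default x) s : Fin 2 → M) ∘ Fin.castAdd 0) ∘ (Sum.inr : Fin 2 → Empty ⊕ Fin 2) := by
        funext i
        match i with
        | 0 => rfl
        | 1 => rfl
      rw [e6]
      rw [Subsingleton.elim (default : Fin 0 → M) ((Fin.snoc (Fin.snoc default x) s : Fin 2 → M) ∘ Fin.natAdd 2)]
      exact hs
    have e1 : ((Language.BoundedFormula.rel (l := 1) (Sum.inr TT : LA.Relations 1 ⊕ LT.Relations 1)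
        (fun _ => Language.Term.var (Sum.inr (1 : Fin 2))) : (LA.sum LT).BoundedFormula Empty 2)).Realize
          (default : Empty → M) (Fin.snoc (Fin.snoc default x) s) ↔ TpredC C K.F s := by
      rw [← hρ]
      show ρ.Realize (fun _ => s) ↔ _
      exact Iff.rfl
    have e2 : (Language.BoundedFormula.relabel (n := 2) (k := 0) (fun _ => Sum.inr (0 : Fin 2) : Fin 1 → Empty ⊕ Fin 2)
        ((inA LT).onFormula φ) : (LA.sum LT).BoundedFormula Empty 2).Realize
          (default : Empty → M) (Fin.snoc (Fin.snoc default x) s) ↔ φ.Realize (fun _ => x) := by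
      rw [Language.BoundedFormula.realize_relabel]
      have e4 : ((inA LT).onFormula φ).Realize (fun _ => x) ↔ φ.Realize (fun _ => x) :=
        Language.LHom.realize_onFormula (inA LT) φ
      rw [← e4, Language.Formula.Realize]
      rw [iff_eq_eq]
      congr 1
      exact Subsingleton.elim _ _
    rw [e1]
    refine Iff.trans ?_ e2.symm
    have e5 : TpredC C K.F s ↔ Tpred K.F ((dotq φ).realize (fun _ => x)) := by
      constructor
      · rintro ⟨t, ht, ht'⟩
        rwa [(C.dec_ok φ M _ inferInstance h1 x s hs' t).1 ht] at ht'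
      · intro ht
        exact ⟨_, (C.dec_ok φ M _ inferInstance h1 x s hs' _).2 rfl, ht⟩
    rw [e5, realize_dotq]
    exact truth_main K hfin ((hK M).2 hM) φ x

private theorem core' [L'.IsRelational] [hfin : Finite (Σ n : ℕ, L'.Relations n)] (C : Coding)
    (T : (LA.sum L').Theory)
    (h : IsDefTruthC C T) (K : Ctx L')
    (hK : ∀ (M : Type) [PAm M] [L'.Structure M], K.Mod M ↔ M ⊨ T) (ρ : (LA.sum L').Formula (Fin 1))
    (hρ : ∀ (M : Type) [PAm M] [L'.Structure M] (a : M), ρ.Realize (fun _ => a) ↔ TpredC C K.F a)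
    (M : Type) (S : (LA.sum L').Structure M) (hne : Nonempty M) (hM : M ⊨ T) (A : (LA.sum LT).Sentence)
    (hA : A ∈ UTBmC C) :
    (Transl.fm (fun n r => tauOf ρ r : Transl LT L') A : (LA.sum L').BoundedFormula Empty 0).Realize
      (default : Empty → M) default := by
  obtain ⟨P, Q, rfl⟩ := nice_of_ea T h.ea M S hne hM
  exact core C T h K hK ρ hρ M hM A hA

/-- every definition of truth defines `UTB^-`, for every coding -/
theorem defines_utbC (C : Coding) [L'.IsRelational] [Finite (Σ n : ℕ, L'.Relations n)] (T : (LA.sum L').Theory)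
    (h : IsDefTruthC C T) : Defines T (UTBmC C) := by
  obtain ⟨K, hK⟩ := exists_ctxC C T h
  obtain ⟨φ, hφ⟩ := ud_TpredC C K.F
  refine ⟨fun n r => tauOf (Language.Formula.relabel (fun _ : ℕ => (0 : Fin 1)) φ) r, fun A hA M v xs => ?_⟩
  have := core' C T h K hK (Language.Formula.relabel (fun _ : ℕ => (0 : Fin 1)) φ) (fun M _ _ a => by
    rw [Language.Formula.realize_relabel]
    exact hφ M _) M inferInstance inferInstance M.is_model A hA
  rw [Subsingleton.elim v (default : Empty → M), Subsingleton.elim xs (default : Fin 0 → M)]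
  exact this

end TruthCF
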