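import Pool.Agent.Work.MP_cfede9_lc.KeyD

set_option autoImplicit false
set_option linter.all false

/-!
# MP_cfede9_lc, module Key1: correctness of Delta
-/

open FirstOrder

namespace TruthCF

variable {L' : FirstOrder.Language.{0, 0}}

/-- if the standard numbers are of the form `JJ χ p q ν` then `Delta` is correct -/
theorem delta_std {n : ℕ} (χ : LA.BoundedFormula Empty n)
    (Q : ∀ (M : Type) [PAm M], M → M → M → (ℕ → M) → Prop) (R : (ℕ → ℕ) → Prop)
    (hQ : ∀ (M : Type) [PAm M] (p q ν : M), (∀ a : M, JJ χ p q ν a ↔ ∃ n : ℕ, a = (n : M)) →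
      ∀ v : ℕ → ℕ, Q M p q ν (fun i => (v i : M)) ↔ R v)
    {U : Type} [PAm U] (p q ν : U) (h : ∀ j : U, JJ χ p q ν j ↔ ∃ i : ℕ, j = (i : U)) (k : ℕ) :
    Delta χ Q (k : U) ↔ R (fun _ => k) := by
  have hz : ∀ p' q' ν' : U, JJ χ p' q' ν' 0 := fun p' q' ν' => ⟨ν', add_zero ν', Or.inl rfl⟩
  have hstd : ∀ p' q' ν' : U, CutJ χ p' q' ν' → ∀ i : ℕ, JJ χ p' q' ν' (i : U) := by
    intro p' q' ν' hc i
    induction i with
    | zero =>
      rw [Nat.cast_zero]
      exact hz p' q' ν'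
    | succ i ih =>
      rw [Nat.cast_succ]
      exact hc _ ih
  have hcut : CutJ χ p q ν := by
    intro j hj
    obtain ⟨i, hi⟩ := (h j).1 hj
    refine (h (j + 1)).2 ⟨i + 1, ?_⟩
    rw [hi, Nat.cast_succ]
  constructor
  · rintro ⟨p', q', ν', hc, hmin, hq⟩
    have h' : ∀ a : U, JJ χ p' q' ν' a ↔ ∃ n : ℕ, a = (n : U) := by
      intro a
      constructor
      · intro ha
        exact (h a).1 (hmin p q ν hcut a ha)
      · rintro ⟨i, rfl⟩
        exact hstd p' q' ν' hc i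
    exact (hQ U p' q' ν' h' (fun _ => k)).1 hq
  · intro hR
    refine ⟨p, q, ν, hcut, ?_, (hQ U p q ν h (fun _ => k)).2 hR⟩
    intro p' q' ν' hc j hj
    obtain ⟨i, rfl⟩ := (h j).1 hj
    exact hstd p' q' ν' hc i

end TruthCF
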