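import Pool.Agent.Work.MP_cfede9_lc.KeyD
import Pool.Agent.Work.MP_cfede9_lc.UDv2

set_option autoImplicit false
set_option linter.all false

/-!
# MP_cfede9_lc, module Key2: Delta is uniformly definable
-/

open FirstOrder

namespace TruthCF

variable {L' : FirstOrder.Language.{0, 0}}

theorem ud_JJ {n : ℕ} (χ : LA.BoundedFormula Empty n) :
    UD L' (fun M _ _ v => JJ χ (v 0) (v 1) (v 2) (v 3)) :=
  UD.ex (R := fun M _ _ a v => a + v 3 = v 2 ∧ (v 3 = 0 ∨ ¬ Sa χ (bt (v 0) (v 1) a)))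
    ((UD.eq ((UG.var 0).add (UG.var 4)) (UG.var 3)).and
      ((UD.eq (UG.var 4) UG.zero).or
        (UD.comp₁ (ud_Sa χ) ((UG.var 1).bt (UG.var 2) (UG.var 0))).not))

private theorem ud_cutJ {n : ℕ} (χ : LA.BoundedFormula Empty n) :
    UD L' (fun M _ _ v => CutJ χ (v 0) (v 1) (v 2)) :=
  UD.all (R := fun M _ _ a v => JJ χ (v 0) (v 1) (v 2) a → JJ χ (v 0) (v 1) (v 2) (a + 1))
    ((UD.comp₄ (ud_JJ χ) (UG.var 1) (UG.var 2) (UG.var 3) (UG.var 0)).imp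
      (UD.comp₄ (ud_JJ χ) (UG.var 1) (UG.var 2) (UG.var 3) ((UG.var 0).add UG.one)))

theorem ud_delta {n : ℕ} (χ : LA.BoundedFormula Empty n)
    (Q : ∀ (M : Type) [PAm M], M → M → M → (ℕ → M) → Prop)
    (hQ : UD Language.empty (fun M _ _ v => Q M (v 0) (v 1) (v 2) (fun i => v (i + 3)))) :
    UD Language.empty (fun M _ _ v => Delta χ Q (v 0)) := by
  have h1 : UD Language.empty (fun M _ _ v => CutJ χ (v 2) (v 1) (v 0)) :=
    UD.comp₃ (ud_cutJ χ) (UG.var 2) (UG.var 1) (UG.var 0)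
  have h3 : UD Language.empty (fun M _ _ v => Q M (v 2) (v 1) (v 0) (fun _ => v 3)) :=
    (UD.relabel hQ (fun i => match i with | 0 => 2 | 1 => 1 | 2 => 0 | i + 3 => 3)).congr
      fun M _ _ v => Iff.rfl
  have h2 : UD Language.empty (fun M _ _ v => ∀ p' q' ν' : M, CutJ χ p' q' ν' →
      ∀ j, JJ χ (v 2) (v 1) (v 0) j → JJ χ p' q' ν' j) := by
    refine UD.all (R := fun M _ _ p' v => ∀ q' ν' : M, CutJ χ p' q' ν' →
      ∀ j, JJ χ (v 2) (v 1) (v 0) j → JJ χ p' q' ν' j) ?_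
    refine UD.all (R := fun M _ _ q' v => ∀ ν' : M, CutJ χ (v 0) q' ν' →
      ∀ j, JJ χ (v 3) (v 2) (v 1) j → JJ χ (v 0) q' ν' j) ?_
    refine UD.all (R := fun M _ _ ν' v => CutJ χ (v 1) (v 0) ν' →
      ∀ j, JJ χ (v 4) (v 3) (v 2) j → JJ χ (v 1) (v 0) ν' j) ?_
    refine (UD.comp₃ (ud_cutJ χ) (UG.var 2) (UG.var 1) (UG.var 0)).imp ?_
    refine UD.all (R := fun M _ _ j v => JJ χ (v 5) (v 4) (v 3) j → JJ χ (v 2) (v 1) (v 0) j) ?_
    exact (UD.comp₄ (ud_JJ χ) (UG.var 6) (UG.var 5) (UG.var 4) (UG.var 0)).imp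
      (UD.comp₄ (ud_JJ χ) (UG.var 3) (UG.var 2) (UG.var 1) (UG.var 0))
  refine UD.ex (R := fun M _ _ p v => ∃ q ν : M, CutJ χ p q ν ∧
    (∀ p' q' ν' : M, CutJ χ p' q' ν' → ∀ j, JJ χ p q ν j → JJ χ p' q' ν' j) ∧
    Q M p q ν (fun _ => v 0)) ?_
  refine UD.ex (R := fun M _ _ q v => ∃ ν : M, CutJ χ (v 0) q ν ∧
    (∀ p' q' ν' : M, CutJ χ p' q' ν' → ∀ j, JJ χ (v 0) q ν j → JJ χ p' q' ν' j) ∧
    Q M (v 0) q ν (fun _ => v 1)) ?_
  refine UD.ex (R := fun M _ _ ν v => CutJ χ (v 1) (v 0) ν ∧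
    (∀ p' q' ν' : M, CutJ χ p' q' ν' → ∀ j, JJ χ (v 1) (v 0) ν j → JJ χ p' q' ν' j) ∧
    Q M (v 1) (v 0) ν (fun _ => v 2)) ?_
  exact h1.and (h2.and h3)

/-- uniform definability without extra symbols gives uniform definability with them -/
theorem ud_of_empty {R : ∀ (M : Type) [PAm M], (ℕ → M) → Prop}
    (h : UD Language.empty (fun M _ _ v => R M v)) : UD L' (fun M _ _ v => R M v) := by
  obtain ⟨φ, hφ⟩ := h
  refine ⟨((Language.LHom.id LA).sumMap (Language.LHom.ofIsEmpty Language.empty L')).onFormula φ,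
    fun M _ _ v => ?_⟩
  letI : Language.empty.Structure M := Language.emptyStructure
  have : ((Language.LHom.id LA).sumMap
      (Language.LHom.ofIsEmpty Language.empty L')).IsExpansionOn M :=
    Language.LHom.sumMap_isExpansionOn _ _ M
  rw [Language.LHom.realize_onFormula]
  exact hφ M v

end TruthCF
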