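import Pool.Agent.Work.MP_cfede9_lc.Key1
import Pool.Agent.Work.MP_cfede9_lc.Key2
import Pool.Agent.Work.MP_cfede9_lc.Chn4

set_option autoImplicit false
set_option linter.all false

/-!
# MP_cfede9_lc, module Key3: Delta in models with an undefinable formula
-/

open FirstOrder

namespace TruthCF

variable {L' : FirstOrder.Language.{0, 0}}

/-- a uniformly definable property without variables and extra symbols is an arithmetical sentence -/
private theorem Key3_sentence (R : ∀ (M : Type) [PAm M], Prop)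
    (h : UD Language.empty (fun M _ _ v => R M)) :
    ∃ σ : LA.Sentence, ∀ (M : Type) [PAm M], M ⊨ σ ↔ R M := by
  obtain ⟨φ, hφ⟩ := h
  let F : (LA.sum Language.empty) →ᴸ LA :=
    Language.LHom.sumElim (Language.LHom.id LA) (Language.LHom.ofIsEmpty Language.empty LA)
  let z : LA.Term Empty := Language.Term.func (l := 0) zeroF ![]
  refine ⟨(F.onBoundedFormula φ).subst (fun _ => z), fun M _ => ?_⟩
  letI i0 : Language.empty.Structure M := Language.emptyStructure
  haveI i1 : (Language.LHom.id LA).IsExpansionOn M := Language.LHom.id_isExpansionOn M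
  haveI i2 : (Language.LHom.ofIsEmpty Language.empty LA).IsExpansionOn M :=
    Language.LHom.ofIsEmpty_isExpansionOn M
  haveI : F.IsExpansionOn M := Language.LHom.sumElim_isExpansionOn _ _ M
  show Language.BoundedFormula.Realize _ _ _ ↔ _
  rw [Language.BoundedFormula.realize_subst, Language.LHom.realize_onBoundedFormula]
  exact hφ M _

/-- in a model in which `ψ.all` is not existentially definable, `Delta` computes the standard truth value -/
theorem delta_nd (K : Ctx L') {M : Type} [PAm M] [L'.Structure M] (hM : K.Mod M) {n : ℕ}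
    (ψ : LA.BoundedFormula Empty (n + 1)) (hψ : HGood K ψ)
    (hnd : ¬ ExD K.F (fun u : ℕ → M => Sa ψ.all (u 0)))
    (Q : ∀ (M : Type) [PAm M], M → M → M → (ℕ → M) → Prop) (R : (ℕ → ℕ) → Prop)
    (hQd : UD Language.empty (fun M _ _ v => Q M (v 0) (v 1) (v 2) (fun i => v (i + 3))))
    (hQ : ∀ (M : Type) [PAm M] (p q ν : M), (∀ a : M, JJ ψ.all p q ν a ↔ ∃ n : ℕ, a = (n : M)) →
      ∀ v : ℕ → ℕ, Q M p q ν (fun i => (v i : M)) ↔ R v) (k : ℕ) :
    Delta ψ.all Q (k : M) ↔ R (fun _ => k) := by
  obtain ⟨U, iU, iU', hU, hs, p, q, ν, hj⟩ := union_std K hM ψ hψ hnd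
  have h1 : Delta ψ.all Q (k : U) ↔ R (fun _ => k) := delta_std ψ.all Q R hQ p q ν hj k
  have h2 : UD Language.empty (fun M _ _ v => Delta ψ.all Q (k : M)) :=
    UD.comp₁ (R := fun M _ _ a => Delta ψ.all Q a) (ud_delta ψ.all Q hQd) (UG.natCast k)
  obtain ⟨σ, hσ⟩ := Key3_sentence (fun M _ => Delta ψ.all Q (k : M)) h2
  rw [← h1, ← hσ M, ← hσ U]
  exact (hs σ).symm

end TruthCF
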