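import Pool.Agent.Work.MP_cfede9_lc.RDg3

set_option autoImplicit false
set_option linter.all false

/-!
# MP_cfede9_lc, module RDg4: the complement of the halting problem
-/

open FirstOrder

namespace TruthCF

variable {J : Cutf}

/-- the complement of the halting problem -/
def NH (n : ℕ) : Prop := ¬ (Nat.Partrec.Code.eval (Denumerable.ofNat Nat.Partrec.Code n) 0).Dom

private theorem RDg4.partrec_eval :
    Nat.Partrec (fun n : ℕ => Nat.Partrec.Code.eval (Denumerable.ofNat Nat.Partrec.Code n) 0) := by
  rw [← Partrec.nat_iff]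
  exact Nat.Partrec.Code.eval_part.comp (Computable.ofNat Nat.Partrec.Code) (Computable.const 0)

theorem RD.NH (hJ : UD Language.empty (fun M _ _ v => J M (v 0) (v 1) (v 2) (v 3))) :
    RD J (fun v => TruthCF.NH (v 0)) := by
  have h := RD.partrec hJ RDg4.partrec_eval
  have h1 := h.relabel (fun i => match i with | 0 => 1 | 1 => 0 | i + 2 => i + 2)
  have h2 := RD.ex hJ (R := fun a v =>
    a ∈ Nat.Partrec.Code.eval (Denumerable.ofNat Nat.Partrec.Code (v 0)) 0) h1
  refine (RD.not h2).congr fun v => ?_
  show (¬ ∃ a, _) ↔ ¬ _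
  rw [Part.dom_iff_mem]

theorem NH_not_re : ¬ REPred NH := by
  intro h
  refine ComputablePred.halting_problem_not_re 0 ?_
  have h1 : REPred (fun c : Nat.Partrec.Code => NH (Encodable.encode c)) :=
    Partrec.comp h Computable.encode
  refine h1.of_eq fun c => ?_
  show (¬ _) ↔ ¬ _
  rw [Denumerable.ofNat_encode]

end TruthCF
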