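import Pool.Agent.Work.MP_cfede9_lc.ReB2

set_option autoImplicit false
set_option linter.all false

/-!
# MP_cfede9_lc, module ReB3: a model gives a table
-/

open FirstOrder

namespace TruthCF

variable {L : FirstOrder.Language.{0, 0}}

private def r3T (I : Idx L) {M : Type} [L.Structure M] (ev : ℕ → M) (b : ℕ) : Prop :=
  (∃ a c, b = eqb a c ∧ ev a = ev c) ∨
  (∃ p : (Σ n : ℕ, L.Relations n) × ℕ, b = rlb I p.1.2 p.2 ∧
    Language.Structure.RelMap p.1.2 (fun i => ev (untup p.1.1 p.2 i))) ∨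
  (∃ p : (Σ n : ℕ, L.BoundedFormula Empty n) × ℕ, b = fmb I p.1.2 p.2 ∧
    p.1.2.Realize (default : Empty → M) (fun i => ev (untup p.1.1 p.2 i)))

private theorem r3_eq_rl (I : Idx L) {n : ℕ} (r : L.Relations n) (a b c : ℕ) :
    eqb a b ≠ rlb I r c := by
  intro h
  have h1 := (Nat.pair_eq_pair.mp h).1
  omega

private theorem r3_eq_fm (I : Idx L) {n : ℕ} (θ : L.BoundedFormula Empty n) (a b c : ℕ) :
    eqb a b ≠ fmb I θ c := by
  intro h
  have h1 := (Nat.pair_eq_pair.mp h).1
  omega

private theorem r3_rl_fm (I : Idx L) {n m : ℕ} (r : L.Relations m) (θ : L.BoundedFormula Empty n)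
    (a c : ℕ) : rlb I r a ≠ fmb I θ c := by
  intro h
  have h1 := (Nat.pair_eq_pair.mp h).1
  omega

private theorem r3_rl_inj (I : Idx L) {p q : (Σ n : ℕ, L.Relations n) × ℕ}
    (h : rlb I p.1.2 p.2 = rlb I q.1.2 q.2) : p = q := by
  obtain ⟨⟨n, f⟩, a⟩ := p
  obtain ⟨⟨m, g⟩, b⟩ := q
  have h1 := Nat.pair_eq_pair.mp h
  have h2 : (⟨n, f⟩ : Σ n : ℕ, L.Relations n) = ⟨m, g⟩ := I.hr (by
    have := h1.1
    simp only at this
    omega)
  rw [h2]
  exact Prod.ext rfl h1.2

private theorem r3_fm_inj (I : Idx L) {p q : (Σ n : ℕ, L.BoundedFormula Empty n) × ℕ}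
    (h : fmb I p.1.2 p.2 = fmb I q.1.2 q.2) : p = q := by
  obtain ⟨⟨n, f⟩, a⟩ := p
  obtain ⟨⟨m, g⟩, b⟩ := q
  have h1 := Nat.pair_eq_pair.mp h
  have h2 : (⟨n, f⟩ : Σ n : ℕ, L.BoundedFormula Empty n) = ⟨m, g⟩ := I.hq (by
    have := h1.1
    simp only at this
    omega)
  rw [h2]
  exact Prod.ext rfl h1.2

private theorem r3T_eq (I : Idx L) {M : Type} [L.Structure M] (ev : ℕ → M) (a b : ℕ) :
    r3T I ev (eqb a b) ↔ ev a = ev b := by
  constructor
  · rintro (⟨a', c', h, h1⟩ | ⟨p, h, _⟩ | ⟨p, h, _⟩)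
    · have h2 := Nat.pair_eq_pair.mp (Nat.pair_eq_pair.mp h).2
      rw [h2.1, h2.2]
      exact h1
    · exact absurd h (r3_eq_rl I _ _ _ _)
    · exact absurd h (r3_eq_fm I _ _ _ _)
  · intro h
    exact Or.inl ⟨a, b, rfl, h⟩

private theorem r3T_rl (I : Idx L) {M : Type} [L.Structure M] (ev : ℕ → M) {n : ℕ}
    (r : L.Relations n) (a : ℕ) :
    r3T I ev (rlb I r a) ↔ Language.Structure.RelMap r (fun i => ev (untup n a i)) := by
  constructor
  · rintro (⟨a', c', h, h1⟩ | ⟨p, h, h1⟩ | ⟨p, h, _⟩)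
    · exact absurd h.symm (r3_eq_rl I _ _ _ _)
    · have h2 := r3_rl_inj I (p := (⟨n, r⟩, a)) h
      rw [← h2] at h1
      exact h1
    · exact absurd h (r3_rl_fm I _ _ _ _)
  · intro h
    exact Or.inr (Or.inl ⟨(⟨n, r⟩, a), rfl, h⟩)

private theorem r3T_fm (I : Idx L) {M : Type} [L.Structure M] (ev : ℕ → M) {n : ℕ}
    (θ : L.BoundedFormula Empty n) (e : ℕ) :
    r3T I ev (fmb I θ e) ↔ θ.Realize (default : Empty → M) (fun i => ev (untup n e i)) := by
  constructor
  · rintro (⟨a', c', h, h1⟩ | ⟨p, h, h1⟩ | ⟨p, h, h1⟩)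
    · exact absurd h.symm (r3_eq_fm I _ _ _ _)
    · exact absurd h.symm (r3_rl_fm I _ _ _ _)
    · have h2 := r3_fm_inj I (p := (⟨n, θ⟩, e)) h
      rw [← h2] at h1
      exact h1
  · intro h
    exact Or.inr (Or.inr ⟨(⟨n, θ⟩, e), rfl, h⟩)

private theorem r3_tnm (I : Idx L) {M : Type} [L.Structure M] (ev : ℕ → M)
    (hev : ∀ (n : ℕ) (f : L.Functions n) (a : ℕ),
        ev (fnm I f a) = Language.Structure.funMap f (fun i => ev (untup n a i)))
    {n : ℕ} (e : ℕ) (u : L.Term (Empty ⊕ Fin n)) :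
    ev (tnm I e u) = u.realize (Sum.elim (default : Empty → M) (fun i => ev (untup n e i))) := by
  induction u with
  | var x =>
    rcases x with x | i
    · exact x.elim
    · rfl
  | func f ts ih =>
    show ev (fnm I f (tup _ (fun i => tnm I e (ts i)))) = Language.Structure.funMap f _
    rw [hev, untup_tup]
    congr 1
    funext i
    exact ih i

private theorem r3_untup_pair (n y e : ℕ) :
    untup (n + 1) (Nat.pair y e) = Fin.snoc (α := fun _ => ℕ) (untup n e) y := by
  show Fin.snoc (α := fun _ => ℕ) (untup n (Nat.unpair (Nat.pair y e)).2)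
    (Nat.unpair (Nat.pair y e)).1 = _
  rw [Nat.unpair_pair]

private theorem r3_snoc {M : Type} (ev : ℕ → M) (n y e : ℕ) :
    (fun i => ev (untup (n + 1) (Nat.pair y e) i)) =
      (Fin.snoc (fun i => ev (untup n e i)) (ev y) : Fin (n + 1) → M) := by
  rw [r3_untup_pair]
  funext i
  refine Fin.lastCases ?_ (fun j => ?_) i
  · rw [Fin.snoc_last, Fin.snoc_last]
  · rw [Fin.snoc_castSucc, Fin.snoc_castSucc]

private theorem r3_nnm (I : Idx L) {M : Type} [L.Structure M] (ev : ℕ → M)
    (hev : ∀ (n : ℕ) (f : L.Functions n) (a : ℕ),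
        ev (fnm I f a) = Language.Structure.funMap f (fun i => ev (untup n a i)))
    (z : L.Functions 0) (s : L.Functions 1) (k : ℕ) :
    ev (nnm I z s k) = nmS M z s k := by
  induction k with
  | zero =>
    show ev (fnm I z 0) = Language.Structure.funMap z Fin.elim0
    rw [hev]
    congr 1
    funext i
    exact i.elim0
  | succ k ih =>
    show ev (fnm I s (tup 1 (fun _ => nnm I z s k))) = Language.Structure.funMap s (fun _ => nmS M z s k)
    rw [hev, untup_tup]
    congr 1
    funext i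
    exact ih

/-- a model gives a table -/
theorem table_of_model (I : Idx L) {z : L.Functions 0} {s : L.Functions 1} {α : L.BoundedFormula Empty 0}
    {κ κ' : L.BoundedFormula Empty 1} {n : ℕ} (h : SatN z s α κ κ' n) : ∃ t, TOk I z s α κ κ' n t := by
  classical
  obtain ⟨M, S, hM, hα, hκ, hκ'⟩ := h
  obtain ⟨ev, hev, hw⟩ := exists_ev I M
  have key : ∀ b, decide (r3T I ev b) = true ↔ r3T I ev b := fun b => decide_eq_true_iff
  have hcls : ∀ {m : ℕ} (θ : L.BoundedFormula Empty m), Cls I (fun b => decide (r3T I ev b)) θ := by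
    intro m θ
    induction θ with
    | falsum =>
      intro e
      refine decide_eq_false ?_
      rw [r3T_fm]
      exact fun h => h
    | equal u v =>
      intro e
      refine decide_eq_decide.mpr ?_
      rw [r3T_fm, r3T_eq, r3_tnm I ev hev, r3_tnm I ev hev]
      exact Iff.rfl
    | rel r ts =>
      intro e
      refine decide_eq_decide.mpr ?_
      rw [r3T_fm, r3T_rl, untup_tup]
      have e1 : (fun i => ev (tnm I e (ts i))) = fun i => (ts i).realize
          (Sum.elim (default : Empty → M) (fun i => ev (untup _ e i))) := by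
        funext i
        exact r3_tnm I ev hev e (ts i)
      rw [e1]
      exact Iff.rfl
    | imp φ ψ ih1 ih2 =>
      refine ⟨?_, ih1, ih2⟩
      intro e
      show decide (r3T I ev (fmb I (φ.imp ψ) e)) = (! decide (r3T I ev (fmb I φ e)) ||
        decide (r3T I ev (fmb I ψ e)))
      rw [Bool.eq_iff_iff, Bool.or_eq_true, Bool.not_eq_true', decide_eq_false_iff_not, key, key,
        r3T_fm, r3T_fm, r3T_fm]
      show (φ.Realize _ _ → ψ.Realize _ _) ↔ _
      exact imp_iff_not_or
    | all φ ih =>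
      refine ⟨?_, ?_, ih⟩
      · intro e y h1
        have h2 : ∀ x : M, φ.Realize (default : Empty → M) (Fin.snoc (fun i => ev (untup _ e i)) x) :=
          (r3T_fm I ev _ e).mp ((key _).mp h1)
        refine (key _).mpr ((r3T_fm I ev _ _).mpr ?_)
        rw [r3_snoc]
        exact h2 _
      · intro e h1
        have h2 := (r3T_fm I ev _ _).mp ((key _).mp h1)
        rw [r3_snoc] at h2
        refine (key _).mpr ((r3T_fm I ev _ _).mpr ?_)
        show ∀ x : M, φ.Realize (default : Empty → M) (Fin.snoc (fun i => ev (untup _ e i)) x)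
        exact hw _ φ e h2
  have hupd : ∀ (m : ℕ) (i : Fin m) (a b c : ℕ), ev b = ev c →
      (fun j => ev (Function.update (untup m a) i b j)) =
        fun j => ev (Function.update (untup m a) i c j) := by
    intro m i a b c hbc
    funext j
    by_cases hj : j = i
    · subst hj
      rw [Function.update_self, Function.update_self, hbc]
    · rw [Function.update_of_ne hj, Function.update_of_ne hj]
  have hone : ∀ k, (fun i => ev (untup 1 (Nat.pair (nnm I z s k) 0) i)) =
      (fun _ => nmS M z s k : Fin 1 → M) := by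
    intro k
    rw [r3_snoc, r3_nnm I ev hev]
    funext i
    have hi : i = Fin.last 0 := Fin.ext (by have := i.2; simp only [Fin.val_last]; omega)
    rw [hi, Fin.snoc_last]
  refine ⟨fun b => decide (r3T I ev b), ?_⟩
  refine ⟨?_, ?_, ?_, ?_, ?_, hcls α, hcls κ, hcls κ', ?_, ?_, ?_⟩
  · intro a
    exact (key _).mpr ((r3T_eq I ev _ _).mpr rfl)
  · intro a b h
    exact (key _).mpr ((r3T_eq I ev _ _).mpr ((r3T_eq I ev _ _).mp ((key _).mp h)).symm)
  · intro a b c h h'
    exact (key _).mpr ((r3T_eq I ev _ _).mpr (((r3T_eq I ev _ _).mp ((key _).mp h)).trans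
      ((r3T_eq I ev _ _).mp ((key _).mp h'))))
  · intro m f i a b c h
    have hbc := (r3T_eq I ev _ _).mp ((key _).mp h)
    refine (key _).mpr ((r3T_eq I ev _ _).mpr ?_)
    rw [hev, hev, untup_tup, untup_tup, hupd m i a b c hbc]
  · intro m r i a b c h h'
    have hbc := (r3T_eq I ev _ _).mp ((key _).mp h)
    have h2 := (r3T_rl I ev _ _).mp ((key _).mp h')
    refine (key _).mpr ((r3T_rl I ev _ _).mpr ?_)
    rw [untup_tup] at h2 ⊢
    rw [← hupd m i a b c hbc]
    exact h2
  · refine (key _).mpr ((r3T_fm I ev _ _).mpr ?_)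
    have e1 : (fun i => ev (untup 0 0 i)) = (default : Fin 0 → M) := Subsingleton.elim _ _
    rw [e1]
    exact hα
  · intro k
    refine (key _).mpr ((r3T_fm I ev _ _).mpr ?_)
    rw [hone]
    exact hκ k
  · refine (key _).mpr ((r3T_fm I ev _ _).mpr ?_)
    rw [hone]
    exact hκ'

end TruthCF
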