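import Pool.Agent.Work.MP_cfede9_lc.ReB1

set_option autoImplicit false
set_option linter.all false

/-!
# MP_cfede9_lc, module ReB4: a table gives a model
-/

open FirstOrder

namespace TruthCF

variable {L : FirstOrder.Language.{0, 0}}

/-- single coordinate changes generate all changes -/
private theorem b4_hyb (S : Setoid ℕ) (m : ℕ) (Q : (Fin m → ℕ) → (Fin m → ℕ) → Prop)
    (hrefl : ∀ u, Q u u) (htrans : ∀ u v w, Q u v → Q v w → Q u w)
    (hstep : ∀ (u : Fin m → ℕ) (i : Fin m) (b c : ℕ), S.r b c →
      Q (Function.update u i b) (Function.update u i c))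
    (u v : Fin m → ℕ) (huv : ∀ i, S.r (u i) (v i)) : Q u v := by
  have key : ∀ s : Finset (Fin m), Q u (fun i => if i ∈ s then v i else u i) := by
    intro s
    induction s using Finset.induction_on with
    | empty => simpa using hrefl u
    | insert a s ha ih =>
      refine htrans _ _ _ ih ?_
      have h1 : (fun i => if i ∈ s then v i else u i) =
          Function.update (fun i => if i ∈ s then v i else u i) a (u a) := by
        funext i
        by_cases h : i = a
        · subst h
          simp [ha]
        · simp [Function.update_of_ne h]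
      have h2 : (fun i => if i ∈ insert a s then v i else u i) =
          Function.update (fun i => if i ∈ s then v i else u i) a (v a) := by
        funext i
        by_cases h : i = a
        · subst h
          simp
        · simp [Function.update_of_ne h, Finset.mem_insert, h]
      rw [h2]
      conv_lhs => rw [h1]
      exact hstep _ a _ _ (huv a)
  have := key Finset.univ
  simpa using this

private theorem reB4_def {M : Type} [L.Structure M] {k : ℕ} {φ : L.BoundedFormula Empty k} {f g : Empty → M}
    {xs : Fin k → M} (h : φ.Realize f xs) : φ.Realize g xs := by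
  rwa [Subsingleton.elim g f]

private theorem reB4_def0 {M : Type} [L.Structure M] {φ : L.BoundedFormula Empty 0} {f g : Empty → M}
    {xs ys : Fin 0 → M} (h : φ.Realize f xs) : φ.Realize g ys := by
  rwa [Subsingleton.elim g f, Subsingleton.elim ys xs]

/-- a table gives a model: the quotient of the names by `t (eqb a b)` -/
theorem model_of_table (I : Idx L) {z : L.Functions 0} {s : L.Functions 1} {α : L.BoundedFormula Empty 0}
    {κ κ' : L.BoundedFormula Empty 1} {n : ℕ} {t : ℕ → Bool} (h : TOk I z s α κ κ' n t) : SatN z s α κ κ' n := by
  classical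
  let S : Setoid ℕ :=
    { r := fun a b => t (eqb a b) = true
      iseqv := ⟨h.rfl, fun {a b} => h.symm a b, fun {a b c} => h.trans a b c⟩ }
  let M : Type := Quotient S
  let mk : ℕ → M := fun a => Quotient.mk S a
  have hmk : ∀ {a b : ℕ}, mk a = mk b ↔ t (eqb a b) = true := fun {a b} => Quotient.eq
  have hout : ∀ x : M, mk (Quotient.out x) = x := fun x => Quotient.out_eq x
  have hout2 : ∀ a : ℕ, t (eqb (Quotient.out (mk a)) a) = true := fun a =>
    hmk.1 (hout (mk a))
  let str : L.Structure M :=
    { funMap := fun {m} f v => mk (fnm I f (tup m (fun i => Quotient.out (v i))))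
      RelMap := fun {m} r v => t (rlb I r (tup m (fun i => Quotient.out (v i)))) = true }
  letI := str
  have hfun : ∀ (m : ℕ) (f : L.Functions m) (u : Fin m → ℕ),
      Language.Structure.funMap f (fun i => mk (u i)) = mk (fnm I f (tup m u)) := by
    intro m f u
    show mk (fnm I f (tup m (fun i => Quotient.out (mk (u i))))) = mk (fnm I f (tup m u))
    rw [hmk]
    refine b4_hyb S m (fun u v => t (eqb (fnm I f (tup m u)) (fnm I f (tup m v))) = true)
      (fun u => h.rfl _) (fun u v w => h.trans _ _ _) ?_ _ _ (fun i => hout2 (u i))
    intro u i b c hbc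
    have := h.fc m f i (tup m u) b c hbc
    rwa [untup_tup] at this
  have hrel : ∀ (m : ℕ) (r : L.Relations m) (u : Fin m → ℕ),
      Language.Structure.RelMap r (fun i => mk (u i)) ↔ t (rlb I r (tup m u)) = true := by
    intro m r u
    show t (rlb I r (tup m (fun i => Quotient.out (mk (u i))))) = true ↔ _
    refine b4_hyb S m (fun u v => (t (rlb I r (tup m u)) = true ↔ t (rlb I r (tup m v)) = true))
      (fun u => Iff.rfl) (fun u v w h1 h2 => h1.trans h2) ?_ _ _ (fun i => hout2 (u i))
    intro u i b c hbc
    have h1 := h.rc m r i (tup m u) b c hbc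
    have h2 := h.rc m r i (tup m u) c b (h.symm _ _ hbc)
    rw [untup_tup] at h1 h2
    exact ⟨h1, h2⟩
  have hterm : ∀ (k e : ℕ) (u : L.Term (Empty ⊕ Fin k)),
      u.realize (Sum.elim (default : Empty → M) (fun i => mk (untup k e i))) = mk (tnm I e u) := by
    intro k e u
    induction u with
    | var x =>
      rcases x with x | i
      · exact x.elim
      · rfl
    | func f ts ih =>
      rw [Language.Term.realize_func]
      have : (fun i => (ts i).realize (Sum.elim (default : Empty → M) (fun i => mk (untup k e i)))) =
          fun i => mk (tnm I e (ts i)) := funext ih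
      rw [this, hfun]
      rfl
  have hform : ∀ (k : ℕ) (φ : L.BoundedFormula Empty k), Cls I t φ → ∀ e : ℕ,
      (φ.Realize (default : Empty → M) (fun i => mk (untup k e i)) ↔ t (fmb I φ e) = true) := by
    intro k φ
    induction φ with
    | falsum =>
      intro hc e
      have h1 : t (fmb I (Language.BoundedFormula.falsum) e) = false := hc e
      rw [h1]
      exact ⟨fun h => h.elim, fun h => by simp at h⟩
    | equal u v =>
      intro hc e
      have h1 : t (fmb I (.equal u v) e) = t (eqb (tnm I e u) (tnm I e v)) := hc e
      rw [h1, ← hmk]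
      show u.realize _ = v.realize _ ↔ _
      rw [hterm, hterm]
    | rel r ts =>
      intro hc e
      have h1 : t (fmb I (.rel r ts) e) = t (rlb I r (tup _ (fun i => tnm I e (ts i)))) := hc e
      rw [h1, ← hrel]
      show Language.Structure.RelMap r (fun i => (ts i).realize _) ↔ _
      have : (fun i => (ts i).realize (Sum.elim (default : Empty → M) (fun i => mk (untup _ e i)))) =
          fun i => mk (tnm I e (ts i)) := funext fun i => hterm _ e (ts i)
      rw [this]
    | imp φ ψ ih1 ih2 =>
      rintro ⟨h1, h2, h3⟩ e
      rw [Language.BoundedFormula.realize_imp, ih1 h2 e, ih2 h3 e, h1 e]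
      cases t (fmb I φ e) <;> cases t (fmb I ψ e) <;> simp
    | all φ ih =>
      rename_i k'
      rintro ⟨h1, h2, h3⟩ e
      have hs : ∀ y : ℕ, (Fin.snoc (fun i => mk (untup _ e i)) (mk y) : Fin (k' + 1) → M) =
          fun i => mk (untup (k' + 1) (Nat.pair y e) i) := by
        intro y
        funext i
        simp only [untup, Nat.unpair_pair]
        refine Fin.lastCases ?_ (fun i => ?_) i
        · simp
        · simp
      rw [Language.BoundedFormula.realize_all]
      constructor
      · intro hh
        apply h2
        rw [← ih h3]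
        have := hh (mk (wnm I φ e))
        rwa [hs] at this
      · intro hh x
        obtain ⟨y, rfl⟩ : ∃ y, mk y = x := ⟨_, hout x⟩
        rw [hs, ih h3]
        exact h1 e y hh
  have hnum : ∀ k, nmS M z s k = mk (nnm I z s k) := by
    intro k
    induction k with
    | zero =>
      show Language.Structure.funMap z Fin.elim0 = mk (fnm I z 0)
      have := hfun 0 z Fin.elim0
      refine Eq.trans ?_ this
      congr 1
      funext i
      exact i.elim0
    | succ k ih =>
      show Language.Structure.funMap s (fun _ => nmS M z s k) =
        mk (fnm I s (tup 1 (fun _ => nnm I z s k)))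
      rw [ih]
      exact hfun 1 s (fun _ => nnm I z s k)
  have hv1 : ∀ k, (fun _ : Fin 1 => nmS M z s k) =
      fun i => mk (untup 1 (Nat.pair (nnm I z s k) 0) i) := by
    intro k
    funext i
    rw [hnum k]
    fin_cases i
    simp [untup, Fin.snoc]
  refine ⟨M, str, ⟨mk 0⟩, ?_, ?_, ?_⟩
  · have h1 := (hform 0 α h.ca 0).2 h.ra
    have he : (fun i => mk (untup 0 0 i)) = (default : Fin 0 → M) := Subsingleton.elim _ _
    rw [he] at h1
    exact reB4_def0 h1
  · intro k
    rw [hv1]
    exact reB4_def ((hform 1 κ h.ck _).2 (h.rk k))
  · rw [hv1]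
    exact reB4_def ((hform 1 κ' h.ck' _).2 h.rk')

end TruthCF
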