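import Pool.Agent.Work.MP_cfede9_lc.ReB1

set_option autoImplicit false
set_option linter.all false

/-!
# MP_cfede9_lc, module ReB5: the conditions on the table are computable
-/

open FirstOrder

namespace TruthCF

variable {L : FirstOrder.Language.{0, 0}}

/-- a condition given by a finite list of computable families -/
private def ReB5_Is (P : ℕ → (ℕ → Bool) → Prop) : Prop :=
  ∃ l : List Fam, ∀ n t, (∀ f ∈ l, f.ok n t) ↔ P n t

private theorem ReB5_congr {P Q : ℕ → (ℕ → Bool) → Prop} (h : ReB5_Is P) (hPQ : ∀ n t, P n t ↔ Q n t) :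
    ReB5_Is Q := by
  obtain ⟨l, hl⟩ := h
  exact ⟨l, fun n t => (hl n t).trans (hPQ n t)⟩

private theorem ReB5_true : ReB5_Is (fun _ _ => True) :=
  ⟨[], fun n t => ⟨fun _ => trivial, fun _ f hf => absurd hf List.not_mem_nil⟩⟩

private theorem ReB5_and {P Q : ℕ → (ℕ → Bool) → Prop} (hP : ReB5_Is P) (hQ : ReB5_Is Q) :
    ReB5_Is (fun n t => P n t ∧ Q n t) := by
  obtain ⟨l, hl⟩ := hP
  obtain ⟨m, hm⟩ := hQ
  refine ⟨l ++ m, fun n t => ?_⟩
  show _ ↔ (P n t ∧ Q n t)
  rw [← hl n t, ← hm n t]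
  constructor
  · intro h
    exact ⟨fun f hf => h f (List.mem_append_left _ hf), fun f hf => h f (List.mem_append_right _ hf)⟩
  · rintro ⟨h1, h2⟩ f hf
    rcases List.mem_append.1 hf with h | h
    · exact h1 f h
    · exact h2 f h

private theorem ReB5_list {ι : Type} (P : ι → ℕ → (ℕ → Bool) → Prop) (h : ∀ i, ReB5_Is (P i)) (l : List ι) :
    ReB5_Is (fun n t => ∀ i ∈ l, P i n t) := by
  induction l with
  | nil => exact ReB5_congr ReB5_true fun n t => ⟨fun _ i hi => absurd hi List.not_mem_nil, fun _ => trivial⟩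
  | cons a l ih =>
    exact ReB5_congr (ReB5_and (h a) ih) fun n t =>
      (List.forall_mem_cons (p := fun i => P i n t) (a := a) (l := l)).symm

private theorem ReB5_fin {ι : Type} [Finite ι] (P : ι → ℕ → (ℕ → Bool) → Prop) (h : ∀ i, ReB5_Is (P i)) :
    ReB5_Is (fun n t => ∀ i, P i n t) := by
  have := Fintype.ofFinite ι
  exact ReB5_congr (ReB5_list P h (Finset.univ : Finset ι).toList) fun n t =>
    ⟨fun h i => h i (Finset.mem_toList.2 (Finset.mem_univ i)), fun h i _ => h i⟩

private theorem ReB5_base (R : Bool → Bool → Bool → Prop) {q0 q1 q2 : ℕ → ℕ → ℕ} (h0 : Primrec₂ q0)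
    (h1 : Primrec₂ q1) (h2 : Primrec₂ q2) :
    ReB5_Is (fun n t => ∀ x, R (t (q0 n x)) (t (q1 n x)) (t (q2 n x))) := by
  classical
  let f : Fam :=
    { q := fun n x => ![q0 n x, q1 n x, q2 n x]
      b := fun v => decide (R (v 0) (v 1) (v 2))
      hq := by
        intro i
        fin_cases i
        · exact h0
        · exact h1
        · exact h2 }
  refine ⟨[f], fun n t => ?_⟩
  constructor
  · intro h x
    have h3 := h f List.mem_cons_self x
    exact of_decide_eq_true h3
  · intro h g hg x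
    rw [List.mem_singleton.1 hg]
    exact decide_eq_true (h x)

private theorem ReB5_b1 (R : Bool → Bool → Bool → Prop) {q0 q1 q2 : ℕ → ℕ} (h0 : Primrec q0)
    (h1 : Primrec q1) (h2 : Primrec q2) :
    ReB5_Is (fun _ t => ∀ x, R (t (q0 x)) (t (q1 x)) (t (q2 x))) :=
  ReB5_base R (q0 := fun _ x => q0 x) (q1 := fun _ x => q1 x) (q2 := fun _ x => q2 x)
    (h0.comp Primrec.snd) (h1.comp Primrec.snd) (h2.comp Primrec.snd)

private theorem ReB5_b2 (R : Bool → Bool → Bool → Prop) {q0 q1 q2 : ℕ → ℕ → ℕ} (h0 : Primrec₂ q0)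
    (h1 : Primrec₂ q1) (h2 : Primrec₂ q2) :
    ReB5_Is (fun _ t => ∀ a b, R (t (q0 a b)) (t (q1 a b)) (t (q2 a b))) := by
  have hl : Primrec fun x : ℕ => (Nat.unpair x).1 := Primrec.fst.comp Primrec.unpair
  have hr : Primrec fun x : ℕ => (Nat.unpair x).2 := Primrec.snd.comp Primrec.unpair
  refine ReB5_congr (ReB5_b1 R (h0.comp hl hr) (h1.comp hl hr) (h2.comp hl hr)) fun n t => ?_
  constructor
  · intro h a b
    have h3 := h (Nat.pair a b)
    rw [Nat.unpair_pair] at h3
    exact h3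
  · intro h x
    exact h _ _

private theorem ReB5_b3 (R : Bool → Bool → Bool → Prop) {q0 q1 q2 : ℕ → ℕ → ℕ → ℕ}
    (h0 : Primrec fun p : ℕ × ℕ × ℕ => q0 p.1 p.2.1 p.2.2)
    (h1 : Primrec fun p : ℕ × ℕ × ℕ => q1 p.1 p.2.1 p.2.2)
    (h2 : Primrec fun p : ℕ × ℕ × ℕ => q2 p.1 p.2.1 p.2.2) :
    ReB5_Is (fun _ t => ∀ a b c, R (t (q0 a b c)) (t (q1 a b c)) (t (q2 a b c))) := by
  have hl : Primrec fun x : ℕ => (Nat.unpair x).1 := Primrec.fst.comp Primrec.unpair
  have hr : Primrec fun x : ℕ => (Nat.unpair x).2 := Primrec.snd.comp Primrec.unpair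
  have hp : Primrec fun x : ℕ => ((Nat.unpair x).1, (Nat.unpair (Nat.unpair x).2).1,
      (Nat.unpair (Nat.unpair x).2).2) :=
    Primrec.pair hl (Primrec.pair (hl.comp hr) (hr.comp hr))
  refine ReB5_congr (ReB5_b1 R (h0.comp hp) (h1.comp hp) (h2.comp hp)) fun n t => ?_
  constructor
  · intro h a b c
    have h3 := h (Nat.pair a (Nat.pair b c))
    simp only [Nat.unpair_pair] at h3
    exact h3
  · intro h x
    exact h _ _ _

/-! ### primitive recursive names -/

variable {α : Type} [Primcodable α]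

private theorem ReB5_tup (n : ℕ) {g : Fin n → α → ℕ} (h : ∀ i, Primrec (g i)) :
    Primrec fun x => tup n (fun i => g i x) := by
  induction n with
  | zero => exact Primrec.const 0
  | succ n ih =>
    exact Primrec₂.natPair.comp (h (Fin.last n)) (ih fun i => h i.castSucc)

private theorem ReB5_untup (n : ℕ) {g : α → ℕ} (h : Primrec g) (i : Fin n) :
    Primrec fun x => untup n (g x) i := by
  induction n generalizing g with
  | zero => exact i.elim0
  | succ n ih =>
    refine Fin.lastCases ?_ (fun j => ?_) i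
    · refine ((Primrec.fst.comp Primrec.unpair).comp h).of_eq fun x => ?_
      show (Nat.unpair (g x)).1 = Fin.snoc (α := fun _ => ℕ) (untup n (Nat.unpair (g x)).2)
        (Nat.unpair (g x)).1 (Fin.last n)
      rw [Fin.snoc_last]
    · refine (ih ((Primrec.snd.comp Primrec.unpair).comp h) j).of_eq fun x => ?_
      show untup n (Nat.unpair (g x)).2 j = Fin.snoc (α := fun _ => ℕ) (untup n (Nat.unpair (g x)).2)
        (Nat.unpair (g x)).1 j.castSucc
      rw [Fin.snoc_castSucc]

private theorem ReB5_upd (n : ℕ) {g b : α → ℕ} (h : Primrec g) (hb : Primrec b) (i : Fin n) :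
    Primrec fun x => tup n (Function.update (untup n (g x)) i (b x)) := by
  refine ReB5_tup n (g := fun j x => Function.update (untup n (g x)) i (b x) j) fun j => ?_
  by_cases hj : j = i
  · subst hj
    refine hb.of_eq fun x => ?_
    rw [Function.update_self]
  · refine (ReB5_untup n h j).of_eq fun x => ?_
    rw [Function.update_of_ne hj]

private theorem ReB5_fnm (I : Idx L) {n : ℕ} (f : L.Functions n) {g : α → ℕ} (h : Primrec g) :
    Primrec fun x => fnm I f (g x) :=
  Primrec.succ.comp (Primrec₂.natPair.comp (Primrec.const _) h)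

private theorem ReB5_wnm (I : Idx L) {n : ℕ} (θ : L.BoundedFormula Empty (n + 1)) {g : α → ℕ}
    (h : Primrec g) : Primrec fun x => wnm I θ (g x) :=
  Primrec.succ.comp (Primrec₂.natPair.comp (Primrec.const _) h)

private theorem ReB5_eqb {g g' : α → ℕ} (h : Primrec g) (h' : Primrec g') :
    Primrec fun x => eqb (g x) (g' x) :=
  Primrec₂.natPair.comp (Primrec.const 0) (Primrec₂.natPair.comp h h')

private theorem ReB5_rlb (I : Idx L) {n : ℕ} (r : L.Relations n) {g : α → ℕ} (h : Primrec g) :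
    Primrec fun x => rlb I r (g x) :=
  Primrec₂.natPair.comp (Primrec.const _) h

private theorem ReB5_fmb (I : Idx L) {n : ℕ} (θ : L.BoundedFormula Empty n) {g : α → ℕ} (h : Primrec g) :
    Primrec fun x => fmb I θ (g x) :=
  Primrec₂.natPair.comp (Primrec.const _) h

private theorem ReB5_tnm (I : Idx L) {n : ℕ} (u : L.Term (Empty ⊕ Fin n)) :
    Primrec fun e => tnm I e u := by
  induction u with
  | var x =>
    rcases x with x | i
    · exact x.elim
    · exact ReB5_untup n Primrec.id i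
  | func f ts ih => exact ReB5_fnm I f (ReB5_tup _ ih)

private theorem ReB5_nnm (I : Idx L) (z : L.Functions 0) (s : L.Functions 1) : Primrec (nnm I z s) := by
  have h : Primrec₂ fun (_ : ℕ) (c : ℕ) => fnm I s (tup 1 (fun _ => c)) :=
    ReB5_fnm I s (ReB5_tup 1 fun _ => Primrec.snd)
  refine (Primrec.nat_rec₁ (fnm I z 0) h).of_eq fun k => ?_
  induction k with
  | zero => rfl
  | succ k ih =>
    show fnm I s (tup 1 (fun _ => _)) = fnm I s (tup 1 (fun _ => nnm I z s k))
    rw [← ih]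

/-! ### clauses -/

private theorem ReB5_cls (I : Idx L) {m : ℕ} (φ : L.BoundedFormula Empty m) :
    ReB5_Is (fun _ t => Cls I t φ) := by
  have hid : Primrec fun x : ℕ => x := Primrec.id
  induction φ with
  | falsum =>
    exact ReB5_b1 (fun u _ _ => u = false) (ReB5_fmb I .falsum hid) hid hid
  | equal u v =>
    exact ReB5_b1 (fun p q _ => p = q) (ReB5_fmb I (.equal u v) hid)
      (ReB5_eqb (ReB5_tnm I u) (ReB5_tnm I v)) hid
  | rel r ts =>
    exact ReB5_b1 (fun p q _ => p = q) (ReB5_fmb I (.rel r ts) hid)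
      (ReB5_rlb I r (ReB5_tup _ fun i => ReB5_tnm I (ts i))) hid
  | imp φ ψ ih1 ih2 =>
    exact ReB5_and (ReB5_b1 (fun p q r => p = (! q || r)) (ReB5_fmb I (.imp φ ψ) hid)
      (ReB5_fmb I φ hid) (ReB5_fmb I ψ hid)) (ReB5_and ih1 ih2)
  | all φ ih =>
    refine ReB5_and ?_ (ReB5_and ?_ ih)
    · exact ReB5_b2 (fun p q _ => p = true → q = true)
        (q0 := fun e y => fmb I (.all φ) e) (q1 := fun e y => fmb I φ (Nat.pair y e))
        (q2 := fun e y => e) (ReB5_fmb I (.all φ) Primrec.fst)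
        (ReB5_fmb I φ (Primrec₂.natPair.comp Primrec.snd Primrec.fst)) Primrec.fst
    · exact ReB5_b1 (fun p q _ => p = true → q = true)
        (ReB5_fmb I φ (Primrec₂.natPair.comp (ReB5_wnm I φ hid) hid)) (ReB5_fmb I (.all φ) hid) hid

/-- the conditions on the table are a finite list of computable families -/
theorem fams_of_TOk (I : Idx L) [Finite (Σ n : ℕ, L.Functions n)] [Finite (Σ n : ℕ, L.Relations n)]
    (z : L.Functions 0) (s : L.Functions 1) (α : L.BoundedFormula Empty 0)
    (κ κ' : L.BoundedFormula Empty 1) :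
    ∃ l : List Fam, ∀ n t, (∀ f ∈ l, f.ok n t) ↔ TOk I z s α κ κ' n t := by
  have hid : Primrec fun x : ℕ => x := Primrec.id
  have ha : Primrec fun p : ℕ × ℕ × ℕ => p.1 := Primrec.fst
  have hb : Primrec fun p : ℕ × ℕ × ℕ => p.2.1 := Primrec.fst.comp Primrec.snd
  have hc : Primrec fun p : ℕ × ℕ × ℕ => p.2.2 := Primrec.snd.comp Primrec.snd
  have h1 : ReB5_Is (fun _ t => ∀ a, t (eqb a a) = true) :=
    ReB5_b1 (fun p _ _ => p = true) (ReB5_eqb hid hid) hid hid
  have h2 : ReB5_Is (fun _ t => ∀ a b, t (eqb a b) = true → t (eqb b a) = true) :=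
    ReB5_b2 (fun p q _ => p = true → q = true) (q0 := fun a b => eqb a b) (q1 := fun a b => eqb b a)
      (q2 := fun a b => a) (ReB5_eqb Primrec.fst Primrec.snd) (ReB5_eqb Primrec.snd Primrec.fst)
      Primrec.fst
  have h3 : ReB5_Is (fun _ t => ∀ a b c, t (eqb a b) = true → t (eqb b c) = true →
      t (eqb a c) = true) :=
    ReB5_b3 (fun p q r => p = true → q = true → r = true) (q0 := fun a b c => eqb a b)
      (q1 := fun a b c => eqb b c) (q2 := fun a b c => eqb a c) (ReB5_eqb ha hb) (ReB5_eqb hb hc)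
      (ReB5_eqb ha hc)
  have h4 : ReB5_Is (fun _ t => ∀ (m : ℕ) (f : L.Functions m) (i : Fin m) (a b c : ℕ),
      t (eqb b c) = true →
      t (eqb (fnm I f (tup m (Function.update (untup m a) i b)))
        (fnm I f (tup m (Function.update (untup m a) i c)))) = true) := by
    refine ReB5_congr (ReB5_fin (ι := Σ n : ℕ, L.Functions n)
      (fun F _ t => ∀ (i : Fin F.1) (a b c : ℕ), t (eqb b c) = true →
        t (eqb (fnm I F.2 (tup F.1 (Function.update (untup F.1 a) i b)))
          (fnm I F.2 (tup F.1 (Function.update (untup F.1 a) i c)))) = true) fun F => ?_)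
      fun n t => ⟨fun h m f => h ⟨m, f⟩, fun h F => h F.1 F.2⟩
    refine ReB5_fin _ fun i => ?_
    exact ReB5_b3 (fun p q _ => p = true → q = true) (q0 := fun a b c => eqb b c)
      (q1 := fun a b c => eqb (fnm I F.2 (tup F.1 (Function.update (untup F.1 a) i b)))
        (fnm I F.2 (tup F.1 (Function.update (untup F.1 a) i c))))
      (q2 := fun a b c => a) (ReB5_eqb hb hc)
      (ReB5_eqb (ReB5_fnm I F.2 (ReB5_upd F.1 ha hb i)) (ReB5_fnm I F.2 (ReB5_upd F.1 ha hc i))) ha
  have h5 : ReB5_Is (fun _ t => ∀ (m : ℕ) (r : L.Relations m) (i : Fin m) (a b c : ℕ),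
      t (eqb b c) = true → t (rlb I r (tup m (Function.update (untup m a) i b))) = true →
      t (rlb I r (tup m (Function.update (untup m a) i c))) = true) := by
    refine ReB5_congr (ReB5_fin (ι := Σ n : ℕ, L.Relations n)
      (fun F _ t => ∀ (i : Fin F.1) (a b c : ℕ), t (eqb b c) = true →
        t (rlb I F.2 (tup F.1 (Function.update (untup F.1 a) i b))) = true →
        t (rlb I F.2 (tup F.1 (Function.update (untup F.1 a) i c))) = true) fun F => ?_)
      fun n t => ⟨fun h m f => h ⟨m, f⟩, fun h F => h F.1 F.2⟩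
    refine ReB5_fin _ fun i => ?_
    exact ReB5_b3 (fun p q r => p = true → q = true → r = true) (q0 := fun a b c => eqb b c)
      (q1 := fun a b c => rlb I F.2 (tup F.1 (Function.update (untup F.1 a) i b)))
      (q2 := fun a b c => rlb I F.2 (tup F.1 (Function.update (untup F.1 a) i c)))
      (ReB5_eqb hb hc) (ReB5_rlb I F.2 (ReB5_upd F.1 ha hb i)) (ReB5_rlb I F.2 (ReB5_upd F.1 ha hc i))
  have h6 : ReB5_Is (fun _ t => t (fmb I α 0) = true) :=
    ReB5_congr (ReB5_b1 (fun p _ _ => p = true) (Primrec.const (fmb I α 0)) hid hid)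
      fun n t => ⟨fun h => h 0, fun h _ => h⟩
  have h7 : ReB5_Is (fun _ t => ∀ k, t (fmb I κ (Nat.pair (nnm I z s k) 0)) = true) :=
    ReB5_b1 (fun p _ _ => p = true)
      (ReB5_fmb I κ (Primrec₂.natPair.comp (ReB5_nnm I z s) (Primrec.const 0))) hid hid
  have h8 : ReB5_Is (fun n t => t (fmb I κ' (Nat.pair (nnm I z s n) 0)) = true) := by
    have h9 : Primrec₂ fun (n x : ℕ) => fmb I κ' (Nat.pair (nnm I z s n) 0) :=
      ReB5_fmb I κ' (Primrec₂.natPair.comp ((ReB5_nnm I z s).comp Primrec.fst) (Primrec.const 0))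
    exact ReB5_congr (ReB5_base (fun p _ _ => p = true) h9 h9 h9)
      fun n t => ⟨fun h => h 0, fun h _ => h⟩
  refine ReB5_congr (ReB5_and h1 (ReB5_and h2 (ReB5_and h3 (ReB5_and h4 (ReB5_and h5
    (ReB5_and (ReB5_cls I α) (ReB5_and (ReB5_cls I κ) (ReB5_and (ReB5_cls I κ')
      (ReB5_and h6 (ReB5_and h7 h8)))))))))) fun n t => ?_
  constructor
  · rintro ⟨a1, a2, a3, a4, a5, a6, a7, a8, a9, a10, a11⟩
    exact ⟨a1, a2, a3, a4, a5, a6, a7, a8, a9, a10, a11⟩
  · rintro ⟨a1, a2, a3, a4, a5, a6, a7, a8, a9, a10, a11⟩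
    exact ⟨a1, a2, a3, a4, a5, a6, a7, a8, a9, a10, a11⟩

end TruthCF
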