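import Pool.Agent.Work.MP_cfede9_lc.ReA2
import Pool.Agent.Work.MP_cfede9_lc.ReB3
import Pool.Agent.Work.MP_cfede9_lc.ReB4
import Pool.Agent.Work.MP_cfede9_lc.ReB5

set_option autoImplicit false
set_option linter.all false

/-!
# MP_cfede9_lc, module ReB6: unsatisfiability is computably enumerable
-/

open FirstOrder

namespace TruthCF

variable {L : FirstOrder.Language.{0, 0}}

/-- main result of this part: unsatisfiability is computably enumerable -/
theorem re_unsat [Finite (Σ n : ℕ, L.Functions n)] [Finite (Σ n : ℕ, L.Relations n)]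
    (z : L.Functions 0) (s : L.Functions 1) (α : L.BoundedFormula Empty 0)
    (κ κ' : L.BoundedFormula Empty 1) : REPred (fun n => ¬ SatN z s α κ κ' n) := by
  obtain ⟨I⟩ := exists_idx L
  obtain ⟨l, hl⟩ := fams_of_TOk I z s α κ κ'
  have h : (fun n => ¬ SatN z s α κ κ' n) = fun n => ¬ ∃ t : ℕ → Bool, ∀ f ∈ l, f.ok n t := by
    funext n
    apply propext
    refine not_congr ⟨fun hn => ?_, fun hn => ?_⟩
    · obtain ⟨t, ht⟩ := table_of_model I hn
      exact ⟨t, (hl n t).mpr ht⟩
    · obtain ⟨t, ht⟩ := hn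
      exact model_of_table I ((hl n t).mp ht)
  rw [h]
  exact re_fams l

end TruthCF
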