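import Pool.Agent.Work.MP_cfede9_lc.Key3
import Pool.Agent.Work.MP_cfede9_lc.RDg4
import Pool.Agent.Work.MP_cfede9_lc.ReB6
import Pool.Agent.Work.MP_cfede9_lc.Uni6
import Pool.Agent.Work.MP_cfede9_lc.Uni7

set_option autoImplicit false
set_option linter.all false

/-!
# MP_cfede9_lc, module Key4: the contradiction
-/

open FirstOrder

namespace TruthCF

variable {L' : FirstOrder.Language.{0, 0}}

private theorem Key4_finFun {L' : FirstOrder.Language.{0, 0}} (h : L'.IsRelational) :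
    Finite (Σ m, (LA.sum L').Functions m) := by
  have hinj : Function.Injective (fun x : (Σ m, (LA.sum L').Functions m) =>
      (match x with
        | ⟨_, Sum.inl AFunc.zero⟩ => (0 : Fin 4)
        | ⟨_, Sum.inl AFunc.succ⟩ => 1
        | ⟨_, Sum.inl AFunc.add⟩ => 2
        | ⟨_, Sum.inl AFunc.mul⟩ => 3
        | ⟨m, Sum.inr f⟩ => ((h m).false f).elim)) := by
    rintro ⟨m, f | f⟩ ⟨m', f' | f'⟩ hx
    · cases f <;> cases f' <;> first | rfl | (simp at hx)
    · exact ((h m').false f').elim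
    · exact ((h m).false f).elim
    · exact ((h m).false f).elim
  exact Finite.of_injective _ hinj

private theorem Key4_finRel {L' : FirstOrder.Language.{0, 0}} (h : Finite (Σ n : ℕ, L'.Relations n)) :
    Finite (Σ m, (LA.sum L').Relations m) := by
  have hinj : Function.Injective (fun x : (Σ m, (LA.sum L').Relations m) =>
      (match x with
        | ⟨_, Sum.inl ARel.le⟩ => (Sum.inl () : Unit ⊕ (Σ n : ℕ, L'.Relations n))
        | ⟨m, Sum.inr f⟩ => Sum.inr ⟨m, f⟩)) := by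
    rintro ⟨m, f | f⟩ ⟨m', f' | f'⟩ hx
    · cases f; cases f'; rfl
    · cases f; simp at hx
    · cases f'; simp at hx
    · simp only [Sum.inr.injEq, Sigma.mk.injEq] at hx
      obtain ⟨rfl, hx⟩ := hx
      have := eq_of_heq hx
      subst this
      rfl
  exact Finite.of_injective _ hinj

private theorem Key4_nmS {L' : FirstOrder.Language.{0, 0}} {M : Type} [PAm M] [L'.Structure M] (k : ℕ) :
    nmS (L := LA.sum L') M (Sum.inl zeroF : LA.Functions 0 ⊕ L'.Functions 0)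
      (Sum.inl succF : LA.Functions 1 ⊕ L'.Functions 1) k = (k : M) := by
  induction k with
  | zero => exact Nat.cast_zero.symm
  | succ k ih =>
    rw [Nat.cast_succ, ← ih]
    rfl

private theorem Key4_udk {L' : FirstOrder.Language.{0, 0}} (K : Ctx L') {n : ℕ}
    (ψ : LA.BoundedFormula Empty (n + 1)) :
    UD L' (fun M _ _ v => ¬ ∃ b₁ b₂ : M, ∀ u : M, (Sa ψ.all u ↔ HH K.F (v 0) b₁ b₂ u)) := by
  refine UD.not ?_
  refine UD.ex (R := fun M _ _ b₁ v => ∃ b₂ : M, ∀ u : M, (Sa ψ.all u ↔ HH K.F (v 0) b₁ b₂ u)) ?_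
  refine UD.ex (R := fun M _ _ b₂ v => ∀ u : M, (Sa ψ.all u ↔ HH K.F (v 1) (v 0) b₂ u)) ?_
  refine UD.all (R := fun M _ _ u v => (Sa ψ.all u ↔ HH K.F (v 2) (v 1) (v 0) u)) ?_
  exact UD.iff (ud_Sa ψ.all)
    ((UD.relabel (ud_HH K.F) (fun i => match i with | 0 => 3 | 1 => 2 | 2 => 1 | 3 => 0 | i + 4 => i)).congr
      fun M _ _ v => Iff.rfl)

/-- the contradiction: the complement of the halting problem would be computably enumerable -/
theorem exD_all (K : Ctx L') (hfin : Finite (Σ n : ℕ, L'.Relations n)) {n : ℕ}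
    (ψ : LA.BoundedFormula Empty (n + 1)) (hψ : HGood K ψ)
    {M : Type} [PAm M] [L'.Structure M] (hM : K.Mod M) : ExD K.F (fun u : ℕ → M => Sa ψ.all (u 0)) := by
  by_contra hnd
  haveI hrel : L'.IsRelational := K.rel
  haveI hemp : ∀ m, IsEmpty (L'.Functions m) := fun m => K.rel m
  haveI hf : Finite (Σ m, (LA.sum L').Functions m) := Key4_finFun K.rel
  haveI hr : Finite (Σ m, (LA.sum L').Relations m) := Key4_finRel hfin
  obtain ⟨Q, hQd, hQ⟩ := RD.NH (J := fun M _ p q ν a => JJ ψ.all p q ν a)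
    (ud_JJ (L' := Language.empty) ψ.all)
  obtain ⟨κ, hκ⟩ := bounded_of_ud (L' := L')
    (fun M _ _ a => ¬ ∃ b₁ b₂ : M, ∀ u : M, (Sa ψ.all u ↔ HH K.F a b₁ b₂ u)) (Key4_udk K ψ)
  obtain ⟨κ', hκ'⟩ := bounded_of_ud (L' := L') (fun M _ _ a => ¬ Delta ψ.all Q a)
    (UD.not (ud_of_empty (ud_delta ψ.all Q hQd)))
  let z : (LA.sum L').Functions 0 := (Sum.inl zeroF : LA.Functions 0 ⊕ L'.Functions 0)
  let s : (LA.sum L').Functions 1 := (Sum.inl succF : LA.Functions 1 ⊕ L'.Functions 1)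
  have key : ∀ m : ℕ, SatN z s K.α κ κ' m ↔ ¬ NH m := by
    intro m
    constructor
    · rintro ⟨M', S, hne, hα, hk, hk'⟩
      obtain ⟨P, T, rfl⟩ := K.hnice M' S hne hα
      have hnm : ∀ k : ℕ, nmS M' z s k = (k : M') := Key4_nmS (L' := L')
      have hM' : K.Mod M' := hα
      have hnd' : ¬ ExD K.F (fun u : ℕ → M' => Sa ψ.all (u 0)) := by
        intro h
        obtain ⟨g, b₁, b₂, hb⟩ := (exD_iff_HH K.F (M := M') (fun u => Sa ψ.all u)).1 h
        have h1 := hk g
        rw [hnm g] at h1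
        exact (hκ M' (g : M')).1 h1 ⟨b₁, b₂, hb⟩
      have h2 := delta_nd K hM' ψ hψ hnd' Q (fun v => NH (v 0)) hQd hQ m
      have h3 := hk'
      rw [hnm m] at h3
      exact fun h => (hκ' M' (m : M')).1 h3 (h2.2 h)
    · intro hm
      have hnm : ∀ k : ℕ, nmS M z s k = (k : M) := Key4_nmS (L' := L')
      refine ⟨M, inferInstance, ⟨(0 : M)⟩, hM, fun k => ?_, ?_⟩
      · rw [hnm k]
        refine (hκ M (k : M)).2 ?_
        rintro ⟨b₁, b₂, hb⟩
        exact hnd ((exD_iff_HH K.F (M := M) (fun u => Sa ψ.all u)).2 ⟨k, b₁, b₂, hb⟩)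
      · rw [hnm m]
        refine (hκ' M (m : M)).2 ?_
        intro h
        exact hm ((delta_nd K hM ψ hψ hnd Q (fun v => NH (v 0)) hQd hQ m).1 h)
  refine NH_not_re ?_
  refine (re_unsat z s K.α κ κ').of_eq fun m => ?_
  rw [key m, not_not]

end TruthCF
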