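import Pool.Agent.Work.MP_cfede9_lc.Ctx

set_option autoImplicit false
set_option linter.all false

/-!
# MP_cfede9_lc: the formula Delta (definitions)
-/

open FirstOrder

namespace TruthCF

variable {L' : FirstOrder.Language.{0, 0}}

/-- `JJ χ p q ν` is closed under successor -/
def CutJ {n : ℕ} (χ : LA.BoundedFormula Empty n) {M : Type} [PAm M] (p q ν : M) : Prop :=
  ∀ j, JJ χ p q ν j → JJ χ p q ν (j + 1)

/-- `Q` holds in the smallest cut of the form `JJ χ p q ν` -/
def Delta {n : ℕ} (χ : LA.BoundedFormula Empty n)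
    (Q : ∀ (M : Type) [PAm M], M → M → M → (ℕ → M) → Prop) {M : Type} [PAm M] (a : M) : Prop :=
  ∃ p q ν : M, CutJ χ p q ν ∧ (∀ p' q' ν' : M, CutJ χ p' q' ν' → ∀ j, JJ χ p q ν j → JJ χ p' q' ν' j) ∧
    Q M p q ν (fun _ => a)

end TruthCF
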