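import Mathlib

set_option autoImplicit false
set_option linter.all false

/-!
# MP_cfede9_lc: the language of arithmetic
-/

open FirstOrder

namespace TruthCF

/-- function symbols of arithmetic -/
inductive AFunc : ℕ → Type
  | zero : AFunc 0
  | succ : AFunc 1
  | add : AFunc 2
  | mul : AFunc 2

/-- relation symbols of arithmetic -/
inductive ARel : ℕ → Type
  | le : ARel 2

/-- the language of arithmetic -/
def LA : FirstOrder.Language.{0, 0} := ⟨AFunc, ARel⟩

/-- the symbols, typed as symbols of `LA` -/
def zeroF : LA.Functions 0 := AFunc.zero

@[inherit_doc zeroF] def succF : LA.Functions 1 := AFunc.succ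

@[inherit_doc zeroF] def addF : LA.Functions 2 := AFunc.add

@[inherit_doc zeroF] def mulF : LA.Functions 2 := AFunc.mul

@[inherit_doc zeroF] def leR : LA.Relations 2 := ARel.le

end TruthCF
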