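import Pool.Agent.Work.MP_cfede9_lc.NicD

set_option autoImplicit false
set_option linter.all false

/-!
# MP_cfede9_lc, module Nic1: structures satisfying the raw axioms are nice models
-/

open FirstOrder

namespace TruthCF

/-- the semiring -/
@[reducible] private def rawCS {M : Type} [S : LA.Structure M] (H : PAminus M) : CommSemiring M where
  add := ap
  zero := az M
  mul := am
  one := as (az M)
  add_assoc := H.add_assoc
  zero_add := fun a => (H.add_comm _ _).trans (H.add_zero a)
  add_zero := H.add_zero
  add_comm := H.add_comm
  nsmul := @nsmulRec M ⟨az M⟩ ⟨ap⟩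
  left_distrib := H.distrib
  right_distrib := fun a b c => by
    show am (ap a b) c = ap (am a c) (am b c)
    rw [H.mul_comm (ap a b) c, H.distrib, H.mul_comm c a, H.mul_comm c b]
  zero_mul := fun a => (H.mul_comm _ _).trans (H.mul_zero a)
  mul_zero := H.mul_zero
  mul_assoc := H.mul_assoc
  one_mul := fun a => (H.mul_comm _ _).trans (H.mul_one a)
  mul_one := H.mul_one
  mul_comm := H.mul_comm

/-- the order -/
@[reducible] private noncomputable def rawLO {M : Type} [S : LA.Structure M] (H : PAminus M) :
    LinearOrder M where
  le := al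
  lt := fun a b => ¬ al b a
  le_refl := H.le_refl
  le_trans := H.le_trans
  le_antisymm := H.le_antisymm
  le_total := H.le_total
  lt_iff_le_not_ge := fun a b =>
    ⟨fun h => ⟨(H.le_total a b).resolve_right h, h⟩, fun h => h.2⟩
  toDecidableLE := Classical.decRel _

/-- the raw axioms give a nice model inducing the structure -/
theorem RawAx.toPAm {M : Type} [S : LA.Structure M] (h : RawAx M) : ∃ P : PAm M, @instLAStr M P = S := by
  have H := h.pa
  letI cs : CommSemiring M := rawCS H
  letI lo : LinearOrder M := rawLO H
  have hadd : ∀ a b : M, a + b = ap a b := fun _ _ => rfl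
  have hmul : ∀ a b : M, a * b = am a b := fun _ _ => rfl
  have hzero : (0 : M) = az M := rfl
  have hone : (1 : M) = as (az M) := rfl
  have hle : ∀ a b : M, a ≤ b ↔ al a b := fun _ _ => Iff.rfl
  have hlt : ∀ a b : M, a < b ↔ ¬ al b a := fun _ _ => Iff.rfl
  have hsucc : ∀ a : M, as a = a + 1 := fun a => H.succ_eq a
  have hex : ∀ a b : M, a ≤ b ↔ ∃ c, b = a + c := fun a b => H.le_iff a b
  have hoa : IsOrderedCancelAddMonoid M := {
    add_le_add_left := by
      intro a b hab c
      obtain ⟨d, rfl⟩ := (hex a b).1 hab
      exact (hex _ _).2 ⟨d, by ring⟩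
    le_of_add_le_add_left := by
      intro a b c habc
      by_contra hcon
      rw [not_le] at hcon
      have h1 := H.add_lt c b a hcon
      apply h1
      rw [H.add_comm b a, H.add_comm c a]
      exact habc }
  have hso : IsStrictOrderedRing M := {
    hoa with
    zero_le_one := (hex 0 1).2 ⟨1, (zero_add 1).symm⟩
    exists_pair_ne := ⟨0, 1, fun h01 => H.zero_lt_one ((hle 1 0).1 (le_of_eq h01.symm))⟩
    mul_lt_mul_of_pos_left := by
      intro a ha b c hbc
      have h1 := H.mul_lt b c a ha hbc
      rw [H.mul_comm c a, H.mul_comm b a] at h1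
      exact h1
    mul_lt_mul_of_pos_right := by
      intro a ha b c hbc
      exact H.mul_lt b c a ha hbc }
  have hco : CanonicallyOrderedAdd M := {
    exists_add_of_le := by
      intro a b hab
      exact (hex a b).1 hab
    le_add_self := fun a b => (hex _ _).2 ⟨b, add_comm _ _⟩
    le_self_add := fun a b => (hex _ _).2 ⟨b, rfl⟩ }
  letI P : PAm M := {
    toCommSemiring := cs
    toLinearOrder := lo
    toIsStrictOrderedRing := hso
    toCanonicallyOrderedAdd := hco
    discr := by
      intro a b hab
      obtain ⟨c, rfl⟩ := (hex a b).1 hab.le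
      have hc : ¬ al c (az M) := by
        intro hc
        have hc0 : c = 0 := H.le_antisymm c (az M) hc ((hex 0 c).2 ⟨c, (zero_add c).symm⟩)
        rw [hc0, add_zero] at hab
        exact lt_irrefl _ hab
      obtain ⟨d, hd⟩ := (hex 1 c).1 (H.discr c hc)
      rw [hd]
      exact (hex _ _).2 ⟨d, by ring⟩
    div_ex := fun a d hd => h.div_ex a d hd
    sqrt_ex := fun a => by
      obtain ⟨s, h1, h2⟩ := h.sqrt_ex a
      rw [hsucc] at h2
      exact ⟨s, h1, h2⟩ }
  refine ⟨P, ?_⟩
  have hf : ∀ {n : ℕ} (f : LA.Functions n) (v : Fin n → M),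
      @Language.Structure.funMap LA M (@instLAStr M P) n f v =
      @Language.Structure.funMap LA M S n f v := by
    intro n f v
    match n, f, v with
    | _, AFunc.zero, v =>
      have hv : v = ![] := Subsingleton.elim _ _
      rw [hv]
      rfl
    | _, AFunc.succ, v =>
      have hv : v = ![v 0] := by
        funext i
        fin_cases i
        rfl
      rw [hv]
      exact (hsucc (v 0)).symm
    | _, AFunc.add, v =>
      have hv : v = ![v 0, v 1] := by
        funext i
        fin_cases i <;> rfl
      rw [hv]
      rfl
    | _, AFunc.mul, v =>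
      have hv : v = ![v 0, v 1] := by
        funext i
        fin_cases i <;> rfl
      rw [hv]
      rfl
  have hr : ∀ {n : ℕ} (f : LA.Relations n) (v : Fin n → M),
      @Language.Structure.RelMap LA M (@instLAStr M P) n f v =
      @Language.Structure.RelMap LA M S n f v := by
    intro n f v
    match n, f, v with
    | _, ARel.le, v =>
      have hv : v = ![v 0, v 1] := by
        funext i
        fin_cases i <;> rfl
      rw [hv]
      rfl
  apply Language.Structure.ext
  · funext n f v
    exact hf f v
  · funext n f v
    exact hr f v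

end TruthCF
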