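import Pool.Agent.Work.MP_cfede9_lc.Base

set_option autoImplicit false
set_option linter.all false

/-!
# MP_cfede9_lc: constraints, programs, existentially definable sets (definitions)
-/

open FirstOrder

namespace TruthCF

variable {L' : FirstOrder.Language.{0, 0}}

/-- lists of formulas -/
abbrev FL (L' : FirstOrder.Language.{0, 0}) : Type := List (Σ n : ℕ, (LA.sum L').BoundedFormula Empty n)

/-- basic constraints on the registers `w`; `par`: register = parameter, `inp`: register = input;
`tt k i`, `ff k i`: the `k`-th formula of the list is true (false) under the environment in register `i` -/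
inductive Con : Type
  | zero (i : ℕ) : Con
  | one (i : ℕ) : Con
  | add (i j k : ℕ) : Con
  | mul (i j k : ℕ) : Con
  | le (i j : ℕ) : Con
  | lt (i j : ℕ) : Con
  | par (i j : ℕ) : Con
  | inp (i j : ℕ) : Con
  | tt (k i : ℕ) : Con
  | ff (k i : ℕ) : Con
  | triv : Con
  | bad : Con

/-- satisfaction of a constraint; `b` parameters, `u` inputs, `w` registers -/
def Con.holds (F : FL L') {M : Type} [PAm M] [L'.Structure M] (b u w : ℕ → M) : Con → Prop
  | Con.zero i => w i = 0
  | Con.one i => w i = 1
  | Con.add i j k => w i + w j = w k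
  | Con.mul i j k => w i * w j = w k
  | Con.le i j => w i ≤ w j
  | Con.lt i j => w i < w j
  | Con.par i j => w i = b j
  | Con.inp i j => w i = u j
  | Con.tt k i => ∃ θ, F[k]? = some θ ∧ Sv θ.2 (w i)
  | Con.ff k i => ∃ θ, F[k]? = some θ ∧ ¬ Sv θ.2 (w i)
  | Con.triv => True
  | Con.bad => False

/-- a program (list of constraints) accepts -/
def Sat1 (F : FL L') {M : Type} [PAm M] [L'.Structure M] (b u : ℕ → M) (p : List Con) : Prop :=
  ∃ w : ℕ → M, ∀ c ∈ p, c.holds F b u w

/-- one of finitely many programs accepts -/
def Sat (F : FL L') {M : Type} [PAm M] [L'.Structure M] (b u : ℕ → M) (D : List (List Con)) : Prop :=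
  ∃ p ∈ D, Sat1 F b u p

/-- existentially definable relations of the inputs, with parameters -/
def ExD (F : FL L') {M : Type} [PAm M] [L'.Structure M] (R : (ℕ → M) → Prop) : Prop :=
  ∃ (D : List (List Con)) (b : ℕ → M), ∀ u, R u ↔ Sat F b u D

/-- functions with existentially definable graph -/
def EG (F : FL L') {M : Type} [PAm M] [L'.Structure M] (t : (ℕ → M) → M) : Prop :=
  ExD F (fun u => t (fun i => u (i + 1)) = u 0)

/-- the map preserves and reflects the formulas of the list `F` (under coded environments) -/
def PresF (F : FL L') {M N : Type} [PAm M] [L'.Structure M] [PAm N] [L'.Structure N] (f : M → N) : Prop :=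
  ∀ θ ∈ F, ∀ u : M, Sv θ.2 u ↔ Sv θ.2 (f u)

end TruthCF
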