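import Pool.Agent.Work.MP_cfede9_lc.UD

set_option autoImplicit false
set_option linter.all false

/-!
# MP_cfede9_lc, definitions: arithmetical relations on the standard numbers, expressed in models in which the standard
numbers are definable by `J`
-/

open FirstOrder

namespace TruthCF

/-- a candidate for a definition of the standard numbers, with three parameters -/
abbrev Cutf : Type 1 := ∀ (M : Type) [PAm M], M → M → M → M → Prop

/-- the relation `R` on the standard numbers is expressed (uniformly) by `Q` in all models in which `J` defines the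
standard numbers -/
def RD (J : Cutf) (R : (ℕ → ℕ) → Prop) : Prop :=
  ∃ Q : ∀ (M : Type) [PAm M], M → M → M → (ℕ → M) → Prop,
    UD Language.empty (fun M _ _ v => Q M (v 0) (v 1) (v 2) (fun i => v (i + 3))) ∧
    ∀ (M : Type) [PAm M] (p q ν : M), (∀ a : M, J M p q ν a ↔ ∃ n : ℕ, a = (n : M)) →
      ∀ v : ℕ → ℕ, Q M p q ν (fun i => (v i : M)) ↔ R v

/-- graphs of functions -/
def RG (J : Cutf) (t : (ℕ → ℕ) → ℕ) : Prop := RD J (fun v => t (fun i => v (i + 1)) = v 0)

end TruthCF
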