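import Pool.Agent.Work.MP_cfede9_lc.RDd

set_option autoImplicit false
set_option linter.all false

/-!
# MP_cfede9_lc, module RDf: arithmetical relations on the standard numbers, expressed in models in which the standard
numbers are definable by `J`
-/

open FirstOrder

namespace TruthCF

variable {J : Cutf}

/-- put a value in front of a sequence -/
private def rdfCons {A : Type} (a : A) (v : ℕ → A) : ℕ → A
  | 0 => a
  | i + 1 => v i

theorem RD.congr {R S : (ℕ → ℕ) → Prop} (h : RD J R) (hRS : ∀ v, R v ↔ S v) : RD J S := by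
  obtain ⟨Q, hQ, hQ'⟩ := h
  exact ⟨Q, hQ, fun M _ p q ν hM v => (hQ' M p q ν hM v).trans (hRS v)⟩

theorem RD.not {R : (ℕ → ℕ) → Prop} (h : RD J R) : RD J (fun v => ¬ R v) := by
  obtain ⟨Q, hQ, hQ'⟩ := h
  exact ⟨fun M _ p q ν v => ¬ Q M p q ν v, hQ.not,
    fun M _ p q ν hM v => not_congr (hQ' M p q ν hM v)⟩

theorem RD.and {R S : (ℕ → ℕ) → Prop} (h : RD J R) (h' : RD J S) : RD J (fun v => R v ∧ S v) := by
  obtain ⟨Q, hQ, hQ'⟩ := h
  obtain ⟨P, hP, hP'⟩ := h'
  exact ⟨fun M _ p q ν v => Q M p q ν v ∧ P M p q ν v, hQ.and hP,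
    fun M _ p q ν hM v => and_congr (hQ' M p q ν hM v) (hP' M p q ν hM v)⟩

theorem RD.or {R S : (ℕ → ℕ) → Prop} (h : RD J R) (h' : RD J S) : RD J (fun v => R v ∨ S v) := by
  obtain ⟨Q, hQ, hQ'⟩ := h
  obtain ⟨P, hP, hP'⟩ := h'
  exact ⟨fun M _ p q ν v => Q M p q ν v ∨ P M p q ν v, hQ.or hP,
    fun M _ p q ν hM v => or_congr (hQ' M p q ν hM v) (hP' M p q ν hM v)⟩

theorem RD.imp {R S : (ℕ → ℕ) → Prop} (h : RD J R) (h' : RD J S) : RD J (fun v => R v → S v) := by
  obtain ⟨Q, hQ, hQ'⟩ := h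
  obtain ⟨P, hP, hP'⟩ := h'
  exact ⟨fun M _ p q ν v => Q M p q ν v → P M p q ν v, hQ.imp hP,
    fun M _ p q ν hM v => imp_congr (hQ' M p q ν hM v) (hP' M p q ν hM v)⟩

theorem RD.relabel {R : (ℕ → ℕ) → Prop} (h : RD J R) (g : ℕ → ℕ) : RD J (fun v => R (fun i => v (g i))) := by
  obtain ⟨Q, hQ, hQ'⟩ := h
  refine ⟨fun M _ p q ν v => Q M p q ν (fun i => v (g i)), ?_,
    fun M _ p q ν hM v => hQ' M p q ν hM (fun i => v (g i))⟩
  exact (UD.relabel hQ (fun i => match i with | 0 => 0 | 1 => 1 | 2 => 2 | i + 3 => g i + 3)).congr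
    fun M _ _ v => Iff.rfl

/-- quantification over the standard numbers, here `J` is used -/
theorem RD.ex (hJ : UD Language.empty (fun M _ _ v => J M (v 0) (v 1) (v 2) (v 3)))
    {R : ℕ → (ℕ → ℕ) → Prop} (h : RD J (fun v => R (v 0) (fun i => v (i + 1)))) : RD J (fun v => ∃ a, R a v) := by
  obtain ⟨Q, hQ, hQ'⟩ := h
  refine ⟨fun M _ p q ν v => ∃ a, J M p q ν a ∧ Q M p q ν (rdfCons a v), ?_, ?_⟩
  · refine UD.ex (R := fun M _ _ a v => J M (v 0) (v 1) (v 2) a ∧
      Q M (v 0) (v 1) (v 2) (rdfCons a (fun i => v (i + 3)))) (UD.and ?_ ?_)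
    · exact (UD.relabel hJ
        (fun i => match i with | 0 => 1 | 1 => 2 | 2 => 3 | 3 => 0 | i + 4 => i + 4)).congr
        fun M _ _ v => Iff.rfl
    · refine (UD.relabel hQ
        (fun i => match i with | 0 => 1 | 1 => 2 | 2 => 3 | 3 => 0 | i + 4 => i + 4)).congr
        fun M _ _ v => ?_
      have e : (fun i => v (match i + 3 with
          | 0 => 1 | 1 => 2 | 2 => 3 | 3 => 0 | i + 4 => i + 4)) =
          rdfCons (v 0) (fun i => v (i + 4)) := by
        funext i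
        rcases i with _ | i
        · rfl
        · rfl
      show Q M (v 1) (v 2) (v 3) (fun i => v (match i + 3 with
          | 0 => 1 | 1 => 2 | 2 => 3 | 3 => 0 | i + 4 => i + 4)) ↔ _
      rw [e]
  · intro M _ p q ν hM v
    have key : ∀ n : ℕ, Q M p q ν (rdfCons (n : M) (fun i => (v i : M))) ↔ R n v := by
      intro n
      have h1 := hQ' M p q ν hM (rdfCons n v)
      have e : (fun i => ((rdfCons n v i : ℕ) : M)) = rdfCons (n : M) (fun i => (v i : M)) := by
        funext i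
        rcases i with _ | i
        · rfl
        · rfl
      rw [e] at h1
      exact h1
    constructor
    · rintro ⟨a, ha, h2⟩
      obtain ⟨n, rfl⟩ := (hM a).1 ha
      exact ⟨n, (key n).1 h2⟩
    · rintro ⟨n, hn⟩
      exact ⟨(n : M), (hM _).2 ⟨n, rfl⟩, (key n).2 hn⟩

theorem RD.all (hJ : UD Language.empty (fun M _ _ v => J M (v 0) (v 1) (v 2) (v 3)))
    {R : ℕ → (ℕ → ℕ) → Prop} (h : RD J (fun v => R (v 0) (fun i => v (i + 1)))) : RD J (fun v => ∀ a, R a v) := by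
  refine ((RD.ex hJ (R := fun a v => ¬ R a v) h.not).not).congr fun v => ?_
  simp only [not_exists, not_not]

theorem RD.eq_var (i j : ℕ) : RD J (fun v => v i = v j) := by
  refine ⟨fun M _ p q ν v => v i = v j, UD.eq_var (i + 3) (j + 3), fun M _ p q ν hM v => ?_⟩
  exact Nat.cast_inj

theorem RG.var (i : ℕ) : RG J (fun v => v i) := by
  exact RD.eq_var (i + 1) 0

theorem RG.const (n : ℕ) : RG J (fun _ => n) := by
  refine ⟨fun M _ p q ν v => (n : M) = v 0, ?_, fun M _ p q ν hM v => Nat.cast_inj⟩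
  exact (UD.relabel (UG.natCast n) (fun i => i + 3)).congr fun M _ _ v => Iff.rfl

theorem RG.add_var (i j : ℕ) : RG J (fun v => v i + v j) := by
  refine ⟨fun M _ p q ν v => v (i + 1) + v (j + 1) = v 0, ?_, fun M _ p q ν hM v => ?_⟩
  · exact UD.eq (UG.add (UG.var (i + 4)) (UG.var (j + 4))) (UG.var 3)
  · show ((v (i + 1) : M) + (v (j + 1) : M) = (v 0 : M)) ↔ v (i + 1) + v (j + 1) = v 0
    exact_mod_cast Iff.rfl

theorem RG.mul_var (i j : ℕ) : RG J (fun v => v i * v j) := by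
  refine ⟨fun M _ p q ν v => v (i + 1) * v (j + 1) = v 0, ?_, fun M _ p q ν hM v => ?_⟩
  · exact UD.eq (UG.mul (UG.var (i + 4)) (UG.var (j + 4))) (UG.var 3)
  · show ((v (i + 1) : M) * (v (j + 1) : M) = (v 0 : M)) ↔ v (i + 1) * v (j + 1) = v 0
    exact_mod_cast Iff.rfl

end TruthCF
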