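import Pool.Agent.Work.MP_cfede9_lc.RDf

set_option autoImplicit false
set_option linter.all false

/-!
# MP_cfede9_lc, module RDg1: substitution of functions (same pattern as in module UD)
-/

open FirstOrder

namespace TruthCF

variable {J : Cutf}

theorem RG.shift {t : (ℕ → ℕ) → ℕ} (h : RG J t) : RG J (fun v => t (fun i => v (i + 1))) :=
  (RD.relabel h (fun i => match i with | 0 => 0 | i + 1 => i + 2)).congr fun v => Iff.rfl

theorem RD.subst (hJ : UD Language.empty (fun M _ _ v => J M (v 0) (v 1) (v 2) (v 3)))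
    {R : ℕ → (ℕ → ℕ) → Prop} {t : (ℕ → ℕ) → ℕ}
    (hR : RD J (fun v => R (v 0) (fun i => v (i + 1)))) (ht : RG J t) : RD J (fun v => R (t v) v) := by
  refine (RD.ex hJ (R := fun a v => t v = a ∧ R a v) (RD.and ht hR)).congr fun v => ?_
  constructor
  · rintro ⟨a, rfl, h⟩
    exact h
  · intro h
    exact ⟨_, rfl, h⟩

theorem RD.eq (hJ : UD Language.empty (fun M _ _ v => J M (v 0) (v 1) (v 2) (v 3)))
    {s t : (ℕ → ℕ) → ℕ} (hs : RG J s) (ht : RG J t) : RD J (fun v => s v = t v) := by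
  refine RD.subst hJ (R := fun a v => s v = a) ?_ ht
  exact hs

private theorem RG.substAux (hJ : UD Language.empty (fun M _ _ v => J M (v 0) (v 1) (v 2) (v 3)))
    {f : ℕ → (ℕ → ℕ) → ℕ} {t : (ℕ → ℕ) → ℕ}
    (hf : RG J (fun v => f (v 0) (fun i => v (i + 1)))) (ht : RG J t) :
    RG J (fun v => f (t v) v) := by
  refine RD.subst hJ (R := fun a v => f a (fun i => v (i + 1)) = v 0)
    (t := fun v => t (fun i => v (i + 1))) ?_ ht.shift
  exact (RD.relabel hf (fun i => match i with | 0 => 1 | 1 => 0 | i + 2 => i + 2)).congr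
    fun v => Iff.rfl

private theorem RG.compAux (hJ : UD Language.empty (fun M _ _ v => J M (v 0) (v 1) (v 2) (v 3)))
    {f : ℕ → ℕ → ℕ} {s t : (ℕ → ℕ) → ℕ}
    (hf : RG J (fun v => f (v 0) (v 1))) (hs : RG J s) (ht : RG J t) :
    RG J (fun v => f (s v) (t v)) := by
  refine RG.substAux hJ (f := fun a v => f a (t v)) ?_ hs
  refine RG.substAux hJ (f := fun a v => f (v 0) a) ?_ ht.shift
  exact (RD.relabel hf (fun i => match i with | 0 => 0 | 1 => 2 | i + 2 => i + 1)).congr
    fun v => Iff.rfl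

private theorem RG.addAux (hJ : UD Language.empty (fun M _ _ v => J M (v 0) (v 1) (v 2) (v 3)))
    {s t : (ℕ → ℕ) → ℕ} (hs : RG J s) (ht : RG J t) : RG J (fun v => s v + t v) :=
  RG.compAux hJ (f := fun a b => a + b) (RG.add_var 0 1) hs ht

theorem RD.lt (hJ : UD Language.empty (fun M _ _ v => J M (v 0) (v 1) (v 2) (v 3)))
    {s t : (ℕ → ℕ) → ℕ} (hs : RG J s) (ht : RG J t) : RD J (fun v => s v < t v) := by
  refine (RD.ex hJ (R := fun a v => s v + (a + 1) = t v)
    (RD.eq hJ (RG.addAux hJ hs.shift (RG.addAux hJ (RG.var 0) (RG.const 1))) ht.shift)).congr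
    fun v => ?_
  constructor
  · rintro ⟨a, h⟩
    omega
  · intro h
    exact ⟨t v - s v - 1, by omega⟩

theorem RG.add (hJ : UD Language.empty (fun M _ _ v => J M (v 0) (v 1) (v 2) (v 3)))
    {s t : (ℕ → ℕ) → ℕ} (hs : RG J s) (ht : RG J t) : RG J (fun v => s v + t v) :=
  RG.addAux hJ hs ht

theorem RG.mul (hJ : UD Language.empty (fun M _ _ v => J M (v 0) (v 1) (v 2) (v 3)))
    {s t : (ℕ → ℕ) → ℕ} (hs : RG J s) (ht : RG J t) : RG J (fun v => s v * t v) :=
  RG.compAux hJ (f := fun a b => a * b) (RG.mul_var 0 1) hs ht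

end TruthCF
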