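import Pool.Agent.Work.MP_cfede9_lc.RDg1

set_option autoImplicit false
set_option linter.all false

/-!
# MP_cfede9_lc, module RDg2: pairing and beta function on the natural numbers
-/

open FirstOrder

namespace TruthCF

variable {J : Cutf}

theorem RG.mod (hJ : UD Language.empty (fun M _ _ v => J M (v 0) (v 1) (v 2) (v 3)))
    {s t : (ℕ → ℕ) → ℕ} (hs : RG J s) (ht : RG J t) : RG J (fun v => s v % t v) := by
  have h1 : RD J (fun v => ∃ q, s (fun i => v (i + 1)) = q * t (fun i => v (i + 1)) + v 0 ∧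
      v 0 < t (fun i => v (i + 1))) := by
    refine RD.ex hJ (R := fun q v => s (fun i => v (i + 1)) = q * t (fun i => v (i + 1)) + v 0 ∧
      v 0 < t (fun i => v (i + 1))) ?_
    exact RD.and (RD.eq hJ hs.shift.shift (RG.add hJ (RG.mul hJ (RG.var 0) ht.shift.shift)
      (RG.var 1))) (RD.lt hJ (RG.var 1) ht.shift.shift)
  have h2 : RD J (fun v => t (fun i => v (i + 1)) = 0 ∧ s (fun i => v (i + 1)) = v 0) :=
    RD.and (RD.eq hJ ht.shift (RG.const 0)) (RD.eq hJ hs.shift (RG.var 0))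
  refine RD.congr (RD.or h1 h2) fun v => ?_
  beta_reduce
  generalize s (fun i => v (i + 1)) = a
  generalize t (fun i => v (i + 1)) = b
  generalize v 0 = y
  constructor
  · rintro (⟨q, h, h'⟩ | ⟨h, h'⟩)
    · rw [h, mul_comm, Nat.mul_add_mod, Nat.mod_eq_of_lt h']
    · rw [h, Nat.mod_zero, h']
  · intro h
    rcases Nat.eq_zero_or_pos b with hb | hb
    · right
      refine ⟨hb, ?_⟩
      rw [hb, Nat.mod_zero] at h
      exact h
    · left
      refine ⟨a / b, ?_, ?_⟩
      · rw [← h]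
        exact (Nat.div_add_mod' a b).symm
      · rw [← h]
        exact Nat.mod_lt _ hb

theorem RG.pair (hJ : UD Language.empty (fun M _ _ v => J M (v 0) (v 1) (v 2) (v 3)))
    {s t : (ℕ → ℕ) → ℕ} (hs : RG J s) (ht : RG J t) : RG J (fun v => Nat.pair (s v) (t v)) := by
  have h1 : RD J (fun v => s (fun i => v (i + 1)) < t (fun i => v (i + 1)) ∧
      t (fun i => v (i + 1)) * t (fun i => v (i + 1)) + s (fun i => v (i + 1)) = v 0) :=
    RD.and (RD.lt hJ hs.shift ht.shift) (RD.eq hJ (RG.add hJ (RG.mul hJ ht.shift ht.shift)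
      hs.shift) (RG.var 0))
  have h2 : RD J (fun v => ¬ s (fun i => v (i + 1)) < t (fun i => v (i + 1)) ∧
      s (fun i => v (i + 1)) * s (fun i => v (i + 1)) + s (fun i => v (i + 1)) +
        t (fun i => v (i + 1)) = v 0) :=
    RD.and (RD.not (RD.lt hJ hs.shift ht.shift)) (RD.eq hJ (RG.add hJ (RG.add hJ
      (RG.mul hJ hs.shift hs.shift) hs.shift) ht.shift) (RG.var 0))
  refine RD.congr (RD.or h1 h2) fun v => ?_
  beta_reduce
  generalize s (fun i => v (i + 1)) = a
  generalize t (fun i => v (i + 1)) = b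
  generalize v 0 = y
  unfold Nat.pair
  by_cases h : a < b
  · rw [if_pos h]
    constructor
    · rintro (⟨_, h'⟩ | ⟨h', _⟩)
      · exact h'
      · exact absurd h h'
    · intro h'
      exact Or.inl ⟨h, h'⟩
  · rw [if_neg h]
    constructor
    · rintro (⟨h', _⟩ | ⟨_, h'⟩)
      · exact absurd h' h
      · exact h'
    · intro h'
      exact Or.inr ⟨h, h'⟩

theorem RG.unpair₁ (hJ : UD Language.empty (fun M _ _ v => J M (v 0) (v 1) (v 2) (v 3)))
    {s : (ℕ → ℕ) → ℕ} (hs : RG J s) : RG J (fun v => (Nat.unpair (s v)).1) := by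
  have h1 : RD J (fun v => ∃ q, Nat.pair (v 0) q = s (fun i => v (i + 1))) := by
    refine RD.ex hJ (R := fun q v => Nat.pair (v 0) q = s (fun i => v (i + 1))) ?_
    exact RD.eq hJ (RG.pair hJ (RG.var 1) (RG.var 0)) hs.shift.shift
  refine RD.congr h1 fun v => ?_
  beta_reduce
  generalize s (fun i => v (i + 1)) = a
  generalize v 0 = y
  constructor
  · rintro ⟨q, rfl⟩
    rw [Nat.unpair_pair]
  · intro h
    refine ⟨(Nat.unpair a).2, ?_⟩
    rw [← h, Nat.pair_unpair]

theorem RG.unpair₂ (hJ : UD Language.empty (fun M _ _ v => J M (v 0) (v 1) (v 2) (v 3)))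
    {s : (ℕ → ℕ) → ℕ} (hs : RG J s) : RG J (fun v => (Nat.unpair (s v)).2) := by
  have h1 : RD J (fun v => ∃ q, Nat.pair q (v 0) = s (fun i => v (i + 1))) := by
    refine RD.ex hJ (R := fun q v => Nat.pair q (v 0) = s (fun i => v (i + 1))) ?_
    exact RD.eq hJ (RG.pair hJ (RG.var 0) (RG.var 1)) hs.shift.shift
  refine RD.congr h1 fun v => ?_
  beta_reduce
  generalize s (fun i => v (i + 1)) = a
  generalize v 0 = y
  constructor
  · rintro ⟨q, rfl⟩
    rw [Nat.unpair_pair]
  · intro h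
    refine ⟨(Nat.unpair a).1, ?_⟩
    rw [← h, Nat.pair_unpair]

theorem RG.beta (hJ : UD Language.empty (fun M _ _ v => J M (v 0) (v 1) (v 2) (v 3)))
    {s t : (ℕ → ℕ) → ℕ} (hs : RG J s) (ht : RG J t) : RG J (fun v => Nat.beta (s v) (t v)) :=
  RG.mod hJ (RG.unpair₁ hJ hs) (RG.add hJ (RG.mul hJ (RG.add hJ ht (RG.const 1))
    (RG.unpair₂ hJ hs)) (RG.const 1))

end TruthCF
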