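import Pool.Agent.Work.MP_cfede9_lc.RDg2

set_option autoImplicit false
set_option linter.all false

/-!
# MP_cfede9_lc, module RDg3: computable functions are arithmetical

Induction on `Nat.Partrec`; for `prec` use `Nat.beta` (`Nat.beta_unbeta_coe`).
-/

open FirstOrder

namespace TruthCF

variable {J : Cutf}

private theorem rdg3_mem (hJ : UD Language.empty (fun M _ _ v => J M (v 0) (v 1) (v 2) (v 3)))
    {f : ℕ →. ℕ} (hf : RD J (fun v => v 1 ∈ f (v 0))) {s t : (ℕ → ℕ) → ℕ} (hs : RG J s)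
    (ht : RG J t) : RD J (fun v => t v ∈ f (s v)) := by
  refine RD.subst hJ (R := fun a v => t v ∈ f a) ?_ hs
  refine RD.subst hJ (R := fun b v => b ∈ f (v 0)) ?_ (RG.shift ht)
  exact (RD.relabel hf (fun i => match i with | 0 => 1 | 1 => 0 | i + 2 => i + 2)).congr
    fun v => Iff.rfl

private theorem rdg3_seq (n : ℕ) (s : ℕ → ℕ) : ∃ c : ℕ, ∀ i, i ≤ n → Nat.beta c i = s i := by
  refine ⟨Nat.unbeta (List.ofFn fun i : Fin (n + 1) => s i), fun i hi => ?_⟩
  have h := Nat.beta_unbeta_coe (List.ofFn fun i : Fin (n + 1) => s i)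
    ⟨i, by rw [List.length_ofFn]; omega⟩
  exact h.trans (by simp only [Fin.getElem_fin, List.getElem_ofFn])

private theorem rdg3_prec (f g : ℕ →. ℕ) (a : ℕ) : ∀ (n m : ℕ),
    (m ∈ (Nat.rec (f a) (fun y IH => IH.bind fun i => g (Nat.pair a (Nat.pair y i))) n : Part ℕ)) ↔
      ∃ s : ℕ → ℕ, s 0 ∈ f a ∧ (∀ y, y < n → s (y + 1) ∈ g (Nat.pair a (Nat.pair y (s y)))) ∧
        s n = m := by
  intro n
  induction n with
  | zero =>
    intro m
    constructor
    · intro h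
      exact ⟨fun _ => m, h, fun y hy => absurd hy (Nat.not_lt_zero y), rfl⟩
    · rintro ⟨s, h, -, rfl⟩
      exact h
  | succ n ih =>
    intro m
    show (m ∈ (Part.bind (Nat.rec (f a) (fun y IH => IH.bind fun i => g (Nat.pair a (Nat.pair y i))) n)
      fun i => g (Nat.pair a (Nat.pair n i)))) ↔ _
    rw [Part.mem_bind_iff]
    constructor
    · rintro ⟨i, hi, hm⟩
      obtain ⟨s, h0, h1, h2⟩ := (ih i).1 hi
      refine ⟨fun k => if k = n + 1 then m else s k, ?_, ?_, ?_⟩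
      · simpa using h0
      · intro y hy
        by_cases hyn : y = n
        · subst hyn
          simp only [if_true]
          rw [if_neg (by omega), h2]
          exact hm
        · have h3 : y < n := by omega
          have h4 := h1 y h3
          simp only
          rw [if_neg (by omega), if_neg (by omega)]
          exact h4
      · simp
    · rintro ⟨s, h0, h1, rfl⟩
      refine ⟨s n, (ih _).2 ⟨s, h0, fun y hy => h1 y (by omega), rfl⟩, h1 n (by omega)⟩

/-- graphs of computable functions are arithmetical -/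
theorem RD.partrec (hJ : UD Language.empty (fun M _ _ v => J M (v 0) (v 1) (v 2) (v 3)))
    {f : ℕ →. ℕ} (hf : Nat.Partrec f) : RD J (fun v => v 1 ∈ f (v 0)) := by
  induction hf with
  | zero =>
    refine (RD.eq hJ (RG.var 1) (RG.const 0)).congr fun v => ?_
    show v 1 = 0 ↔ v 1 ∈ (Part.some 0 : Part ℕ)
    rw [Part.mem_some_iff]
  | succ =>
    refine (RD.eq hJ (RG.var 1) (RG.add hJ (RG.var 0) (RG.const 1))).congr fun v => ?_
    show v 1 = v 0 + 1 ↔ v 1 ∈ (Part.some (Nat.succ (v 0)) : Part ℕ)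
    rw [Part.mem_some_iff]
  | left =>
    refine (RD.eq hJ (RG.var 1) (RG.unpair₁ hJ (RG.var 0))).congr fun v => ?_
    show v 1 = _ ↔ v 1 ∈ (Part.some (Nat.unpair (v 0)).1 : Part ℕ)
    rw [Part.mem_some_iff]
  | right =>
    refine (RD.eq hJ (RG.var 1) (RG.unpair₂ hJ (RG.var 0))).congr fun v => ?_
    show v 1 = _ ↔ v 1 ∈ (Part.some (Nat.unpair (v 0)).2 : Part ℕ)
    rw [Part.mem_some_iff]
  | @pair f g _ _ ihf ihg =>
    have h : RD J (fun v => ∃ a b, a ∈ f (v 0) ∧ b ∈ g (v 0) ∧ Nat.pair a b = v 1) := by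
      refine RD.ex hJ (R := fun a v => ∃ b, a ∈ f (v 0) ∧ b ∈ g (v 0) ∧ Nat.pair a b = v 1) ?_
      refine RD.ex hJ (R := fun b v => v 0 ∈ f (v 1) ∧ b ∈ g (v 1) ∧ Nat.pair (v 0) b = v 2) ?_
      refine (rdg3_mem hJ ihf (RG.var 2) (RG.var 1)).and
        ((rdg3_mem hJ ihg (RG.var 2) (RG.var 0)).and ?_)
      exact RD.eq hJ (RG.pair hJ (RG.var 1) (RG.var 0)) (RG.var 3)
    refine h.congr fun v => ?_
    simp [Seq.seq]
  | @comp f g _ _ ihf ihg =>
    have h : RD J (fun v => ∃ a, a ∈ g (v 0) ∧ v 1 ∈ f a) := by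
      refine RD.ex hJ (R := fun a v => a ∈ g (v 0) ∧ v 1 ∈ f a) ?_
      exact (rdg3_mem hJ ihg (RG.var 1) (RG.var 0)).and (rdg3_mem hJ ihf (RG.var 0) (RG.var 2))
    refine h.congr fun v => ?_
    have e : v 1 ∈ Part.bind (g (v 0)) f ↔ ∃ a ∈ g (v 0), v 1 ∈ f a := Part.mem_bind_iff
    exact e.symm
  | @prec f g _ _ ihf ihg =>
    have h : RD J (fun v => ∃ c, Nat.beta c 0 ∈ f (Nat.unpair (v 0)).1 ∧
        (∀ y, y < (Nat.unpair (v 0)).2 → Nat.beta c (y + 1) ∈
          g (Nat.pair (Nat.unpair (v 0)).1 (Nat.pair y (Nat.beta c y)))) ∧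
        Nat.beta c (Nat.unpair (v 0)).2 = v 1) := by
      refine RD.ex hJ (R := fun c v => Nat.beta c 0 ∈ f (Nat.unpair (v 0)).1 ∧
        (∀ y, y < (Nat.unpair (v 0)).2 → Nat.beta c (y + 1) ∈
          g (Nat.pair (Nat.unpair (v 0)).1 (Nat.pair y (Nat.beta c y)))) ∧
        Nat.beta c (Nat.unpair (v 0)).2 = v 1) ?_
      refine RD.and ?_ (RD.and ?_ ?_)
      · exact rdg3_mem hJ ihf (RG.unpair₁ hJ (RG.var 1)) (RG.beta hJ (RG.var 0) (RG.const 0))
      · refine RD.all hJ (R := fun y v => y < (Nat.unpair (v 1)).2 → Nat.beta (v 0) (y + 1) ∈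
          g (Nat.pair (Nat.unpair (v 1)).1 (Nat.pair y (Nat.beta (v 0) y)))) ?_
        refine RD.imp (RD.lt hJ (RG.var 0) (RG.unpair₂ hJ (RG.var 2))) ?_
        refine rdg3_mem hJ ihg ?_ (RG.beta hJ (RG.var 1) (RG.add hJ (RG.var 0) (RG.const 1)))
        exact RG.pair hJ (RG.unpair₁ hJ (RG.var 2)) (RG.pair hJ (RG.var 0)
          (RG.beta hJ (RG.var 1) (RG.var 0)))
      · exact RD.eq hJ (RG.beta hJ (RG.var 0) (RG.unpair₂ hJ (RG.var 1))) (RG.var 2)
    refine h.congr fun v => ?_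
    show _ ↔ v 1 ∈ (Nat.rec (f (Nat.unpair (v 0)).1) (fun y IH => IH.bind fun i =>
      g (Nat.pair (Nat.unpair (v 0)).1 (Nat.pair y i))) (Nat.unpair (v 0)).2 : Part ℕ)
    rw [rdg3_prec]
    constructor
    · rintro ⟨c, h0, h1, h2⟩
      exact ⟨fun i => Nat.beta c i, h0, h1, h2⟩
    · rintro ⟨s, h0, h1, h2⟩
      obtain ⟨c, hc⟩ := rdg3_seq (Nat.unpair (v 0)).2 s
      refine ⟨c, ?_, ?_, ?_⟩
      · rw [hc 0 (Nat.zero_le _)]
        exact h0
      · intro y hy
        rw [hc (y + 1) hy, hc y hy.le]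
        exact h1 y hy
      · rw [hc _ le_rfl]
        exact h2
  | @rfind f _ ihf =>
    have h : RD J (fun v => 0 ∈ f (Nat.pair (v 0) (v 1)) ∧
        ∀ m, m < v 1 → ∃ k, k ∈ f (Nat.pair (v 0) m) ∧ ¬ k = 0) := by
      refine RD.and ?_ ?_
      · exact rdg3_mem hJ ihf (RG.pair hJ (RG.var 0) (RG.var 1)) (RG.const 0)
      · refine RD.all hJ (R := fun m v => m < v 1 → ∃ k, k ∈ f (Nat.pair (v 0) m) ∧ ¬ k = 0) ?_
        refine RD.imp (RD.lt hJ (RG.var 0) (RG.var 2)) ?_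
        refine RD.ex hJ (R := fun k v => k ∈ f (Nat.pair (v 1) (v 0)) ∧ ¬ k = 0) ?_
        exact (rdg3_mem hJ ihf (RG.pair hJ (RG.var 2) (RG.var 1)) (RG.var 0)).and
          (RD.eq hJ (RG.var 0) (RG.const 0)).not
    refine h.congr fun v => ?_
    have e : v 1 ∈ (fun a => Nat.rfind fun n => (fun m => decide (m = 0)) <$> f (Nat.pair a n))
        (v 0) ↔ _ := Nat.mem_rfind
    refine Iff.trans ?_ e.symm
    simp

end TruthCF
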