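import Pool.Agent.Work.MP_cfede9_lc.ReAD

set_option autoImplicit false
set_option linter.all false

/-!
# MP_cfede9_lc, module ReA1: unsatisfiability of computable families of constraints on tables `ℕ → Bool` is c.e.

Koenig: if for every `m` there is a list of `m` bits satisfying all constraints with `x < m` whose three places
are `< m`, then there is a table (limit along an ultrafilter `Filter.hyperfilter ℕ`, or
`nonempty_of_...` compactness of `ℕ → Bool`). So `¬ ∃ t` is equivalent to `∃ m, ∀ s < 2 ^ m, ∃ x < m, ...`,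
bits of `s`: `s / 2 ^ i % 2`.
-/

namespace TruthCF

theorem fams_compact (l : List Fam) (n : ℕ) :
    (∃ t : ℕ → Bool, ∀ f ∈ l, f.ok n t) ↔
      ∀ m : ℕ, ∃ s < 2 ^ m, ∀ f ∈ l, ∀ x < m, (∀ i, f.q n x i < m) →
        f.b (fun i => decide (s / 2 ^ (f.q n x i) % 2 = 1)) = true := by
  classical
  constructor
  · rintro ⟨t, ht⟩ m
    refine ⟨Nat.ofBits (fun i : Fin m => t i), Nat.ofBits_lt_two_pow _, ?_⟩
    intro f hf x _ hq
    have h1 : (fun i => decide (Nat.ofBits (fun i : Fin m => t i) / 2 ^ (f.q n x i) % 2 = 1)) =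
        fun i => t (f.q n x i) := by
      funext i
      rw [← Nat.testBit_eq_decide_div_mod_eq, Nat.testBit_ofBits_lt _ _ (hq i)]
    rw [h1]
    exact ht f hf x
  · intro h
    choose s _ hs using h
    let U : Ultrafilter ℕ := Filter.hyperfilter ℕ
    let t : ℕ → Bool := fun i => decide (∀ᶠ m in (U : Filter ℕ), s m / 2 ^ i % 2 = 1)
    have ht : ∀ i, ∀ᶠ m in (U : Filter ℕ), decide (s m / 2 ^ i % 2 = 1) = t i := by
      intro i
      by_cases h1 : ∀ᶠ m in (U : Filter ℕ), s m / 2 ^ i % 2 = 1
      · have h2 : t i = true := by simp only [t, decide_eq_true_eq]; exact h1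
        filter_upwards [h1] with m hm
        rw [h2, decide_eq_true_eq]
        exact hm
      · have h2 : t i = false := by simp only [t, decide_eq_false_iff_not]; exact h1
        rw [← Ultrafilter.eventually_not] at h1
        filter_upwards [h1] with m hm
        rw [h2, decide_eq_false_iff_not]
        exact hm
    have hcof : ∀ k : ℕ, ∀ᶠ m in (U : Filter ℕ), k < m := by
      intro k
      have h1 : ∀ᶠ m in (Filter.cofinite : Filter ℕ), k < m := by
        rw [Nat.cofinite_eq_atTop]
        exact Filter.eventually_gt_atTop k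
      exact Filter.hyperfilter_le_cofinite h1
    refine ⟨t, fun f hf x => ?_⟩
    have h1 : ∀ᶠ m in (U : Filter ℕ), ∀ i : Fin 3, f.q n x i < m ∧
        decide (s m / 2 ^ (f.q n x i) % 2 = 1) = t (f.q n x i) := by
      rw [Filter.eventually_all]
      intro i
      exact (hcof _).and (ht _)
    obtain ⟨m, hm1, hm2⟩ := (h1.and (hcof x)).exists
    have h2 := hs m f hf x hm2 (fun i => (hm1 i).1)
    have h3 : (fun i => decide (s m / 2 ^ (f.q n x i) % 2 = 1)) = fun i => t (f.q n x i) :=
      funext fun i => (hm1 i).2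
    rw [h3] at h2
    exact h2

end TruthCF
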