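import Pool.Agent.Work.MP_cfede9_lc.ReA1

set_option autoImplicit false
set_option linter.all false

/-!
# MP_cfede9_lc, module ReA2: unsatisfiability of computable families of constraints on tables `ℕ → Bool` is c.e.

Koenig: if for every `m` there is a list of `m` bits satisfying all constraints with `x < m` whose three places
are `< m`, then there is a table (limit along an ultrafilter `Filter.hyperfilter ℕ`, or
`nonempty_of_...` compactness of `ℕ → Bool`). So `¬ ∃ t` is equivalent to `∃ m, ∀ s < 2 ^ m, ∃ x < m, ...`,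
bits of `s`: `s / 2 ^ i % 2`.
-/

namespace TruthCF

private def Qc (f : Fam) (x : ℕ) (p : (ℕ × ℕ) × ℕ) : Prop :=
  (∀ i, f.q p.1.1 x i < p.1.2) →
    f.b (fun i => decide (p.2 / 2 ^ (f.q p.1.1 x i) % 2 = 1)) = true

private theorem pow2 : Primrec (fun k : ℕ => 2 ^ k) := by
  have h : Primrec (fun k : ℕ => (Nat.rec 1 (fun _ a => 2 * a) k : ℕ)) :=
    Primrec.nat_rec₁ (f := fun _ a => 2 * a) 1
      (Primrec.nat_mul.comp (Primrec.const 2) Primrec.snd)
  refine h.of_eq ?_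
  intro k
  induction k with
  | zero => rfl
  | succ k ih =>
    rw [pow_succ, ← ih]
    exact Nat.mul_comm _ _

private theorem hQc (f : Fam) : PrimrecRel (Qc f) := by
  have hq : ∀ i, Primrec (fun z : ℕ × ((ℕ × ℕ) × ℕ) => f.q z.2.1.1 z.1 i) := fun i =>
    (f.hq i).comp (Primrec.fst.comp (Primrec.fst.comp Primrec.snd)) Primrec.fst
  have hm : Primrec (fun z : ℕ × ((ℕ × ℕ) × ℕ) => z.2.1.2) :=
    Primrec.snd.comp (Primrec.fst.comp Primrec.snd)
  have hs : Primrec (fun z : ℕ × ((ℕ × ℕ) × ℕ) => z.2.2) := Primrec.snd.comp Primrec.snd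
  have hlt : ∀ i, PrimrecPred (fun z : ℕ × ((ℕ × ℕ) × ℕ) => f.q z.2.1.1 z.1 i < z.2.1.2) :=
    fun i => Primrec.nat_lt.comp (hq i) hm
  have hbit : ∀ i, Primrec (fun z : ℕ × ((ℕ × ℕ) × ℕ) =>
      decide (z.2.2 / 2 ^ (f.q z.2.1.1 z.1 i) % 2 = 1)) := fun i =>
    (Primrec.eq.comp (Primrec.nat_mod.comp (Primrec.nat_div.comp hs (pow2.comp (hq i)))
      (Primrec.const 2)) (Primrec.const 1)).decide
  have hb : Primrec (fun t : Bool × Bool × Bool => f.b ![t.1, t.2.1, t.2.2]) :=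
    Primrec.dom_finite _
  have hB : Primrec (fun z : ℕ × ((ℕ × ℕ) × ℕ) =>
      f.b (fun i => decide (z.2.2 / 2 ^ (f.q z.2.1.1 z.1 i) % 2 = 1))) := by
    refine (hb.comp ((hbit 0).pair ((hbit 1).pair (hbit 2)))).of_eq ?_
    intro z
    refine congrArg f.b (funext fun i => ?_)
    fin_cases i <;> rfl
  have h1 : PrimrecPred (fun z : ℕ × ((ℕ × ℕ) × ℕ) =>
      f.b (fun i => decide (z.2.2 / 2 ^ (f.q z.2.1.1 z.1 i) % 2 = 1)) = true) :=
    Primrec.eq.comp hB (Primrec.const true)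
  have h2 := ((((hlt 0).and ((hlt 1).and (hlt 2))).not).or h1)
  refine PrimrecPred.of_eq h2 ?_
  rintro ⟨x, p⟩
  have h3 : (∀ i, f.q p.1.1 x i < p.1.2) ↔
      (f.q p.1.1 x 0 < p.1.2 ∧ f.q p.1.1 x 1 < p.1.2 ∧ f.q p.1.1 x 2 < p.1.2) := by
    constructor
    · intro h
      exact ⟨h 0, h 1, h 2⟩
    · rintro ⟨a, b, c⟩ i
      fin_cases i
      · exact a
      · exact b
      · exact c
  show _ ↔ ((∀ i, f.q p.1.1 x i < p.1.2) →
    f.b (fun i => decide (p.2 / 2 ^ (f.q p.1.1 x i) % 2 = 1)) = true)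
  rw [h3]
  exact imp_iff_not_or.symm

private theorem hall (f : Fam) :
    PrimrecPred (fun p : (ℕ × ℕ) × ℕ => ∀ x < p.1.2, Qc f x p) := by
  have h := (hQc f).forall_mem_list.comp
    (Primrec.list_range.comp (Primrec.snd.comp Primrec.fst)) (Primrec.id (α := (ℕ × ℕ) × ℕ))
  refine h.of_eq ?_
  intro p
  simp

private theorem hlist (l : List Fam) :
    PrimrecPred (fun p : (ℕ × ℕ) × ℕ => ∀ f ∈ l, ∀ x < p.1.2, Qc f x p) := by
  induction l with
  | nil =>
    refine PrimrecPred.of_eq (Primrec.eq.comp (Primrec.const 0) (Primrec.const (0 : ℕ))) ?_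
    intro p
    simp
  | cons f l ih =>
    refine ((hall f).and ih).of_eq ?_
    intro p
    simp

private theorem hex (l : List Fam) :
    PrimrecPred (fun p : ℕ × ℕ => ∃ s < 2 ^ p.2, ∀ f ∈ l, ∀ x < p.2, Qc f x (p, s)) := by
  have h0 : PrimrecRel (fun (s : ℕ) (p : ℕ × ℕ) => ∀ f ∈ l, ∀ x < p.2, Qc f x (p, s)) :=
    (hlist l).comp (Primrec.snd.pair Primrec.fst)
  have h := h0.exists_mem_list.comp
    (Primrec.list_range.comp (pow2.comp Primrec.snd)) (Primrec.id (α := ℕ × ℕ))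
  refine h.of_eq ?_
  intro p
  simp

theorem re_fams (l : List Fam) : REPred (fun n => ¬ ∃ t : ℕ → Bool, ∀ f ∈ l, f.ok n t) := by
  classical
  have h1 : ComputablePred (fun p : ℕ × ℕ =>
      ¬ ∃ s < 2 ^ p.2, ∀ f ∈ l, ∀ x < p.2, Qc f x (p, s)) := (hex l).not.computablePred
  have h2 : Partrec (fun n : ℕ => Nat.rfind fun m =>
      Part.some (decide (¬ ∃ s < 2 ^ m, ∀ f ∈ l, ∀ x < m, Qc f x ((n, m), s)))) := by
    have h3 : Computable (fun p : ℕ × ℕ =>
      decide (¬ ∃ s < 2 ^ p.2, ∀ f ∈ l, ∀ x < p.2, Qc f x (p, s))) := h1.decide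
    exact Partrec.rfind h3.partrec
  refine h2.dom_re.of_eq ?_
  intro n
  rw [fams_compact]
  refine Iff.trans (Nat.rfind_dom (p := fun m =>
    Part.some (decide (¬ ∃ s < 2 ^ m, ∀ f ∈ l, ∀ x < m, Qc f x ((n, m), s))))) ?_
  constructor
  · rintro ⟨m, hm, -⟩ hc
    rw [Part.mem_some_iff] at hm
    have hm' := of_decide_eq_true hm.symm
    exact hm' (hc m)
  · intro hc
    push Not at hc
    obtain ⟨m, hm⟩ := hc
    refine ⟨m, ?_, fun _ => trivial⟩
    rw [Part.mem_some_iff]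
    symm
    apply decide_eq_true
    rintro ⟨s, hs, h⟩
    obtain ⟨f, hf, x, hx, hq, hb⟩ := hm s hs
    exact hb (h f hf x hx hq)

end TruthCF
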