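import Mathlib

set_option autoImplicit false
set_option linter.all false

/-!
# MP_cfede9_lc: computable families of constraints on tables (definitions)
-/

namespace TruthCF

/-- a computable family of constraints, each concerning three places of the table -/
structure Fam where
  q : ℕ → ℕ → Fin 3 → ℕ
  b : (Fin 3 → Bool) → Bool
  hq : ∀ i, Primrec₂ (fun n x => q n x i)

/-- the table `t` satisfies all constraints of the family with index `n` -/
def Fam.ok (f : Fam) (n : ℕ) (t : ℕ → Bool) : Prop := ∀ x, f.b (fun i => t (f.q n x i)) = true

end TruthCF
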