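import Pool.Agent.Work.MP_cfede9_lc.ReBD

set_option autoImplicit false
set_option linter.all false

/-!
# MP_cfede9_lc, module ReB1: numberings, tuples
-/

open FirstOrder

namespace TruthCF

theorem exists_idx (L : FirstOrder.Language.{0, 0}) [Finite (Σ n : ℕ, L.Functions n)]
    [Finite (Σ n : ℕ, L.Relations n)] : Nonempty (Idx L) := by
  have h3 : Countable (Σ n : ℕ, L.BoundedFormula Empty n) := by
    rw [← Cardinal.mk_le_aleph0_iff]
    refine Language.BoundedFormula.card_le.trans ?_
    have h1 : Countable L.Symbols :=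
      inferInstanceAs (Countable ((Σ l, L.Functions l) ⊕ (Σ l, L.Relations l)))
    have h2 : L.card ≤ Cardinal.aleph0 := Cardinal.mk_le_aleph0
    refine max_le le_rfl (Cardinal.add_le_aleph0.2 ⟨?_, ?_⟩)
    · simp
    · simpa using h2
  obtain ⟨fi, hf⟩ := Countable.exists_injective_nat (Σ n : ℕ, L.Functions n)
  obtain ⟨ri, hr⟩ := Countable.exists_injective_nat (Σ n : ℕ, L.Relations n)
  obtain ⟨qi, hq⟩ := Countable.exists_injective_nat (Σ n : ℕ, L.BoundedFormula Empty n)
  exact ⟨⟨fi, ri, qi, hf, hr, hq⟩⟩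

theorem untup_tup (n : ℕ) (v : Fin n → ℕ) : untup n (tup n v) = v := by
  induction n with
  | zero => exact Subsingleton.elim _ _
  | succ n ih =>
    funext i
    show Fin.snoc (α := fun _ => ℕ) (untup n (Nat.unpair (Nat.pair (v (Fin.last n))
      (tup n (fun i => v i.castSucc)))).2) (Nat.unpair (Nat.pair (v (Fin.last n))
      (tup n (fun i => v i.castSucc)))).1 i = v i
    rw [Nat.unpair_pair]
    refine Fin.lastCases ?_ (fun j => ?_) i
    · rw [Fin.snoc_last]
    · rw [Fin.snoc_castSucc]
      exact congrFun (ih (fun i => v i.castSucc)) j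

theorem untup_le (n : ℕ) (a : ℕ) (i : Fin n) : untup n a i ≤ a := by
  induction n generalizing a with
  | zero => exact i.elim0
  | succ n ih =>
    show Fin.snoc (α := fun _ => ℕ) (untup n (Nat.unpair a).2) (Nat.unpair a).1 i ≤ a
    refine Fin.lastCases ?_ (fun j => ?_) i
    · rw [Fin.snoc_last]
      exact Nat.unpair_left_le a
    · rw [Fin.snoc_castSucc]
      exact (ih _ j).trans (Nat.unpair_right_le a)

end TruthCF
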