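import Pool.Agent.Work.MP_cfede9_lc.ReB1

set_option autoImplicit false
set_option linter.all false

/-!
# MP_cfede9_lc, module ReB2: interpretation of names
-/

open FirstOrder

namespace TruthCF

variable {L : FirstOrder.Language.{0, 0}}

private theorem fnm_inj (I : Idx L) {p q : (Σ n : ℕ, L.Functions n) × ℕ}
    (h : fnm I p.1.2 p.2 = fnm I q.1.2 q.2) : p = q := by
  obtain ⟨⟨n, f⟩, a⟩ := p
  obtain ⟨⟨m, g⟩, b⟩ := q
  unfold fnm at h
  have h1 := Nat.pair_eq_pair.mp (Nat.succ_injective h)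
  have h2 : (⟨n, f⟩ : Σ n : ℕ, L.Functions n) = ⟨m, g⟩ := I.hf (by
    have := h1.1
    simp only at this
    omega)
  rw [h2]
  exact Prod.ext rfl h1.2

private theorem wnm_inj (I : Idx L) {p q : (Σ n : ℕ, L.BoundedFormula Empty (n + 1)) × ℕ}
    (h : wnm I p.1.2 p.2 = wnm I q.1.2 q.2) : p = q := by
  obtain ⟨⟨n, f⟩, a⟩ := p
  obtain ⟨⟨m, g⟩, b⟩ := q
  unfold wnm at h
  have h1 := Nat.pair_eq_pair.mp (Nat.succ_injective h)
  have h2 : (⟨n + 1, f⟩ : Σ n : ℕ, L.BoundedFormula Empty n) = ⟨m + 1, g⟩ := I.hq (by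
    have := h1.1
    simp only at this
    omega)
  have h3 : n = m := by
    have := congrArg Sigma.fst h2
    simp only at this
    omega
  subst h3
  have h4 : f = g := by
    simpa using h2
  subst h4
  exact Prod.ext rfl h1.2

private theorem fnm_ne_wnm (I : Idx L) {n m : ℕ} (f : L.Functions n) (a : ℕ)
    (θ : L.BoundedFormula Empty (m + 1)) (e : ℕ) : fnm I f a ≠ wnm I θ e := by
  intro h
  unfold fnm wnm at h
  have h1 := (Nat.pair_eq_pair.mp (Nat.succ_injective h)).1
  omega

private noncomputable def evF (I : Idx L) {M : Type} [L.Structure M] (g : ℕ → M)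
    (p : (Σ n : ℕ, L.Functions n) × ℕ) : M :=
  Language.Structure.funMap p.1.2 (fun i => g (untup p.1.1 p.2 i))

open Classical in
private noncomputable def evW (I : Idx L) {M : Type} [L.Structure M] [Nonempty M] (g : ℕ → M)
    (p : (Σ n : ℕ, L.BoundedFormula Empty (n + 1)) × ℕ) : M :=
  if h : ∃ y, ¬ p.1.2.Realize (default : Empty → M) (Fin.snoc (fun i => g (untup p.1.1 p.2 i)) y)
  then h.choose else Classical.arbitrary M

open Classical in
private noncomputable def evS (I : Idx L) {M : Type} [L.Structure M] [Nonempty M] (k : ℕ)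
    (g : ℕ → M) : M :=
  if h : ∃ p : (Σ n : ℕ, L.Functions n) × ℕ, k = fnm I p.1.2 p.2 then evF I g h.choose
  else if h : ∃ p : (Σ n : ℕ, L.BoundedFormula Empty (n + 1)) × ℕ, k = wnm I p.1.2 p.2 then
    evW I g h.choose else Classical.arbitrary M

private theorem evS_f (I : Idx L) {M : Type} [L.Structure M] [Nonempty M] {n : ℕ}
    (f : L.Functions n) (a : ℕ) (g : ℕ → M) :
    evS I (fnm I f a) g = Language.Structure.funMap f (fun i => g (untup n a i)) := by
  have h : ∃ p : (Σ n : ℕ, L.Functions n) × ℕ, fnm I f a = fnm I p.1.2 p.2 := ⟨(⟨n, f⟩, a), rfl⟩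
  unfold evS
  rw [dif_pos h]
  have h1 : h.choose = (⟨n, f⟩, a) := (fnm_inj I (p := (⟨n, f⟩, a)) h.choose_spec).symm
  rw [h1]
  rfl

private theorem evS_w (I : Idx L) {M : Type} [L.Structure M] [Nonempty M] {n : ℕ}
    (θ : L.BoundedFormula Empty (n + 1)) (e : ℕ) (g : ℕ → M)
    (hr : θ.Realize (default : Empty → M) (Fin.snoc (fun i => g (untup n e i))
      (evS I (wnm I θ e) g))) (y : M) :
    θ.Realize (default : Empty → M) (Fin.snoc (fun i => g (untup n e i)) y) := by
  have h0 : ¬ ∃ p : (Σ n : ℕ, L.Functions n) × ℕ, wnm I θ e = fnm I p.1.2 p.2 := by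
    rintro ⟨p, hp⟩
    exact fnm_ne_wnm I _ _ _ _ hp.symm
  have h : ∃ p : (Σ n : ℕ, L.BoundedFormula Empty (n + 1)) × ℕ, wnm I θ e = wnm I p.1.2 p.2 :=
    ⟨(⟨n, θ⟩, e), rfl⟩
  unfold evS at hr
  rw [dif_neg h0, dif_pos h] at hr
  have h1 : h.choose = (⟨n, θ⟩, e) := (wnm_inj I (p := (⟨n, θ⟩, e)) h.choose_spec).symm
  rw [h1] at hr
  unfold evW at hr
  by_contra hy
  have h2 : ∃ y, ¬ θ.Realize (default : Empty → M) (Fin.snoc (fun i => g (untup n e i)) y) :=
    ⟨y, hy⟩
  rw [dif_pos h2] at hr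
  exact h2.choose_spec hr

/-- names are interpreted in every structure (strong recursion on the name) -/
theorem exists_ev (I : Idx L) (M : Type) [L.Structure M] [Nonempty M] :
    ∃ ev : ℕ → M, (∀ (n : ℕ) (f : L.Functions n) (a : ℕ),
        ev (fnm I f a) = Language.Structure.funMap f (fun i => ev (untup n a i))) ∧
      ∀ (n : ℕ) (θ : L.BoundedFormula Empty (n + 1)) (e : ℕ),
        θ.Realize (default : Empty → M) (Fin.snoc (fun i => ev (untup n e i)) (ev (wnm I θ e))) →
        ∀ y, θ.Realize (default : Empty → M) (Fin.snoc (fun i => ev (untup n e i)) y) := by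
  classical
  obtain ⟨ev, hev⟩ : ∃ ev : ℕ → M, ∀ k, ev k = evS I k (fun j => if h : j < k then ev j else
      Classical.arbitrary M) :=
    ⟨(Nat.lt_wfRel.wf.fix (fun k ih => evS I k (fun j => if h : j < k then ih j h else
      Classical.arbitrary M)) : ℕ → M), fun k => WellFounded.fix_eq _ _ k⟩
  refine ⟨ev, ?_, ?_⟩
  · intro n f a
    rw [hev, evS_f]
    congr 1
    funext i
    have h1 : untup n a i < fnm I f a :=
      Nat.lt_succ_of_le ((untup_le n a i).trans (Nat.right_le_pair _ _))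
    rw [dif_pos h1]
  · intro n θ e hr y
    have e1 : (fun i => ev (untup n e i)) = fun i : Fin n =>
        (fun j => if h : j < wnm I θ e then ev j else Classical.arbitrary M) (untup n e i) := by
      funext i
      have h1 : untup n e i < wnm I θ e :=
        Nat.lt_succ_of_le ((untup_le n e i).trans (Nat.right_le_pair _ _))
      show _ = if h : untup n e i < wnm I θ e then _ else _
      rw [dif_pos h1]
    rw [hev (wnm I θ e), e1] at hr
    rw [e1]
    exact evS_w I θ e _ hr y

end TruthCF
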