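import Pool.Agent.Work.MP_cfede9_lc.ReAD

set_option autoImplicit false
set_option linter.all false

/-!
# MP_cfede9_lc, definitions: tables of truth values for a finite language
-/

open FirstOrder

namespace TruthCF

/-- injective numberings of the symbols and formulas -/
structure Idx (L : FirstOrder.Language.{0, 0}) where
  fi : (Σ n : ℕ, L.Functions n) → ℕ
  ri : (Σ n : ℕ, L.Relations n) → ℕ
  qi : (Σ n : ℕ, L.BoundedFormula Empty n) → ℕ
  hf : Function.Injective fi
  hr : Function.Injective ri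
  hq : Function.Injective qi

/-- codes of tuples -/
def tup : (n : ℕ) → (Fin n → ℕ) → ℕ
  | 0, _ => 0
  | n + 1, v => Nat.pair (v (Fin.last n)) (tup n (fun i => v i.castSucc))

/-- decoding of tuples -/
def untup : (n : ℕ) → ℕ → Fin n → ℕ
  | 0, _ => Fin.elim0
  | n + 1, a => Fin.snoc (α := fun _ => ℕ) (untup n (Nat.unpair a).2) (Nat.unpair a).1

variable {L : FirstOrder.Language.{0, 0}}

/-- the name of the value of a function -/
def fnm (I : Idx L) {n : ℕ} (f : L.Functions n) (a : ℕ) : ℕ := Nat.pair (2 * I.fi ⟨n, f⟩) a + 1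

/-- the name of a counterexample to `θ` (in the last variable) -/
def wnm (I : Idx L) {n : ℕ} (θ : L.BoundedFormula Empty (n + 1)) (e : ℕ) : ℕ :=
  Nat.pair (2 * I.qi ⟨n + 1, θ⟩ + 1) e + 1

/-- the name of the value of a term -/
def tnm (I : Idx L) {n : ℕ} (e : ℕ) : L.Term (Empty ⊕ Fin n) → ℕ
  | .var (Sum.inl x) => x.elim
  | .var (Sum.inr i) => untup n e i
  | .func f ts => fnm I f (tup _ (fun i => tnm I e (ts i)))

/-- names of numerals -/
def nnm (I : Idx L) (z : L.Functions 0) (s : L.Functions 1) : ℕ → ℕ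
  | 0 => fnm I z 0
  | k + 1 => fnm I s (tup 1 (fun _ => nnm I z s k))

/-- places of the table -/
def eqb (a b : ℕ) : ℕ := Nat.pair 0 (Nat.pair a b)

@[inherit_doc eqb] def rlb (I : Idx L) {n : ℕ} (r : L.Relations n) (a : ℕ) : ℕ := Nat.pair (2 * I.ri ⟨n, r⟩ + 1) a

@[inherit_doc eqb] def fmb (I : Idx L) {n : ℕ} (θ : L.BoundedFormula Empty n) (e : ℕ) : ℕ :=
  Nat.pair (2 * I.qi ⟨n, θ⟩ + 2) e

/-- the clauses for a formula and its subformulas -/
def Cls (I : Idx L) (t : ℕ → Bool) : {n : ℕ} → L.BoundedFormula Empty n → Prop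
  | n, .falsum => ∀ e, t (fmb I (n := n) .falsum e) = false
  | n, .equal u v => ∀ e, t (fmb I (.equal u v) e) = t (eqb (tnm I e u) (tnm I e v))
  | n, .rel r ts => ∀ e, t (fmb I (.rel r ts) e) = t (rlb I r (tup _ (fun i => tnm I e (ts i))))
  | n, .imp φ ψ => (∀ e, t (fmb I (.imp φ ψ) e) = (! t (fmb I φ e) || t (fmb I ψ e))) ∧ Cls I t φ ∧ Cls I t ψ
  | n, .all φ => (∀ e y, t (fmb I (.all φ) e) = true → t (fmb I φ (Nat.pair y e)) = true) ∧
      (∀ e, t (fmb I φ (Nat.pair (wnm I φ e) e)) = true → t (fmb I (.all φ) e) = true) ∧ Cls I t φ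

/-- the table is the truth table of a model of `α`, of all `κ (k)` and of `κ' (n)` -/
structure TOk (I : Idx L) (z : L.Functions 0) (s : L.Functions 1) (α : L.BoundedFormula Empty 0)
    (κ κ' : L.BoundedFormula Empty 1) (n : ℕ) (t : ℕ → Bool) : Prop where
  rfl : ∀ a, t (eqb a a) = true
  symm : ∀ a b, t (eqb a b) = true → t (eqb b a) = true
  trans : ∀ a b c, t (eqb a b) = true → t (eqb b c) = true → t (eqb a c) = true
  fc : ∀ (m : ℕ) (f : L.Functions m) (i : Fin m) (a b c : ℕ), t (eqb b c) = true →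
    t (eqb (fnm I f (tup m (Function.update (untup m a) i b))) (fnm I f (tup m (Function.update (untup m a) i c)))) = true
  rc : ∀ (m : ℕ) (r : L.Relations m) (i : Fin m) (a b c : ℕ), t (eqb b c) = true →
    t (rlb I r (tup m (Function.update (untup m a) i b))) = true →
    t (rlb I r (tup m (Function.update (untup m a) i c))) = true
  ca : Cls I t α
  ck : Cls I t κ
  ck' : Cls I t κ'
  ra : t (fmb I α 0) = true
  rk : ∀ k, t (fmb I κ (Nat.pair (nnm I z s k) 0)) = true
  rk' : t (fmb I κ' (Nat.pair (nnm I z s n) 0)) = true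

/-- numerals in a structure -/
def nmS (M : Type) [L.Structure M] (z : L.Functions 0) (s : L.Functions 1) : ℕ → M
  | 0 => Language.Structure.funMap z Fin.elim0
  | k + 1 => Language.Structure.funMap s (fun _ => nmS M z s k)

/-- `α`, all `κ (k)` and `κ' (n)` have a common model -/
def SatN (z : L.Functions 0) (s : L.Functions 1) (α : L.BoundedFormula Empty 0)
    (κ κ' : L.BoundedFormula Empty 1) (n : ℕ) : Prop :=
  ∃ (M : Type) (_ : L.Structure M) (_ : Nonempty M), α.Realize (M := M) default default ∧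
    (∀ k, κ.Realize (default : Empty → M) (fun _ => nmS M z s k)) ∧
    κ'.Realize (default : Empty → M) (fun _ => nmS M z s n)

end TruthCF
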