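import Pool.Agent.Work.MP_cfede9_lc.Stmt
import Pool.Agent.Work.MP_cfede9_lc.Base

set_option autoImplicit false
set_option linter.all false

/-!
# MP_cfede9_lc: sanity theorems about the Goedel numbering

* `gnum_inj`: different sentences have different Goedel numbers;
* `gnum_subst`: the value of the term `dotq φ` at `k` is the Goedel number of the sentence obtained from `φ` by
  substituting the numeral of `k` for the free variable.
-/

open FirstOrder

namespace TruthCF

private theorem nat_num (k : ℕ) : natOps.num k = k := by
  induction k with
  | zero => rfl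
  | succ k ih =>
    show natOps.num k + 1 = k + 1
    rw [ih]

private theorem nat_pr_inj {a b c d : ℕ} (h : natOps.pr a b = natOps.pr c d) : a = c ∧ b = d := by
  have h' : (a + b) * (a + b) + a = (c + d) * (c + d) + c := h
  have h1 : a + b = c + d := by
    rcases lt_trichotomy (a + b) (c + d) with hl | hl | hl
    · exfalso
      have : (a + b + 1) * (a + b + 1) ≤ (c + d) * (c + d) := Nat.mul_le_mul hl hl
      nlinarith
    · exact hl
    · exfalso
      have : (c + d + 1) * (c + d + 1) ≤ (a + b) * (a + b) := Nat.mul_le_mul hl hl
      nlinarith
  rw [h1] at h'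
  omega

/-! ### injectivity -/

private theorem tcode_inj {n : ℕ} (x : Empty → ℕ) (t : LA.Term (Empty ⊕ Fin n)) :
    ∀ u : LA.Term (Empty ⊕ Fin n), tcode natOps x t = tcode natOps x u → t = u := by
  induction t with
  | var a =>
    rcases a with a | i
    · exact a.elim
    · intro u h
      cases u with
      | var b =>
        rcases b with b | j
        · exact b.elim
        · have h1 := (nat_pr_inj (congrArg Prod.snd h)).2
          rw [nat_num, nat_num] at h1
          have hi := i.2
          have hj := j.2
          have : i = j := Fin.ext (by omega)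
          rw [this]
      | func f us =>
        exfalso
        cases (f : AFunc _) with
        | zero =>
          have h1 := (nat_pr_inj (congrArg Prod.snd h)).1
          rw [nat_num, nat_num] at h1
          omega
        | succ =>
          have h1 : 0 = (tcode natOps x (us 0)).1 + 1 := congrArg Prod.fst h
          omega
        | add =>
          have h1 := (nat_pr_inj (congrArg Prod.snd h)).1
          rw [nat_num, nat_num] at h1
          omega
        | mul =>
          have h1 := (nat_pr_inj (congrArg Prod.snd h)).1
          rw [nat_num, nat_num] at h1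
          omega
  | func f ts ih =>
    intro u h
    cases u with
    | var b =>
      rcases b with b | j
      · exact b.elim
      · exfalso
        cases (f : AFunc _) with
        | zero =>
          have h1 := (nat_pr_inj (congrArg Prod.snd h)).1
          rw [nat_num, nat_num] at h1
          omega
        | succ =>
          have h1 : (tcode natOps x (ts 0)).1 + 1 = 0 := congrArg Prod.fst h
          omega
        | add =>
          have h1 := (nat_pr_inj (congrArg Prod.snd h)).1
          rw [nat_num, nat_num] at h1
          omega
        | mul =>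
          have h1 := (nat_pr_inj (congrArg Prod.snd h)).1
          rw [nat_num, nat_num] at h1
          omega
    | func g us =>
      cases (f : AFunc _) with
      | zero =>
        cases (g : AFunc _) with
        | zero =>
          congr 1
          funext i
          exact i.elim0
        | succ =>
          exfalso
          have h1 : 0 = (tcode natOps x (us 0)).1 + 1 := congrArg Prod.fst h
          omega
        | add =>
          exfalso
          have h1 := (nat_pr_inj (congrArg Prod.snd h)).1
          rw [nat_num, nat_num] at h1
          omega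
        | mul =>
          exfalso
          have h1 := (nat_pr_inj (congrArg Prod.snd h)).1
          rw [nat_num, nat_num] at h1
          omega
      | succ =>
        cases (g : AFunc _) with
        | zero =>
          exfalso
          have h1 : (tcode natOps x (ts 0)).1 + 1 = 0 := congrArg Prod.fst h
          omega
        | succ =>
          have h1 : (tcode natOps x (ts 0)).1 + 1 = (tcode natOps x (us 0)).1 + 1 := congrArg Prod.fst h
          have h2 : (tcode natOps x (ts 0)).2 = (tcode natOps x (us 0)).2 := by
            have h4 := congrArg (fun p : ℕ × ℕ => p.2) h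
            exact h4
          have h3 := ih 0 (us 0) (Prod.ext (by omega) h2)
          congr 1
          funext i
          have : i = 0 := Subsingleton.elim _ _
          rw [this]
          exact h3
        | add =>
          exfalso
          have h1 : (tcode natOps x (ts 0)).1 + 1 = 0 := congrArg Prod.fst h
          omega
        | mul =>
          exfalso
          have h1 : (tcode natOps x (ts 0)).1 + 1 = 0 := congrArg Prod.fst h
          omega
      | add =>
        cases (g : AFunc _) with
        | zero =>
          exfalso
          have h1 := (nat_pr_inj (congrArg Prod.snd h)).1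
          rw [nat_num, nat_num] at h1
          omega
        | succ =>
          exfalso
          have h1 : 0 = (tcode natOps x (us 0)).1 + 1 := congrArg Prod.fst h
          omega
        | add =>
          have h1 := (nat_pr_inj (congrArg Prod.snd h)).2
          obtain ⟨h2, h3⟩ := nat_pr_inj h1
          obtain ⟨h4, h5⟩ := nat_pr_inj h2
          obtain ⟨h6, h7⟩ := nat_pr_inj h3
          congr 1
          funext i
          fin_cases i
          · exact ih 0 (us 0) (Prod.ext h4 h5)
          · exact ih 1 (us 1) (Prod.ext h6 h7)
        | mul =>
          exfalso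
          have h1 := (nat_pr_inj (congrArg Prod.snd h)).1
          rw [nat_num, nat_num] at h1
          omega
      | mul =>
        cases (g : AFunc _) with
        | zero =>
          exfalso
          have h1 := (nat_pr_inj (congrArg Prod.snd h)).1
          rw [nat_num, nat_num] at h1
          omega
        | succ =>
          exfalso
          have h1 : 0 = (tcode natOps x (us 0)).1 + 1 := congrArg Prod.fst h
          omega
        | add =>
          exfalso
          have h1 := (nat_pr_inj (congrArg Prod.snd h)).1
          rw [nat_num, nat_num] at h1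
          omega
        | mul =>
          have h1 := (nat_pr_inj (congrArg Prod.snd h)).2
          obtain ⟨h2, h3⟩ := nat_pr_inj h1
          obtain ⟨h4, h5⟩ := nat_pr_inj h2
          obtain ⟨h6, h7⟩ := nat_pr_inj h3
          congr 1
          funext i
          fin_cases i
          · exact ih 0 (us 0) (Prod.ext h4 h5)
          · exact ih 1 (us 1) (Prod.ext h6 h7)

private theorem tc_inj {n : ℕ} (x : Empty → ℕ) {t u : LA.Term (Empty ⊕ Fin n)} (h : tc natOps x t = tc natOps x u) :
    t = u := by
  obtain ⟨h1, h2⟩ := nat_pr_inj h
  exact tcode_inj x t u (Prod.ext h1 h2)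

private theorem fcode_inj (x : Empty → ℕ) {n : ℕ} (φ : LA.BoundedFormula Empty n) :
    ∀ ψ : LA.BoundedFormula Empty n, fcode natOps x φ = fcode natOps x ψ → φ = ψ := by
  induction φ with
  | falsum =>
    intro ψ h
    cases ψ with
    | falsum => rfl
    | equal t s => exact absurd (nat_pr_inj h).1 (by rw [nat_num, nat_num]; omega)
    | rel r ts => exact absurd (nat_pr_inj h).1 (by rw [nat_num, nat_num]; omega)
    | imp φ ψ => exact absurd (nat_pr_inj h).1 (by rw [nat_num, nat_num]; omega)
    | all φ => exact absurd (nat_pr_inj h).1 (by rw [nat_num, nat_num]; omega)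
  | equal t s =>
    intro ψ h
    cases ψ with
    | falsum => exact absurd (nat_pr_inj h).1 (by rw [nat_num, nat_num]; omega)
    | equal t' s' =>
      obtain ⟨h1, h2⟩ := nat_pr_inj (nat_pr_inj h).2
      rw [tc_inj x h1, tc_inj x h2]
    | rel r ts => exact absurd (nat_pr_inj h).1 (by rw [nat_num, nat_num]; omega)
    | imp φ ψ => exact absurd (nat_pr_inj h).1 (by rw [nat_num, nat_num]; omega)
    | all φ => exact absurd (nat_pr_inj h).1 (by rw [nat_num, nat_num]; omega)
  | rel r ts =>
    intro ψ h
    cases ψ with
    | falsum => exact absurd (nat_pr_inj h).1 (by rw [nat_num, nat_num]; omega)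
    | equal t' s' => exact absurd (nat_pr_inj h).1 (by rw [nat_num, nat_num]; omega)
    | rel r' ts' =>
      have h1 := (nat_pr_inj h).2
      cases (r : ARel _) with
      | le =>
        cases (r' : ARel _) with
        | le =>
          obtain ⟨h2, h3⟩ := nat_pr_inj h1
          congr 1
          funext i
          fin_cases i
          · exact tc_inj x h2
          · exact tc_inj x h3
    | imp φ ψ => exact absurd (nat_pr_inj h).1 (by rw [nat_num, nat_num]; omega)
    | all φ => exact absurd (nat_pr_inj h).1 (by rw [nat_num, nat_num]; omega)
  | imp φ₁ φ₂ ih₁ ih₂ =>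
    intro ψ h
    cases ψ with
    | falsum => exact absurd (nat_pr_inj h).1 (by rw [nat_num, nat_num]; omega)
    | equal t' s' => exact absurd (nat_pr_inj h).1 (by rw [nat_num, nat_num]; omega)
    | rel r ts => exact absurd (nat_pr_inj h).1 (by rw [nat_num, nat_num]; omega)
    | imp φ ψ =>
      obtain ⟨h1, h2⟩ := nat_pr_inj (nat_pr_inj h).2
      rw [ih₁ _ h1, ih₂ _ h2]
    | all φ => exact absurd (nat_pr_inj h).1 (by rw [nat_num, nat_num]; omega)
  | all φ ih =>
    intro ψ h
    cases ψ with
    | falsum => exact absurd (nat_pr_inj h).1 (by rw [nat_num, nat_num]; omega)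
    | equal t' s' => exact absurd (nat_pr_inj h).1 (by rw [nat_num, nat_num]; omega)
    | rel r ts => exact absurd (nat_pr_inj h).1 (by rw [nat_num, nat_num]; omega)
    | imp φ ψ => exact absurd (nat_pr_inj h).1 (by rw [nat_num, nat_num]; omega)
    | all φ' => rw [ih _ (nat_pr_inj h).2]

/-- different sentences have different Goedel numbers -/
theorem gnum_inj {σ τ : LA.Sentence} (h : gnum σ = gnum τ) : σ = τ :=
  fcode_inj _ σ τ h

/-! ### substitution of numerals -/

private theorem tcode_num {β : Type} (x : β → ℕ) {n : ℕ} (k : ℕ) :
    tcode natOps x ((termOps (β ⊕ Fin n)).num k) = (k, natOps.pr (natOps.num 0) (natOps.num 0)) := by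
  induction k with
  | zero => rfl
  | succ k ih =>
    show ((tcode natOps x ((termOps (β ⊕ Fin n)).num k)).1 + 1,
      (tcode natOps x ((termOps (β ⊕ Fin n)).num k)).2) = _
    rw [ih]

private theorem num_relabel {n : ℕ} (k : ℕ) :
    ((termOps Empty).num k).relabel (Sum.inl : Empty → Empty ⊕ Fin n) = (termOps (Empty ⊕ Fin n)).num k := by
  induction k with
  | zero =>
    show Language.Term.func (L := LA) zeroF _ = Language.Term.func (L := LA) zeroF _
    congr 1
    funext i
    exact i.elim0
  | succ k ih =>
    show Language.Term.func (L := LA) succF _ = Language.Term.func (L := LA) succF _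
    congr 1
    funext i
    have : i = 0 := Subsingleton.elim _ _
    rw [this]
    exact ih

private theorem tcode_subst (k : ℕ) (x : Empty → ℕ) {n : ℕ} (t : LA.Term (Fin 1 ⊕ Fin n)) :
    tcode natOps x (t.subst (Sum.elim (Language.Term.relabel Sum.inl ∘ fun _ : Fin 1 => (termOps Empty).num k)
      (Language.Term.var ∘ Sum.inr))) = tcode natOps (fun _ : Fin 1 => k) t := by
  induction t with
  | var a =>
    rcases a with a | i
    · show tcode natOps x (((termOps Empty).num k).relabel Sum.inl) = _
      rw [num_relabel, tcode_num]
      rfl
    · rfl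
  | func f ts ih =>
    show tstep natOps f _ = tstep natOps f _
    congr 1
    funext i
    exact ih i

private theorem fcode_subst (k : ℕ) (x : Empty → ℕ) {n : ℕ} (φ : LA.BoundedFormula (Fin 1) n) :
    fcode natOps x (φ.subst (fun _ : Fin 1 => (termOps Empty).num k)) = fcode natOps (fun _ : Fin 1 => k) φ := by
  induction φ with
  | falsum => rfl
  | equal t s =>
    show natOps.pr _ (natOps.pr (tc natOps x _) (tc natOps x _)) = _
    simp only [tc, tcode_subst]
    rfl
  | rel r ts =>
    show natOps.pr _ (rstep natOps r (fun i => tc natOps x _)) = _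
    simp only [tc, tcode_subst]
    rfl
  | imp φ₁ φ₂ ih₁ ih₂ =>
    show natOps.pr _ (natOps.pr (fcode natOps x (φ₁.subst _)) (fcode natOps x (φ₂.subst _))) = _
    rw [ih₁, ih₂]
    rfl
  | all φ ih =>
    show natOps.pr _ (fcode natOps x (φ.subst _)) = _
    rw [ih]
    rfl

private theorem real_num (v : Fin 1 → ℕ) (k : ℕ) : ((termOps (Fin 1)).num k).realize v = natOps.num k := by
  induction k with
  | zero => rfl
  | succ k ih =>
    show ((termOps (Fin 1)).num k).realize v + 1 = natOps.num k + 1
    rw [ih]

private theorem real_pr (v : Fin 1 → ℕ) (a b : LA.Term (Fin 1)) :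
    ((termOps (Fin 1)).pr a b).realize v = natOps.pr (a.realize v) (b.realize v) := rfl

private theorem real_tcode (v : Fin 1 → ℕ) {n : ℕ} (t : LA.Term (Fin 1 ⊕ Fin n)) :
    (tcode (termOps (Fin 1)) (fun i => Language.Term.var i) t).1.realize v = (tcode natOps v t).1 ∧
    (tcode (termOps (Fin 1)) (fun i => Language.Term.var i) t).2.realize v = (tcode natOps v t).2 := by
  induction t with
  | var a =>
    rcases a with a | i
    · exact ⟨rfl, rfl⟩
    · refine ⟨rfl, ?_⟩
      show ((termOps (Fin 1)).pr ((termOps (Fin 1)).num 1) ((termOps (Fin 1)).num (n - 1 - (i : ℕ)))).realize v = _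
      rw [real_pr, real_num, real_num]
      rfl
  | func f ts ih =>
    cases (f : AFunc _) with
    | zero => exact ⟨rfl, rfl⟩
    | succ =>
      refine ⟨?_, (ih 0).2⟩
      show (tcode (termOps (Fin 1)) (fun i => Language.Term.var i) (ts 0)).1.realize v + 1 = _
      rw [(ih 0).1]
      rfl
    | add =>
      refine ⟨rfl, ?_⟩
      show ((termOps (Fin 1)).pr ((termOps (Fin 1)).num 2) ((termOps (Fin 1)).pr
        ((termOps (Fin 1)).pr _ _) ((termOps (Fin 1)).pr _ _))).realize v = _
      rw [real_pr, real_num, real_pr, real_pr, real_pr, (ih 0).1, (ih 0).2, (ih 1).1, (ih 1).2]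
      rfl
    | mul =>
      refine ⟨rfl, ?_⟩
      show ((termOps (Fin 1)).pr ((termOps (Fin 1)).num 3) ((termOps (Fin 1)).pr
        ((termOps (Fin 1)).pr _ _) ((termOps (Fin 1)).pr _ _))).realize v = _
      rw [real_pr, real_num, real_pr, real_pr, real_pr, (ih 0).1, (ih 0).2, (ih 1).1, (ih 1).2]
      rfl

private theorem real_tc (v : Fin 1 → ℕ) {n : ℕ} (t : LA.Term (Fin 1 ⊕ Fin n)) :
    (tc (termOps (Fin 1)) (fun i => Language.Term.var i) t).realize v = tc natOps v t := by
  show ((termOps (Fin 1)).pr _ _).realize v = _
  rw [real_pr, (real_tcode v t).1, (real_tcode v t).2]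
  rfl

private theorem real_fcode (v : Fin 1 → ℕ) {n : ℕ} (φ : LA.BoundedFormula (Fin 1) n) :
    (fcode (termOps (Fin 1)) (fun i => Language.Term.var i) φ).realize v = fcode natOps v φ := by
  induction φ with
  | falsum =>
    show ((termOps (Fin 1)).pr _ _).realize v = _
    rw [real_pr, real_num, real_num]
    rfl
  | equal t s =>
    show ((termOps (Fin 1)).pr _ ((termOps (Fin 1)).pr _ _)).realize v = _
    rw [real_pr, real_pr, real_num, real_tc, real_tc]
    rfl
  | rel r ts =>
    cases (r : ARel _) with
    | le =>
      show ((termOps (Fin 1)).pr _ ((termOps (Fin 1)).pr _ _)).realize v = _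
      rw [real_pr, real_pr, real_num, real_tc, real_tc]
      rfl
  | imp φ₁ φ₂ ih₁ ih₂ =>
    show ((termOps (Fin 1)).pr _ ((termOps (Fin 1)).pr _ _)).realize v = _
    rw [real_pr, real_pr, real_num, ih₁, ih₂]
    rfl
  | all φ ih =>
    show ((termOps (Fin 1)).pr _ _).realize v = _
    rw [real_pr, real_num, ih]
    rfl

/-- the value of the term `dotq φ` at `k` is the Goedel number of the sentence `φ(k)` (the numeral of `k` is
substituted for the free variable) -/
theorem gnum_subst (φ : LA.Formula (Fin 1)) (k : ℕ) :
    gnum (φ.subst (fun _ : Fin 1 => (termOps Empty).num k)) = (dotq φ).realize (fun _ : Fin 1 => k) := by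
  rw [dotq, real_fcode]
  exact fcode_subst k _ φ

end TruthCF
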