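import Pool.Agent.Work.MP_cfede9_lc.Lang

set_option autoImplicit false
set_option linter.all false

/-!
# MP_cfede9_lc: the notions in the statement

EA, Goedel numbers, theories of truth, definitions of truth, translations, definability, UTB^-.
-/

open FirstOrder

namespace TruthCF

/-! ### Elementary arithmetic -/

section EA

variable (M : Type) [LA.Structure M]

/-- zero -/
def az : M := Language.Structure.funMap zeroF ![]

variable {M}

/-- successor -/
def as (a : M) : M := Language.Structure.funMap succF ![a]

/-- sum -/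
def ap (a b : M) : M := Language.Structure.funMap addF ![a, b]

/-- product -/
def am (a b : M) : M := Language.Structure.funMap mulF ![a, b]

/-- the order -/
def al (a b : M) : Prop := Language.Structure.RelMap leR ![a, b]

variable (M)

/-- the axioms of `PA^-` (nonnegative parts of discretely ordered rings) in the language 0, S, +, *, ≤ -/
structure PAminus : Prop where
  add_assoc : ∀ a b c : M, ap (ap a b) c = ap a (ap b c)
  add_comm : ∀ a b : M, ap a b = ap b a
  add_zero : ∀ a : M, ap a (az M) = a
  mul_assoc : ∀ a b c : M, am (am a b) c = am a (am b c)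
  mul_comm : ∀ a b : M, am a b = am b a
  mul_one : ∀ a : M, am a (as (az M)) = a
  mul_zero : ∀ a : M, am a (az M) = az M
  distrib : ∀ a b c : M, am a (ap b c) = ap (am a b) (am a c)
  succ_eq : ∀ a : M, as a = ap a (as (az M))
  le_refl : ∀ a : M, al a a
  le_trans : ∀ a b c : M, al a b → al b c → al a c
  le_antisymm : ∀ a b : M, al a b → al b a → a = b
  le_total : ∀ a b : M, al a b ∨ al b a
  le_iff : ∀ a b : M, al a b ↔ ∃ c, b = ap a c
  add_lt : ∀ a b c : M, ¬ al b a → ¬ al (ap b c) (ap a c)
  mul_lt : ∀ a b c : M, ¬ al c (az M) → ¬ al b a → ¬ al (am b c) (am a c)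
  zero_lt_one : ¬ al (as (az M)) (az M)
  discr : ∀ a : M, ¬ al a (az M) → al (as (az M)) a

variable {M}

/-- the graph of the beta function: `r` is the remainder of `p` modulo `1 + (i+1) * q` -/
def BetaG (p q i r : M) : Prop :=
  ∃ k, p = ap (am k (as (am (as i) q))) r ∧ ¬ al (as (am (as i) q)) r

/-- the graph of exponentiation: `x ^ y = z`, by a code `(p, q)` of the sequence of powers -/
def ExpG (x y z : M) : Prop :=
  ∃ p q : M, BetaG p q (az M) (as (az M)) ∧ BetaG p q y z ∧
    ∀ i a : M, ¬ al y i → BetaG p q i a → BetaG p q (as i) (am a x)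

end EA

/-- `x_n ≤ t`, `t` a term in the variables before `x_n` -/
def leT {n : ℕ} (t : LA.Term (Empty ⊕ Fin n)) : LA.BoundedFormula Empty (n + 1) :=
  Language.BoundedFormula.rel (l := 2) leR
    ![Language.Term.var (Sum.inr (Fin.last n)), t.relabel (Sum.map id Fin.castSucc)]

/-- `Δ_0` formulas: closed under propositional connectives and bounded quantification (`falsum`, `imp`, bounded `∀`) -/
inductive IsDelta0 : {n : ℕ} → LA.BoundedFormula Empty n → Prop
  | falsum {n : ℕ} : IsDelta0 (Language.BoundedFormula.falsum (L := LA) (α := Empty) (n := n))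
  | equal {n : ℕ} (t s : LA.Term (Empty ⊕ Fin n)) : IsDelta0 (Language.BoundedFormula.equal t s)
  | rel {n l : ℕ} (r : LA.Relations l) (ts : Fin l → LA.Term (Empty ⊕ Fin n)) :
      IsDelta0 (Language.BoundedFormula.rel r ts)
  | imp {n : ℕ} {φ ψ : LA.BoundedFormula Empty n} : IsDelta0 φ → IsDelta0 ψ → IsDelta0 (φ.imp ψ)
  | ball {n : ℕ} (t : LA.Term (Empty ⊕ Fin n)) {φ : LA.BoundedFormula Empty (n + 1)} :
      IsDelta0 φ → IsDelta0 (((leT t).imp φ).all)

/-- `M` is a model of `EA = IΔ_0 + exp` -/
structure IsEA (M : Type) [LA.Structure M] : Prop where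
  pa : PAminus M
  ind : ∀ (n : ℕ) (φ : LA.BoundedFormula Empty (n + 1)), IsDelta0 φ → ∀ v : Fin n → M,
    φ.Realize default (Fin.snoc v (az M)) →
    (∀ a : M, φ.Realize default (Fin.snoc v a) → φ.Realize default (Fin.snoc v (as a))) →
    ∀ a : M, φ.Realize default (Fin.snoc v a)
  exp : ∀ x y : M, ∃ z, ExpG x y z

/-! ### Goedel numbers -/

/-- zero, successor, sum, product on any type -/
structure AOps (A : Type) where
  z : A
  s : A → A
  p : A → A → A
  m : A → A → A

/-- numerals -/
def AOps.num {A : Type} (O : AOps A) : ℕ → A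
  | 0 => O.z
  | n + 1 => O.s (O.num n)

/-- the pairing `(a + b)^2 + a` -/
def AOps.pr {A : Type} (O : AOps A) (a b : A) : A := O.p (O.m (O.p a b) (O.p a b)) a

/-- the operations of the natural numbers -/
def natOps : AOps ℕ := ⟨0, fun a => a + 1, fun a b => a + b, fun a b => a * b⟩

/-- the operations on terms of arithmetic -/
def termOps (γ : Type) : AOps (LA.Term γ) :=
  ⟨Language.Term.func zeroF ![], fun a => Language.Term.func succF ![a], fun a b => Language.Term.func addF ![a, b],
    fun a b => Language.Term.func mulF ![a, b]⟩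

/-- code of a term: the term `S ... S t`, with `k` signs `S`, has the pair (`k`, code of `t`) if `t` does not begin
with `S`; the code of `0` is (0,0), of the variable with de Bruijn index `j` (1,j), of `t + u` (2,(t,u)), of
`t * u` (3,(t,u)) -/
def tstep {A : Type} (O : AOps A) : {l : ℕ} → AFunc l → (Fin l → A × A) → A × A
  | _, .zero, _ => (O.z, O.pr (O.num 0) (O.num 0))
  | _, .succ, c => (O.s (c 0).1, (c 0).2)
  | _, .add, c => (O.z, O.pr (O.num 2) (O.pr (O.pr (c 0).1 (c 0).2) (O.pr (c 1).1 (c 1).2)))
  | _, .mul, c => (O.z, O.pr (O.num 3) (O.pr (O.pr (c 0).1 (c 0).2) (O.pr (c 1).1 (c 1).2)))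

/-- code of a term in which the numerals of the values `x` are substituted for the free variables;
the bound variable `i` of a formula with `n` bound variables has de Bruijn index `n - 1 - i` -/
def tcode {A β : Type} (O : AOps A) (x : β → A) {n : ℕ} : LA.Term (β ⊕ Fin n) → A × A
  | .var (Sum.inl b) => (x b, O.pr (O.num 0) (O.num 0))
  | .var (Sum.inr i) => (O.z, O.pr (O.num 1) (O.num (n - 1 - (i : ℕ))))
  | .func f ts => tstep O f (fun i => tcode O x (ts i))

/-- code of a term as one number -/
def tc {A β : Type} (O : AOps A) (x : β → A) {n : ℕ} (t : LA.Term (β ⊕ Fin n)) : A :=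
  O.pr (tcode O x t).1 (tcode O x t).2

/-- code of the arguments of a relation symbol -/
def rstep {A : Type} (O : AOps A) : {l : ℕ} → ARel l → (Fin l → A) → A
  | _, .le, c => O.pr (c 0) (c 1)

/-- code of a formula in which the numerals of the values `x` are substituted for the free variables -/
def fcode {A β : Type} (O : AOps A) (x : β → A) : {n : ℕ} → LA.BoundedFormula β n → A
  | _, .falsum => O.pr (O.num 4) (O.num 0)
  | _, .equal t s => O.pr (O.num 5) (O.pr (tc O x t) (tc O x s))
  | _, .rel r ts => O.pr (O.num 6) (rstep O r (fun i => tc O x (ts i)))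
  | _, .imp φ ψ => O.pr (O.num 7) (O.pr (fcode O x φ) (fcode O x ψ))
  | _, .all φ => O.pr (O.num 8) (fcode O x φ)

/-- Goedel number of a sentence -/
def gnum (σ : LA.Sentence) : ℕ := fcode natOps (fun e : Empty => e.elim) σ

/-- the term for the Goedel number of `φ` with the numeral of `x` substituted, as a term in the variable `x` -/
def dotq (φ : LA.Formula (Fin 1)) : LA.Term (Fin 1) :=
  fcode (termOps (Fin 1)) (fun i => Language.Term.var i) φ

/-! ### Theories of truth -/

/-- arithmetical formulas as formulas of a larger language -/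
abbrev inA (L' : FirstOrder.Language.{0, 0}) : LA →ᴸ LA.sum L' := Language.LHom.sumInl

/-- the theory contains `EA` -/
def ContainsEA {L' : FirstOrder.Language.{0, 0}} (T : (LA.sum L').Theory) : Prop :=
  ∀ (M : Type) (S : (LA.sum L').Structure M) (_ : Nonempty M), M ⊨ T → @IsEA M ((inA L').reduct M)

/-- `T` is a definition of truth: it contains `EA`, it is finitely axiomatizable, and some formula `Θ` satisfies all
arithmetical disquotation sentences for sentences -/
structure IsDefTruth {L' : FirstOrder.Language.{0, 0}} (T : (LA.sum L').Theory) : Prop where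
  ea : ContainsEA T
  fin : ∃ T₀ : (LA.sum L').Theory, T₀.Finite ∧ (∀ σ ∈ T₀, T ⊨ᵇ σ) ∧ ∀ σ ∈ T, T₀ ⊨ᵇ σ
  tb : ∃ Θ : (LA.sum L').Formula (Fin 1), ∀ σ : LA.Sentence,
    T ⊨ᵇ (Θ.subst (fun _ => ((inA L').onTerm ((termOps Empty).num (gnum σ)))) ⇔ (inA L').onSentence σ : (LA.sum L').Sentence)

/-! ### Translations -/

/-- a translation gives for every nonarithmetical relation symbol of the first language a formula of the second
language with the same free variables -/
abbrev Transl (L₁ L₂ : FirstOrder.Language.{0, 0}) : Type :=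
  ∀ n : ℕ, L₁.Relations n → (LA.sum L₂).Formula (Fin n)

/-- terms are not changed (the first language has no nonarithmetical function symbols) -/
def trTerm {L₁ L₂ : FirstOrder.Language.{0, 0}} [L₁.IsRelational] {β : Type} :
    (LA.sum L₁).Term β → (LA.sum L₂).Term β
  | .var b => .var b
  | .func (l := l) f ts => match f with
    | Sum.inl g => .func (l := l) (Sum.inl g : LA.Functions l ⊕ L₂.Functions l) (fun i => trTerm (ts i))
    | Sum.inr g => isEmptyElim g

/-- translation of formulas: identity on the arithmetical symbols, commutes with connectives and quantifiers,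
no relativisation -/
def Transl.fm {L₁ L₂ : FirstOrder.Language.{0, 0}} [L₁.IsRelational] (τ : Transl L₁ L₂) {β : Type} :
    {n : ℕ} → (LA.sum L₁).BoundedFormula β n → (LA.sum L₂).BoundedFormula β n
  | _, .falsum => .falsum
  | _, .equal t s => .equal (trTerm t) (trTerm s)
  | _, .rel (l := l) r ts => match r with
    | Sum.inl q => .rel (l := l) (Sum.inl q : LA.Relations l ⊕ L₂.Relations l) (fun i => trTerm (ts i))
    | Sum.inr q => ((τ l q).subst (fun i => trTerm (ts i))).relabel id
  | _, .imp φ ψ => .imp (τ.fm φ) (τ.fm ψ)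
  | _, .all φ => .all (τ.fm φ)

/-- `V` defines `U` -/
def Defines {L₁ L₂ : FirstOrder.Language.{0, 0}} [L₁.IsRelational] (V : (LA.sum L₂).Theory) (U : (LA.sum L₁).Theory) :
    Prop :=
  ∃ τ : Transl L₁ L₂, ∀ A ∈ U, V ⊨ᵇ (τ.fm A : (LA.sum L₂).BoundedFormula Empty 0)

/-! ### The theory `UTB^-` -/

/-- the extra symbol: the unary predicate `T` -/
inductive TRel : ℕ → Type
  | T : TRel 1

/-- the language with the only symbol `T` -/
def LT : FirstOrder.Language.{0, 0} := ⟨fun _ => Empty, TRel⟩

instance : LT.IsRelational := fun _ => (inferInstance : IsEmpty Empty)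

/-- `T` as a symbol -/
def TT : LT.Relations 1 := TRel.T

/-- the arithmetical theorems of `EA` (sentences true in all models of `EA`), in the language with `T` -/
def EAth (L' : FirstOrder.Language.{0, 0}) : (LA.sum L').Theory :=
  {A | ∃ σ : LA.Sentence, (∀ (M : Type) (S : LA.Structure M) (_ : Nonempty M), IsEA M → M ⊨ σ) ∧
    A = (inA L').onSentence σ}

/-- the axiom `∀ x, (T(dotted code of φ) ↔ φ(x))` -/
def utbAx (φ : LA.Formula (Fin 1)) : (LA.sum LT).Sentence :=
  ((Language.BoundedFormula.rel (l := 1) (Sum.inr TT : LA.Relations 1 ⊕ LT.Relations 1)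
      (fun _ => ((inA LT).onTerm (dotq φ)).relabel Sum.inr) ⇔
    Language.BoundedFormula.relabel (n := 1) (k := 0) (Sum.inr : Fin 1 → Empty ⊕ Fin 1) ((inA LT).onFormula φ) :
    (LA.sum LT).BoundedFormula Empty 1)).all

/-- the theory `UTB^-` -/
def UTBm : (LA.sum LT).Theory := EAth LT ∪ {A | ∃ φ : LA.Formula (Fin 1), A = utbAx φ}

end TruthCF
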