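import Pool.Agent.Work.MP_cfede9_lc.Ctx

set_option autoImplicit false
set_option linter.all false

/-!
# MP_cfede9_lc: lists of subformulas (definitions)
-/

open FirstOrder

namespace TruthCF

/-- the list of subformulas -/
def subsF {L : FirstOrder.Language.{0, 0}} : {n : ℕ} → L.BoundedFormula Empty n → List (Σ n : ℕ, L.BoundedFormula Empty n)
  | n, .falsum => [⟨n, .falsum⟩]
  | n, .equal t s => [⟨n, .equal t s⟩]
  | n, .rel r ts => [⟨n, .rel r ts⟩]
  | n, .imp φ ψ => ⟨n, .imp φ ψ⟩ :: (subsF φ ++ subsF ψ)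
  | n, .all φ => ⟨n, .all φ⟩ :: subsF φ

/-- an arithmetical formula as a formula of the larger language -/
def liftF (L' : FirstOrder.Language.{0, 0}) (θ : Σ n : ℕ, LA.BoundedFormula Empty n) :
    Σ n : ℕ, (LA.sum L').BoundedFormula Empty n :=
  ⟨θ.1, (Language.LHom.sumInl : LA →ᴸ LA.sum L').onBoundedFormula θ.2⟩

/-- the lifts of the subformulas of `φ` -/
def lsub (L' : FirstOrder.Language.{0, 0}) {n : ℕ} (φ : LA.BoundedFormula Empty n) :
    Set (Σ n : ℕ, (LA.sum L').BoundedFormula Empty n) :=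
  {θ | ∃ η ∈ subsF φ, θ = liftF L' η}

end TruthCF
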