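import Pool.Agent.Work.MP_cfede9_lc.Prog

set_option autoImplicit false
set_option linter.all false

/-!
# MP_cfede9_lc, definitions: the universal formula for existentially definable sets

`g` codes `m`, `c₁`, `c₂`: the program number `k < m` consists of the constraints coded by the `m` numbers
`bt c₁ c₂ (pr k l)`, `l < m`. Registers: `i ↦ bt w₁ w₂ i`, parameters: `j ↦ bt b₁ b₂ j`, input: `u`.
-/

open FirstOrder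

namespace TruthCF

variable {L' : FirstOrder.Language.{0, 0}}

/-- satisfaction of the constraint coded by `d` -/
def ConM (F : FL L') {M : Type} [PAm M] [L'.Structure M] (d b₁ b₂ u w₁ w₂ : M) : Prop :=
  (∃ i, d = pr 0 i ∧ bt w₁ w₂ i = 0) ∨
  (∃ i, d = pr 1 i ∧ bt w₁ w₂ i = 1) ∨
  (∃ i j k, d = pr ((2 : ℕ) : M) (pr i (pr j k)) ∧ bt w₁ w₂ i + bt w₁ w₂ j = bt w₁ w₂ k) ∨
  (∃ i j k, d = pr ((3 : ℕ) : M) (pr i (pr j k)) ∧ bt w₁ w₂ i * bt w₁ w₂ j = bt w₁ w₂ k) ∨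
  (∃ i j, d = pr ((4 : ℕ) : M) (pr i j) ∧ bt w₁ w₂ i ≤ bt w₁ w₂ j) ∨
  (∃ i j, d = pr ((5 : ℕ) : M) (pr i j) ∧ bt w₁ w₂ i < bt w₁ w₂ j) ∨
  (∃ i j, d = pr ((6 : ℕ) : M) (pr i j) ∧ bt w₁ w₂ i = bt b₁ b₂ j) ∨
  (∃ i, d = pr ((7 : ℕ) : M) i ∧ bt w₁ w₂ i = u) ∨
  (d = pr ((8 : ℕ) : M) 0) ∨
  (∃ k, k < F.length ∧ ∃ θ, F[k]? = some θ ∧ ∃ i, d = pr ((2 * k + 9 : ℕ) : M) i ∧ Sv θ.2 (bt w₁ w₂ i)) ∨
  (∃ k, k < F.length ∧ ∃ θ, F[k]? = some θ ∧ ∃ i, d = pr ((2 * k + 10 : ℕ) : M) i ∧ ¬ Sv θ.2 (bt w₁ w₂ i))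

/-- the universal formula -/
def HH (F : FL L') {M : Type} [PAm M] [L'.Structure M] (g b₁ b₂ u : M) : Prop :=
  ∃ m c₁ c₂, g = pr m (pr c₁ c₂) ∧ ∃ k, k < m ∧ ∃ w₁ w₂, ∀ l, l < m →
    ConM F (bt c₁ c₂ (pr k l)) b₁ b₂ u w₁ w₂

end TruthCF
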