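import Pool.Agent.Work.MP_cfede9_lc.TrD
import Pool.Agent.Work.MP_cfede9_lc.UniD

set_option autoImplicit false
set_option linter.all false

/-!
# MP_cfede9_lc, the definition of the truth predicate

`V z = HH F g b₁ b₂ z`; `V (pr 1 (pr y (pr e a)))`: the term with code `y` has the value `a` under `e`;
`V (pr 0 (pr y e))`: the formula with code `y` is true under `e`.
-/

open FirstOrder

namespace TruthCF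

/-- membership in the coded list `bt a b 0, ..., bt a b (m - 1)` -/
def InL {M : Type} [PAm M] (a b m x : M) : Prop := ∃ i, i < m ∧ bt a b i = x

/-- Tarski clauses for terms with code in `Ct` -/
def TmCl {M : Type} [PAm M] (V Ct : M → Prop) : Prop :=
  ∀ y, Ct y → ∀ e a : M,
    (∀ k, y = pr k (pr 0 0) → (V (pr 1 (pr y (pr e a))) ↔ a = k)) ∧
    (∀ k, y = pr k (pr 1 0) → (V (pr 1 (pr y (pr e a))) ↔ a = hd e + k)) ∧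
    (∀ k i, y = pr k (pr 1 (i + 1)) → Ct (pr k (pr 1 i)) ∧
      (V (pr 1 (pr y (pr e a))) ↔ V (pr 1 (pr (pr k (pr 1 i)) (pr (tl e) a))))) ∧
    (∀ k y₁ y₂, y = pr k (pr ((2 : ℕ) : M) (pr y₁ y₂)) → Ct y₁ ∧ Ct y₂ ∧
      (V (pr 1 (pr y (pr e a))) ↔ ∃ a₁ a₂, V (pr 1 (pr y₁ (pr e a₁))) ∧ V (pr 1 (pr y₂ (pr e a₂))) ∧
        a = a₁ + a₂ + k)) ∧
    (∀ k y₁ y₂, y = pr k (pr ((3 : ℕ) : M) (pr y₁ y₂)) → Ct y₁ ∧ Ct y₂ ∧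
      (V (pr 1 (pr y (pr e a))) ↔ ∃ a₁ a₂, V (pr 1 (pr y₁ (pr e a₁))) ∧ V (pr 1 (pr y₂ (pr e a₂))) ∧
        a = a₁ * a₂ + k))

/-- Tarski clauses for formulas with code in `Cf` -/
def FmCl {M : Type} [PAm M] (V Ct Cf : M → Prop) : Prop :=
  ∀ y, Cf y → ∀ e : M,
    (y = pr ((4 : ℕ) : M) 0 → ¬ V (pr 0 (pr y e))) ∧
    (∀ y₁ y₂, y = pr ((5 : ℕ) : M) (pr y₁ y₂) → Ct y₁ ∧ Ct y₂ ∧
      (V (pr 0 (pr y e)) ↔ ∃ a, V (pr 1 (pr y₁ (pr e a))) ∧ V (pr 1 (pr y₂ (pr e a))))) ∧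
    (∀ y₁ y₂, y = pr ((6 : ℕ) : M) (pr y₁ y₂) → Ct y₁ ∧ Ct y₂ ∧
      (V (pr 0 (pr y e)) ↔ ∃ a₁ a₂, V (pr 1 (pr y₁ (pr e a₁))) ∧ V (pr 1 (pr y₂ (pr e a₂))) ∧ a₁ ≤ a₂)) ∧
    (∀ y₁ y₂, y = pr ((7 : ℕ) : M) (pr y₁ y₂) → Cf y₁ ∧ Cf y₂ ∧
      (V (pr 0 (pr y e)) ↔ (V (pr 0 (pr y₁ e)) → V (pr 0 (pr y₂ e))))) ∧
    (∀ y₁, y = pr ((8 : ℕ) : M) y₁ → Cf y₁ ∧ (V (pr 0 (pr y e)) ↔ ∀ a, V (pr 0 (pr y₁ (pr a e)))))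

/-- the truth predicate -/
def Tpred {L' : FirstOrder.Language.{0, 0}} (F : FL L') {M : Type} [PAm M] [L'.Structure M] (s : M) : Prop :=
  ∃ g b₁ b₂ t₁ t₂ tm f₁ f₂ fm : M, TmCl (HH F g b₁ b₂) (InL t₁ t₂ tm) ∧
    FmCl (HH F g b₁ b₂) (InL t₁ t₂ tm) (InL f₁ f₂ fm) ∧ InL f₁ f₂ fm s ∧ HH F g b₁ b₂ (pr 0 (pr s 0))

/-- subformulas -/
def CF.subs : CF → List CF
  | .bot => [.bot]
  | .eq s t => [.eq s t]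
  | .le s t => [.le s t]
  | .imp f g => .imp f g :: (f.subs ++ g.subs)
  | .all f => .all f :: f.subs

end TruthCF
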