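import Pool.Agent.Work.MP_cfede9_lc.Tr2D
import Pool.Agent.Work.MP_cfede9_lc.Tr1a

set_option autoImplicit false
set_option linter.all false

/-!
# MP_cfede9_lc, module Tr2a: the clauses determine the values
-/

open FirstOrder

namespace TruthCF

/-- correctness for terms -/
theorem tmCl_correct {M : Type} [PAm M] {V Ct : M → Prop} (h : TmCl V Ct) (x : M) (t : CT) (ht : Ct (t.code x))
    (e a : M) : V (pr 1 (pr (t.code x) (pr e a))) ↔ a = t.val x e := by
  induction t generalizing e a with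
  | c k b => exact (h _ ht e a).1 _ rfl
  | v k j =>
    induction j generalizing e a with
    | zero =>
      refine (h _ ht e a).2.1 (k : M) ?_
      show pr (k : M) (pr 1 ((0 : ℕ) : M)) = pr (k : M) (pr 1 0)
      rw [Nat.cast_zero]
    | succ j ih =>
      have h3 := (h _ ht e a).2.2.1 (k : M) (j : M) (by
        show pr (k : M) (pr 1 ((j + 1 : ℕ) : M)) = pr (k : M) (pr 1 ((j : M) + 1))
        rw [Nat.cast_succ])
      refine h3.2.trans ?_
      have h4 := ih h3.1 (tl e) a
      refine h4.trans ?_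
      show a = hd (tl^[j] (tl e)) + (k : M) ↔ a = hd (tl^[j + 1] e) + (k : M)
      rw [Function.iterate_succ_apply]
  | a k s t ihs iht =>
    have h4 := (h _ ht e a).2.2.2.1 (k : M) _ _ rfl
    refine h4.2.2.trans ?_
    constructor
    · rintro ⟨a₁, a₂, h1, h2, h3⟩
      rw [h3, (ihs h4.1 e a₁).1 h1, (iht h4.2.1 e a₂).1 h2]
      rfl
    · intro h3
      exact ⟨_, _, (ihs h4.1 e _).2 rfl, (iht h4.2.1 e _).2 rfl, h3⟩
  | m k s t ihs iht =>
    have h4 := (h _ ht e a).2.2.2.2 (k : M) _ _ rfl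
    refine h4.2.2.trans ?_
    constructor
    · rintro ⟨a₁, a₂, h1, h2, h3⟩
      rw [h3, (ihs h4.1 e a₁).1 h1, (iht h4.2.1 e a₂).1 h2]
      rfl
    · intro h3
      exact ⟨_, _, (ihs h4.1 e _).2 rfl, (iht h4.2.1 e _).2 rfl, h3⟩

/-- correctness for formulas -/
theorem fmCl_correct {M : Type} [PAm M] {V Ct Cf : M → Prop} (h : TmCl V Ct) (h' : FmCl V Ct Cf) (x : M) (f : CF)
    (hf : Cf (f.code x)) (e : M) : V (pr 0 (pr (f.code x) e)) ↔ CF.sem x e f := by
  induction f generalizing e with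
  | bot =>
    constructor
    · intro h1
      exact ((h' _ hf e).1 rfl h1).elim
    · intro h1
      exact h1.elim
  | eq s t =>
    have h4 := (h' _ hf e).2.1 _ _ rfl
    refine h4.2.2.trans ?_
    constructor
    · rintro ⟨a, h1, h2⟩
      show s.val x e = t.val x e
      rw [← (tmCl_correct h x s h4.1 e a).1 h1, ← (tmCl_correct h x t h4.2.1 e a).1 h2]
    · intro h3
      exact ⟨_, (tmCl_correct h x s h4.1 e _).2 rfl, (tmCl_correct h x t h4.2.1 e _).2 h3⟩
  | le s t =>
    have h4 := (h' _ hf e).2.2.1 _ _ rfl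
    refine h4.2.2.trans ?_
    constructor
    · rintro ⟨a₁, a₂, h1, h2, h3⟩
      show s.val x e ≤ t.val x e
      rw [← (tmCl_correct h x s h4.1 e a₁).1 h1, ← (tmCl_correct h x t h4.2.1 e a₂).1 h2]
      exact h3
    · intro h3
      exact ⟨_, _, (tmCl_correct h x s h4.1 e _).2 rfl, (tmCl_correct h x t h4.2.1 e _).2 rfl, h3⟩
  | imp f g ihf ihg =>
    have h4 := (h' _ hf e).2.2.2.1 _ _ rfl
    refine h4.2.2.trans ?_
    exact imp_congr (ihf h4.1 e) (ihg h4.2.1 e)
  | all f ihf =>
    have h4 := (h' _ hf e).2.2.2.2 _ rfl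
    refine h4.2.trans ?_
    exact forall_congr' fun a => ihf h4.1 (pr a e)

end TruthCF
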