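import Pool.Agent.Work.MP_cfede9_lc.Base

set_option autoImplicit false
set_option linter.all false

/-!
# MP_cfede9_lc, module Tr3a: a free variable as outermost bound variable
-/

open FirstOrder

namespace TruthCF

/-- a formula with one free variable as a formula whose outermost variable is this variable -/
theorem exists_closed {n : ℕ} (θ : LA.BoundedFormula (Fin 1) n) :
    ∃ η : LA.BoundedFormula Empty (n + 1), ∀ (M : Type) [LA.Structure M] (x : M) (v : Fin n → M),
      η.Realize default (Fin.cons (α := fun _ => M) x v) ↔ θ.Realize (fun _ => x) v := by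
  have hn : 1 + n = n + 1 := Nat.add_comm 1 n
  refine ⟨(Language.BoundedFormula.relabel (β := Empty) (n := 1)
    (fun i : Fin 1 => (Sum.inr i : Empty ⊕ Fin 1)) θ).castLE hn.le, fun M _ x v => ?_⟩
  rw [Language.BoundedFormula.realize_castLE_of_eq hn, Language.BoundedFormula.realize_relabel]
  have h1 : (Sum.elim (default : Empty → M) (((Fin.cons (α := fun _ => M) x v) ∘ Fin.cast hn) ∘
      Fin.castAdd n) ∘ fun i : Fin 1 => (Sum.inr i : Empty ⊕ Fin 1)) = fun _ => x := by
    funext i
    have hi : Fin.cast hn (Fin.castAdd n i) = 0 := by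
      apply Fin.ext
      simp
    simp only [Function.comp, Sum.elim_inr, hi, Fin.cons_zero]
  have h2 : (((Fin.cons (α := fun _ => M) x v) ∘ Fin.cast hn) ∘ Fin.natAdd 1 : Fin n → M) = v := by
    funext i
    have hi : Fin.cast hn (Fin.natAdd 1 i) = i.succ := by
      apply Fin.ext
      simp [Nat.add_comm]
    simp only [Function.comp, hi, Fin.cons_succ]
  rw [h1, h2]

end TruthCF
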