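import Pool.Agent.Work.MP_cfede9_lc.Stmt
import Pool.Agent.Work.MP_cfede9_lc.Base

set_option autoImplicit false
set_option linter.all false

/-!
# MP_cfede9_lc, context free form of arithmetical terms and formulas with one substituted numeral
-/

open FirstOrder

namespace TruthCF

/-- the operations of a nice model -/
def mOps (M : Type) [PAm M] : AOps M := ⟨0, fun a => a + 1, fun a b => a + b, fun a b => a * b⟩

/-- terms: `c k true` is the numeral of `x + k`, `c k false` the numeral of `k`, `v k j` is `S^k` applied to the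
variable with de Bruijn index `j`, `a k s t` is `S^k (s + t)`, `m k s t` is `S^k (s * t)` -/
inductive CT : Type
  | c (k : ℕ) (b : Bool) : CT
  | v (k j : ℕ) : CT
  | a (k : ℕ) (s t : CT) : CT
  | m (k : ℕ) (s t : CT) : CT

/-- formulas -/
inductive CF : Type
  | bot : CF
  | eq (s t : CT) : CF
  | le (s t : CT) : CF
  | imp (f g : CF) : CF
  | all (f : CF) : CF

/-- successor of a term -/
def CT.succ : CT → CT
  | .c k b => .c (k + 1) b
  | .v k j => .v (k + 1) j
  | .a k s t => .a (k + 1) s t
  | .m k s t => .m (k + 1) s t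

section

variable {M : Type} [PAm M]

/-- code of a term -/
def CT.code (x : M) : CT → M
  | .c k b => pr ((if b then x else 0) + (k : M)) (pr 0 0)
  | .v k j => pr (k : M) (pr 1 (j : M))
  | .a k s t => pr (k : M) (pr ((2 : ℕ) : M) (pr (s.code x) (t.code x)))
  | .m k s t => pr (k : M) (pr ((3 : ℕ) : M) (pr (s.code x) (t.code x)))

/-- value of a term under a coded environment -/
noncomputable def CT.val (x e : M) : CT → M
  | .c k b => (if b then x else 0) + (k : M)
  | .v k j => hd (tl^[j] e) + (k : M)
  | .a k s t => s.val x e + t.val x e + (k : M)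
  | .m k s t => s.val x e * t.val x e + (k : M)

/-- code of a formula -/
def CF.code (x : M) : CF → M
  | .bot => pr ((4 : ℕ) : M) 0
  | .eq s t => pr ((5 : ℕ) : M) (pr (s.code x) (t.code x))
  | .le s t => pr ((6 : ℕ) : M) (pr (s.code x) (t.code x))
  | .imp f g => pr ((7 : ℕ) : M) (pr (f.code x) (g.code x))
  | .all f => pr ((8 : ℕ) : M) (f.code x)

/-- truth of a formula under a coded environment -/
def CF.sem (x : M) : M → CF → Prop
  | _, .bot => False
  | e, .eq s t => s.val x e = t.val x e
  | e, .le s t => s.val x e ≤ t.val x e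
  | e, .imp f g => CF.sem x e f → CF.sem x e g
  | e, .all f => ∀ a, CF.sem x (pr a e) f

end

/-- function symbols on the level of `CT` -/
def tstepC : {l : ℕ} → AFunc l → (Fin l → CT) → CT
  | _, .zero, _ => .c 0 false
  | _, .succ, c => (c 0).succ
  | _, .add, c => .a 0 (c 0) (c 1)
  | _, .mul, c => .m 0 (c 0) (c 1)

/-- context free form of a term -/
def toCT {n : ℕ} : LA.Term (Fin 1 ⊕ Fin n) → CT
  | .var (Sum.inl _) => .c 0 true
  | .var (Sum.inr i) => .v 0 (n - 1 - (i : ℕ))
  | .func f ts => tstepC f (fun i => toCT (ts i))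

/-- the relation symbol on the level of `CF` -/
def rstepC : {l : ℕ} → ARel l → (Fin l → CT) → CF
  | _, .le, c => .le (c 0) (c 1)

/-- context free form of a formula -/
def toCF : {n : ℕ} → LA.BoundedFormula (Fin 1) n → CF
  | _, .falsum => .bot
  | _, .equal t s => .eq (toCT t) (toCT s)
  | _, .rel r ts => rstepC r (fun i => toCT (ts i))
  | _, .imp φ ψ => .imp (toCF φ) (toCF ψ)
  | _, .all φ => .all (toCF φ)

end TruthCF
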