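import Pool.Agent.Work.MP_cfede9_lc.UniD
import Pool.Agent.Work.MP_cfede9_lc.Ar1
import Pool.Agent.Work.MP_cfede9_lc.Ar2

set_option autoImplicit false
set_option linter.all false

/-!
# MP_cfede9_lc, module Uni1: the universal formula for existentially definable sets

`g` codes `m`, `c₁`, `c₂`: the program number `k < m` consists of the constraints coded by the `m` numbers
`bt c₁ c₂ (pr k l)`, `l < m`. Registers: `i ↦ bt w₁ w₂ i`, parameters: `j ↦ bt b₁ b₂ j`, input: `u`.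
-/

open FirstOrder

namespace TruthCF

variable {L' : FirstOrder.Language.{0, 0}}

private theorem u1_pair {M : Type} [PAm M] (a e t : ℕ) (y : M) :
    ((pr a e : ℕ) : M) = pr ((t : ℕ) : M) y ↔ t = a ∧ y = (e : M) := by
  rw [← pr_cast]
  constructor
  · intro h
    obtain ⟨h1, h2⟩ := pr_inj h
    exact ⟨((cast_inj_iff a t).1 h1).symm, h2.symm⟩
  · rintro ⟨rfl, rfl⟩
    rfl

private theorem u1_pair0 {M : Type} [PAm M] (a e : ℕ) (y : M) :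
    ((pr a e : ℕ) : M) = pr 0 y ↔ 0 = a ∧ y = (e : M) := by
  have h := u1_pair (M := M) a e 0 y
  rw [Nat.cast_zero] at h
  exact h

private theorem u1_pair1 {M : Type} [PAm M] (a e : ℕ) (y : M) :
    ((pr a e : ℕ) : M) = pr 1 y ↔ 1 = a ∧ y = (e : M) := by
  have h := u1_pair (M := M) a e 1 y
  rw [Nat.cast_one] at h
  exact h

private theorem u1_dec (e : ℕ) : (∃ a b : ℕ, e = pr a b) ∨
    ∀ (M : Type) [PAm M] (x y : M), (e : M) ≠ pr x y := by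
  by_cases h : ∃ a b : ℕ, e = pr a b
  · exact Or.inl h
  · right
    intro M _ x y hxy
    obtain ⟨s, h1, h2⟩ := (not_pr_iff e).1 h
    have h3 : ((s * s + s : ℕ) : M) < (e : M) := Nat.cast_lt.2 h1
    have h4 : (e : M) < (((s + 1) * (s + 1) : ℕ) : M) := Nat.cast_lt.2 h2
    push_cast at h3 h4
    exact (not_pr_iff (e : M)).2 ⟨(s : M), h3, h4⟩ ⟨x, y, hxy⟩

private theorem u1_cast {M : Type} [PAm M] (a e : ℕ) (x y : M) :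
    ((pr a e : ℕ) : M) = pr x y ↔ x = (a : M) ∧ y = (e : M) := by
  rw [← pr_cast]
  constructor
  · intro h
    obtain ⟨h1, h2⟩ := pr_inj h
    exact ⟨h1.symm, h2.symm⟩
  · rintro ⟨rfl, rfl⟩
    rfl

/-- the shape of `ConM` for a code `pr a e` -/
private theorem u1_con (F : FL L') (a e : ℕ) (M : Type) [PAm M] [L'.Structure M]
    (b₁ b₂ u w₁ w₂ : M) : ConM F ((pr a e : ℕ) : M) b₁ b₂ u w₁ w₂ ↔
  (a = 0 ∧ bt w₁ w₂ (e : M) = 0) ∨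
  (a = 1 ∧ bt w₁ w₂ (e : M) = 1) ∨
  (a = 2 ∧ ∃ i j k, (e : M) = pr i (pr j k) ∧ bt w₁ w₂ i + bt w₁ w₂ j = bt w₁ w₂ k) ∨
  (a = 3 ∧ ∃ i j k, (e : M) = pr i (pr j k) ∧ bt w₁ w₂ i * bt w₁ w₂ j = bt w₁ w₂ k) ∨
  (a = 4 ∧ ∃ i j, (e : M) = pr i j ∧ bt w₁ w₂ i ≤ bt w₁ w₂ j) ∨
  (a = 5 ∧ ∃ i j, (e : M) = pr i j ∧ bt w₁ w₂ i < bt w₁ w₂ j) ∨
  (a = 6 ∧ ∃ i j, (e : M) = pr i j ∧ bt w₁ w₂ i = bt b₁ b₂ j) ∨
  (a = 7 ∧ bt w₁ w₂ (e : M) = u) ∨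
  (a = 8 ∧ e = 0) ∨
  (∃ k, k < F.length ∧ ∃ θ, F[k]? = some θ ∧ a = 2 * k + 9 ∧ Sv θ.2 (bt w₁ w₂ (e : M))) ∨
  (∃ k, k < F.length ∧ ∃ θ, F[k]? = some θ ∧ a = 2 * k + 10 ∧
    ¬ Sv θ.2 (bt w₁ w₂ (e : M))) := by
  unfold ConM
  simp only [u1_pair, u1_pair0, u1_pair1]
  refine or_congr ?_ (or_congr ?_ (or_congr ?_ (or_congr ?_ (or_congr ?_ (or_congr ?_
    (or_congr ?_ (or_congr ?_ (or_congr ?_ (or_congr ?_ ?_)))))))))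
  · constructor
    · rintro ⟨i, ⟨h1, rfl⟩, h2⟩
      exact ⟨h1.symm, h2⟩
    · rintro ⟨h1, h2⟩
      exact ⟨_, ⟨h1.symm, rfl⟩, h2⟩
  · constructor
    · rintro ⟨i, ⟨h1, rfl⟩, h2⟩
      exact ⟨h1.symm, h2⟩
    · rintro ⟨h1, h2⟩
      exact ⟨_, ⟨h1.symm, rfl⟩, h2⟩
  · constructor
    · rintro ⟨i, j, k, ⟨h1, h3⟩, h2⟩
      exact ⟨h1.symm, i, j, k, h3.symm, h2⟩
    · rintro ⟨h1, i, j, k, h3, h2⟩
      exact ⟨i, j, k, ⟨h1.symm, h3.symm⟩, h2⟩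
  · constructor
    · rintro ⟨i, j, k, ⟨h1, h3⟩, h2⟩
      exact ⟨h1.symm, i, j, k, h3.symm, h2⟩
    · rintro ⟨h1, i, j, k, h3, h2⟩
      exact ⟨i, j, k, ⟨h1.symm, h3.symm⟩, h2⟩
  · constructor
    · rintro ⟨i, j, ⟨h1, h3⟩, h2⟩
      exact ⟨h1.symm, i, j, h3.symm, h2⟩
    · rintro ⟨h1, i, j, h3, h2⟩
      exact ⟨i, j, ⟨h1.symm, h3.symm⟩, h2⟩
  · constructor
    · rintro ⟨i, j, ⟨h1, h3⟩, h2⟩
      exact ⟨h1.symm, i, j, h3.symm, h2⟩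
    · rintro ⟨h1, i, j, h3, h2⟩
      exact ⟨i, j, ⟨h1.symm, h3.symm⟩, h2⟩
  · constructor
    · rintro ⟨i, j, ⟨h1, h3⟩, h2⟩
      exact ⟨h1.symm, i, j, h3.symm, h2⟩
    · rintro ⟨h1, i, j, h3, h2⟩
      exact ⟨i, j, ⟨h1.symm, h3.symm⟩, h2⟩
  · constructor
    · rintro ⟨i, ⟨h1, rfl⟩, h2⟩
      exact ⟨h1.symm, h2⟩
    · rintro ⟨h1, h2⟩
      exact ⟨_, ⟨h1.symm, rfl⟩, h2⟩
  · constructor
    · rintro ⟨h1, h2⟩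
      refine ⟨h1.symm, ?_⟩
      have h3 : ((0 : ℕ) : M) = (e : M) := by rw [Nat.cast_zero]; exact h2
      exact ((cast_inj_iff 0 e).1 h3).symm
    · rintro ⟨h1, rfl⟩
      exact ⟨h1.symm, by rw [Nat.cast_zero]⟩
  · constructor
    · rintro ⟨k, hk, θ, hθ, i, ⟨h1, rfl⟩, h2⟩
      exact ⟨k, hk, θ, hθ, h1.symm, h2⟩
    · rintro ⟨k, hk, θ, hθ, h1, h2⟩
      exact ⟨k, hk, θ, hθ, _, ⟨h1.symm, rfl⟩, h2⟩
  · constructor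
    · rintro ⟨k, hk, θ, hθ, i, ⟨h1, rfl⟩, h2⟩
      exact ⟨k, hk, θ, hθ, h1.symm, h2⟩
    · rintro ⟨k, hk, θ, hθ, h1, h2⟩
      exact ⟨k, hk, θ, hθ, _, ⟨h1.symm, rfl⟩, h2⟩

private theorem u1_lt {F : FL L'} {k : ℕ} {θ : Σ n : ℕ, (LA.sum L').BoundedFormula Empty n}
    (h : F[k]? = some θ) : k < F.length :=
  (List.getElem?_eq_some_iff.1 h).1

/-- the constraint with code `d` (standard) -/
theorem decode_con (F : FL L') (d : ℕ) : ∃ c : Con, ∀ (M : Type) [PAm M] [L'.Structure M] (b₁ b₂ u w₁ w₂ : M),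
    ConM F (d : M) b₁ b₂ u w₁ w₂ ↔
      c.holds F (fun j => bt b₁ b₂ (j : M)) (fun _ => u) (fun i => bt w₁ w₂ (i : M)) := by
  rcases u1_dec d with ⟨a, e, rfl⟩ | hd
  swap
  · refine ⟨Con.bad, fun M _ _ b₁ b₂ u w₁ w₂ => ?_⟩
    constructor
    · rintro (⟨i, h, -⟩ | ⟨i, h, -⟩ | ⟨i, j, k, h, -⟩ | ⟨i, j, k, h, -⟩ | ⟨i, j, h, -⟩ |
        ⟨i, j, h, -⟩ | ⟨i, j, h, -⟩ | ⟨i, h, -⟩ | h | ⟨k, -, θ, -, i, h, -⟩ |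
        ⟨k, -, θ, -, i, h, -⟩)
      all_goals exact absurd h (hd M _ _)
    · exact fun h => h.elim
  have key : ∀ c : Con, (∀ (M : Type) [PAm M] [L'.Structure M] (b₁ b₂ u w₁ w₂ : M),
      ((a = 0 ∧ bt w₁ w₂ (e : M) = 0) ∨
      (a = 1 ∧ bt w₁ w₂ (e : M) = 1) ∨
      (a = 2 ∧ ∃ i j k, (e : M) = pr i (pr j k) ∧ bt w₁ w₂ i + bt w₁ w₂ j = bt w₁ w₂ k) ∨
      (a = 3 ∧ ∃ i j k, (e : M) = pr i (pr j k) ∧ bt w₁ w₂ i * bt w₁ w₂ j = bt w₁ w₂ k) ∨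
      (a = 4 ∧ ∃ i j, (e : M) = pr i j ∧ bt w₁ w₂ i ≤ bt w₁ w₂ j) ∨
      (a = 5 ∧ ∃ i j, (e : M) = pr i j ∧ bt w₁ w₂ i < bt w₁ w₂ j) ∨
      (a = 6 ∧ ∃ i j, (e : M) = pr i j ∧ bt w₁ w₂ i = bt b₁ b₂ j) ∨
      (a = 7 ∧ bt w₁ w₂ (e : M) = u) ∨
      (a = 8 ∧ e = 0) ∨
      (∃ k, k < F.length ∧ ∃ θ, F[k]? = some θ ∧ a = 2 * k + 9 ∧ Sv θ.2 (bt w₁ w₂ (e : M))) ∨
      (∃ k, k < F.length ∧ ∃ θ, F[k]? = some θ ∧ a = 2 * k + 10 ∧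
        ¬ Sv θ.2 (bt w₁ w₂ (e : M)))) ↔
      c.holds F (fun j => bt b₁ b₂ (j : M)) (fun _ => u) (fun i => bt w₁ w₂ (i : M))) →
    ∃ c : Con, ∀ (M : Type) [PAm M] [L'.Structure M] (b₁ b₂ u w₁ w₂ : M),
      ConM F ((pr a e : ℕ) : M) b₁ b₂ u w₁ w₂ ↔
        c.holds F (fun j => bt b₁ b₂ (j : M)) (fun _ => u) (fun i => bt w₁ w₂ (i : M)) :=
    fun c hc => ⟨c, fun M _ _ b₁ b₂ u w₁ w₂ => (u1_con F a e M b₁ b₂ u w₁ w₂).trans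
      (hc M b₁ b₂ u w₁ w₂)⟩
  by_cases h0 : a = 0
  · apply key (Con.zero e)
    intro M _ _ b₁ b₂ u w₁ w₂
    show _ ↔ bt w₁ w₂ (e : M) = 0
    constructor
    · rintro (⟨-, h⟩ | ⟨h, -⟩ | ⟨h, -⟩ | ⟨h, -⟩ | ⟨h, -⟩ | ⟨h, -⟩ | ⟨h, -⟩ | ⟨h, -⟩ | ⟨h, -⟩ |
        ⟨k, -, θ, -, h, -⟩ | ⟨k, -, θ, -, h, -⟩)
      · exact h
      all_goals omega
    · exact fun h => Or.inl ⟨h0, h⟩
  by_cases h1 : a = 1
  · apply key (Con.one e)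
    intro M _ _ b₁ b₂ u w₁ w₂
    show _ ↔ bt w₁ w₂ (e : M) = 1
    constructor
    · rintro (⟨h, -⟩ | ⟨-, h⟩ | ⟨h, -⟩ | ⟨h, -⟩ | ⟨h, -⟩ | ⟨h, -⟩ | ⟨h, -⟩ | ⟨h, -⟩ | ⟨h, -⟩ |
        ⟨k, -, θ, -, h, -⟩ | ⟨k, -, θ, -, h, -⟩)
      · omega
      · exact h
      all_goals omega
    · exact fun h => Or.inr (Or.inl ⟨h1, h⟩)
  by_cases h7 : a = 7
  · apply key (Con.inp e 0)
    intro M _ _ b₁ b₂ u w₁ w₂
    show _ ↔ bt w₁ w₂ (e : M) = u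
    constructor
    · rintro (⟨h, -⟩ | ⟨h, -⟩ | ⟨h, -⟩ | ⟨h, -⟩ | ⟨h, -⟩ | ⟨h, -⟩ | ⟨h, -⟩ | ⟨-, h⟩ | ⟨h, -⟩ |
        ⟨k, -, θ, -, h, -⟩ | ⟨k, -, θ, -, h, -⟩)
      all_goals first | exact h | omega
    · exact fun h => Or.inr (Or.inr (Or.inr (Or.inr (Or.inr (Or.inr (Or.inr (Or.inl ⟨h7, h⟩)))))))
  by_cases h8 : a = 8 ∧ e = 0
  · apply key Con.triv
    intro M _ _ b₁ b₂ u w₁ w₂
    show _ ↔ True
    exact ⟨fun _ => trivial, fun _ => Or.inr (Or.inr (Or.inr (Or.inr (Or.inr (Or.inr (Or.inr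
      (Or.inr (Or.inl h8))))))))⟩
  by_cases h9 : ∃ k, a = 2 * k + 9
  · obtain ⟨k, hk⟩ := h9
    apply key (Con.tt k e)
    intro M _ _ b₁ b₂ u w₁ w₂
    show _ ↔ ∃ θ, F[k]? = some θ ∧ Sv θ.2 (bt w₁ w₂ (e : M))
    constructor
    · rintro (⟨h, -⟩ | ⟨h, -⟩ | ⟨h, -⟩ | ⟨h, -⟩ | ⟨h, -⟩ | ⟨h, -⟩ | ⟨h, -⟩ | ⟨h, -⟩ | ⟨h, -⟩ |
        ⟨k', -, θ, hθ, h, h'⟩ | ⟨k', -, θ, -, h, -⟩)
      · omega
      · omega
      · omega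
      · omega
      · omega
      · omega
      · omega
      · omega
      · omega
      · have h2 : k' = k := by omega
        subst h2
        exact ⟨θ, hθ, h'⟩
      · omega
    · rintro ⟨θ, hθ, h⟩
      exact Or.inr (Or.inr (Or.inr (Or.inr (Or.inr (Or.inr (Or.inr
        (Or.inr (Or.inr (Or.inl ⟨k, u1_lt hθ, θ, hθ, hk, h⟩)))))))))
  by_cases h10 : ∃ k, a = 2 * k + 10
  · obtain ⟨k, hk⟩ := h10
    apply key (Con.ff k e)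
    intro M _ _ b₁ b₂ u w₁ w₂
    show _ ↔ ∃ θ, F[k]? = some θ ∧ ¬ Sv θ.2 (bt w₁ w₂ (e : M))
    constructor
    · rintro (⟨h, -⟩ | ⟨h, -⟩ | ⟨h, -⟩ | ⟨h, -⟩ | ⟨h, -⟩ | ⟨h, -⟩ | ⟨h, -⟩ | ⟨h, -⟩ | ⟨h, -⟩ |
        ⟨k', -, θ, -, h, -⟩ | ⟨k', -, θ, hθ, h, h'⟩)
      · omega
      · omega
      · omega
      · omega
      · omega
      · omega
      · omega
      · omega
      · omega
      · omega
      · have h2 : k' = k := by omega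
        subst h2
        exact ⟨θ, hθ, h'⟩
    · rintro ⟨θ, hθ, h⟩
      exact Or.inr (Or.inr (Or.inr (Or.inr (Or.inr (Or.inr (Or.inr
        (Or.inr (Or.inr (Or.inr ⟨k, u1_lt hθ, θ, hθ, hk, h⟩)))))))))
  have hk9 : ∀ k, a ≠ 2 * k + 9 := fun k hk => h9 ⟨k, hk⟩
  have hk10 : ∀ k, a ≠ 2 * k + 10 := fun k hk => h10 ⟨k, hk⟩
  rcases u1_dec e with ⟨i, e', rfl⟩ | he
  swap
  · apply key Con.bad
    intro M _ _ b₁ b₂ u w₁ w₂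
    show _ ↔ False
    constructor
    · rintro (⟨h, -⟩ | ⟨h, -⟩ | ⟨-, i, j, k, h, -⟩ | ⟨-, i, j, k, h, -⟩ | ⟨-, i, j, h, -⟩ |
        ⟨-, i, j, h, -⟩ | ⟨-, i, j, h, -⟩ | ⟨h, -⟩ | h | ⟨k, -, θ, -, h, -⟩ | ⟨k, -, θ, -, h, -⟩)
      · exact h0 h
      · exact h1 h
      · exact he M _ _ h
      · exact he M _ _ h
      · exact he M _ _ h
      · exact he M _ _ h
      · exact he M _ _ h
      · exact h7 h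
      · exact h8 h
      · exact hk9 k h
      · exact hk10 k h
    · exact fun h => h.elim
  by_cases h4 : a = 4
  · apply key (Con.le i e')
    intro M _ _ b₁ b₂ u w₁ w₂
    show _ ↔ bt w₁ w₂ (i : M) ≤ bt w₁ w₂ (e' : M)
    simp only [u1_cast]
    constructor
    · rintro (⟨h, -⟩ | ⟨h, -⟩ | ⟨h, -⟩ | ⟨h, -⟩ | ⟨-, x, y, ⟨rfl, rfl⟩, h⟩ | ⟨h, -⟩ | ⟨h, -⟩ |
        ⟨h, -⟩ | ⟨h, -⟩ | ⟨k, -, θ, -, h, -⟩ | ⟨k, -, θ, -, h, -⟩)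
      all_goals first | exact h | omega
    · exact fun h => Or.inr (Or.inr (Or.inr (Or.inr (Or.inl ⟨h4, _, _, ⟨rfl, rfl⟩, h⟩))))
  by_cases h5 : a = 5
  · apply key (Con.lt i e')
    intro M _ _ b₁ b₂ u w₁ w₂
    show _ ↔ bt w₁ w₂ (i : M) < bt w₁ w₂ (e' : M)
    simp only [u1_cast]
    constructor
    · rintro (⟨h, -⟩ | ⟨h, -⟩ | ⟨h, -⟩ | ⟨h, -⟩ | ⟨h, -⟩ | ⟨-, x, y, ⟨rfl, rfl⟩, h⟩ | ⟨h, -⟩ |
        ⟨h, -⟩ | ⟨h, -⟩ | ⟨k, -, θ, -, h, -⟩ | ⟨k, -, θ, -, h, -⟩)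
      all_goals first | exact h | omega
    · exact fun h => Or.inr (Or.inr (Or.inr (Or.inr (Or.inr (Or.inl ⟨h5, _, _, ⟨rfl, rfl⟩, h⟩)))))
  by_cases h6 : a = 6
  · apply key (Con.par i e')
    intro M _ _ b₁ b₂ u w₁ w₂
    show _ ↔ bt w₁ w₂ (i : M) = bt b₁ b₂ (e' : M)
    simp only [u1_cast]
    constructor
    · rintro (⟨h, -⟩ | ⟨h, -⟩ | ⟨h, -⟩ | ⟨h, -⟩ | ⟨h, -⟩ | ⟨h, -⟩ | ⟨-, x, y, ⟨rfl, rfl⟩, h⟩ |
        ⟨h, -⟩ | ⟨h, -⟩ | ⟨k, -, θ, -, h, -⟩ | ⟨k, -, θ, -, h, -⟩)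
      all_goals first | exact h | omega
    · exact fun h => Or.inr (Or.inr (Or.inr (Or.inr (Or.inr (Or.inr (Or.inl
        ⟨h6, _, _, ⟨rfl, rfl⟩, h⟩))))))
  have hbad : ¬ (a = 2 ∨ a = 3) ∨ (∀ (M : Type) [PAm M] (x y : M), (e' : M) ≠ pr x y) →
      ∃ c : Con, ∀ (M : Type) [PAm M] [L'.Structure M] (b₁ b₂ u w₁ w₂ : M),
      ConM F ((pr a (pr i e') : ℕ) : M) b₁ b₂ u w₁ w₂ ↔
        c.holds F (fun j => bt b₁ b₂ (j : M)) (fun _ => u) (fun i => bt w₁ w₂ (i : M)) := by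
    intro hb
    apply key Con.bad
    intro M _ _ b₁ b₂ u w₁ w₂
    show _ ↔ False
    simp only [u1_cast]
    constructor
    · rintro (⟨h, -⟩ | ⟨h, -⟩ | ⟨h, i, j, k, ⟨-, h'⟩, -⟩ | ⟨h, i, j, k, ⟨-, h'⟩, -⟩ | ⟨h, -⟩ |
        ⟨h, -⟩ | ⟨h, -⟩ | ⟨h, -⟩ | h | ⟨k, -, θ, -, h, -⟩ | ⟨k, -, θ, -, h, -⟩)
      · exact h0 h
      · exact h1 h
      · rcases hb with hb | hb
        · exact hb (Or.inl h)
        · exact hb M _ _ h'.symm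
      · rcases hb with hb | hb
        · exact hb (Or.inr h)
        · exact hb M _ _ h'.symm
      · exact h4 h
      · exact h5 h
      · exact h6 h
      · exact h7 h
      · exact h8 h
      · exact hk9 k h
      · exact hk10 k h
    · exact fun h => h.elim
  by_cases h23 : a = 2 ∨ a = 3
  swap
  · exact hbad (Or.inl h23)
  rcases u1_dec e' with ⟨j, k, rfl⟩ | he'
  swap
  · exact hbad (Or.inr he')
  rcases h23 with h2 | h3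
  · apply key (Con.add i j k)
    intro M _ _ b₁ b₂ u w₁ w₂
    show _ ↔ bt w₁ w₂ (i : M) + bt w₁ w₂ (j : M) = bt w₁ w₂ (k : M)
    constructor
    · rintro (⟨h, -⟩ | ⟨h, -⟩ | ⟨-, x, y, z, h', h⟩ | ⟨h, -⟩ | ⟨h, -⟩ | ⟨h, -⟩ | ⟨h, -⟩ |
        ⟨h, -⟩ | ⟨h, -⟩ | ⟨k, -, θ, -, h, -⟩ | ⟨k, -, θ, -, h, -⟩)
      · omega
      · omega
      · obtain ⟨rfl, h''⟩ := (u1_cast _ _ _ _).1 h'
        obtain ⟨rfl, rfl⟩ := (u1_cast _ _ _ _).1 h''.symm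
        exact h
      all_goals omega
    · intro h
      refine Or.inr (Or.inr (Or.inl ⟨h2, _, _, _, ?_, h⟩))
      rw [pr_cast, pr_cast]
  · apply key (Con.mul i j k)
    intro M _ _ b₁ b₂ u w₁ w₂
    show _ ↔ bt w₁ w₂ (i : M) * bt w₁ w₂ (j : M) = bt w₁ w₂ (k : M)
    constructor
    · rintro (⟨h, -⟩ | ⟨h, -⟩ | ⟨h, -⟩ | ⟨-, x, y, z, h', h⟩ | ⟨h, -⟩ | ⟨h, -⟩ | ⟨h, -⟩ |
        ⟨h, -⟩ | ⟨h, -⟩ | ⟨k, -, θ, -, h, -⟩ | ⟨k, -, θ, -, h, -⟩)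
      · omega
      · omega
      · omega
      · obtain ⟨rfl, h''⟩ := (u1_cast _ _ _ _).1 h'
        obtain ⟨rfl, rfl⟩ := (u1_cast _ _ _ _).1 h''.symm
        exact h
      all_goals omega
    · intro h
      refine Or.inr (Or.inr (Or.inr (Or.inl ⟨h3, _, _, _, ?_, h⟩)))
      rw [pr_cast, pr_cast]

end TruthCF
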