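import Pool.Agent.Work.MP_cfede9_lc.UniD
import Pool.Agent.Work.MP_cfede9_lc.Ar1
import Pool.Agent.Work.MP_cfede9_lc.Ar2

set_option autoImplicit false
set_option linter.all false

/-!
# MP_cfede9_lc, module Uni2: the universal formula for existentially definable sets

`g` codes `m`, `c₁`, `c₂`: the program number `k < m` consists of the constraints coded by the `m` numbers
`bt c₁ c₂ (pr k l)`, `l < m`. Registers: `i ↦ bt w₁ w₂ i`, parameters: `j ↦ bt b₁ b₂ j`, input: `u`.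
-/

open FirstOrder

namespace TruthCF

variable {L' : FirstOrder.Language.{0, 0}}

private def u2code : Con → ℕ
  | Con.zero i => pr 0 i
  | Con.one i => pr 1 i
  | Con.add i j k => pr 2 (pr i (pr j k))
  | Con.mul i j k => pr 3 (pr i (pr j k))
  | Con.le i j => pr 4 (pr i j)
  | Con.lt i j => pr 5 (pr i j)
  | Con.par i j => pr 6 (pr i j)
  | Con.inp i _ => pr 7 i
  | Con.triv => pr 8 0
  | Con.tt k i => pr (2 * k + 9) i
  | Con.ff k i => pr (2 * k + 10) i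
  | Con.bad => pr 8 1

private theorem u2_pr {M : Type} [PAm M] (a b : ℕ) : ((pr a b : ℕ) : M) = pr (a : M) (b : M) :=
  (pr_cast a b).symm

private theorem u2_iff {M : Type} [PAm M] {a b c d : M} : pr a b = pr c d ↔ a = c ∧ b = d :=
  ⟨pr_inj, fun h => by rw [h.1, h.2]⟩

private theorem u2_ex {M : Type} [PAm M] (a b : ℕ) (x t : M) (ht : t = (b : M)) (P : M → Prop) :
    (∃ i, pr (a : M) x = pr t i ∧ P i) ↔ a = b ∧ P x := by
  subst ht
  constructor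
  · rintro ⟨i, h, hp⟩
    obtain ⟨h1, h2⟩ := u2_iff.mp h
    subst h2
    exact ⟨(cast_inj_iff a b).mp h1, hp⟩
  · rintro ⟨h, hp⟩
    subst h
    exact ⟨x, rfl, hp⟩

private theorem u2_ex2 {M : Type} [PAm M] (a b : ℕ) (x t : M) (ht : t = (b : M))
    (P : M → M → Prop) :
    (∃ i j, pr (a : M) x = pr t (pr i j) ∧ P i j) ↔ a = b ∧ ∃ i j, x = pr i j ∧ P i j := by
  subst ht
  constructor
  · rintro ⟨i, j, h, hp⟩
    obtain ⟨h1, h2⟩ := u2_iff.mp h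
    exact ⟨(cast_inj_iff a b).mp h1, i, j, h2, hp⟩
  · rintro ⟨h, i, j, h2, hp⟩
    subst h
    exact ⟨i, j, by rw [h2], hp⟩

private theorem u2_ex3 {M : Type} [PAm M] (a b : ℕ) (x t : M) (ht : t = (b : M))
    (P : M → M → M → Prop) :
    (∃ i j k, pr (a : M) x = pr t (pr i (pr j k)) ∧ P i j k) ↔
      a = b ∧ ∃ i j k, x = pr i (pr j k) ∧ P i j k := by
  subst ht
  constructor
  · rintro ⟨i, j, k, h, hp⟩
    obtain ⟨h1, h2⟩ := u2_iff.mp h
    exact ⟨(cast_inj_iff a b).mp h1, i, j, k, h2, hp⟩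
  · rintro ⟨h, i, j, k, h2, hp⟩
    subst h
    exact ⟨i, j, k, by rw [h2], hp⟩

private theorem u2_main (F : FL L') {M : Type} [PAm M] [L'.Structure M] (a : ℕ)
    (x b₁ b₂ u w₁ w₂ : M) : ConM F (pr (a : M) x) b₁ b₂ u w₁ w₂ ↔
    (a = 0 ∧ bt w₁ w₂ x = 0) ∨ (a = 1 ∧ bt w₁ w₂ x = 1) ∨
    (a = 2 ∧ ∃ i j k, x = pr i (pr j k) ∧ bt w₁ w₂ i + bt w₁ w₂ j = bt w₁ w₂ k) ∨
    (a = 3 ∧ ∃ i j k, x = pr i (pr j k) ∧ bt w₁ w₂ i * bt w₁ w₂ j = bt w₁ w₂ k) ∨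
    (a = 4 ∧ ∃ i j, x = pr i j ∧ bt w₁ w₂ i ≤ bt w₁ w₂ j) ∨
    (a = 5 ∧ ∃ i j, x = pr i j ∧ bt w₁ w₂ i < bt w₁ w₂ j) ∨
    (a = 6 ∧ ∃ i j, x = pr i j ∧ bt w₁ w₂ i = bt b₁ b₂ j) ∨
    (a = 7 ∧ bt w₁ w₂ x = u) ∨
    (a = 8 ∧ x = 0) ∨
    (∃ k, k < F.length ∧ ∃ θ, F[k]? = some θ ∧ a = 2 * k + 9 ∧ Sv θ.2 (bt w₁ w₂ x)) ∨
    (∃ k, k < F.length ∧ ∃ θ, F[k]? = some θ ∧ a = 2 * k + 10 ∧ ¬ Sv θ.2 (bt w₁ w₂ x)) := by
  unfold ConM
  refine or_congr ?_ (or_congr ?_ (or_congr ?_ (or_congr ?_ (or_congr ?_ (or_congr ?_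
    (or_congr ?_ (or_congr ?_ (or_congr ?_ (or_congr ?_ ?_)))))))))
  · exact u2_ex a 0 x 0 Nat.cast_zero.symm (fun i => bt w₁ w₂ i = 0)
  · exact u2_ex a 1 x 1 Nat.cast_one.symm (fun i => bt w₁ w₂ i = 1)
  · exact u2_ex3 a 2 x _ rfl (fun i j k => bt w₁ w₂ i + bt w₁ w₂ j = bt w₁ w₂ k)
  · exact u2_ex3 a 3 x _ rfl (fun i j k => bt w₁ w₂ i * bt w₁ w₂ j = bt w₁ w₂ k)
  · exact u2_ex2 a 4 x _ rfl (fun i j => bt w₁ w₂ i ≤ bt w₁ w₂ j)
  · exact u2_ex2 a 5 x _ rfl (fun i j => bt w₁ w₂ i < bt w₁ w₂ j)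
  · exact u2_ex2 a 6 x _ rfl (fun i j => bt w₁ w₂ i = bt b₁ b₂ j)
  · exact u2_ex a 7 x _ rfl (fun i => bt w₁ w₂ i = u)
  · rw [u2_iff, cast_inj_iff]
  · refine exists_congr fun k => and_congr_right fun _ => exists_congr fun θ =>
      and_congr_right fun _ => ?_
    exact u2_ex a (2 * k + 9) x _ rfl (fun i => Sv θ.2 (bt w₁ w₂ i))
  · refine exists_congr fun k => and_congr_right fun _ => exists_congr fun θ =>
      and_congr_right fun _ => ?_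
    exact u2_ex a (2 * k + 10) x _ rfl (fun i => ¬ Sv θ.2 (bt w₁ w₂ i))

private theorem u2_kill {P : ℕ → Prop} {m : ℕ} {a c : ℕ} (hne : ∀ k, a ≠ 2 * k + c)
    {F : FL L'} {Q : ℕ → (Σ n : ℕ, (LA.sum L').BoundedFormula Empty n) → Prop} :
    ¬ ∃ k, k < F.length ∧ ∃ θ, F[k]? = some θ ∧ a = 2 * k + c ∧ Q k θ := by
  rintro ⟨k, _, θ, _, h, _⟩
  exact hne k h

/-- every constraint has a code -/
theorem encode_con (F : FL L') (c : Con) : ∃ d : ℕ, ∀ (M : Type) [PAm M] [L'.Structure M] (b₁ b₂ u w₁ w₂ : M),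
    ConM F (d : M) b₁ b₂ u w₁ w₂ ↔
      c.holds F (fun j => bt b₁ b₂ (j : M)) (fun _ => u) (fun i => bt w₁ w₂ (i : M)) := by
  refine ⟨u2code c, fun M _ _ b₁ b₂ u w₁ w₂ => ?_⟩
  have kill : ∀ (a c : ℕ) (Q : ℕ → (Σ n : ℕ, (LA.sum L').BoundedFormula Empty n) → Prop),
      a < c → ((∃ k, k < F.length ∧ ∃ θ, F[k]? = some θ ∧ a = 2 * k + c ∧ Q k θ) ↔ False) := by
    intro a c Q hac
    refine iff_false_intro ?_
    rintro ⟨k, _, θ, _, h, _⟩
    omega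
  cases c with
  | zero i =>
    show ConM F ((pr 0 i : ℕ) : M) b₁ b₂ u w₁ w₂ ↔ bt w₁ w₂ (i : M) = 0
    rw [u2_pr, u2_main, kill _ _ _ (by norm_num), kill _ _ _ (by norm_num)]
    simp
  | one i =>
    show ConM F ((pr 1 i : ℕ) : M) b₁ b₂ u w₁ w₂ ↔ bt w₁ w₂ (i : M) = 1
    rw [u2_pr, u2_main, kill _ _ _ (by norm_num), kill _ _ _ (by norm_num)]
    simp
  | add i j k =>
    show ConM F ((pr 2 (pr i (pr j k)) : ℕ) : M) b₁ b₂ u w₁ w₂ ↔
      bt w₁ w₂ (i : M) + bt w₁ w₂ (j : M) = bt w₁ w₂ (k : M)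
    rw [u2_pr, u2_main, kill _ _ _ (by norm_num), kill _ _ _ (by norm_num), u2_pr, u2_pr]
    simp only [u2_iff]
    constructor
    · rintro (h | h | ⟨_, i', j', k', ⟨rfl, rfl, rfl⟩, h⟩ | h | h | h | h | h | h | h | h)
      · omega
      · omega
      · exact h
      all_goals first | omega | exact h.elim
    · intro h
      exact Or.inr (Or.inr (Or.inl ⟨trivial, _, _, _, ⟨rfl, rfl, rfl⟩, h⟩))
  | mul i j k =>
    show ConM F ((pr 3 (pr i (pr j k)) : ℕ) : M) b₁ b₂ u w₁ w₂ ↔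
      bt w₁ w₂ (i : M) * bt w₁ w₂ (j : M) = bt w₁ w₂ (k : M)
    rw [u2_pr, u2_main, kill _ _ _ (by norm_num), kill _ _ _ (by norm_num), u2_pr, u2_pr]
    simp only [u2_iff]
    constructor
    · rintro (h | h | h | ⟨_, i', j', k', ⟨rfl, rfl, rfl⟩, h⟩ | h | h | h | h | h | h | h)
      · omega
      · omega
      · omega
      · exact h
      all_goals first | omega | exact h.elim
    · intro h
      exact Or.inr (Or.inr (Or.inr (Or.inl ⟨trivial, _, _, _, ⟨rfl, rfl, rfl⟩, h⟩)))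
  | le i j =>
    show ConM F ((pr 4 (pr i j) : ℕ) : M) b₁ b₂ u w₁ w₂ ↔
      bt w₁ w₂ (i : M) ≤ bt w₁ w₂ (j : M)
    rw [u2_pr, u2_main, kill _ _ _ (by norm_num), kill _ _ _ (by norm_num), u2_pr]
    simp only [u2_iff]
    constructor
    · rintro (h | h | h | h | ⟨_, i', j', ⟨rfl, rfl⟩, h⟩ | h | h | h | h | h | h)
      · omega
      · omega
      · omega
      · omega
      · exact h
      all_goals first | omega | exact h.elim
    · intro h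
      exact Or.inr (Or.inr (Or.inr (Or.inr (Or.inl ⟨trivial, _, _, ⟨rfl, rfl⟩, h⟩))))
  | lt i j =>
    show ConM F ((pr 5 (pr i j) : ℕ) : M) b₁ b₂ u w₁ w₂ ↔
      bt w₁ w₂ (i : M) < bt w₁ w₂ (j : M)
    rw [u2_pr, u2_main, kill _ _ _ (by norm_num), kill _ _ _ (by norm_num), u2_pr]
    simp only [u2_iff]
    constructor
    · rintro (h | h | h | h | h | ⟨_, i', j', ⟨rfl, rfl⟩, h⟩ | h | h | h | h | h)
      · omega
      · omega
      · omega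
      · omega
      · omega
      · exact h
      all_goals first | omega | exact h.elim
    · intro h
      exact Or.inr (Or.inr (Or.inr (Or.inr (Or.inr (Or.inl ⟨trivial, _, _, ⟨rfl, rfl⟩, h⟩)))))
  | par i j =>
    show ConM F ((pr 6 (pr i j) : ℕ) : M) b₁ b₂ u w₁ w₂ ↔
      bt w₁ w₂ (i : M) = bt b₁ b₂ (j : M)
    rw [u2_pr, u2_main, kill _ _ _ (by norm_num), kill _ _ _ (by norm_num), u2_pr]
    simp only [u2_iff]
    constructor
    · rintro (h | h | h | h | h | h | ⟨_, i', j', ⟨rfl, rfl⟩, h⟩ | h | h | h | h)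
      · omega
      · omega
      · omega
      · omega
      · omega
      · omega
      · exact h
      all_goals first | omega | exact h.elim
    · intro h
      exact Or.inr (Or.inr (Or.inr (Or.inr (Or.inr (Or.inr (Or.inl ⟨trivial, _, _, ⟨rfl, rfl⟩, h⟩))))))
  | inp i j =>
    show ConM F ((pr 7 i : ℕ) : M) b₁ b₂ u w₁ w₂ ↔ bt w₁ w₂ (i : M) = u
    rw [u2_pr, u2_main, kill _ _ _ (by norm_num), kill _ _ _ (by norm_num)]
    simp
  | tt k i =>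
    show ConM F ((pr (2 * k + 9) i : ℕ) : M) b₁ b₂ u w₁ w₂ ↔
      ∃ θ, F[k]? = some θ ∧ Sv θ.2 (bt w₁ w₂ (i : M))
    rw [u2_pr, u2_main]
    constructor
    · rintro (h | h | h | h | h | h | h | h | h | ⟨k', hk, θ, hθ, h, hS⟩ | ⟨k', hk, θ, hθ, h, hS⟩)
      all_goals first | omega | skip
      have : k = k' := by omega
      subst this
      exact ⟨θ, hθ, hS⟩
    · rintro ⟨θ, hθ, hS⟩
      have hk : k < F.length := (List.getElem?_eq_some_iff.mp hθ).1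
      exact Or.inr (Or.inr (Or.inr (Or.inr (Or.inr (Or.inr (Or.inr (Or.inr (Or.inr (Or.inl
        ⟨k, hk, θ, hθ, rfl, hS⟩)))))))))
  | ff k i =>
    show ConM F ((pr (2 * k + 10) i : ℕ) : M) b₁ b₂ u w₁ w₂ ↔
      ∃ θ, F[k]? = some θ ∧ ¬ Sv θ.2 (bt w₁ w₂ (i : M))
    rw [u2_pr, u2_main]
    constructor
    · rintro (h | h | h | h | h | h | h | h | h | ⟨k', hk, θ, hθ, h, hS⟩ | ⟨k', hk, θ, hθ, h, hS⟩)
      all_goals first | omega | skip
      have : k = k' := by omega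
      subst this
      exact ⟨θ, hθ, hS⟩
    · rintro ⟨θ, hθ, hS⟩
      have hk : k < F.length := (List.getElem?_eq_some_iff.mp hθ).1
      exact Or.inr (Or.inr (Or.inr (Or.inr (Or.inr (Or.inr (Or.inr (Or.inr (Or.inr (Or.inr
        ⟨k, hk, θ, hθ, rfl, hS⟩)))))))))
  | triv =>
    show ConM F ((pr 8 0 : ℕ) : M) b₁ b₂ u w₁ w₂ ↔ True
    rw [u2_pr, u2_main, kill _ _ _ (by norm_num), kill _ _ _ (by norm_num)]
    simp
  | bad =>
    show ConM F ((pr 8 1 : ℕ) : M) b₁ b₂ u w₁ w₂ ↔ False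
    rw [u2_pr, u2_main, kill _ _ _ (by norm_num), kill _ _ _ (by norm_num)]
    simp

end TruthCF
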