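import Pool.Agent.Work.MP_cfede9_lc.Uni1
import Pool.Agent.Work.MP_cfede9_lc.Uni3

set_option autoImplicit false
set_option linter.all false

/-!
# MP_cfede9_lc, module Uni4: the universal formula for existentially definable sets

`g` codes `m`, `c₁`, `c₂`: the program number `k < m` consists of the constraints coded by the `m` numbers
`bt c₁ c₂ (pr k l)`, `l < m`. Registers: `i ↦ bt w₁ w₂ i`, parameters: `j ↦ bt b₁ b₂ j`, input: `u`.
-/

open FirstOrder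

namespace TruthCF

variable {L' : FirstOrder.Language.{0, 0}}

private theorem Uni4_std (F : FL L') (m c₁ c₂ : ℕ) (M : Type) [PAm M] [L'.Structure M]
    (b₁ b₂ u : M) :
    HH F ((pr m (pr c₁ c₂) : ℕ) : M) b₁ b₂ u ↔ ∃ k, k < m ∧ ∃ w₁ w₂ : M, ∀ l, l < m →
      ConM F ((bt c₁ c₂ (pr k l) : ℕ) : M) b₁ b₂ u w₁ w₂ := by
  have hc : ((pr m (pr c₁ c₂) : ℕ) : M) = pr (m : M) (pr (c₁ : M) (c₂ : M)) := by
    rw [pr_cast, pr_cast]
  have hb : ∀ k l : ℕ, bt (c₁ : M) (c₂ : M) (pr (k : M) (l : M)) =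
      ((bt c₁ c₂ (pr k l) : ℕ) : M) := by
    intro k l
    rw [pr_cast, bt_cast]
  constructor
  · rintro ⟨m', c₁', c₂', he, k', hk', w₁, w₂, h⟩
    rw [hc] at he
    obtain ⟨h1, h2⟩ := pr_inj he
    obtain ⟨h3, h4⟩ := pr_inj h2
    subst h1 h3 h4
    obtain ⟨k, hk, rfl⟩ := std_of_lt hk'
    refine ⟨k, hk, w₁, w₂, fun l hl => ?_⟩
    have h5 := h (l : M) (Nat.cast_lt.2 hl)
    rwa [hb] at h5
  · rintro ⟨k, hk, w₁, w₂, h⟩
    refine ⟨(m : M), (c₁ : M), (c₂ : M), hc, (k : M), Nat.cast_lt.2 hk, w₁, w₂, fun l' hl' => ?_⟩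
    obtain ⟨l, hl, rfl⟩ := std_of_lt hl'
    rw [hb]
    exact h l hl

/-- standard codes are lists of programs -/
theorem HH_decode (F : FL L') (g : ℕ) : ∃ D : List (List Con), ∀ (M : Type) [PAm M] [L'.Structure M] (b₁ b₂ u : M),
    HH F (g : M) b₁ b₂ u ↔ Sat F (fun j => bt b₁ b₂ (j : M)) (fun _ => u) D := by
  by_cases hg : ∃ m c₁ c₂ : ℕ, g = pr m (pr c₁ c₂)
  · obtain ⟨m, c₁, c₂, rfl⟩ := hg
    choose dec hdec using decode_con F
    refine ⟨(List.range m).map (fun k => (List.range m).map (fun l => dec (bt c₁ c₂ (pr k l)))),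
      fun M _ _ b₁ b₂ u => ?_⟩
    rw [Uni4_std]
    constructor
    · rintro ⟨k, hk, w₁, w₂, h⟩
      refine ⟨_, List.mem_map.2 ⟨k, List.mem_range.2 hk, rfl⟩, ?_⟩
      rw [sat1_code]
      refine ⟨w₁, w₂, fun c hc => ?_⟩
      obtain ⟨l, hl, rfl⟩ := List.mem_map.1 hc
      exact (hdec _ M b₁ b₂ u w₁ w₂).1 (h l (List.mem_range.1 hl))
    · rintro ⟨p, hp, h⟩
      obtain ⟨k, hk, rfl⟩ := List.mem_map.1 hp
      rw [sat1_code] at h
      obtain ⟨w₁, w₂, h⟩ := h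
      refine ⟨k, List.mem_range.1 hk, w₁, w₂, fun l hl => ?_⟩
      exact (hdec _ M b₁ b₂ u w₁ w₂).2 (h _ (List.mem_map.2 ⟨l, List.mem_range.2 hl, rfl⟩))
  · refine ⟨[], fun M _ _ b₁ b₂ u => ?_⟩
    constructor
    · rintro ⟨m', c₁', c₂', he, -⟩
      exfalso
      apply hg
      have h1 : m' ≤ (g : M) := by rw [he]; exact le_pr_left _ _
      have h2 : pr c₁' c₂' ≤ (g : M) := by rw [he]; exact le_pr_right _ _
      obtain ⟨m, -, rfl⟩ := std_of_le h1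
      obtain ⟨c₁, -, rfl⟩ := std_of_le ((le_pr_left _ _).trans h2)
      obtain ⟨c₂, -, rfl⟩ := std_of_le ((le_pr_right _ _).trans h2)
      refine ⟨m, c₁, c₂, ?_⟩
      rw [pr_cast, pr_cast] at he
      exact Nat.cast_injective he
    · rintro ⟨p, hp, -⟩
      exact absurd hp List.not_mem_nil

end TruthCF
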